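import Mathlib

set_option autoImplicit false

namespace Pool.Agent.Helper331

/-- counting homomorphisms to a group of order two. -/
theorem card_hom_eq {G : Type*} [Group G] (l0 l1 l2 : G)
    (upper : ∀ α : G →* ℤˣ, α l0 = 1 → α l1 = 1 → α l2 = 1 → α = 1)
    (α0 α1 α2 : G →* ℤˣ)
    (h00 : α0 l0 = -1) (h01 : α0 l1 = 1) (h02 : α0 l2 = 1)
    (h10 : α1 l0 = -1) (h11 : α1 l1 = -1) (h12 : α1 l2 = 1)
    (h20 : α2 l0 = -1) (h21 : α2 l1 = 1) (h22 : α2 l2 = -1) :
    Nat.card (G →* Multiplicative (ZMod 2)) = 2 ^ 3 := by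
  have e1 : ℤˣ ≃* Multiplicative (ZMod 2) := by
    haveI : Fact (Nat.Prime 2) := ⟨Nat.prime_two⟩
    apply mulEquivOfPrimeCardEq (p := 2)
    · simp
    · simp
  have e2 : (G →* ℤˣ) ≃ (G →* Multiplicative (ZMod 2)) :=
    { toFun := fun α => e1.toMonoidHom.comp α
      invFun := fun α => e1.symm.toMonoidHom.comp α
      left_inv := fun α => by ext g; simp
      right_inv := fun α => by ext g; simp }
  rw [← Nat.card_congr e2]
  let ev : (G →* ℤˣ) → (ℤˣ × ℤˣ × ℤˣ) := fun α => (α l0, α l1, α l2)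
  have hinj : Function.Injective ev := by
    intro α β h
    have a0 : α l0 = β l0 := congrArg (fun x => x.1) h
    have a1 : α l1 = β l1 := congrArg (fun x => x.2.1) h
    have a2 : α l2 = β l2 := congrArg (fun x => x.2.2) h
    have := upper (α * β⁻¹) (by simp [a0]) (by simp [a1]) (by simp [a2])
    rwa [mul_inv_eq_one] at this
  have hsurj : Function.Surjective ev := by
    rintro ⟨a, b, c⟩
    rcases Int.units_eq_one_or a with rfl | rfl <;> rcases Int.units_eq_one_or b with rfl | rfl <;>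
      rcases Int.units_eq_one_or c with rfl | rfl
    · exact ⟨1, by simp [ev]⟩
    · exact ⟨α0 * α2, by simp [ev, *]⟩
    · exact ⟨α0 * α1, by simp [ev, *]⟩
    · exact ⟨α1 * α2, by simp [ev, *]⟩
    · exact ⟨α0, by simp [ev, *]⟩
    · exact ⟨α2, by simp [ev, *]⟩
    · exact ⟨α1, by simp [ev, *]⟩
    · exact ⟨α0 * α1 * α2, by simp [ev, *]⟩
  rw [Nat.card_congr (Equiv.ofBijective ev ⟨hinj, hsurj⟩)]
  simp [Nat.card_prod]

end Pool.Agent.Helper331
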