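import Mathlib

set_option autoImplicit false

open Set Filter Topology unitInterval

namespace Pool.Agent.Helper331

variable {X V : Type*} [TopologicalSpace X] [NormedAddCommGroup V] [NormedSpace ℝ V]

/-- `E` is a relation whose fibres are pairs `{v, -v}`, `v ≠ 0`, depending continuously on the
base point. -/
def DoubleRel (E : Set (X × V)) : Prop :=
  ∀ x : X, ∃ W : Set X, IsOpen W ∧ x ∈ W ∧ ∃ g : X → V, ContinuousOn g W ∧
    ∀ y ∈ W, g y ≠ 0 ∧ ∀ v : V, (y, v) ∈ E ↔ (v = g y ∨ v = -g y)

theorem neg_ne_self' {v : V} (hv : v ≠ 0) : v ≠ -v := by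
  intro h
  apply hv
  have h2 : (2:ℝ) • v = 0 := by rw [two_smul]; nth_rewrite 2 [h]; simp
  exact (smul_eq_zero.1 h2).resolve_left (by norm_num)

/-- the projection of a double relation is a covering map -/
theorem DoubleRel.isCoveringMap {E : Set (X × V)} (hE : DoubleRel E) :
    IsCoveringMap (fun e : E => e.1.1) := by
  intro x
  obtain ⟨W, hW, hxW, g, hg, hEW⟩ := hE x
  have hp : Continuous (fun e : E => e.1.1) := continuous_fst.comp continuous_subtype_val
  have key : IsEvenlyCovered (fun e : E => e.1.1) x ℤˣ := by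
    refine ⟨inferInstance, W, hxW, hW, hW.preimage hp, ?_⟩
    classical
    have hmem : ∀ (y : X) (hy : y ∈ W) (u : ℤˣ), (y, ((u : ℤ) : ℝ) • g y) ∈ E := by
      intro y hy u
      rw [(hEW y hy).2]
      rcases Int.units_eq_one_or u with rfl | rfl
      · left; simp
      · right; simp
    let s : (fun e : E => e.1.1) ⁻¹' W → ℤˣ := fun e => if e.1.1.2 = g e.1.1.1 then 1 else -1
    have hs : ∀ e : (fun e : E => e.1.1) ⁻¹' W, (((s e : ℤˣ) : ℤ) : ℝ) • g e.1.1.1 = e.1.1.2 := by
      intro e
      have h1 := ((hEW e.1.1.1 e.2).2 e.1.1.2).1 e.1.2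
      by_cases h : e.1.1.2 = g e.1.1.1
      · simp only [s, if_pos h]; simp [h]
      · have h2 := h1.resolve_left h
        simp only [s, if_neg h]
        rw [h2]; simp
    have hcont1 : Continuous (fun e : (fun e : E => e.1.1) ⁻¹' W => e.1.1.2) := by fun_prop
    have hcont2 : Continuous (fun e : (fun e : E => e.1.1) ⁻¹' W => g e.1.1.1) :=
      hg.comp_continuous (by fun_prop) (fun e => e.2)
    have hsc : Continuous s := by
      have hclosed1 : IsClosed {e : (fun e : E => e.1.1) ⁻¹' W | e.1.1.2 = g e.1.1.1} :=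
        isClosed_eq hcont1 hcont2
      have hclosed2 : IsClosed {e : (fun e : E => e.1.1) ⁻¹' W | e.1.1.2 = -g e.1.1.1} :=
        isClosed_eq hcont1 hcont2.neg
      have hcompl : {e : (fun e : E => e.1.1) ⁻¹' W | e.1.1.2 = g e.1.1.1}ᶜ
          = {e : (fun e : E => e.1.1) ⁻¹' W | e.1.1.2 = -g e.1.1.1} := by
        ext e
        have h1 := ((hEW e.1.1.1 e.2).2 e.1.1.2).1 e.1.2
        have h0 := (hEW e.1.1.1 e.2).1
        constructor
        · intro h
          exact h1.resolve_left h
        · intro h h'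
          have h5 : e.1.1.2 = -g e.1.1.1 := h
          have h6 : e.1.1.2 = g e.1.1.1 := h'
          exact neg_ne_self' h0 (h6.symm.trans h5)
      have hopen1 : IsOpen {e : (fun e : E => e.1.1) ⁻¹' W | e.1.1.2 = g e.1.1.1} := by
        rw [← isClosed_compl_iff, hcompl]; exact hclosed2
      apply IsLocallyConstant.continuous
      rw [IsLocallyConstant.iff_exists_open]
      intro e
      by_cases h : e.1.1.2 = g e.1.1.1
      · refine ⟨_, hopen1, h, fun e' he' => ?_⟩
        have he'' : e'.1.1.2 = g e'.1.1.1 := he'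
        simp only [s, if_pos h, if_pos he'']
      · refine ⟨_, hclosed1.isOpen_compl, h, fun e' he' => ?_⟩
        have he'' : ¬ e'.1.1.2 = g e'.1.1.1 := he'
        simp only [s, if_neg h, if_neg he'']
    refine ⟨{ toFun := fun e => (⟨e.1.1.1, e.2⟩, s e)
              invFun := fun q => ⟨⟨(q.1.1, (((q.2 : ℤˣ) : ℤ) : ℝ) • g q.1.1), hmem _ q.1.2 _⟩, q.1.2⟩
              left_inv := ?_
              right_inv := ?_
              continuous_toFun := ?_
              continuous_invFun := ?_ }, fun e => rfl⟩
    · intro e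
      apply Subtype.ext
      apply Subtype.ext
      exact Prod.ext rfl (hs e)
    · rintro ⟨⟨y, hy⟩, u⟩
      refine Prod.ext rfl ?_
      have h0 := (hEW y hy).1
      change (if (((u : ℤˣ) : ℤ) : ℝ) • g y = g y then (1 : ℤˣ) else -1) = u
      rcases Int.units_eq_one_or u with rfl | rfl
      · simp
      · rw [if_neg]
        intro h
        apply neg_ne_self' h0
        simp at h
        exact h.symm
    · exact (Continuous.subtype_mk (by fun_prop) _).prodMk hsc
    · refine Continuous.subtype_mk (Continuous.subtype_mk ?_ _) _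
      refine Continuous.prodMk (by fun_prop) ?_
      have h1 : Continuous (fun q : W × ℤˣ => (((q.2 : ℤˣ) : ℤ) : ℝ)) :=
        (continuous_of_discreteTopology (f := fun u : ℤˣ => ((u : ℤ) : ℝ))).comp continuous_snd
      exact h1.smul (hg.comp_continuous (by fun_prop) (fun q => q.1.2))
  exact key.to_isEvenlyCovered_preimage

end Pool.Agent.Helper331
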