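import Pool.Agent.Helper331.Cov1

set_option autoImplicit false

open Set Filter Topology unitInterval

namespace Pool.Agent.Helper331

theorem sign_two {T : Type*} [Fintype T] [DecidableEq T] (e0 e1 : T) (h : ∀ e, e = e0 ∨ e = e1)
    (s : Equiv.Perm T) :
    (s e0 = e0 → Equiv.Perm.sign s = 1) ∧ (e0 ≠ e1 → s e0 = e1 → Equiv.Perm.sign s = -1) := by
  constructor
  · intro h0
    have : s = 1 := by
      ext e
      rcases h e with rfl | rfl
      · exact h0
      · rcases h (s e) with h1 | h1
        · have : s e = s e0 := h1.trans h0.symm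
          rw [s.injective this, h0]; rfl
        · exact h1
    rw [this]; simp
  · intro hne h0
    have h1 : s e1 = e0 := by
      rcases h (s e1) with h2 | h2
      · exact h2
      · exact absurd (s.injective (h0.trans h2.symm)) hne
    have : s = Equiv.swap e0 e1 := by
      ext e
      rcases h e with rfl | rfl
      · rw [h0, Equiv.swap_apply_left]
      · rw [h1, Equiv.swap_apply_right]
    rw [this, Equiv.Perm.sign_swap hne]

variable {X V : Type*} [TopologicalSpace X] [NormedAddCommGroup V] [NormedSpace ℝ V]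

/-- A double relation gives a homomorphism of the fundamental group to the units of the
integers, evaluated on loops through explicit lifts. -/
theorem DoubleRel.exists_hom {E : Set (X × V)} (hE : DoubleRel E) (x0 : X) :
    ∃ α : FundamentalGroup X x0 →* ℤˣ, ∀ (l : Path x0 x0) (u : I → V), Continuous u →
      (∀ t, (l t, u t) ∈ E) →
      (u 1 = u 0 → α (FundamentalGroup.fromPath (Path.Homotopic.Quotient.mk l)) = 1) ∧
      (u 1 = -u 0 → α (FundamentalGroup.fromPath (Path.Homotopic.Quotient.mk l)) = -1) := by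
  classical
  set p : E → X := fun e => e.1.1 with hp
  have cov : IsCoveringMap p := hE.isCoveringMap
  obtain ⟨W, hW, hxW, g, hg, hEW⟩ := hE x0
  obtain ⟨hg0, hgE⟩ := hEW x0 hxW
  have hm0 : (x0, g x0) ∈ E := (hgE _).2 (Or.inl rfl)
  have hm1 : (x0, -g x0) ∈ E := (hgE _).2 (Or.inr rfl)
  set e0 : p ⁻¹' {x0} := ⟨⟨(x0, g x0), hm0⟩, rfl⟩ with he0
  set e1 : p ⁻¹' {x0} := ⟨⟨(x0, -g x0), hm1⟩, rfl⟩ with he1
  have hex : ∀ e : p ⁻¹' {x0}, e = e0 ∨ e = e1 := by
    rintro ⟨⟨⟨y, v⟩, hyv⟩, hy⟩
    have hy' : y = x0 := hy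
    subst hy'
    rcases (hgE v).1 hyv with h | h
    · left; apply Subtype.ext; apply Subtype.ext; exact Prod.ext rfl h
    · right; apply Subtype.ext; apply Subtype.ext; exact Prod.ext rfl h
  have hfin : Finite (p ⁻¹' {x0}) := by
    apply Finite.of_surjective (fun b : Bool => if b then e0 else e1)
    intro e
    rcases hex e with h | h
    · exact ⟨true, by simp [h]⟩
    · exact ⟨false, by simp [h]⟩
  letI : Fintype (p ⁻¹' {x0}) := Fintype.ofFinite _
  refine ⟨(Equiv.Perm.sign).comp (cov.monodromyPerm x0), ?_⟩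
  intro l u hu hlu
  have h0E : (x0, u 0) ∈ E := by simpa using hlu 0
  have h1E : (x0, u 1) ∈ E := by simpa using hlu 1
  set f0 : p ⁻¹' {x0} := ⟨⟨(x0, u 0), h0E⟩, rfl⟩ with hf0
  set f1 : p ⁻¹' {x0} := ⟨⟨(x0, u 1), h1E⟩, rfl⟩ with hf1
  have hu0 : u 0 ≠ 0 := by
    rcases (hgE _).1 h0E with h | h
    · rw [h]; exact hg0
    · rw [h]; exact neg_ne_zero.2 hg0
  have hm0' : (x0, -u 0) ∈ E := by
    rw [hgE]
    rcases (hgE _).1 h0E with h | h
    · right; rw [h]
    · left; rw [h, neg_neg]
  set f2 : p ⁻¹' {x0} := ⟨⟨(x0, -u 0), hm0'⟩, rfl⟩ with hf2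
  have hex' : ∀ e : p ⁻¹' {x0}, e = f0 ∨ e = f2 := by
    rintro ⟨⟨⟨y, v⟩, hyv⟩, hy⟩
    have hy' : y = x0 := hy
    subst hy'
    have : v = u 0 ∨ v = -u 0 := by
      rcases (hgE v).1 hyv with h | h <;> rcases (hgE _).1 h0E with h' | h'
      · left; rw [h, h']
      · right; rw [h, h', neg_neg]
      · right; rw [h, h']
      · left; rw [h, h']
    rcases this with h | h
    · left; apply Subtype.ext; apply Subtype.ext; exact Prod.ext rfl h
    · right; apply Subtype.ext; apply Subtype.ext; exact Prod.ext rfl h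
  have hmono : cov.monodromyPerm x0
      (FundamentalGroup.fromPath (Path.Homotopic.Quotient.mk l)) f0 = f1 := by
    rw [IsCoveringMap.coe_monodromyPerm]
    let Γ : Path (f0 : E) (f1 : E) :=
      { toFun := fun t => ⟨(l t, u t), hlu t⟩
        continuous_toFun := by
          apply Continuous.subtype_mk
          exact l.continuous.prodMk hu
        source' := by
          apply Subtype.ext
          exact Prod.ext l.source rfl
        target' := by
          apply Subtype.ext
          exact Prod.ext l.target rfl }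
    apply cov.monodromy_eq_of_map_eq (Path.Homotopic.Quotient.mk Γ)
    rw [← Path.Homotopic.Quotient.mk_map]
    rfl
  obtain ⟨s1, s2⟩ := sign_two f0 f2 hex' (cov.monodromyPerm x0
      (FundamentalGroup.fromPath (Path.Homotopic.Quotient.mk l)))
  constructor
  · intro h
    have : f1 = f0 := by
      apply Subtype.ext; apply Subtype.ext; exact Prod.ext rfl h
    rw [this] at hmono
    exact s1 hmono
  · intro h
    have h12 : f1 = f2 := by
      apply Subtype.ext; apply Subtype.ext; exact Prod.ext rfl h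
    rw [h12] at hmono
    apply s2 _ hmono
    intro h3
    have h4 : u 0 = -u 0 := congrArg (fun e : p ⁻¹' {x0} => e.1.1.2) h3
    exact neg_ne_self' hu0 h4

end Pool.Agent.Helper331
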