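import Mathlib

set_option autoImplicit false

open Set Filter Topology Function
open scoped ContDiff

namespace Pool.Agent.Helper331

/-- Second order necessary condition at a local maximum, in one variable. -/
theorem second_order_loc {g g1 : ℝ → ℝ} {g2 : ℝ}
    (h1 : ∀ᶠ r in 𝓝 (0:ℝ), HasDerivAt g (g1 r) r) (h2 : HasDerivAt g1 g2 0)
    (hm : IsLocalMax g 0) : g1 0 = 0 ∧ g2 ≤ 0 := by
  have h0 : g1 0 = 0 := hm.hasDerivAt_eq_zero h1.self_of_nhds
  refine ⟨h0, ?_⟩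
  by_contra hpos
  push Not at hpos
  have hs := (hasDerivAt_iff_tendsto_slope.1 h2)
  have hev : ∀ᶠ r in 𝓝[≠] (0:ℝ), 0 < slope g1 0 r := hs.eventually (lt_mem_nhds hpos)
  have hev2 : ∀ᶠ r in 𝓝[>] (0:ℝ), 0 < g1 r := by
    have h3 : ∀ᶠ r in 𝓝[>] (0:ℝ), 0 < slope g1 0 r :=
      hev.filter_mono (nhdsWithin_mono _ (fun x hx => ne_of_gt hx))
    filter_upwards [h3, self_mem_nhdsWithin] with r hr hr0
    have hr0' : (0:ℝ) < r := hr0
    rw [slope_def_field, h0, sub_zero, sub_zero] at hr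
    exact (div_pos_iff_of_pos_right hr0').1 hr
  have hm' : ∀ᶠ r in 𝓝[>] (0:ℝ), g r ≤ g 0 := hm.filter_mono nhdsWithin_le_nhds
  have h1' : ∀ᶠ r in 𝓝[>] (0:ℝ), HasDerivAt g (g1 r) r := h1.filter_mono nhdsWithin_le_nhds
  obtain ⟨e, he, hI⟩ := mem_nhdsGT_iff_exists_Ioo_subset.1 (hev2.and (hm'.and h1'))
  have he' : (0:ℝ) < e := he
  have hmono : StrictMonoOn g (Icc 0 (e/2)) := by
    apply strictMonoOn_of_deriv_pos (convex_Icc _ _)
    · intro x hx
      rcases eq_or_lt_of_le hx.1 with h | h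
      · rw [← h]; exact h1.self_of_nhds.continuousAt.continuousWithinAt
      · exact (hI ⟨h, by linarith [hx.2]⟩).2.2.continuousAt.continuousWithinAt
    · intro x hx
      rw [interior_Icc] at hx
      have := hI (show x ∈ Ioo 0 e from ⟨hx.1, by linarith [hx.2]⟩)
      rw [this.2.2.deriv]
      exact this.1
  have hlt : g 0 < g (e/2) :=
    hmono ⟨le_refl _, by linarith⟩ ⟨by linarith, le_refl _⟩ (by linarith)
  have := (hI (show e/2 ∈ Ioo 0 e from ⟨by linarith, by linarith⟩)).2.1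
  linarith

section

variable {E E' : Type*} [NormedAddCommGroup E] [NormedSpace ℝ E] [NormedAddCommGroup E']
  [NormedSpace ℝ E']

/-- second order necessary condition for a linear functional of a map. -/
theorem locmax_second {f : E → E'} {y : E} (hf : ContDiffAt ℝ 2 f y) (l : E' →L[ℝ] ℝ)
    (hm : IsLocalMax (fun y => l (f y)) y) (v : E) :
    l (fderiv ℝ f y v) = 0 ∧ l (fderiv ℝ (fderiv ℝ f) y v v) ≤ 0 := by
  have hline : ∀ r : ℝ, HasDerivAt (fun r : ℝ => y + r • v) v r := by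
    intro r
    have := ((hasDerivAt_id r).smul_const v).const_add y
    simpa using this
  have hlc : Continuous (fun r : ℝ => y + r • v) := by fun_prop
  have h0 : y + (0:ℝ) • v = y := by simp
  have htend : Tendsto (fun r : ℝ => y + r • v) (𝓝 0) (𝓝 y) := by
    have := hlc.tendsto 0
    rwa [h0] at this
  have hd : ∀ᶠ x in 𝓝 y, DifferentiableAt ℝ f x := by
    have := hf.eventually (by simp)
    filter_upwards [this] with x hx using hx.differentiableAt (by simp)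
  have h1 : ∀ᶠ r in 𝓝 (0:ℝ), HasDerivAt (fun r : ℝ => l (f (y + r • v)))
      (l (fderiv ℝ f (y + r • v) v)) r := by
    filter_upwards [htend.eventually hd] with r hr
    exact (l.hasFDerivAt.comp_hasDerivAt r (hr.hasFDerivAt.comp_hasDerivAt r (hline r)))
  have hd1 : DifferentiableAt ℝ (fderiv ℝ f) y := by
    have : ContDiffAt ℝ 1 (fderiv ℝ f) y := hf.fderiv_right (by norm_num)
    exact this.differentiableAt (by simp)
  have h2 : HasDerivAt (fun r : ℝ => l (fderiv ℝ f (y + r • v) v))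
      (l (fderiv ℝ (fderiv ℝ f) y v v)) 0 := by
    have e1 : HasFDerivAt (fderiv ℝ f) (fderiv ℝ (fderiv ℝ f) y) (y + (0:ℝ) • v) := by
      rw [h0]; exact hd1.hasFDerivAt
    have e2 := e1.comp_hasDerivAt (0:ℝ) (hline 0)
    have e3 := e2.clm_apply (hasDerivAt_const (0:ℝ) v)
    have e4 := l.hasFDerivAt.comp_hasDerivAt (0:ℝ) e3
    refine e4.congr_deriv ?_
    simp
  have hm' : IsLocalMax (fun r : ℝ => l (f (y + r • v))) 0 := by
    have := htend.eventually hm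
    filter_upwards [this] with r hr
    simpa [h0] using hr
  have := second_order_loc h1 h2 hm'
  rw [h0] at this
  exact this

end

/-- a map from the plane to four-space is good at a point if it is immersed there and no nonzero
functional satisfies the second order necessary conditions. -/
def Good (f : ℂ → ℂ × ℂ) (y : ℂ) : Prop :=
  (∀ v, fderiv ℝ f y v = 0 → v = 0) ∧ ∀ l : (ℂ × ℂ) →L[ℝ] ℝ, (∀ v, l (fderiv ℝ f y v) = 0) →
    (∀ v, l (fderiv ℝ (fderiv ℝ f) y v v) ≤ 0) → l = 0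

theorem Good.no_max {f : ℂ → ℂ × ℂ} {y : ℂ} (h : Good f y) (hf : ContDiffAt ℝ 2 f y)
    {l : (ℂ × ℂ) →L[ℝ] ℝ} (hm : IsLocalMax (fun y => l (f y)) y) : l = 0 :=
  h.2 l (fun v => (locmax_second hf l hm v).1) (fun v => (locmax_second hf l hm v).2)

/-- the model map -/
def par (a : ℂ) (y : ℂ) : ℂ × ℂ := (a + y, (a + y)^2)

theorem par_hasFDerivAt (a y : ℂ) : HasFDerivAt (par a)
    ((ContinuousLinearMap.id ℝ ℂ).prod ((2 * (a + y)) • ContinuousLinearMap.id ℝ ℂ)) y := by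
  have h1 : HasFDerivAt (fun y : ℂ => a + y) (ContinuousLinearMap.id ℝ ℂ) y :=
    (hasFDerivAt_id y).const_add a
  have h2 := h1.pow 2
  have h3 := h1.prodMk h2
  refine h3.congr_fderiv ?_
  ext v
  · simp
  · simp
    left
    ring

theorem fderiv_par (a y v : ℂ) : fderiv ℝ (par a) y v = (v, 2 * (a + y) * v) := by
  rw [(par_hasFDerivAt a y).fderiv]; simp

theorem fderiv2_par (a y v : ℂ) : fderiv ℝ (fderiv ℝ (par a)) y v v = (0, 2 * v^2) := by
  have hsm : ContDiff ℝ ∞ (par a) := by unfold par; fun_prop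
  have hd : DifferentiableAt ℝ (fderiv ℝ (par a)) y :=
    ((hsm.fderiv_right (m := ∞) (by simp)).differentiable (by simp)) y
  have h1 : HasFDerivAt (fun y => fderiv ℝ (par a) y v)
      ((ContinuousLinearMap.apply ℝ (ℂ × ℂ) v).comp (fderiv ℝ (fderiv ℝ (par a)) y)) y :=
    (ContinuousLinearMap.apply ℝ (ℂ × ℂ) v).hasFDerivAt.comp y hd.hasFDerivAt
  have h2 : (fun y => fderiv ℝ (par a) y v) = fun y => (v, 2 * (a + y) * v) := by
    funext y; exact fderiv_par a y v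
  rw [h2] at h1
  have h3 : HasFDerivAt (fun y : ℂ => (v, 2 * (a + y) * v))
      ((0 : ℂ →L[ℝ] ℂ).prod ((2 * v) • ContinuousLinearMap.id ℝ ℂ)) y := by
    have h4 : HasFDerivAt (fun y : ℂ => a + y) (ContinuousLinearMap.id ℝ ℂ) y :=
      (hasFDerivAt_id y).const_add a
    have h5 := (h4.const_mul 2).mul_const v
    refine (hasFDerivAt_const v y).prodMk (h5.congr_fderiv ?_)
    ext w; simp; ring
  have h6 := h1.unique h3
  have h7 := congrArg (fun L => L v) h6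
  simp at h7
  rw [h7]
  ring_nf

theorem par_pos (l : (ℂ × ℂ) →L[ℝ] ℝ) (a y : ℂ) (hl : l ≠ 0)
    (h1 : ∀ v, l (fderiv ℝ (par a) y v) = 0) : ∃ v, 0 < l (fderiv ℝ (fderiv ℝ (par a)) y v v) := by
  have hu : ∃ u : ℂ, 0 < l (0, u) := by
    by_contra hcon
    push Not at hcon
    have h0 : ∀ u : ℂ, l (0, u) = 0 := by
      intro u
      have a1 := hcon u
      have a2 := hcon (-u)
      have e : ((0, -u) : ℂ × ℂ) = -(0, u) := by simp
      rw [e, map_neg] at a2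
      linarith
    apply hl
    ext v
    · have h2 := h1 v
      rw [fderiv_par] at h2
      have e : ((v, 2 * (a + y) * v) : ℂ × ℂ) = (v, 0) + (0, 2 * (a + y) * v) := by simp
      rw [e, map_add, h0, add_zero] at h2
      simpa using h2
    · simpa using h0 v
  obtain ⟨u, hu⟩ := hu
  obtain ⟨v, hv⟩ := IsAlgClosed.exists_pow_nat_eq (u/2) (n := 2) (by norm_num)
  refine ⟨v, ?_⟩
  rw [fderiv2_par, hv]
  have : 2 * (u/2) = u := by ring
  rw [this]; exact hu

/-- goodness is stable in compact families. -/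
theorem good_stable {T : Type*} [NormedAddCommGroup T] [NormedSpace ℝ T] {K : Set ℂ}
    (hK : IsCompact K) {f : T → ℂ → ℂ × ℂ} {a : ℂ}
    (hf : ∀ y ∈ K, ContDiffAt ℝ ∞ (uncurry f) (0, y))
    (h0 : ∀ y ∈ K, f 0 =ᶠ[𝓝 y] par a) : ∀ᶠ τ in 𝓝 (0:T), ∀ y ∈ K, Good (f τ) y := by
  -- continuity of derivatives
  have hF1 : ∀ y ∈ K, ContDiffAt ℝ ∞ (fun x : T × ℂ => fderiv ℝ (f x.1) x.2) (0, y) := by
    intro y hy
    have h1 : ContDiffAt ℝ ∞ (uncurry (fun (x : T × ℂ) (y' : ℂ) => f x.1 y')) ((0, y), y) := by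
      have h2 : ContDiffAt ℝ ∞ (fun q : (T × ℂ) × ℂ => (q.1.1, q.2)) ((0, y), y) := by fun_prop
      exact ContDiffAt.comp (g := uncurry f) (f := fun q : (T × ℂ) × ℂ => (q.1.1, q.2))
        ((0, y), y) (hf y hy) h2
    exact ContDiffAt.fderiv (f := fun (x : T × ℂ) (y' : ℂ) => f x.1 y') (g := fun x => x.2)
      (x₀ := (0, y)) h1 contDiffAt_snd (by simp)
  have hF2 : ∀ y ∈ K, ContDiffAt ℝ ∞ (fun x : T × ℂ => fderiv ℝ (fderiv ℝ (f x.1)) x.2) (0, y) := by
    intro y hy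
    have h1 : ContDiffAt ℝ ∞ (uncurry (fun (x : T × ℂ) (y' : ℂ) => fderiv ℝ (f x.1) y'))
        ((0, y), y) := by
      have h2 : ContDiffAt ℝ ∞ (fun q : (T × ℂ) × ℂ => (q.1.1, q.2)) ((0, y), y) := by fun_prop
      exact ContDiffAt.comp (g := fun x : T × ℂ => fderiv ℝ (f x.1) x.2)
        (f := fun q : (T × ℂ) × ℂ => (q.1.1, q.2)) ((0, y), y) (hF1 y hy) h2
    exact ContDiffAt.fderiv (f := fun (x : T × ℂ) (y' : ℂ) => fderiv ℝ (f x.1) y')
      (g := fun x => x.2) (x₀ := (0, y)) h1 contDiffAt_snd (by simp)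
  have hd1 : ∀ y ∈ K, fderiv ℝ (f 0) y = fderiv ℝ (par a) y := fun y hy => (h0 y hy).fderiv_eq
  have hd2 : ∀ y ∈ K, fderiv ℝ (fderiv ℝ (f 0)) y = fderiv ℝ (fderiv ℝ (par a)) y := fun y hy =>
    ((h0 y hy).fderiv).fderiv_eq
  -- immersion part
  have A : ∀ᶠ τ in 𝓝 (0:T), ∀ q ∈ K ×ˢ Metric.sphere (0:ℂ) 1, fderiv ℝ (f τ) q.1 q.2 ≠ 0 := by
    apply (hK.prod (isCompact_sphere (0:ℂ) 1)).eventually_forall_of_forall_eventually
    rintro ⟨y, v⟩ ⟨hy, hv⟩
    have hc : ContinuousAt (fun z : T × (ℂ × ℂ) => fderiv ℝ (f z.1) z.2.1 z.2.2) (0, (y, v)) := by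
      have h1 : ContinuousAt (fun z : T × (ℂ × ℂ) => fderiv ℝ (f z.1) z.2.1) (0, (y, v)) :=
        ContinuousAt.comp (g := fun x : T × ℂ => fderiv ℝ (f x.1) x.2)
          (f := fun z : T × (ℂ × ℂ) => (z.1, z.2.1)) (hF1 y hy).continuousAt (by fun_prop)
      exact h1.clm_apply (by fun_prop)
    apply hc.eventually_ne
    simp only
    rw [hd1 y hy, fderiv_par]
    intro h
    have hv0 : v = 0 := congrArg Prod.fst h
    rw [hv0] at hv
    simp at hv
  -- no support part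
  have B : ∀ᶠ τ in 𝓝 (0:T), ∀ q ∈ K ×ˢ Metric.sphere (0 : (ℂ × ℂ) →L[ℝ] ℝ) 1,
      ∃ v, q.2 (fderiv ℝ (f τ) q.1 v) ≠ 0 ∨ 0 < q.2 (fderiv ℝ (fderiv ℝ (f τ)) q.1 v v) := by
    apply (hK.prod (isCompact_sphere _ _)).eventually_forall_of_forall_eventually
    rintro ⟨y, l⟩ ⟨hy, hl⟩
    have hl0 : l ≠ 0 := by
      intro h; rw [h] at hl; simp at hl
    have hc1 : ContinuousAt (fun z : T × (ℂ × ((ℂ × ℂ) →L[ℝ] ℝ)) => fderiv ℝ (f z.1) z.2.1)
        (0, (y, l)) :=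
      ContinuousAt.comp (g := fun x : T × ℂ => fderiv ℝ (f x.1) x.2)
          (f := fun z : T × (ℂ × ((ℂ × ℂ) →L[ℝ] ℝ)) => (z.1, z.2.1)) (hF1 y hy).continuousAt
          (by fun_prop)
    have hc2 : ContinuousAt (fun z : T × (ℂ × ((ℂ × ℂ) →L[ℝ] ℝ)) =>
        fderiv ℝ (fderiv ℝ (f z.1)) z.2.1) (0, (y, l)) :=
      ContinuousAt.comp (g := fun x : T × ℂ => fderiv ℝ (fderiv ℝ (f x.1)) x.2)
          (f := fun z : T × (ℂ × ((ℂ × ℂ) →L[ℝ] ℝ)) => (z.1, z.2.1)) (hF2 y hy).continuousAt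
          (by fun_prop)
    have hl' : ContinuousAt (fun z : T × (ℂ × ((ℂ × ℂ) →L[ℝ] ℝ)) => z.2.2) (0, (y, l)) := by
      fun_prop
    by_cases h1 : ∀ v, l (fderiv ℝ (par a) y v) = 0
    · obtain ⟨v, hv⟩ := par_pos l a y hl0 h1
      have hc3 : ContinuousAt (fun z : T × (ℂ × ((ℂ × ℂ) →L[ℝ] ℝ)) =>
          z.2.2 (fderiv ℝ (fderiv ℝ (f z.1)) z.2.1 v v)) (0, (y, l)) :=
        hl'.clm_apply ((hc2.clm_apply continuousAt_const).clm_apply continuousAt_const)
      have h4 : 0 < (fun z : T × (ℂ × ((ℂ × ℂ) →L[ℝ] ℝ)) =>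
          z.2.2 (fderiv ℝ (fderiv ℝ (f z.1)) z.2.1 v v)) (0, (y, l)) := by
        simp only
        rw [hd2 y hy]; exact hv
      filter_upwards [hc3.eventually (lt_mem_nhds h4)] with z hz
      exact ⟨v, Or.inr hz⟩
    · push Not at h1
      obtain ⟨v, hv⟩ := h1
      have hc3 : ContinuousAt (fun z : T × (ℂ × ((ℂ × ℂ) →L[ℝ] ℝ)) =>
          z.2.2 (fderiv ℝ (f z.1) z.2.1 v)) (0, (y, l)) :=
        hl'.clm_apply (hc1.clm_apply continuousAt_const)
      have h4 : (fun z : T × (ℂ × ((ℂ × ℂ) →L[ℝ] ℝ)) =>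
          z.2.2 (fderiv ℝ (f z.1) z.2.1 v)) (0, (y, l)) ≠ 0 := by
        simp only
        rw [hd1 y hy]; exact hv
      filter_upwards [hc3.eventually_ne h4] with z hz
      exact ⟨v, Or.inl hz⟩
  filter_upwards [A, B] with τ hA hB y hy
  constructor
  · intro v hv
    by_contra hv0
    have hn : ‖v‖ ≠ 0 := norm_ne_zero_iff.2 hv0
    apply hA (y, (‖v‖⁻¹ : ℝ) • v) ⟨hy, by
      rw [mem_sphere_zero_iff_norm, norm_smul, norm_inv, norm_norm, inv_mul_cancel₀ hn]⟩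
    simp only
    rw [map_smul, hv, smul_zero]
  · intro l h1 h2
    by_contra hl0
    have hn : ‖l‖ ≠ 0 := norm_ne_zero_iff.2 hl0
    have hpos : 0 < ‖l‖⁻¹ := by positivity
    obtain ⟨v, hv⟩ := hB (y, (‖l‖⁻¹ : ℝ) • l) ⟨hy, by
      rw [mem_sphere_zero_iff_norm, norm_smul, norm_inv, norm_norm, inv_mul_cancel₀ hn]⟩
    simp only [smul_apply, smul_eq_mul] at hv
    rcases hv with hv | hv
    · rw [h1, mul_zero] at hv; exact hv rfl
    · have := h2 v
      nlinarith [mul_nonneg_iff_of_pos_left hpos |>.1 hv.le]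

end Pool.Agent.Helper331
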