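import Mathlib

set_option autoImplicit false

open Set Filter Topology Function
open scoped ContDiff

namespace Pool.Agent.Helper331

/-- the harmonic neck -/
noncomputable def nk (c ε : ℝ) (y : ℂ) : ℂ × ℂ :=
  (((1 + c * Real.log (2 * ‖y‖) : ℝ) : ℂ) + y - ε^2/y, (1 + y)^2 + 2 * ε^2/y + ε^4/y^2)

theorem clm_form (l : (ℂ × ℂ) →L[ℝ] ℝ) : ∃ A B : ℂ, (∀ z w : ℂ, l (z, w) = (A * z).re + (B * w).re) ∧
    (A = 0 → B = 0 → l = 0) := by
  refine ⟨⟨l (1, 0), -l (Complex.I, 0)⟩, ⟨l (0, 1), -l (0, Complex.I)⟩, ?_, ?_⟩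
  · intro z w
    have e : ((z, w) : ℂ × ℂ) = z.re • ((1, 0) : ℂ × ℂ) + z.im • ((Complex.I, 0) : ℂ × ℂ)
        + w.re • ((0, 1) : ℂ × ℂ) + w.im • ((0, Complex.I) : ℂ × ℂ) := by
      apply Prod.ext
      · simp
      · simp
    rw [e, map_add, map_add, map_add, map_smul, map_smul, map_smul, map_smul]
    simp only [smul_eq_mul, Complex.mul_re]
    ring
  · intro hA hB
    have a1 : l (1, 0) = 0 := congrArg Complex.re hA
    have a2 : -l (Complex.I, 0) = 0 := congrArg Complex.im hA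
    have b1 : l (0, 1) = 0 := congrArg Complex.re hB
    have b2 : -l (0, Complex.I) = 0 := congrArg Complex.im hB
    apply ContinuousLinearMap.ext
    rintro ⟨z, w⟩
    have e : ((z, w) : ℂ × ℂ) = z.re • ((1, 0) : ℂ × ℂ) + z.im • ((Complex.I, 0) : ℂ × ℂ)
        + w.re • ((0, 1) : ℂ × ℂ) + w.im • ((0, Complex.I) : ℂ × ℂ) := by
      apply Prod.ext
      · simp
      · simp
    rw [e, map_add, map_add, map_add, map_smul, map_smul, map_smul, map_smul, a1, b1,
      neg_eq_zero.1 a2, neg_eq_zero.1 b2]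
    simp

theorem poly4_zero {a b c d e y0 : ℂ}
    (h : ∀ᶠ y in 𝓝 y0, a * y^4 + b * y^3 + c * y^2 + d * y + e = 0) : a = 0 ∧ b = 0 := by
  set Q : Polynomial ℂ := Polynomial.C a * Polynomial.X^4 + Polynomial.C b * Polynomial.X^3
    + Polynomial.C c * Polynomial.X^2 + Polynomial.C d * Polynomial.X + Polynomial.C e with hQ
  have hQ0 : Q = 0 := by
    apply Polynomial.eq_zero_of_infinite_isRoot
    apply infinite_of_mem_nhds y0
    filter_upwards [h] with y hy
    change Q.eval y = 0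
    simp only [hQ, Polynomial.eval_add, Polynomial.eval_mul, Polynomial.eval_C,
      Polynomial.eval_pow, Polynomial.eval_X]
    exact hy
  constructor
  · have := congrArg (fun q => Polynomial.coeff q 4) hQ0
    simpa [hQ, Polynomial.coeff_X, Polynomial.coeff_C, Polynomial.coeff_X_pow] using this
  · have := congrArg (fun q => Polynomial.coeff q 3) hQ0
    simpa [hQ, Polynomial.coeff_X, Polynomial.coeff_C, Polynomial.coeff_X_pow] using this

/-- No nonzero linear functional has a local maximum on the harmonic neck. -/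
theorem neck_no_max {c ε : ℝ} {y0 : ℂ} (hy0 : y0 ≠ 0) {l : (ℂ × ℂ) →L[ℝ] ℝ}
    (hm : IsLocalMax (fun y => l (nk c ε y)) y0) : l = 0 := by
  obtain ⟨A, B, hl, hl0⟩ := clm_form l
  set G : ℂ → ℂ := fun y => ((A.re * (1 + c * Real.log (2 * ‖y0‖)) : ℝ) : ℂ)
    + ((c * A.re : ℝ) : ℂ) * Complex.log (y / y0)
    + A * (y - ε^2/y) + B * ((1 + y)^2 + 2 * ε^2/y + ε^4/y^2) with hG
  have hnorm0 : 0 < ‖y0‖ := norm_pos_iff.2 hy0
  have hRe : ∀ y : ℂ, y ≠ 0 → (G y).re = l (nk c ε y) := by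
    intro y hy
    have hn : 0 < ‖y‖ := norm_pos_iff.2 hy
    have hlog : Real.log (2 * ‖y‖) = Real.log (2 * ‖y0‖) + Real.log ‖y / y0‖ := by
      rw [← Real.log_mul (by positivity) (by rw [norm_div]; positivity), norm_div]
      congr 1
      field_simp
    rw [nk, hl, hlog]
    simp only [hG]
    have e1 : A * ((((1 + c * (Real.log (2 * ‖y0‖) + Real.log ‖y / y0‖) : ℝ)) : ℂ) + y - ε^2/y)
        = (((1 + c * (Real.log (2 * ‖y0‖) + Real.log ‖y / y0‖) : ℝ)) : ℂ) * A
          + A * (y - ε^2/y) := by ring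
    rw [e1, Complex.add_re, Complex.add_re, Complex.add_re, Complex.add_re, Complex.re_ofReal_mul,
      Complex.re_ofReal_mul, Complex.log_re, Complex.ofReal_re]
    ring
  -- good neighbourhood
  have hnb : ∀ᶠ y in 𝓝 y0, y ≠ 0 ∧ y / y0 ∈ Complex.slitPlane := by
    have h1 : ∀ᶠ y in 𝓝 y0, y ≠ 0 := isOpen_ne.mem_nhds hy0
    have h2 : ∀ᶠ y in 𝓝 y0, y / y0 ∈ Complex.slitPlane := by
      have hc : ContinuousAt (fun y : ℂ => y / y0) y0 := (continuous_id.div_const y0).continuousAt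
      apply hc.preimage_mem_nhds
      rw [div_self hy0]
      exact Complex.isOpen_slitPlane.mem_nhds Complex.one_mem_slitPlane
    exact h1.and h2
  have hder : ∀ y : ℂ, y ≠ 0 → y / y0 ∈ Complex.slitPlane → HasDerivAt G
      (((c * A.re : ℝ) : ℂ) * (1 / y) + A * (1 + ε^2/y^2)
        + B * (2 * (1 + y) - 2 * ε^2/y^2 - 2 * ε^4/y^3)) y := by
    intro y hy hys
    have h1 : HasDerivAt (fun y : ℂ => Complex.log (y / y0)) (1 / y) y := by
      have h2 : HasDerivAt (fun y : ℂ => y / y0) (1 / y0) y := (hasDerivAt_id y).div_const y0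
      have h3 := h2.clog hys
      refine h3.congr_deriv ?_
      field_simp
    have hinv : HasDerivAt (fun y : ℂ => y⁻¹) (-(y^2)⁻¹) y := hasDerivAt_inv hy
    have h4 : HasDerivAt (fun y : ℂ => y - ε^2/y) (1 + ε^2/y^2) y := by
      have := (hasDerivAt_id y).sub (hinv.const_mul ((ε:ℂ)^2))
      refine this.congr_deriv ?_
      field_simp
      ring
    have h5 : HasDerivAt (fun y : ℂ => (1 + y)^2 + 2 * ε^2/y + ε^4/y^2)
        (2 * (1 + y) - 2 * ε^2/y^2 - 2 * ε^4/y^3) y := by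
      have a1 : HasDerivAt (fun y : ℂ => (1 + y)^2) (2 * (1 + y)) y := by
        have := ((hasDerivAt_id y).const_add 1).pow 2
        refine this.congr_deriv ?_
        simp
      have a2 : HasDerivAt (fun y : ℂ => 2 * ε^2/y) (-2 * ε^2/y^2) y := by
        have := hinv.const_mul (2 * (ε:ℂ)^2)
        refine this.congr_deriv ?_
        field_simp
      have a3 : HasDerivAt (fun y : ℂ => ε^4/y^2) (-2 * ε^4/y^3) y := by
        have := (hinv.pow 2).const_mul ((ε:ℂ)^4)
        have h6 : (fun y : ℂ => (ε:ℂ)^4/y^2) = fun y : ℂ => (ε:ℂ)^4 * (y⁻¹)^2 := by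
          funext y; rw [inv_pow]; rfl
        rw [h6]
        refine this.congr_deriv ?_
        simp
        field_simp
      refine ((a1.add a2).add a3).congr_deriv ?_
      ring
    have h6 := ((((hasDerivAt_const y (((A.re * (1 + c * Real.log (2 * ‖y0‖)) : ℝ) : ℂ))).add
      (h1.const_mul (((c * A.re : ℝ) : ℂ)))).add (h4.const_mul A))).add (h5.const_mul B)
    refine h6.congr_deriv ?_
    ring
  have hmax : IsLocalMax (norm ∘ fun y => Complex.exp (G y)) y0 := by
    filter_upwards [hm, hnb] with y hy hyn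
    simp only [Function.comp, Complex.norm_exp]
    rw [hRe y hyn.1, hRe y0 hy0]
    exact Real.exp_le_exp.2 hy
  have hdiff : ∀ᶠ y in 𝓝 y0, DifferentiableAt ℂ (fun y => Complex.exp (G y)) y := by
    filter_upwards [hnb] with y hy
    exact (hder y hy.1 hy.2).differentiableAt.cexp
  have hconst := Complex.eventually_eq_of_isLocalMax_norm hdiff hmax
  have hpoly : ∀ᶠ y in 𝓝 y0, (2 * B) * y^4 + (A + 2 * B) * y^3 + ((c * A.re : ℝ) : ℂ) * y^2
      + (A * ε^2 - 2 * B * ε^2) * y + (-2 * B * ε^4) = 0 := by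
    filter_upwards [hnb, hconst.eventually_nhds] with y hy hc
    have h1 : HasDerivAt (fun y => Complex.exp (G y)) _ y := (hder y hy.1 hy.2).cexp
    have h2 : HasDerivAt (fun y => Complex.exp (G y)) 0 y :=
      (hasDerivAt_const y (Complex.exp (G y0))).congr_of_eventuallyEq hc
    have h3 := h1.unique h2
    have h4 := (mul_eq_zero.1 h3).resolve_left (Complex.exp_ne_zero _)
    have hy1 := hy.1
    have h5 : y^3 * (((c * A.re : ℝ) : ℂ) * (1 / y) + A * (1 + ε^2/y^2)
        + B * (2 * (1 + y) - 2 * ε^2/y^2 - 2 * ε^4/y^3)) = 0 := by rw [h4, mul_zero]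
    rw [← h5]
    field_simp
    ring
  obtain ⟨c4, c3⟩ := poly4_zero hpoly
  have hB : B = 0 := by simpa using c4
  have hA : A = 0 := by rw [hB] at c3; simpa using c3
  exact hl0 hA hB

/-- the neck is immersed away from finitely many conditions -/
theorem neck_hasFDerivAt {c ε : ℝ} {y : ℂ} (hy : y ≠ 0) (v : ℂ) :
    HasDerivAt (fun r : ℝ => nk c ε (y + r • v))
      (((c * (y⁻¹ * v).re : ℝ) : ℂ) + (1 + ε^2/y^2) * v,
        (2 * (1 + y) - 2 * ε^2/y^2 - 2 * ε^4/y^3) * v) 0 := by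
  have hline : HasDerivAt (fun r : ℝ => y + r • v) v 0 := by
    have := ((hasDerivAt_id (0:ℝ)).smul_const v).const_add y
    simpa using this
  have h0 : y + (0:ℝ) • v = y := by simp
  have hn : ‖y‖ ≠ 0 := norm_ne_zero_iff.2 hy
  -- logarithm of the norm
  have hlog : HasDerivAt (fun r : ℝ => Real.log (2 * ‖y + r • v‖)) ((y⁻¹ * v).re) 0 := by
    have h1 : HasDerivAt (fun r : ℝ => ‖y + r • v‖^2) (2 * inner ℝ y v) 0 := by
      have := hline.norm_sq
      rwa [h0] at this
    have h2 : (fun r : ℝ => Real.log (2 * ‖y + r • v‖)) =ᶠ[𝓝 0]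
        fun r : ℝ => Real.log 2 + Real.log (‖y + r • v‖^2) / 2 := by
      have hc : ContinuousAt (fun r : ℝ => ‖y + r • v‖) 0 := by fun_prop
      have hne : (fun r : ℝ => ‖y + r • v‖) 0 ≠ 0 := by simp only [h0]; exact hn
      filter_upwards [hc.eventually_ne hne] with r hr
      rw [Real.log_mul (by norm_num) hr, Real.log_pow]
      push_cast; ring
    have h3 : HasDerivAt (fun r : ℝ => Real.log 2 + Real.log (‖y + r • v‖^2) / 2)
        ((2 * inner ℝ y v) / (‖y + (0:ℝ) • v‖^2) / 2) 0 := by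
      have hne : ‖y + (0:ℝ) • v‖^2 ≠ 0 := by rw [h0]; exact pow_ne_zero 2 hn
      exact ((h1.log hne).div_const 2).const_add _
    have h4 := h3.congr_of_eventuallyEq h2
    refine h4.congr_deriv ?_
    rw [h0, Complex.inv_def, ← Complex.normSq_eq_norm_sq]
    simp only [Complex.inner, Complex.mul_re, Complex.conj_re, Complex.conj_im, Complex.ofReal_re,
      Complex.ofReal_im, Complex.mul_im]
    have : Complex.normSq y ≠ 0 := by rw [Complex.normSq_eq_norm_sq]; exact pow_ne_zero 2 hn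
    field_simp
    ring
  have hinv : HasDerivAt (fun r : ℝ => (y + r • v)⁻¹) (v * (-(y^2)⁻¹)) 0 := by
    have h1 : HasDerivAt (fun y : ℂ => y⁻¹) (-(y^2)⁻¹) (y + (0:ℝ) • v) := by
      rw [h0]; exact hasDerivAt_inv hy
    exact HasDerivAt.scomp (h := fun r : ℝ => y + r • v) (0:ℝ) h1 hline
  have hz : HasDerivAt (fun r : ℝ => (((1 + c * Real.log (2 * ‖y + r • v‖) : ℝ) : ℂ))
      + (y + r • v) - ε^2/(y + r • v))
      (((c * (y⁻¹ * v).re : ℝ) : ℂ) + (1 + ε^2/y^2) * v) 0 := by
    have a1 := ((hlog.const_mul c).const_add 1).ofReal_comp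
    have a2 := (a1.add hline).sub (hinv.const_mul ((ε:ℂ)^2))
    refine a2.congr_deriv ?_
    field_simp
    ring
  have hw : HasDerivAt (fun r : ℝ => (1 + (y + r • v))^2 + 2 * ε^2/(y + r • v) + ε^4/(y + r • v)^2)
      ((2 * (1 + y) - 2 * ε^2/y^2 - 2 * ε^4/y^3) * v) 0 := by
    have a1 := (hline.const_add 1).pow 2
    have a2 := hinv.const_mul (2 * (ε:ℂ)^2)
    have a3 := (hinv.pow 2).const_mul ((ε:ℂ)^4)
    have a4 := (a1.add a2).add a3
    have e : (fun r : ℝ => (1 + (y + r • v))^2 + 2 * ε^2/(y + r • v) + ε^4/(y + r • v)^2)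
        = fun r : ℝ => (1 + (y + r • v))^2 + 2 * (ε:ℂ)^2 * (y + r • v)⁻¹
          + (ε:ℂ)^4 * ((y + r • v)⁻¹)^2 := by
      funext r
      rw [inv_pow]
      rfl
    rw [e]
    refine a4.congr_deriv ?_
    simp
    field_simp
    ring
  exact hz.prodMk hw

/-- the neck is an immersion -/
theorem neck_immersed {c ε : ℝ} (hε : 0 < ε) (hc : 2 * ε < c) {y : ℂ} (hy : y ≠ 0)
    (hy1 : ‖y‖ ≤ 3/8) (hy2 : ε^2/‖y‖ ≤ 3/8) {v : ℂ}
    (hv : HasDerivAt (fun r : ℝ => nk c ε (y + r • v)) 0 0) : v = 0 := by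
  have h1 := (neck_hasFDerivAt (c := c) (ε := ε) hy v).unique hv
  have hz : ((c * (y⁻¹ * v).re : ℝ) : ℂ) + (1 + ε^2/y^2) * v = 0 := congrArg Prod.fst h1
  have hw : (2 * (1 + y) - 2 * ε^2/y^2 - 2 * ε^4/y^3) * v = 0 := congrArg Prod.snd h1
  rcases mul_eq_zero.1 hw with h | h
  · have hεc : (ε : ℂ) ≠ 0 := by exact_mod_cast hε.ne'
    have e : 2 * (1 + y) - 2 * ε^2/y^2 - 2 * ε^4/y^3
        = 2 * (1 + y + ε^2/y) * (1 - ε^2/y^2) := by
      field_simp
      ring
    rw [e] at h
    rcases mul_eq_zero.1 h with h | h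
    · exfalso
      have h2 : (1 : ℂ) = -(y + ε^2/y) := by
        have := (mul_eq_zero.1 h).resolve_left two_ne_zero
        linear_combination this
      have h3 : ‖-(y + (ε:ℂ)^2/y)‖ ≤ 3/4 := by
        rw [norm_neg]
        refine (norm_add_le _ _).trans ?_
        rw [norm_div, norm_pow, Complex.norm_real, Real.norm_of_nonneg hε.le]
        linarith
      rw [← h2] at h3
      norm_num at h3
    · have h2 : y^2 = ε^2 := by
        have h3 : (1:ℂ) = ε^2/y^2 := by linear_combination h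
        rw [eq_div_iff (pow_ne_zero 2 hy), one_mul] at h3
        exact h3
      have h4 : (ε:ℂ)^2/y^2 = 1 := by rw [h2]; exact div_self (pow_ne_zero 2 hεc)
      rw [h4] at hz
      have him : v.im = 0 := by
        have := congrArg Complex.im hz
        rw [Complex.add_im, Complex.ofReal_im, zero_add, show (1 + 1 : ℂ) = ((2:ℝ):ℂ) by norm_num,
          Complex.im_ofReal_mul, Complex.zero_im] at this
        linarith
      have hre := congrArg Complex.re hz
      rw [Complex.add_re, Complex.ofReal_re, show (1 + 1 : ℂ) = ((2:ℝ):ℂ) by norm_num,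
          Complex.re_ofReal_mul, Complex.zero_re] at hre
      rcases sq_eq_sq_iff_eq_or_eq_neg.1 h2 with h5 | h5
      · rw [h5, ← Complex.ofReal_inv, Complex.re_ofReal_mul] at hre
        have h6 : (c * ε⁻¹ + 2) * v.re = 0 := by linarith
        have h7 : c * ε⁻¹ + 2 ≠ 0 := by
          have : 0 < c * ε⁻¹ := mul_pos (by linarith) (by positivity)
          linarith
        exact Complex.ext ((mul_eq_zero.1 h6).resolve_left h7) him
      · have h8 : y⁻¹ = ((-ε⁻¹ : ℝ) : ℂ) := by rw [h5]; push_cast; rw [inv_neg]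
        rw [h8, Complex.re_ofReal_mul] at hre
        have h6 : (2 - c * ε⁻¹) * v.re = 0 := by linarith
        have h7 : 2 - c * ε⁻¹ ≠ 0 := by
          have : 2 < c * ε⁻¹ := by
            rw [← div_eq_mul_inv, lt_div_iff₀ hε]; exact hc
          linarith
        exact Complex.ext ((mul_eq_zero.1 h6).resolve_left h7) him
  · exact h

end Pool.Agent.Helper331
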