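import Pool.Agent.Helper331.Ha
import Pool.Agent.Helper331.Hb

set_option autoImplicit false

open Set Filter Topology Function
open scoped ContDiff

namespace Pool.Agent.Helper331

/-- the scaled Veronese surface near its pole, as a graph -/
noncomputable def Fp (p : ℝ) (Z : ℂ) : ℂ :=
  2 * Z^2 * (((1 + Real.sqrt (1 - 4 * p^2 * ‖Z‖^2))⁻¹ : ℝ) : ℂ)

/-- cutoff -/
noncomputable def chi (r : ℝ) : ℝ := Real.smoothTransition (7 - 16 * r)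

theorem chi_one {r : ℝ} (h : r ≤ 3/8) : chi r = 1 :=
  Real.smoothTransition.one_of_one_le (by linarith)

theorem chi_zero {r : ℝ} (h : 7/16 ≤ r) : chi r = 0 :=
  Real.smoothTransition.zero_of_nonpos (by linarith)

theorem chi_nonneg (r : ℝ) : 0 ≤ chi r := Real.smoothTransition.nonneg _

theorem chi_le_one (r : ℝ) : chi r ≤ 1 := Real.smoothTransition.le_one _

theorem chi_contDiff : ContDiff ℝ ∞ chi :=
  Real.smoothTransition.contDiff.comp (contDiff_const.sub (contDiff_const.mul contDiff_id))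

/-- the transition map: parameters are `(p, c, ε)`. -/
noncomputable def fp (τ : ℝ × ℝ × ℝ) (y : ℂ) : ℂ × ℂ :=
  (1 + y + (chi ‖y‖ : ℂ) * (((τ.2.1 * Real.log (2 * ‖y‖) : ℝ) : ℂ) - (τ.2.2 : ℂ)^2 * y⁻¹),
   (1 - (chi ‖y‖ : ℂ)) * Fp τ.1 (1 + y) + (chi ‖y‖ : ℂ) *
     ((1 + y)^2 + 2 * (τ.2.2 : ℂ)^2 * y⁻¹ + (τ.2.2 : ℂ)^4 * (y⁻¹)^2))

theorem fp_eq_nk {p c ε : ℝ} {y : ℂ} (h : ‖y‖ ≤ 3/8) : fp (p, c, ε) y = nk c ε y := by
  simp only [fp, nk, chi_one h]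
  apply Prod.ext
  · simp only
    push_cast
    rw [div_eq_mul_inv]; ring
  · simp only
    push_cast
    rw [div_eq_mul_inv, div_eq_mul_inv, inv_pow]; ring

theorem fp_eq_V {τ : ℝ × ℝ × ℝ} {y : ℂ} (h : 7/16 ≤ ‖y‖) : fp τ y = (1 + y, Fp τ.1 (1 + y)) := by
  simp only [fp, chi_zero h]
  simp

theorem Fp_contDiffAt {p : ℝ} {Z : ℂ} (h : 4 * p^2 * ‖Z‖^2 < 1) :
    ContDiffAt ℝ ∞ (uncurry Fp) (p, Z) := by
  have h1 : ContDiffAt ℝ ∞ (fun x : ℝ × ℂ => 1 - 4 * x.1^2 * ‖x.2‖^2) (p, Z) := by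
    have a1 : ContDiffAt ℝ ∞ (fun x : ℝ × ℂ => ‖x.2‖^2) (p, Z) :=
      ((contDiff_norm_sq ℝ).comp contDiff_snd).contDiffAt
    have a2 : ContDiffAt ℝ ∞ (fun x : ℝ × ℂ => 4 * x.1^2) (p, Z) := by fun_prop
    exact contDiffAt_const.sub (a2.mul a1)
  have hne : (fun x : ℝ × ℂ => 1 - 4 * x.1^2 * ‖x.2‖^2) (p, Z) ≠ 0 := by
    simp only; linarith
  have h2 := h1.sqrt hne
  have h3 : ContDiffAt ℝ ∞ (fun x : ℝ × ℂ => (1 + Real.sqrt (1 - 4 * x.1^2 * ‖x.2‖^2))⁻¹) (p, Z) := by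
    apply (contDiffAt_const.add h2).inv
    have := Real.sqrt_nonneg (1 - 4 * p^2 * ‖Z‖^2)
    simp only
    linarith
  have h4 : ContDiffAt ℝ ∞ (fun x : ℝ × ℂ =>
      (((1 + Real.sqrt (1 - 4 * x.1^2 * ‖x.2‖^2))⁻¹ : ℝ) : ℂ)) (p, Z) :=
    Complex.ofRealCLM.contDiff.contDiffAt.comp (p, Z) h3
  have h5 : ContDiffAt ℝ ∞ (fun x : ℝ × ℂ => 2 * x.2^2) (p, Z) := by fun_prop
  exact h5.mul h4

theorem fp_contDiffAt {τ : ℝ × ℝ × ℝ} {y : ℂ} (hy : y ≠ 0) (h : 4 * τ.1^2 * ‖1 + y‖^2 < 1) :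
    ContDiffAt ℝ ∞ (uncurry fp) (τ, y) := by
  have hn : ‖y‖ ≠ 0 := norm_ne_zero_iff.2 hy
  have hnorm : ContDiffAt ℝ ∞ (fun x : (ℝ × ℝ × ℝ) × ℂ => ‖x.2‖) (τ, y) :=
    contDiffAt_snd.norm ℝ hy
  have hchi : ContDiffAt ℝ ∞ (fun x : (ℝ × ℝ × ℝ) × ℂ => (chi ‖x.2‖ : ℂ)) (τ, y) :=
    Complex.ofRealCLM.contDiff.contDiffAt.comp (τ, y)
      (chi_contDiff.contDiffAt.comp (τ, y) hnorm)
  have hinv : ContDiffAt ℝ ∞ (fun x : (ℝ × ℝ × ℝ) × ℂ => (x.2)⁻¹) (τ, y) :=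
    contDiffAt_snd.inv hy
  have hlog : ContDiffAt ℝ ∞ (fun x : (ℝ × ℝ × ℝ) × ℂ => Real.log (2 * ‖x.2‖)) (τ, y) := by
    apply (contDiffAt_const.mul hnorm).log
    simp only
    positivity
  have he : ContDiffAt ℝ ∞ (fun x : (ℝ × ℝ × ℝ) × ℂ => ((x.1.2.2 : ℝ) : ℂ)) (τ, y) :=
    Complex.ofRealCLM.contDiff.contDiffAt.comp (τ, y) (by fun_prop)
  have hcl : ContDiffAt ℝ ∞ (fun x : (ℝ × ℝ × ℝ) × ℂ =>
      ((x.1.2.1 * Real.log (2 * ‖x.2‖) : ℝ) : ℂ)) (τ, y) := by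
    apply Complex.ofRealCLM.contDiff.contDiffAt.comp (τ, y)
    have : ContDiffAt ℝ ∞ (fun x : (ℝ × ℝ × ℝ) × ℂ => x.1.2.1) (τ, y) := by fun_prop
    exact this.mul hlog
  have hF : ContDiffAt ℝ ∞ (fun x : (ℝ × ℝ × ℝ) × ℂ => Fp x.1.1 (1 + x.2)) (τ, y) := by
    have h1 : ContDiffAt ℝ ∞ (fun x : (ℝ × ℝ × ℝ) × ℂ => (x.1.1, 1 + x.2)) (τ, y) := by fun_prop
    exact ContDiffAt.comp (g := uncurry Fp) (f := fun x : (ℝ × ℝ × ℝ) × ℂ => (x.1.1, 1 + x.2))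
      (τ, y) (Fp_contDiffAt h) h1
  have hy1 : ContDiffAt ℝ ∞ (fun x : (ℝ × ℝ × ℝ) × ℂ => 1 + x.2) (τ, y) := by fun_prop
  have A : ContDiffAt ℝ ∞ (fun x : (ℝ × ℝ × ℝ) × ℂ => 1 + x.2 + (chi ‖x.2‖ : ℂ) *
      (((x.1.2.1 * Real.log (2 * ‖x.2‖) : ℝ) : ℂ) - (x.1.2.2 : ℂ)^2 * (x.2)⁻¹)) (τ, y) :=
    hy1.add (hchi.mul (hcl.sub ((he.pow 2).mul hinv)))
  have B : ContDiffAt ℝ ∞ (fun x : (ℝ × ℝ × ℝ) × ℂ => (1 - (chi ‖x.2‖ : ℂ)) * Fp x.1.1 (1 + x.2)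
      + (chi ‖x.2‖ : ℂ) * ((1 + x.2)^2 + 2 * (x.1.2.2 : ℂ)^2 * (x.2)⁻¹
        + (x.1.2.2 : ℂ)^4 * ((x.2)⁻¹)^2)) (τ, y) :=
    ((contDiffAt_const.sub hchi).mul hF).add (hchi.mul
      (((hy1.pow 2).add ((contDiffAt_const.mul (he.pow 2)).mul hinv)).add
        ((he.pow 4).mul (hinv.pow 2))))
  exact A.prodMk B

/-- the graph map -/
noncomputable def gp (p : ℝ) (Z : ℂ) : ℂ × ℂ := (Z, Fp p Z)

theorem gp_contDiffAt {p : ℝ} {Z : ℂ} (h : 4 * p^2 * ‖Z‖^2 < 1) :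
    ContDiffAt ℝ ∞ (uncurry gp) (p, Z) :=
  contDiffAt_snd.prodMk (Fp_contDiffAt h)

theorem Fp_zero (Z : ℂ) : Fp 0 Z = Z^2 := by
  simp only [Fp]
  norm_num
  ring

theorem gp_good : ∀ᶠ p in 𝓝 (0:ℝ), ∀ Z ∈ Metric.closedBall (0:ℂ) 3, Good (gp p) Z := by
  apply good_stable (a := 0) (isCompact_closedBall _ _)
  · intro Z _
    exact gp_contDiffAt (by norm_num)
  · intro Z _
    refine Eventually.of_forall fun Z => ?_
    simp [gp, par, Fp_zero]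

theorem fp_good : ∀ᶠ τ in 𝓝 (0 : ℝ × ℝ × ℝ), ∀ y ∈ {y : ℂ | 1/4 ≤ ‖y‖ ∧ ‖y‖ ≤ 3/4},
    Good (fp τ) y := by
  have hK : IsCompact {y : ℂ | 1/4 ≤ ‖y‖ ∧ ‖y‖ ≤ 3/4} := by
    have : {y : ℂ | 1/4 ≤ ‖y‖ ∧ ‖y‖ ≤ 3/4} = Metric.closedBall (0:ℂ) (3/4) ∩ {y | 1/4 ≤ ‖y‖} := by
      ext y; simp [and_comm]
    rw [this]
    exact (isCompact_closedBall _ _).inter_right (isClosed_le continuous_const continuous_norm)
  apply good_stable (a := 1) hK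
  · intro y hy
    apply fp_contDiffAt
    · intro h0
      have := hy.1
      rw [h0, norm_zero] at this
      norm_num at this
    · norm_num
  · intro y _
    refine Eventually.of_forall fun y => ?_
    simp only [fp, par, Prod.fst_zero, Prod.snd_zero, Fp_zero]
    apply Prod.ext
    · simp
    · simp
      ring

/-- data for the handle -/
structure HD where
  p : ℝ
  c : ℝ
  e : ℝ
  he : 0 < e
  he1 : e ≤ 1/100
  hp : 0 < p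
  hp1 : p ≤ 1/100
  hlog : c * Real.log (2 * e) = -1
  hc : 2 * e < c
  hc1 : c ≤ 1/100
  good2 : ∀ y : ℂ, 1/4 ≤ ‖y‖ → ‖y‖ ≤ 3/4 → Good (fp (p, c, e)) y
  good1 : ∀ Z : ℂ, ‖Z‖ ≤ 3 → Good (gp p) Z

theorem exists_HD : Nonempty HD := by
  have h0 : Tendsto (fun e : ℝ => Real.log (2 * e)) (𝓝[>] 0) atBot := by
    apply Real.tendsto_log_nhdsGT_zero.comp
    apply tendsto_nhdsWithin_of_tendsto_nhds_of_eventually_within
    · have : Tendsto (fun e : ℝ => 2 * e) (𝓝 0) (𝓝 (2 * 0)) := (continuous_const.mul continuous_id).tendsto 0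
      rw [mul_zero] at this
      exact this.mono_left nhdsWithin_le_nhds
    · filter_upwards [self_mem_nhdsWithin] with e he
      have he' : (0:ℝ) < e := he
      change (0:ℝ) < 2 * e
      positivity
  have h1 : Tendsto (fun e : ℝ => -(Real.log (2 * e))⁻¹) (𝓝[>] 0) (𝓝 0) := by
    have := (tendsto_inv_atBot_zero.comp h0).neg
    rw [neg_zero] at this
    exact this
  have h2 : Tendsto (fun e : ℝ => e) (𝓝[>] 0) (𝓝 0) := tendsto_id.mono_left nhdsWithin_le_nhds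
  have h3 : Tendsto (fun e : ℝ => ((e, -(Real.log (2 * e))⁻¹, e) : ℝ × ℝ × ℝ)) (𝓝[>] 0) (𝓝 0) :=
    h2.prodMk_nhds (h1.prodMk_nhds h2)
  have hsmall : ∀ᶠ x in 𝓝 (0:ℝ), x < 1/100 := gt_mem_nhds (by norm_num)
  obtain ⟨e, e1, e2, e3, e4, e5⟩ := ((h3.eventually fp_good).and ((h2.eventually gp_good).and
    ((h1.eventually hsmall).and ((h2.eventually hsmall).and self_mem_nhdsWithin)))).exists
  have he : (0:ℝ) < e := e5
  have hlogneg : Real.log (2 * e) < 0 := Real.log_neg (by positivity) (by linarith)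
  refine ⟨{ p := e, c := -(Real.log (2 * e))⁻¹, e := e, he := he, he1 := e4.le, hp := he,
            hp1 := e4.le, hlog := ?_, hc := ?_, hc1 := e3.le,
            good2 := fun y h1 h2 => e1 y ⟨h1, h2⟩,
            good1 := fun Z h => e2 Z (by simpa using h) }⟩
  · rw [neg_mul, inv_mul_cancel₀ hlogneg.ne]
  · rw [← inv_neg, lt_inv_comm₀ (by positivity) (by linarith)]
    rw [← Real.log_inv]
    have h6 : 0 < (2 * e)⁻¹ := by positivity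
    have := Real.log_lt_sub_one_of_pos h6 (by
      intro h7
      have : 2 * e = 1 := by
        have := inv_eq_one.1 h7
        exact this
      linarith)
    linarith

end Pool.Agent.Helper331
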