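import Mathlib

set_option autoImplicit false

open Set Filter Topology
open scoped ContDiff

namespace Pool.Agent.Helper331

/-- `exp (i θ)` -/
noncomputable def cis (θ : ℝ) : ℂ := Complex.exp (θ * Complex.I)

theorem cis_add (a b : ℝ) : cis (a + b) = cis a * cis b := by
  unfold cis; rw [← Complex.exp_add]; congr 1; push_cast; ring

theorem cis_zero : cis 0 = 1 := by simp [cis]

theorem cis_pi : cis Real.pi = -1 := by simp [cis]

theorem cis_add_pi (a : ℝ) : cis (a + Real.pi) = -cis a := by rw [cis_add, cis_pi]; ring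

theorem cis_ne_zero (a : ℝ) : cis a ≠ 0 := Complex.exp_ne_zero _

theorem norm_cis (a : ℝ) : ‖cis a‖ = 1 := Complex.norm_exp_ofReal_mul_I a

theorem cis_re (a : ℝ) : (cis a).re = Real.cos a := Complex.exp_ofReal_mul_I_re a

theorem cis_im (a : ℝ) : (cis a).im = Real.sin a := Complex.exp_ofReal_mul_I_im a

theorem cis_two_mul (a : ℝ) : cis (2 * a) = cis a ^ 2 := by rw [two_mul, cis_add]; ring

theorem cis_neg_mul (a : ℝ) : cis (-a) * cis a = 1 := by rw [← cis_add]; simp [cis_zero]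

theorem cis_eq_iff {a b : ℝ} (h : cis a = cis b) : ∃ n : ℤ, a = b + n * (2 * Real.pi) := by
  unfold cis at h
  rw [Complex.exp_eq_exp_iff_exists_int] at h
  obtain ⟨n, hn⟩ := h
  refine ⟨n, ?_⟩
  have h1 : ((a : ℂ)) = ((b + n * (2 * Real.pi) : ℝ) : ℂ) := by
    have h2 : (a : ℂ) * Complex.I = ((b + n * (2 * Real.pi) : ℝ) : ℂ) * Complex.I := by
      rw [hn]; push_cast; ring
    exact mul_right_cancel₀ Complex.I_ne_zero h2
  exact_mod_cast h1

theorem cis_contDiff : ContDiff ℝ ∞ cis := by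
  unfold cis
  have h1 : ContDiff ℝ ∞ (fun θ : ℝ => (θ : ℂ) * Complex.I) :=
    Complex.ofRealCLM.contDiff.mul contDiff_const
  exact Complex.contDiff_exp.comp h1

theorem cis_continuous : Continuous cis := cis_contDiff.continuous

theorem cis_hasDerivAt (θ : ℝ) : HasDerivAt cis (Complex.I * cis θ) θ := by
  have h1 : HasDerivAt (fun θ : ℝ => (θ : ℂ) * Complex.I) (1 * Complex.I) θ :=
    (Complex.ofRealCLM.hasDerivAt (x := θ)).mul_const Complex.I
  have h2 := (Complex.hasDerivAt_exp ((θ : ℂ) * Complex.I)).comp θ h1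
  exact h2.congr_deriv (by simp only [cis]; ring)

/-- the band map with centre `c` and profile `(A, B)` -/
noncomputable def Ph (c : ℝ) (A B : ℝ → ℝ) (x : ℝ × ℝ) : ℂ × ℂ :=
  (c + A x.2 * cis x.1, c^2 + 2 * c * (A x.2 * cis x.1) + B x.2 * cis (2 * x.1))

/-- the discriminant -/
noncomputable def Om (c : ℝ) (y : ℂ × ℂ) : ℂ := y.2 - 2 * c * y.1 + c^2

theorem Om_continuous (c : ℝ) : Continuous (Om c) := by unfold Om; fun_prop

theorem Om_Ph (c : ℝ) (A B : ℝ → ℝ) (x : ℝ × ℝ) : Om c (Ph c A B x) = B x.2 * cis (2 * x.1) := by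
  simp only [Om, Ph]; ring

theorem Ph_contDiff (c : ℝ) {A B : ℝ → ℝ} (hA : ContDiff ℝ ∞ A) (hB : ContDiff ℝ ∞ B) :
    ContDiff ℝ ∞ (Ph c A B) := by
  have h1 : ContDiff ℝ ∞ (fun x : ℝ × ℝ => ((A x.2 : ℝ) : ℂ)) :=
    Complex.ofRealCLM.contDiff.comp (hA.comp contDiff_snd)
  have h2 : ContDiff ℝ ∞ (fun x : ℝ × ℝ => ((B x.2 : ℝ) : ℂ)) :=
    Complex.ofRealCLM.contDiff.comp (hB.comp contDiff_snd)
  have h3 : ContDiff ℝ ∞ (fun x : ℝ × ℝ => cis x.1) := cis_contDiff.comp contDiff_fst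
  have h4 : ContDiff ℝ ∞ (fun x : ℝ × ℝ => cis (2 * x.1)) :=
    cis_contDiff.comp (contDiff_const.mul contDiff_fst)
  exact (contDiff_const.add (h1.mul h3)).prodMk
    ((contDiff_const.add (contDiff_const.mul (h1.mul h3))).add (h2.mul h4))

/-- requirements on a profile -/
structure Prof (A B : ℝ → ℝ) (ρ : ℝ) : Prop where
  hA : ContDiff ℝ ∞ A
  hB : ContDiff ℝ ∞ B
  odd : ∀ a, A (-a) = -A a
  even : ∀ a, B (-a) = B a
  pos : ∀ a, |a| ≤ ρ → 0 < B a
  inj : ∀ a b, |a| ≤ ρ → |b| ≤ ρ → A a = A b → B a = B b → a = b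
  imm : ∀ a, |a| < ρ → deriv A a ≠ 0 ∨ deriv B a ≠ 0
  rho_pos : 0 < ρ

variable {c : ℝ} {A B : ℝ → ℝ} {ρ : ℝ}

theorem Prof.continuous (h : Prof A B ρ) : Continuous (Ph c A B) :=
  (Ph_contDiff c h.hA h.hB).continuous

/-- the deck transformation -/
noncomputable def fl (x : ℝ × ℝ) : ℝ × ℝ := (x.1 + Real.pi, -x.2)

theorem Prof.flip (h : Prof A B ρ) (x : ℝ × ℝ) : Ph c A B (fl x) = Ph c A B x := by
  simp only [Ph, fl, h.odd, h.even]
  have e : 2 * (x.1 + Real.pi) = 2 * x.1 + Real.pi + Real.pi := by ring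
  rw [e, cis_add_pi, cis_add_pi, cis_add_pi]
  push_cast
  simp

theorem Prof.eq_of_angle (h : Prof A B ρ) {x y : ℝ × ℝ} (hx : |x.2| ≤ ρ) (hy : |y.2| ≤ ρ)
    (h1 : x.1 = y.1) (he : Ph c A B x = Ph c A B y) : x = y := by
  obtain ⟨s, a⟩ := x
  obtain ⟨t, b⟩ := y
  simp only at hx hy h1
  subst h1
  have hO : Om c (Ph c A B (s, a)) = Om c (Ph c A B (s, b)) := by rw [he]
  rw [Om_Ph, Om_Ph] at hO
  simp only at hO
  have hB : (B a : ℂ) = B b := mul_right_cancel₀ (cis_ne_zero _) hO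
  have h2 := congrArg Prod.fst he
  simp only [Ph] at h2
  have hA : (A a : ℂ) = A b := mul_right_cancel₀ (cis_ne_zero _) (add_left_cancel h2)
  have : a = b := h.inj a b hx hy (by exact_mod_cast hA) (by exact_mod_cast hB)
  rw [this]

theorem Prof.angle (h : Prof A B ρ) {x y : ℝ × ℝ} (hx : |x.2| ≤ ρ) (hy : |y.2| ≤ ρ)
    (he : Ph c A B x = Ph c A B y) : ∃ n : ℤ, y.1 = x.1 + n * Real.pi := by
  have hO : Om c (Ph c A B x) = Om c (Ph c A B y) := by rw [he]
  rw [Om_Ph, Om_Ph] at hO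
  have hn := congrArg norm hO
  rw [norm_mul, norm_mul, norm_cis, norm_cis, Complex.norm_real, Complex.norm_real,
    Real.norm_of_nonneg (h.pos _ hx).le, Real.norm_of_nonneg (h.pos _ hy).le, mul_one, mul_one] at hn
  rw [hn] at hO
  have hne : ((B y.2 : ℝ) : ℂ) ≠ 0 := by exact_mod_cast (h.pos _ hy).ne'
  obtain ⟨n, hn⟩ := cis_eq_iff (mul_left_cancel₀ hne hO)
  refine ⟨-n, ?_⟩
  push_cast
  linarith

theorem Prof.injOn (h : Prof A B ρ) (θ : ℝ) :
    InjOn (Ph c A B) (Icc (θ - Real.pi/4) (θ + Real.pi/4) ×ˢ Icc (-ρ) ρ) := by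
  intro x hx y hy he
  have hx2 : |x.2| ≤ ρ := abs_le.2 hx.2
  have hy2 : |y.2| ≤ ρ := abs_le.2 hy.2
  obtain ⟨n, hn⟩ := h.angle hx2 hy2 he
  have hpi := Real.pi_pos
  have h1 := hx.1.1
  have h2 := hx.1.2
  have h3 := hy.1.1
  have h4 := hy.1.2
  have hn0 : n = 0 := by
    have a1 : (n : ℝ) * Real.pi < 1 * Real.pi := by linarith
    have a2 : (-1 : ℝ) * Real.pi < n * Real.pi := by linarith
    have b1 : (n : ℝ) < 1 := lt_of_mul_lt_mul_right a1 hpi.le
    have b2 : (-1 : ℝ) < n := lt_of_mul_lt_mul_right a2 hpi.le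
    have c1 : n < 1 := by exact_mod_cast b1
    have c2 : -1 < n := by exact_mod_cast b2
    omega
  rw [hn0] at hn
  exact h.eq_of_angle hx2 hy2 (by simpa using hn.symm) he

/-- selection of the representative with angle close to `θ`. -/
theorem Prof.select (h : Prof A B ρ) {θ : ℝ} {x : ℝ × ℝ} (hx : |x.2| < ρ)
    (hre : 0 < (Om c (Ph c A B x) * cis (-(2 * θ))).re) :
    ∃ x' : ℝ × ℝ, x'.1 ∈ Ioo (θ - Real.pi/4) (θ + Real.pi/4) ∧ |x'.2| < ρ ∧
      Ph c A B x' = Ph c A B x := by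
  have hpi := Real.pi_pos
  -- general: angles differ by multiples of pi
  have key : ∀ (n : ℤ), ∃ x' : ℝ × ℝ, x'.1 = x.1 + n * Real.pi ∧ |x'.2| < ρ ∧
      Ph c A B x' = Ph c A B x := by
    intro n
    induction n using Int.induction_on with
    | zero => exact ⟨x, by simp, hx, rfl⟩
    | succ n ih =>
      obtain ⟨x', h1, h2, h3⟩ := ih
      refine ⟨fl x', ?_, ?_, ?_⟩
      · simp only [fl]; rw [h1]; push_cast; ring
      · simp only [fl]; rw [abs_neg]; exact h2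
      · rw [h.flip]; exact h3
    | pred n ih =>
      obtain ⟨x', h1, h2, h3⟩ := ih
      refine ⟨(x'.1 - Real.pi, -x'.2), ?_, ?_, ?_⟩
      · simp only; rw [h1]; push_cast; ring
      · simp only; rw [abs_neg]; exact h2
      · rw [← h3, ← h.flip (c := c) (x'.1 - Real.pi, -x'.2)]
        congr 1
        simp [fl]
  obtain ⟨n, hn, -⟩ := existsUnique_add_zsmul_mem_Ioc hpi x.1 (θ - Real.pi/2)
  rw [zsmul_eq_mul] at hn
  obtain ⟨x', h1, h2, h3⟩ := key n
  refine ⟨x', ?_, h2, h3⟩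
  rw [← h3, Om_Ph, mul_assoc, ← cis_add, Complex.re_ofReal_mul, cis_re] at hre
  have hB := h.pos _ h2.le
  have hcos : 0 < Real.cos (2 * (x'.1 - θ)) := by
    have e : 2 * x'.1 + -(2 * θ) = 2 * (x'.1 - θ) := by ring
    rw [e] at hre
    exact (pos_iff_pos_of_mul_pos hre).1 hB
  rw [← h1] at hn
  have hn1 : -(Real.pi/2) < x'.1 - θ := by have := hn.1; linarith
  have hn2 : x'.1 - θ ≤ Real.pi/2 := by have := hn.2; linarith
  constructor
  · by_contra hc
    push Not at hc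
    have : Real.cos (2 * (x'.1 - θ)) ≤ 0 := by
      rw [← Real.cos_neg]
      apply Real.cos_nonpos_of_pi_div_two_le_of_le <;> linarith
    linarith
  · by_contra hc
    push Not at hc
    have : Real.cos (2 * (x'.1 - θ)) ≤ 0 := by
      apply Real.cos_nonpos_of_pi_div_two_le_of_le <;> linarith
    linarith

/-- the standard box around angle `θ` -/
def Bx (θ ρ : ℝ) : Set (ℝ × ℝ) := Ioo (θ - Real.pi/4) (θ + Real.pi/4) ×ˢ Ioo (-ρ) ρ

theorem Bx_open (θ ρ : ℝ) : IsOpen (Bx θ ρ) := isOpen_Ioo.prod isOpen_Ioo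

theorem mem_Bx_self {x : ℝ × ℝ} (hx : |x.2| < ρ) : x ∈ Bx x.1 ρ := by
  have hpi := Real.pi_pos
  exact ⟨⟨by linarith, by linarith⟩, abs_lt.1 hx⟩

/-- openness of the band map onto a set `M`. -/
theorem Prof.hopen (h : Prof A B ρ) {M W : Set (ℂ × ℂ)} (hW : IsOpen W)
    (hMW : ∀ y, y ∈ M ∩ W ↔ ∃ x : ℝ × ℝ, |x.2| < ρ ∧ Ph c A B x = y) (θ : ℝ) :
    ∀ O ⊆ Bx θ ρ, IsOpen O → ∃ W' : Set (ℂ × ℂ), IsOpen W' ∧ Ph c A B '' O = M ∩ W' := by
  intro O hO hOo
  have hpi := Real.pi_pos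
  set K : Set (ℝ × ℝ) := Icc (θ - Real.pi/4) (θ + Real.pi/4) ×ˢ Icc (-ρ) ρ with hK
  have hKc : IsCompact K := isCompact_Icc.prod isCompact_Icc
  have hOK : O ⊆ K := fun x hx =>
    ⟨Ioo_subset_Icc_self (hO hx).1, Ioo_subset_Icc_self (hO hx).2⟩
  have hclosed : IsClosed (Ph c A B '' (K \ O)) :=
    ((hKc.diff hOo).image h.continuous).isClosed
  refine ⟨W ∩ {y | 0 < (Om c y * cis (-(2 * θ))).re} ∩ (Ph c A B '' (K \ O))ᶜ, ?_, ?_⟩
  · refine (hW.inter ?_).inter hclosed.isOpen_compl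
    apply isOpen_lt continuous_const
    exact Complex.continuous_re.comp ((Om_continuous c).mul continuous_const)
  · ext y
    constructor
    · rintro ⟨x, hx, rfl⟩
      have hxB := hO hx
      have hx2 : |x.2| < ρ := abs_lt.2 hxB.2
      have hM := (hMW (Ph c A B x)).2 ⟨x, hx2, rfl⟩
      refine ⟨hM.1, ⟨hM.2, ?_⟩, ?_⟩
      · change 0 < (Om c (Ph c A B x) * cis (-(2 * θ))).re
        rw [Om_Ph, mul_assoc, ← cis_add, Complex.re_ofReal_mul, cis_re]
        apply mul_pos (h.pos _ hx2.le)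
        have e : 2 * x.1 + -(2 * θ) = 2 * (x.1 - θ) := by ring
        rw [e]
        have h1 := hxB.1.1
        have h2 := hxB.1.2
        apply Real.cos_pos_of_mem_Ioo
        constructor <;> linarith
      · rintro ⟨x', hx', hxx'⟩
        have := h.injOn θ hx'.1 (hOK hx) hxx'
        rw [this] at hx'
        exact hx'.2 hx
    · rintro ⟨hyM, ⟨hyW, hyre⟩, hyn⟩
      obtain ⟨x, hx, rfl⟩ := (hMW y).1 ⟨hyM, hyW⟩
      obtain ⟨x', h1, h2, h3⟩ := h.select hx hyre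
      by_cases hx'O : x' ∈ O
      · exact ⟨x', hx'O, h3⟩
      · exfalso
        apply hyn
        exact ⟨x', ⟨⟨Ioo_subset_Icc_self h1, abs_le.1 h2.le⟩, hx'O⟩, h3⟩

/-- local inverse of a locally open injective parametrisation -/
theorem exists_section {E F : Type*} [TopologicalSpace E] [TopologicalSpace F] [Nonempty F]
    {M : Set E} {Φ : F → E} {V : Set F} (hV : IsOpen V) (hinj : InjOn Φ V)
    (hopen : ∀ O ⊆ V, IsOpen O → ∃ W : Set E, IsOpen W ∧ Φ '' O = M ∩ W) :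
    ∃ g : M → F, ContinuousOn g {m | (m : E) ∈ Φ '' V} ∧
      ∀ m : M, (m : E) ∈ Φ '' V → g m ∈ V ∧ Φ (g m) = m := by
  classical
  have hg : ∀ m : M, (m : E) ∈ Φ '' V →
      Function.invFunOn Φ V (m : E) ∈ V ∧ Φ (Function.invFunOn Φ V (m : E)) = m := fun m hm =>
    ⟨Function.invFunOn_mem hm, Function.invFunOn_eq hm⟩
  refine ⟨fun m => Function.invFunOn Φ V (m : E), ?_, hg⟩
  intro m hm
  apply ContinuousAt.continuousWithinAt
  rw [ContinuousAt, tendsto_nhds]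
  intro O' hO' hmO'
  obtain ⟨W, hW, hWe⟩ := hopen (O' ∩ V) inter_subset_right (hO'.inter hV)
  have hmW : (m : E) ∈ W := by
    have : (m : E) ∈ Φ '' (O' ∩ V) := ⟨_, ⟨hmO', (hg m hm).1⟩, (hg m hm).2⟩
    rw [hWe] at this
    exact this.2
  have : Subtype.val ⁻¹' W ∈ 𝓝 m := (hW.preimage continuous_subtype_val).mem_nhds hmW
  filter_upwards [this] with m' hm'
  have hm'' : (m' : E) ∈ Φ '' (O' ∩ V) := by rw [hWe]; exact ⟨m'.2, hm'⟩
  obtain ⟨v, hv, hvm⟩ := hm''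
  have hm3 : (m' : E) ∈ Φ '' V := ⟨v, hv.2, hvm⟩
  have : Function.invFunOn Φ V (m' : E) = v :=
    hinj (hg m' hm3).1 hv.2 ((hg m' hm3).2.trans hvm.symm)
  change Function.invFunOn Φ V (m' : E) ∈ O'
  rw [this]
  exact hv.1

/-- the band map is an immersion -/
theorem Prof.fderiv_inj (h : Prof A B ρ) {x : ℝ × ℝ} (hx : |x.2| < ρ) :
    Function.Injective (fderiv ℝ (Ph c A B) x) := by
  have hdA : HasDerivAt A (deriv A x.2) x.2 := ((h.hA.differentiable (by simp)) x.2).hasDerivAt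
  have hdB : HasDerivAt B (deriv B x.2) x.2 := ((h.hB.differentiable (by simp)) x.2).hasDerivAt
  have hd := ((Ph_contDiff c h.hA h.hB).differentiable (by simp) x).hasFDerivAt
  rw [injective_iff_map_eq_zero]
  rintro ⟨u, v⟩ huv
  -- the curve x + r (u, v)
  have hline : HasDerivAt (fun r : ℝ => x + r • ((u, v) : ℝ × ℝ)) ((u, v) : ℝ × ℝ) 0 := by
    have := ((hasDerivAt_id (0:ℝ)).smul_const ((u, v) : ℝ × ℝ)).const_add x
    simpa using this
  have h0 : x + (0:ℝ) • ((u, v) : ℝ × ℝ) = x := by simp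
  have hcomp : HasDerivAt (fun r : ℝ => Ph c A B (x + r • ((u, v) : ℝ × ℝ))) 0 0 := by
    have hd' : HasFDerivAt (Ph c A B) (fderiv ℝ (Ph c A B) x) (x + (0:ℝ) • ((u, v) : ℝ × ℝ)) := by
      rw [h0]; exact hd
    have := hd'.comp_hasDerivAt (0:ℝ) hline
    rw [huv] at this
    exact this
  -- components
  have hl1 : HasDerivAt (fun r : ℝ => x.1 + r * u) u 0 := by
    simpa using ((hasDerivAt_id (0:ℝ)).mul_const u).const_add x.1
  have hl2 : HasDerivAt (fun r : ℝ => x.2 + r * v) v 0 := by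
    simpa using ((hasDerivAt_id (0:ℝ)).mul_const v).const_add x.2
  have hAr : HasDerivAt (fun r : ℝ => ((A (x.2 + r * v) : ℝ) : ℂ)) ((deriv A x.2 * v : ℝ) : ℂ) 0 := by
    have hA' : HasDerivAt A (deriv A x.2) (x.2 + 0 * v) := by simpa using hdA
    exact (HasDerivAt.comp (h₂ := A) (h := fun r : ℝ => x.2 + r * v) 0 hA' hl2).ofReal_comp
  have hBr : HasDerivAt (fun r : ℝ => ((B (x.2 + r * v) : ℝ) : ℂ)) ((deriv B x.2 * v : ℝ) : ℂ) 0 := by
    have hB' : HasDerivAt B (deriv B x.2) (x.2 + 0 * v) := by simpa using hdB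
    exact (HasDerivAt.comp (h₂ := B) (h := fun r : ℝ => x.2 + r * v) 0 hB' hl2).ofReal_comp
  have hc1 : HasDerivAt (fun r : ℝ => cis (x.1 + r * u)) (u • (Complex.I * cis x.1)) 0 := by
    have hc' : HasDerivAt cis (Complex.I * cis x.1) (x.1 + 0 * u) := by
      simpa using cis_hasDerivAt x.1
    exact HasDerivAt.scomp (h := fun r : ℝ => x.1 + r * u) 0 hc' hl1
  have hc2 : HasDerivAt (fun r : ℝ => cis (2 * (x.1 + r * u)))
      ((2 * u) • (Complex.I * cis (2 * x.1))) 0 := by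
    have hc' : HasDerivAt cis (Complex.I * cis (2 * x.1)) (2 * (x.1 + 0 * u)) := by
      simpa using cis_hasDerivAt (2 * x.1)
    exact HasDerivAt.scomp (h := fun r : ℝ => 2 * (x.1 + r * u)) 0 hc' (hl1.const_mul 2)
  have hf1 := (hAr.mul hc1).const_add (c : ℂ)
  have hO : HasDerivAt (fun r : ℝ => Om c (Ph c A B (x + r • ((u, v) : ℝ × ℝ)))) 0 0 := by
    have hlin : HasFDerivAt (fun y : ℂ × ℂ => Om c y)
        (ContinuousLinearMap.snd ℝ ℂ ℂ - (2 * (c : ℂ)) • ContinuousLinearMap.fst ℝ ℂ ℂ)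
        (Ph c A B (x + (0:ℝ) • ((u, v) : ℝ × ℝ))) := by
      have h5 := ((ContinuousLinearMap.snd ℝ ℂ ℂ
        - (2 * (c : ℂ)) • ContinuousLinearMap.fst ℝ ℂ ℂ).hasFDerivAt
          (x := Ph c A B (x + (0:ℝ) • ((u, v) : ℝ × ℝ)))).add_const ((c:ℂ)^2)
      exact h5
    have h6 := hlin.comp_hasDerivAt (0:ℝ) hcomp
    rw [map_zero] at h6
    exact h6
  have hfst : HasDerivAt (fun r : ℝ => (Ph c A B (x + r • ((u, v) : ℝ × ℝ))).1) 0 0 := by
    have h6 := (ContinuousLinearMap.fst ℝ ℂ ℂ).hasFDerivAt.comp_hasDerivAt (0:ℝ) hcomp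
    rw [map_zero] at h6
    exact h6
  have e1 : (fun r : ℝ => (Ph c A B (x + r • ((u, v) : ℝ × ℝ))).1)
      = fun r : ℝ => (c : ℂ) + ((A (x.2 + r * v) : ℝ) : ℂ) * cis (x.1 + r * u) := by
    funext r; simp [Ph]
  have e2 : (fun r : ℝ => Om c (Ph c A B (x + r • ((u, v) : ℝ × ℝ))))
      = fun r : ℝ => ((B (x.2 + r * v) : ℝ) : ℂ) * cis (2 * (x.1 + r * u)) := by
    funext r; rw [Om_Ph]; simp
  rw [e1] at hfst
  rw [e2] at hO
  have E1 := hfst.unique hf1
  have E2 := hO.unique (hBr.mul hc2)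
  simp only [zero_mul, add_zero, Complex.real_smul] at E1 E2
  have F1 : ((deriv A x.2 * v : ℝ) : ℂ) + ((A x.2 * u : ℝ) : ℂ) * Complex.I = 0 := by
    have : (((deriv A x.2 * v : ℝ) : ℂ) + ((A x.2 * u : ℝ) : ℂ) * Complex.I) * cis x.1 = 0 := by
      rw [E1]; push_cast; ring
    exact (mul_eq_zero.1 this).resolve_right (cis_ne_zero _)
  have F2 : ((deriv B x.2 * v : ℝ) : ℂ) + ((B x.2 * (2 * u) : ℝ) : ℂ) * Complex.I = 0 := by
    have : (((deriv B x.2 * v : ℝ) : ℂ) + ((B x.2 * (2 * u) : ℝ) : ℂ) * Complex.I)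
        * cis (2 * x.1) = 0 := by
      rw [E2]; push_cast; ring
    exact (mul_eq_zero.1 this).resolve_right (cis_ne_zero _)
  have G1 : deriv A x.2 * v = 0 := by
    have := congrArg Complex.re F1
    simpa using this
  have G2 : deriv B x.2 * v = 0 := by
    have := congrArg Complex.re F2
    simpa using this
  have G3 : B x.2 * (2 * u) = 0 := by
    have := congrArg Complex.im F2
    simpa using this
  have hu : u = 0 := by
    have := (mul_eq_zero.1 G3).resolve_left (h.pos _ hx.le).ne'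
    linarith
  have hv : v = 0 := by
    rcases h.imm _ hx with h1 | h1
    · exact (mul_eq_zero.1 G1).resolve_left h1
    · exact (mul_eq_zero.1 G2).resolve_left h1
  rw [hu, hv]; rfl

end Pool.Agent.Helper331
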