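import Pool.Agent.Helper331.Hc
import Pool.Agent.Helper331.N3b

set_option autoImplicit false

open Set Filter Topology Function
open scoped ContDiff ComplexConjugate

namespace Pool.Agent.Helper331

/-- the auxiliary ambient space -/
abbrev AX : Type := (ℂ × ℂ) × (ℂ × ℝ)

/-- the involution -/
noncomputable def Sx (m : AX) : AX := ((-m.1.1, m.1.2), (conj m.2.1, -m.2.2))

theorem Sx_Sx (m : AX) : Sx (Sx m) = m := by
  simp [Sx]

theorem Sx_continuous : Continuous Sx := by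
  unfold Sx
  have h1 : Continuous (fun m : AX => conj m.2.1) := Complex.continuous_conj.comp (by fun_prop)
  fun_prop

/-! ### size of the graph function -/

theorem Fp_norm_le {p : ℝ} {Z : ℂ} : ‖Fp p Z‖ ≤ 2 * ‖Z‖^2 := by
  have h1 := Real.sqrt_nonneg (1 - 4 * p^2 * ‖Z‖^2)
  rw [Fp, norm_mul, norm_mul, norm_pow, Complex.norm_real, Complex.norm_ofNat,
    Real.norm_of_nonneg (by positivity)]
  have h2 : (1 + Real.sqrt (1 - 4 * p^2 * ‖Z‖^2))⁻¹ ≤ 1 := inv_le_one_of_one_le₀ (by linarith)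
  have h3 : 0 ≤ 2 * ‖Z‖^2 := by positivity
  nlinarith

theorem Fp_norm_ge {p : ℝ} {Z : ℂ} : ‖Z‖^2 ≤ ‖Fp p Z‖ := by
  have h1 := Real.sqrt_nonneg (1 - 4 * p^2 * ‖Z‖^2)
  rw [Fp, norm_mul, norm_mul, norm_pow, Complex.norm_real, Complex.norm_ofNat,
    Real.norm_of_nonneg (by positivity)]
  have h2 : (1/2 : ℝ) ≤ (1 + Real.sqrt (1 - 4 * p^2 * ‖Z‖^2))⁻¹ := by
    rw [one_div]
    apply inv_anti₀ (by positivity)
    have : Real.sqrt (1 - 4 * p^2 * ‖Z‖^2) ≤ 1 := by
      rw [Real.sqrt_le_one]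
      have : 0 ≤ 4 * p^2 * ‖Z‖^2 := by positivity
      linarith
    linarith
  have h3 : 0 ≤ 2 * ‖Z‖^2 := by positivity
  nlinarith

theorem Fp_neg (p : ℝ) (Z : ℂ) : Fp p (-Z) = Fp p Z := by
  simp [Fp]

/-! ### the auxiliary cutoff -/

noncomputable def hh (e r : ℝ) : ℝ :=
  Real.smoothTransition (2 - 4 * r) * Real.smoothTransition (2 - 4 * (e^2/r))

theorem hh_nonneg (e r : ℝ) : 0 ≤ hh e r :=
  mul_nonneg (Real.smoothTransition.nonneg _) (Real.smoothTransition.nonneg _)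

theorem hh_zero {e r : ℝ} (h : 1/2 ≤ r) : hh e r = 0 := by
  rw [hh, Real.smoothTransition.zero_of_nonpos (by linarith), zero_mul]

theorem hh_one {e r : ℝ} (h0 : 0 < e) (h1 : e ≤ 1/100) (h2 : e ≤ r) (h3 : r ≤ 1/4) :
    hh e r = 1 := by
  have h4 : e^2/r ≤ e := by
    rw [div_le_iff₀ (by linarith)]; nlinarith
  rw [hh, Real.smoothTransition.one_of_one_le (by linarith),
    Real.smoothTransition.one_of_one_le (by linarith), one_mul]

theorem hh_lt_one {e r : ℝ} (h : 1/4 < r) : hh e r < 1 := by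
  have h1 : Real.smoothTransition (2 - 4 * r) < 1 :=
    Real.smoothTransition.lt_one_of_lt_one (by linarith)
  have h2 := Real.smoothTransition.nonneg (2 - 4 * r)
  have h3 := Real.smoothTransition.le_one (2 - 4 * (e^2/r))
  have h4 := Real.smoothTransition.nonneg (2 - 4 * (e^2/r))
  rw [hh]
  nlinarith

theorem hh_pos {e r : ℝ} (h1 : r < 1/2) (h2 : e^2/r < 1/2) : 0 < hh e r :=
  mul_pos (Real.smoothTransition.pos_of_pos (by linarith))
    (Real.smoothTransition.pos_of_pos (by linarith))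

theorem hh_inv {e r : ℝ} (he : e ≠ 0) (hr : r ≠ 0) : hh e (e^2/r) = hh e r := by
  have : e^2/(e^2/r) = r := by field_simp
  rw [hh, hh, this, mul_comm]

/-- auxiliary coordinates on the annulus -/
noncomputable def Ng (e : ℝ) (y : ℂ) : ℂ × ℝ :=
  ((hh e ‖y‖ : ℂ) * (y * ((‖y‖⁻¹ : ℝ) : ℂ)), hh e ‖y‖ * Real.log (‖y‖ * e⁻¹))

theorem Ng_norm {e : ℝ} {y : ℂ} (hy : y ≠ 0) : ‖(Ng e y).1‖ = hh e ‖y‖ := by
  have hn : ‖y‖ ≠ 0 := norm_ne_zero_iff.2 hy
  rw [Ng, norm_mul, norm_mul, Complex.norm_real, Complex.norm_real,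
    Real.norm_of_nonneg (hh_nonneg _ _), Real.norm_of_nonneg (by positivity),
    mul_inv_cancel₀ hn, mul_one]

namespace HD

variable (H : HD)

theorem hp2 : 0 < H.p^2 := pow_pos H.hp 2

theorem big : 50 ≤ 1/(2 * H.p) := by
  have h1 := H.hp
  have h2 := H.hp1
  rw [le_div_iff₀ (by positivity)]; linarith

theorem big2 : 50 ≤ 1/(2 * H.p^2) := by
  have h1 := H.hp
  have h2 := H.hp1
  rw [le_div_iff₀ (by positivity)]; nlinarith

noncomputable def f (y : ℂ) : ℂ × ℂ := fp (H.p, H.c, H.e) y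

/-- parametrisation of the annulus -/
noncomputable def N (y : ℂ) : AX := (H.f y, Ng H.e y)

theorem N_inv {y : ℂ} (hy : y ≠ 0) (h1 : ‖y‖ ≤ 3/8) (h2 : H.e^2/‖y‖ ≤ 3/8) :
    H.N (H.e^2 / y) = Sx (H.N y) := by
  have he := H.he
  have hne : (H.e : ℂ) ≠ 0 := by exact_mod_cast he.ne'
  have hn : 0 < ‖y‖ := norm_pos_iff.2 hy
  have hny : ‖(H.e : ℂ)^2 / y‖ = H.e^2/‖y‖ := by
    rw [norm_div, norm_pow, Complex.norm_real, Real.norm_of_nonneg he.le]
  have hlog : H.c * Real.log (2 * (H.e^2/‖y‖)) = -2 - H.c * Real.log (2 * ‖y‖) := by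
    have e1 : 2 * (H.e^2/‖y‖) = (2 * H.e) * (2 * H.e) / (2 * ‖y‖) := by field_simp
    rw [e1, Real.log_div (by positivity) (by positivity), Real.log_mul (by positivity) (by positivity)]
    have := H.hlog
    linear_combination 2 * this
  apply Prod.ext
  · simp only [N, f, Sx]
    rw [fp_eq_nk (by rw [hny]; exact h2), fp_eq_nk h1, nk, nk, hny]
    simp only
    rw [hlog]
    apply Prod.ext
    · simp only
      push_cast
      field_simp
      ring
    · simp only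
      field_simp
      ring
  · simp only [N, Sx, Ng]
    rw [hny, hh_inv he.ne' hn.ne']
    apply Prod.ext
    · simp only
      rw [map_mul, map_mul, Complex.conj_ofReal, Complex.conj_ofReal]
      congr 1
      have h3 : conj y = (‖y‖^2 : ℝ) / y := by
        rw [eq_div_iff hy, mul_comm, Complex.mul_conj, Complex.normSq_eq_norm_sq]
      rw [h3]
      have hnc : ((‖y‖ : ℝ) : ℂ) ≠ 0 := by exact_mod_cast hn.ne'
      push_cast
      field_simp
    · simp only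
      have e2 : H.e^2/‖y‖ * H.e⁻¹ = (‖y‖ * H.e⁻¹)⁻¹ := by
        field_simp
      rw [e2, Real.log_inv]; ring

/-! ### the scaled Veronese surface -/

noncomputable def A (a : ℝ) : ℝ := Real.sin a / 2 / H.p

noncomputable def B (a : ℝ) : ℝ := (1 + Real.cos a) / 2 / H.p^2

/-- the scaled projected Veronese surface -/
noncomputable def V (x : ℝ × ℝ) : ℂ × ℂ := Ph 0 H.A H.B x

theorem V_fst (x : ℝ × ℝ) : (H.V x).1 = H.A x.2 * cis x.1 := by simp [V, Ph]

theorem V_snd (x : ℝ × ℝ) : (H.V x).2 = H.B x.2 * cis (2 * x.1) := by simp [V, Ph]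

theorem B_nonneg (a : ℝ) : 0 ≤ H.B a := by
  have := Real.neg_one_le_cos a
  have := H.hp2
  unfold B
  apply div_nonneg _ this.le
  linarith

theorem norm_V_snd (x : ℝ × ℝ) : ‖(H.V x).2‖ = H.B x.2 := by
  rw [H.V_snd, norm_mul, norm_cis, mul_one, Complex.norm_real, Real.norm_of_nonneg (H.B_nonneg _)]

theorem norm_V_fst (x : ℝ × ℝ) : ‖(H.V x).1‖^2 = Real.sin x.2^2 / (4 * H.p^2) := by
  rw [H.V_fst, norm_mul, norm_cis, mul_one, Complex.norm_real, Real.norm_eq_abs, sq_abs, A]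
  rw [div_div, div_pow]; ring

noncomputable def r1 : ℝ := Real.arccos (16 * H.p^2 - 1)

theorem cos_r1 : Real.cos H.r1 = 16 * H.p^2 - 1 := by
  have h1 := H.hp2
  have h2 := H.hp1
  have h3 := H.hp
  apply Real.cos_arccos
  · linarith
  · nlinarith

theorem r1_lt : H.r1 < Real.pi := by
  have h1 : H.r1 ≤ Real.pi := Real.arccos_le_pi _
  rcases eq_or_lt_of_le h1 with h | h
  · have h2 := H.cos_r1
    rw [h, Real.cos_pi] at h2
    have := H.hp2
    linarith
  · exact h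

theorem r1_nonneg : 0 ≤ H.r1 := Real.arccos_nonneg _

theorem r1_pos : 0 < H.r1 := by
  rcases eq_or_lt_of_le H.r1_nonneg with h | h
  · have h2 := H.cos_r1
    rw [← h, Real.cos_zero] at h2
    have h1 := H.hp2
    have h2 := H.hp1
    have h3 := H.hp
    nlinarith
  · exact h

theorem B_gt_iff {a : ℝ} (ha : |a| ≤ Real.pi) : 8 < H.B a ↔ |a| < H.r1 := by
  have hp2 := H.hp2
  have h1 := H.cos_r1
  have e : 8 < H.B a ↔ Real.cos H.r1 < Real.cos |a| := by
    rw [h1, Real.cos_abs, B, div_div, lt_div_iff₀ (by positivity)]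
    constructor <;> intro h <;> linarith
  rw [e]
  constructor
  · intro h
    by_contra hc
    push Not at hc
    have := Real.cos_le_cos_of_nonneg_of_le_pi H.r1_nonneg ha hc
    linarith
  · intro h
    exact Real.cos_lt_cos_of_nonneg_of_le_pi (abs_nonneg a) H.r1_lt.le h

theorem A_hasDerivAt (a : ℝ) : HasDerivAt H.A (Real.cos a / 2 / H.p) a :=
  ((Real.hasDerivAt_sin a).div_const 2).div_const H.p

theorem B_hasDerivAt (a : ℝ) : HasDerivAt H.B (-Real.sin a / 2 / H.p^2) a :=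
  (((Real.hasDerivAt_cos a).const_add 1).div_const 2).div_const (H.p^2)

theorem profV : Prof H.A H.B H.r1 where
  hA := by unfold A; fun_prop
  hB := by unfold B; fun_prop
  odd := fun a => by simp only [A, Real.sin_neg]; ring
  even := fun a => by simp only [B, Real.cos_neg]
  pos := by
    intro a ha
    have hp2 := H.hp2
    have h1 := Real.cos_le_cos_of_nonneg_of_le_pi (abs_nonneg a) H.r1_lt.le ha
    rw [H.cos_r1, Real.cos_abs] at h1
    unfold B
    apply div_pos _ hp2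
    linarith
  inj := by
    intro a b ha hb hA hB
    have hp := H.hp
    have hp2 := H.hp2
    have hcos : Real.cos a = Real.cos b := by
      simp only [B] at hB
      rw [div_left_inj' hp2.ne'] at hB
      linarith
    have hsin : Real.sin a = Real.sin b := by
      simp only [A] at hA
      rw [div_left_inj' hp.ne'] at hA
      linarith
    have h1 : Real.cos (a - b) = 1 := by
      rw [Real.cos_sub, hcos, hsin]; nlinarith [Real.sin_sq_add_cos_sq b]
    rw [Real.cos_eq_one_iff] at h1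
    obtain ⟨n, hn⟩ := h1
    have hpi := Real.pi_pos
    have h2 := H.r1_lt
    rw [abs_le] at ha hb
    have hn0 : n = 0 := by
      have a1 : (n : ℝ) * (2 * Real.pi) < 1 * (2 * Real.pi) := by linarith [ha.2, hb.1]
      have a2 : (-1 : ℝ) * (2 * Real.pi) < n * (2 * Real.pi) := by linarith [ha.1, hb.2]
      have b1 : (n : ℝ) < 1 := lt_of_mul_lt_mul_right a1 (by positivity)
      have b2 : (-1 : ℝ) < n := lt_of_mul_lt_mul_right a2 (by positivity)
      have c1 : n < 1 := by exact_mod_cast b1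
      have c2 : -1 < n := by exact_mod_cast b2
      omega
    rw [hn0] at hn
    simp at hn
    linarith
  imm := by
    intro a _
    have hp := H.hp
    have hp2 := H.hp2
    rw [(H.A_hasDerivAt a).deriv, (H.B_hasDerivAt a).deriv]
    by_cases h : Real.cos a = 0
    · right
      have h2 : Real.sin a ≠ 0 := by
        intro h1
        have := Real.sin_sq_add_cos_sq a
        rw [h, h1] at this
        norm_num at this
      exact div_ne_zero (div_ne_zero (neg_ne_zero.2 h2) (by norm_num)) hp2.ne'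
    · left
      exact div_ne_zero (div_ne_zero h (by norm_num)) hp.ne'
  rho_pos := H.r1_pos

/-- low points of the Veronese surface lie on the graph -/
theorem V_low {x : ℝ × ℝ} (h : ‖(H.V x).2‖ < 1/(2 * H.p^2)) :
    (H.V x).2 = Fp H.p (H.V x).1 ∧ ‖(H.V x).1‖ < 1/(2 * H.p) := by
  have hp := H.hp
  have hp2 := H.hp2
  rw [H.norm_V_snd, B, div_div, div_lt_div_iff_of_pos_right (by positivity)] at h
  have hcos : Real.cos x.2 < 0 := by linarith
  have hn := H.norm_V_fst x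
  have hsc := Real.sin_sq_add_cos_sq x.2
  have hs : 1 - 4 * H.p^2 * ‖(H.V x).1‖^2 = (-Real.cos x.2)^2 := by
    rw [hn]; field_simp; linarith
  have hsq : Real.sqrt (1 - 4 * H.p^2 * ‖(H.V x).1‖^2) = -Real.cos x.2 := by
    rw [hs]; exact Real.sqrt_sq (by linarith)
  constructor
  · rw [Fp, hsq, H.V_fst, H.V_snd, mul_pow, cis_two_mul]
    have hne : (1 + -Real.cos x.2) ≠ 0 := by linarith
    have e : H.B x.2 = 2 * H.A x.2^2 * (1 + -Real.cos x.2)⁻¹ := by
      unfold A B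
      field_simp
      nlinarith
    rw [e]; push_cast; ring
  · apply lt_of_pow_lt_pow_left₀ 2 (by positivity)
    rw [hn, div_pow, one_pow, mul_pow]
    have : (2:ℝ)^2 = 4 := by norm_num
    rw [this]
    apply div_lt_div_of_pos_right _ (by positivity)
    nlinarith

/-- graph points lie on the Veronese surface -/
theorem V_graph {Z : ℂ} (h : ‖Z‖ < 1/(2 * H.p)) : ∃ x : ℝ × ℝ, H.V x = (Z, Fp H.p Z) := by
  have hp := H.hp
  have hp2 := H.hp2
  set m := ‖Z‖ with hm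
  have hm0 : 0 ≤ m := norm_nonneg _
  rw [lt_div_iff₀ (by positivity)] at h
  set t := Real.arcsin (2 * H.p * m) with ht
  have hsin : Real.sin t = 2 * H.p * m := Real.sin_arcsin (by have : 0 ≤ 2 * H.p * m := by positivity
                                                              linarith) (by linarith)
  have hcos : Real.cos t = Real.sqrt (1 - (2 * H.p * m)^2) := Real.cos_arcsin _
  have hs : (2 * H.p * m)^2 = 4 * H.p^2 * m^2 := by ring
  rw [hs] at hcos
  have hz : (m : ℂ) * cis (Complex.arg Z) = Z := Complex.norm_mul_exp_arg_mul_I Z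
  have hsc := Real.sin_sq_add_cos_sq t
  refine ⟨(Complex.arg Z, Real.pi - t), ?_⟩
  have hA : H.A (Real.pi - t) = m := by
    rw [A, Real.sin_pi_sub, hsin]; field_simp
  have hcn : 0 ≤ Real.cos t := by rw [hcos]; exact Real.sqrt_nonneg _
  have hB : H.B (Real.pi - t) = 2 * m^2 * (1 + Real.sqrt (1 - 4 * H.p^2 * m^2))⁻¹ := by
    rw [B, Real.cos_pi_sub, ← hcos]
    have hne : 1 + Real.cos t ≠ 0 := by linarith
    rw [hsin] at hsc
    field_simp
    nlinarith
  apply Prod.ext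
  · rw [H.V_fst]; simp only; rw [hA, hz]
  · rw [H.V_snd]
    simp only
    rw [hB, cis_two_mul, Fp, ← hm]
    push_cast
    have h5 : (2 : ℂ) * Z^2 = 2 * ((m : ℂ) * cis (Complex.arg Z))^2 := by rw [hz]
    rw [h5]; ring

theorem Fp_small {Z : ℂ} (h : ‖Z‖ ≤ 3) : ‖Fp H.p Z‖ < 1/(2 * H.p^2) := by
  have h1 := Fp_norm_le (p := H.p) (Z := Z)
  have h2 := H.big2
  have h3 := norm_nonneg Z
  nlinarith

/-! ### the surface -/

/-- the open discs which are removed -/
def Dop : Set (ℂ × ℂ) := {x | ‖x.2‖ < 1/(2 * H.p^2) ∧ (‖x.1 - 1‖ < 1/2 ∨ ‖x.1 + 1‖ < 1/2)}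

theorem Dop_open : IsOpen H.Dop := by
  have h1 : Continuous (fun x : ℂ × ℂ => ‖x.2‖) := by fun_prop
  have h2 : Continuous (fun x : ℂ × ℂ => ‖x.1 - 1‖) := by fun_prop
  have h3 : Continuous (fun x : ℂ × ℂ => ‖x.1 + 1‖) := by fun_prop
  exact (isOpen_lt h1 continuous_const).inter
    ((isOpen_lt h2 continuous_const).union (isOpen_lt h3 continuous_const))

/-- unchanged part -/
def MV : Set AX := {m | (∃ x, H.V x = m.1) ∧ m.1 ∉ H.Dop ∧ m.2 = 0}

/-- new annulus -/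
def MA : Set AX := {m | ∃ y : ℂ, H.e ≤ ‖y‖ ∧ ‖y‖ ≤ 1/2 ∧ (H.N y = m ∨ Sx (H.N y) = m)}

/-- the surface -/
def M : Set AX := H.MV ∪ H.MA

theorem N_fst (y : ℂ) : (H.N y).1 = H.f y := rfl

theorem ne_zero_of {y : ℂ} (h : H.e ≤ ‖y‖) : y ≠ 0 := by
  intro h0
  rw [h0, norm_zero] at h
  linarith [H.he]

/-- deviation of the first coordinate -/
theorem f_fst_near {y : ℂ} (h1 : 1/4 < ‖y‖) (h2 : ‖y‖ ≤ 1/2) :
    ‖(H.f y).1 - (1 + y)‖ ≤ 1/8 := by
  have he := H.he
  have he1 := H.he1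
  have hc0 : 0 < H.c := lt_trans (by linarith) H.hc
  have hc1 := H.hc1
  have hy0 : 0 < ‖y‖ := by linarith
  have e : (H.f y).1 - (1 + y) = (chi ‖y‖ : ℂ) * (((H.c * Real.log (2 * ‖y‖) : ℝ) : ℂ)
      - (H.e : ℂ)^2 * y⁻¹) := by
    simp only [f, fp]; ring
  rw [e, norm_mul, Complex.norm_real, Real.norm_of_nonneg (chi_nonneg _)]
  have h3 : ‖(((H.c * Real.log (2 * ‖y‖) : ℝ) : ℂ) - (H.e : ℂ)^2 * y⁻¹)‖ ≤ 1/8 := by
    refine (norm_sub_le _ _).trans ?_
    have n1 : ‖((H.c * Real.log (2 * ‖y‖) : ℝ) : ℂ)‖ = H.c * |Real.log (2 * ‖y‖)| := by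
      rw [Complex.norm_real, Real.norm_eq_abs, abs_mul, abs_of_pos hc0]
    have n2 : ‖(H.e : ℂ)^2 * y⁻¹‖ = H.e^2 * ‖y‖⁻¹ := by
      rw [norm_mul, norm_pow, Complex.norm_real, norm_inv, Real.norm_of_nonneg he.le]
    rw [n1, n2]
    have h4 : |Real.log (2 * ‖y‖)| ≤ 1 := by
      rw [abs_le]
      constructor
      · have h5 : Real.log (1/2) ≤ Real.log (2 * ‖y‖) :=
          Real.log_le_log (by norm_num) (by linarith)
        have h6 : Real.log (1/2) = -Real.log 2 := by rw [one_div, Real.log_inv]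
        have := Real.log_two_lt_d9
        rw [h6] at h5
        linarith
      · have : Real.log (2 * ‖y‖) ≤ 0 := Real.log_nonpos (by positivity) (by linarith)
        linarith
    have h5 : ‖y‖⁻¹ ≤ 4 := by
      rw [inv_le_comm₀ hy0 (by norm_num)]; linarith
    have h6 : H.c * |Real.log (2 * ‖y‖)| ≤ 1/100 * 1 := by gcongr
    have h7 : H.e^2 * ‖y‖⁻¹ ≤ (1/100)^2 * 4 := by gcongr
    linarith
  have h4 := chi_le_one ‖y‖
  have h5 := chi_nonneg ‖y‖
  nlinarith [norm_nonneg (((H.c * Real.log (2 * ‖y‖) : ℝ) : ℂ) - (H.e : ℂ)^2 * y⁻¹)]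

theorem f_fst_near' {y : ℂ} (h1 : 1/4 < ‖y‖) (h2 : ‖y‖ ≤ 1/2) : ‖(H.f y).1 - 1‖ ≤ 5/8 := by
  have h3 := H.f_fst_near h1 h2
  have e : (H.f y).1 - 1 = ((H.f y).1 - (1 + y)) + y := by ring
  rw [e]
  refine (norm_add_le _ _).trans ?_
  linarith

theorem f_snd_le {y : ℂ} (h1 : H.e ≤ ‖y‖) (h2 : ‖y‖ ≤ 1/2) : ‖(H.f y).2‖ ≤ 8 := by
  have he := H.he
  have he1 := H.he1
  have hy0 : 0 < ‖y‖ := by linarith
  have h3 : ‖1 + y‖ ≤ 3/2 := by
    refine (norm_add_le _ _).trans ?_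
    rw [norm_one]; linarith
  have h30 := norm_nonneg (1 + y)
  have h4 : ‖Fp H.p (1 + y)‖ ≤ 8 := by
    have := Fp_norm_le (p := H.p) (Z := 1 + y)
    nlinarith
  have h5 : ‖(1 + y)^2 + 2 * (H.e : ℂ)^2 * y⁻¹ + (H.e : ℂ)^4 * (y⁻¹)^2‖ ≤ 8 := by
    refine (norm_add₃_le).trans ?_
    rw [norm_pow, norm_mul, norm_mul, norm_mul, norm_pow, norm_pow, norm_pow, norm_inv,
      Complex.norm_real, Real.norm_of_nonneg he.le, Complex.norm_ofNat]
    have h6 : H.e * ‖y‖⁻¹ ≤ 1 := by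
      rw [← div_eq_mul_inv, div_le_one hy0]; exact h1
    have h7 : 0 ≤ H.e * ‖y‖⁻¹ := by positivity
    have h8 : 2 * H.e^2 * ‖y‖⁻¹ = 2 * H.e * (H.e * ‖y‖⁻¹) := by ring
    have h9 : H.e^4 * ‖y‖⁻¹^2 = H.e^2 * (H.e * ‖y‖⁻¹)^2 := by ring
    rw [h8, h9]
    have h10 : (H.e * ‖y‖⁻¹)^2 ≤ 1 := by nlinarith
    nlinarith
  have e : (H.f y).2 = (1 - (chi ‖y‖ : ℂ)) * Fp H.p (1 + y) + (chi ‖y‖ : ℂ) *
     ((1 + y)^2 + 2 * (H.e : ℂ)^2 * y⁻¹ + (H.e : ℂ)^4 * (y⁻¹)^2) := rfl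
  have hc0 := chi_nonneg ‖y‖
  have hc1 := chi_le_one ‖y‖
  rw [e]
  refine (norm_add_le _ _).trans ?_
  rw [norm_mul, norm_mul]
  have h11 : ‖(1 : ℂ) - (chi ‖y‖ : ℂ)‖ = 1 - chi ‖y‖ := by
    rw [← Complex.ofReal_one, ← Complex.ofReal_sub, Complex.norm_real, Real.norm_of_nonneg]
    linarith
  rw [h11, Complex.norm_real, Real.norm_of_nonneg hc0]
  nlinarith

theorem lt_big2 {a : ℝ} (h : a ≤ 8) : a < 1/(2 * H.p^2) := by
  have := H.big2; linarith

theorem Dop_le {x : ℝ × ℝ} (h : H.V x ∈ H.Dop) : ‖(H.V x).2‖ ≤ 8 := by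
  obtain ⟨h1, h2⟩ := h
  obtain ⟨h3, -⟩ := H.V_low h1
  have h4 : ‖(H.V x).1‖ ≤ 3/2 := by
    rcases h2 with h | h
    · have := norm_add_le ((H.V x).1 - 1) 1
      rw [sub_add_cancel, norm_one] at this
      linarith
    · have := norm_sub_le ((H.V x).1 + 1) 1
      rw [add_sub_cancel_right, norm_one] at this
      linarith
  rw [h3]
  have := Fp_norm_le (p := H.p) (Z := (H.V x).1)
  have := norm_nonneg (H.V x).1
  nlinarith

/-- first open set: high part -/
def W0 : Set AX := {m | 8 < ‖m.1.2‖}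

theorem mem_W0_iff (m : AX) : m ∈ H.M ∩ {m | 8 < ‖m.1.2‖} ↔
    ∃ x : ℝ × ℝ, |x.2| < H.r1 ∧ (H.V x, (0 : ℂ × ℝ)) = m := by
  have hpi := Real.pi_pos
  constructor
  · rintro ⟨h | ⟨y, hy1, hy2, h⟩, hW⟩
    · obtain ⟨⟨x, hx⟩, -, h2⟩ := h
      have hW' : 8 < ‖m.1.2‖ := hW
      -- reduce the angle
      obtain ⟨n, hn, -⟩ := existsUnique_add_zsmul_mem_Ioc (show (0:ℝ) < 2 * Real.pi by positivity)
        x.2 (-Real.pi)
      rw [zsmul_eq_mul] at hn
      have ha : |x.2 + n * (2 * Real.pi)| ≤ Real.pi := by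
        rw [abs_le]; constructor <;> linarith [hn.1, hn.2]
      have hA : H.A (x.2 + n * (2 * Real.pi)) = H.A x.2 := by
        simp only [A, Real.sin_add_int_mul_two_pi]
      have hB : H.B (x.2 + n * (2 * Real.pi)) = H.B x.2 := by
        simp only [B, Real.cos_add_int_mul_two_pi]
      refine ⟨(x.1, x.2 + n * (2 * Real.pi)), ?_, ?_⟩
      · rw [← H.B_gt_iff ha, hB, ← H.norm_V_snd, hx]; exact hW'
      · apply Prod.ext
        · simp only
          rw [← hx, V, V, Ph, Ph]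
          simp only
          rw [hA, hB]
        · exact h2.symm
    · exfalso
      have hW' : 8 < ‖m.1.2‖ := hW
      have := H.f_snd_le hy1 hy2
      rcases h with h | h
      · rw [← h] at hW'
        change 8 < ‖(H.f y).2‖ at hW'
        linarith
      · rw [← h] at hW'
        change 8 < ‖(H.f y).2‖ at hW'
        linarith
  · rintro ⟨x, hx, rfl⟩
    have h1 : 8 < ‖(H.V x).2‖ := by
      rw [H.norm_V_snd, H.B_gt_iff (le_of_lt (hx.trans H.r1_lt))]; exact hx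
    refine ⟨Or.inl ⟨⟨x, rfl⟩, ?_, rfl⟩, h1⟩
    intro h2
    have := H.Dop_le h2
    linarith

/-- second open set: planar part -/
def W1 : Set AX := {m | ‖m.2.1‖ < 1 ∧ 5/8 < ‖m.1.1 - 1‖ ∧ 5/8 < ‖m.1.1 + 1‖ ∧ ‖m.1.1‖ < 3 ∧
  ‖m.1.2‖ < 1/(2 * H.p^2)}

def V1 : Set ℂ := {Z | 5/8 < ‖Z - 1‖ ∧ 5/8 < ‖Z + 1‖ ∧ ‖Z‖ < 3}

theorem lt_one_quarter {y : ℂ} (hy1 : H.e ≤ ‖y‖) (h : ‖(Ng H.e y).1‖ < 1) : 1/4 < ‖y‖ := by
  by_contra hc
  push Not at hc
  rw [Ng_norm (H.ne_zero_of hy1), hh_one H.he H.he1 hy1 hc] at h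
  exact lt_irrefl _ h

theorem mem_W1_iff (m : AX) : m ∈ H.M ∩ H.W1 ↔ ∃ Z ∈ V1, (gp H.p Z, (0 : ℂ × ℝ)) = m := by
  constructor
  · rintro ⟨h | ⟨y, hy1, hy2, h⟩, hW1, hW2, hW3, hW4, hW5⟩
    · obtain ⟨⟨x, hx⟩, -, h2⟩ := h
      rw [← hx] at hW5
      obtain ⟨h3, -⟩ := H.V_low hW5
      refine ⟨m.1.1, ⟨hW2, hW3, hW4⟩, ?_⟩
      rw [hx] at h3
      apply Prod.ext
      · exact Prod.ext rfl h3.symm
      · exact h2.symm
    · exfalso
      rcases h with h | h
      · rw [← h] at hW1 hW2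
        have h3 := H.lt_one_quarter hy1 hW1
        have h4 := H.f_fst_near' h3 hy2
        change 5/8 < ‖(H.f y).1 - 1‖ at hW2
        linarith
      · rw [← h] at hW1 hW3
        have hW1' : ‖conj (Ng H.e y).1‖ < 1 := hW1
        rw [Complex.norm_conj] at hW1'
        have h3 := H.lt_one_quarter hy1 hW1'
        have h4 := H.f_fst_near' h3 hy2
        change 5/8 < ‖-(H.f y).1 + 1‖ at hW3
        have e : -(H.f y).1 + 1 = -((H.f y).1 - 1) := by ring
        rw [e, norm_neg] at hW3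
        linarith
  · rintro ⟨Z, ⟨h1, h2, h3⟩, rfl⟩
    have h4 := H.big
    obtain ⟨x, hx⟩ := H.V_graph (Z := Z) (by linarith)
    refine ⟨Or.inl ⟨⟨x, hx⟩, ?_, rfl⟩, ?_, h1, h2, h3, H.Fp_small h3.le⟩
    · rintro ⟨-, h5 | h5⟩
      · change ‖Z - 1‖ < 1/2 at h5
        linarith
      · change ‖Z + 1‖ < 1/2 at h5
        linarith
    · simp

/-- third open set: transition zone -/
def W2 : Set AX := {m | ‖m.2.1‖ < 1 ∧ ‖m.1.1 - 1‖ < 3/4 ∧ ‖m.1.2‖ < 1/(2 * H.p^2)}

theorem N_outer {y : ℂ} (h : 1/2 ≤ ‖y‖) : H.N y = ((1 + y, Fp H.p (1 + y)), (0 : ℂ × ℝ)) := by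
  apply Prod.ext
  · exact fp_eq_V (by linarith)
  · simp only [N, Ng, hh_zero h]
    simp

theorem N_mem {y : ℂ} (h1 : H.e ≤ ‖y‖) (h2 : ‖y‖ < 3/4) : H.N y ∈ H.M := by
  rcases le_or_gt ‖y‖ (1/2) with h | h
  · exact Or.inr ⟨y, h1, h, Or.inl rfl⟩
  · left
    rw [H.N_outer h.le]
    have h3 : ‖1 + y‖ < 2 := by
      refine (norm_add_le _ _).trans_lt ?_
      rw [norm_one]; linarith
    have h4 := H.big
    obtain ⟨x, hx⟩ := H.V_graph (Z := 1 + y) (by linarith)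
    refine ⟨⟨x, hx⟩, ?_, rfl⟩
    rintro ⟨-, h5 | h5⟩
    · have : (1 + y, Fp H.p (1 + y)).1 - 1 = y := by simp
      rw [this] at h5
      linarith
    · have h6 : (1 + y, Fp H.p (1 + y)).1 + 1 = 2 + y := by simp only; ring
      rw [h6] at h5
      have h7 := norm_sub_norm_le (2 : ℂ) (-y)
      rw [norm_neg, sub_neg_eq_add, Complex.norm_ofNat] at h7
      linarith

theorem mem_W2_iff (m : AX) : m ∈ H.M ∩ H.W2 ↔ ∃ y : ℂ, (1/4 < ‖y‖ ∧ ‖y‖ < 3/4) ∧ H.N y = m := by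
  have he1 := H.he1
  constructor
  · rintro ⟨h | ⟨y, hy1, hy2, h⟩, hW1, hW2, hW3⟩
    · obtain ⟨⟨x, hx⟩, hD, h2⟩ := h
      have hW3' := hW3
      rw [← hx] at hW3'
      obtain ⟨h3, -⟩ := H.V_low hW3'
      rw [hx] at h3
      have h4 : 1/2 ≤ ‖m.1.1 - 1‖ := by
        by_contra hc
        push Not at hc
        exact hD ⟨hW3, Or.inl hc⟩
      refine ⟨m.1.1 - 1, ⟨by linarith, hW2⟩, ?_⟩
      rw [H.N_outer h4]
      have e : (1 : ℂ) + (m.1.1 - 1) = m.1.1 := by ring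
      rw [e]
      apply Prod.ext
      · exact Prod.ext rfl h3.symm
      · exact h2.symm
    · rcases h with h | h
      · rw [← h] at hW1
        have h3 := H.lt_one_quarter hy1 hW1
        exact ⟨y, ⟨h3, by linarith⟩, h⟩
      · exfalso
        rw [← h] at hW1 hW2
        have hW1' : ‖conj (Ng H.e y).1‖ < 1 := hW1
        rw [Complex.norm_conj] at hW1'
        have h3 := H.lt_one_quarter hy1 hW1'
        have h4 := H.f_fst_near' h3 hy2
        change ‖-(H.f y).1 - 1‖ < 3/4 at hW2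
        have h5 := norm_add_le (-(H.f y).1 - 1) ((H.f y).1 - 1)
        have e : -(H.f y).1 - 1 + ((H.f y).1 - 1) = -2 := by ring
        rw [e, norm_neg, Complex.norm_ofNat] at h5
        linarith
  · rintro ⟨y, ⟨h1, h2⟩, rfl⟩
    have hy0 : y ≠ 0 := by
      intro h0; rw [h0, norm_zero] at h1; norm_num at h1
    refine ⟨H.N_mem (by linarith) h2, ?_, ?_, ?_⟩
    · change ‖(Ng H.e y).1‖ < 1
      rw [Ng_norm hy0]; exact hh_lt_one h1
    · change ‖(H.f y).1 - 1‖ < 3/4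
      rcases le_or_gt ‖y‖ (1/2) with h | h
      · have := H.f_fst_near' h1 h
        linarith
      · have := congrArg (fun m : AX => m.1.1) (H.N_outer h.le)
        change (H.f y).1 = 1 + y at this
        rw [this, add_sub_cancel_left]
        exact h2
    · change ‖(H.f y).2‖ < 1/(2 * H.p^2)
      rcases le_or_gt ‖y‖ (1/2) with h | h
      · exact H.lt_big2 (H.f_snd_le (by linarith) h)
      · have := congrArg (fun m : AX => m.1.2) (H.N_outer h.le)
        change (H.f y).2 = Fp H.p (1 + y) at this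
        rw [this]
        apply H.Fp_small
        refine (norm_add_le _ _).trans ?_
        rw [norm_one]; linarith

/-- fourth open set: the neck -/
def W3 : Set AX := {m | m.2.1 ≠ 0 ∧ |m.2.2| < ‖m.2.1‖ * Real.log (3/(8 * H.e))}

def V3 : Set ℂ := {y | 8/3 * H.e^2 < ‖y‖ ∧ ‖y‖ < 3/8}

theorem V3_ne {y : ℂ} (h : y ∈ H.V3) : y ≠ 0 := by
  intro h0
  have h1 := h.1
  rw [h0, norm_zero] at h1
  have := sq_nonneg H.e
  linarith

theorem V3_div {y : ℂ} (h : y ∈ H.V3) : H.e^2/‖y‖ < 3/8 := by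
  have h0 : 0 < ‖y‖ := norm_pos_iff.2 (H.V3_ne h)
  rw [div_lt_iff₀ h0]
  have := h.1
  linarith

theorem V3_hh {y : ℂ} (h : y ∈ H.V3) : 0 < hh H.e ‖y‖ :=
  hh_pos (by linarith [h.2]) (by linarith [H.V3_div h])

theorem abs_log_lt {y : ℂ} (hy : y ≠ 0) :
    |Real.log (‖y‖ * H.e⁻¹)| < Real.log (3/(8 * H.e)) ↔ y ∈ H.V3 := by
  have he := H.he
  have hn : 0 < ‖y‖ := norm_pos_iff.2 hy
  rw [abs_lt, ← Real.log_inv, Real.log_lt_log_iff (by positivity) (by positivity),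
    Real.log_lt_log_iff (by positivity) (by positivity)]
  have e1 : (3/(8 * H.e))⁻¹ = 8/3 * H.e^2 * H.e⁻¹ := by field_simp
  have e2 : 3/(8 * H.e) = 3/8 * H.e⁻¹ := by field_simp
  rw [e1, e2, mul_lt_mul_iff_of_pos_right (by positivity), mul_lt_mul_iff_of_pos_right (by positivity)]
  rfl

theorem N_mem_W3 {y : ℂ} (h : y ∈ H.V3) : H.N y ∈ H.W3 := by
  have hy := H.V3_ne h
  have hpos := H.V3_hh h
  have hnorm := Ng_norm (e := H.e) hy
  refine ⟨?_, ?_⟩
  · change (Ng H.e y).1 ≠ 0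
    rw [← norm_ne_zero_iff, hnorm]; exact hpos.ne'
  · change |(Ng H.e y).2| < ‖(Ng H.e y).1‖ * Real.log (3/(8 * H.e))
    rw [hnorm]
    simp only [Ng]
    rw [abs_mul, abs_of_pos hpos]
    exact mul_lt_mul_of_pos_left ((H.abs_log_lt hy).2 h) hpos

theorem mem_W3_iff (m : AX) : m ∈ H.M ∩ H.W3 ↔ ∃ y ∈ H.V3, H.N y = m := by
  have he := H.he
  have he1 := H.he1
  have key : ∀ y : ℂ, H.e ≤ ‖y‖ → (Ng H.e y).1 ≠ 0 →
      |(Ng H.e y).2| < ‖(Ng H.e y).1‖ * Real.log (3/(8 * H.e)) → y ∈ H.V3 := by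
    intro y hy1 h1 h2
    have hy := H.ne_zero_of hy1
    have h3 : 0 < ‖(Ng H.e y).1‖ := norm_pos_iff.2 h1
    rw [Ng_norm hy] at h2 h3
    simp only [Ng] at h2
    rw [abs_mul, abs_of_pos h3] at h2
    exact (H.abs_log_lt hy).1 (lt_of_mul_lt_mul_left h2 h3.le)
  constructor
  · rintro ⟨h | ⟨y, hy1, hy2, h⟩, hW1, hW2⟩
    · exfalso
      obtain ⟨-, -, h2⟩ := h
      rw [h2] at hW1
      exact hW1 rfl
    · rcases h with h | h
      · rw [← h] at hW1 hW2
        exact ⟨y, key y hy1 hW1 hW2, h⟩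
      · rw [← h] at hW1 hW2
        have hW1' : conj (Ng H.e y).1 ≠ 0 := hW1
        have hW2' : |-(Ng H.e y).2| < ‖conj (Ng H.e y).1‖ * Real.log (3/(8 * H.e)) := hW2
        rw [Complex.norm_conj, abs_neg] at hW2'
        have h3 := key y hy1 (by
          intro h0; rw [h0] at hW1'; simp at hW1') hW2'
        have hy := H.V3_ne h3
        have hn : 0 < ‖y‖ := norm_pos_iff.2 hy
        have hny : ‖(H.e : ℂ)^2 / y‖ = H.e^2/‖y‖ := by
          rw [norm_div, norm_pow, Complex.norm_real, Real.norm_of_nonneg he.le]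
        refine ⟨H.e^2/y, ⟨?_, ?_⟩, ?_⟩
        · rw [hny, lt_div_iff₀ hn]
          have := h3.2
          have : 0 < H.e^2 := by positivity
          nlinarith
        · rw [hny]; exact H.V3_div h3
        · rw [H.N_inv hy h3.2.le (H.V3_div h3).le]; exact h
  · rintro ⟨y, hy, rfl⟩
    refine ⟨?_, H.N_mem_W3 hy⟩
    rcases le_or_gt H.e ‖y‖ with h | h
    · exact H.N_mem h (by linarith [hy.2])
    · right
      have hy0 := H.V3_ne hy
      have hn : 0 < ‖y‖ := norm_pos_iff.2 hy0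
      have hny : ‖(H.e : ℂ)^2 / y‖ = H.e^2/‖y‖ := by
        rw [norm_div, norm_pow, Complex.norm_real, Real.norm_of_nonneg he.le]
      have h1 : H.e ≤ H.e^2/‖y‖ := by
        rw [le_div_iff₀ hn]; nlinarith
      refine ⟨H.e^2/y, by rw [hny]; exact h1, by rw [hny]; linarith [H.V3_div hy], Or.inr ?_⟩
      rw [H.N_inv hy0 hy.2.le (H.V3_div hy).le, Sx_Sx]

theorem V_symm (x : ℝ × ℝ) : H.V (x.1 + Real.pi, x.2) = (-(H.V x).1, (H.V x).2) := by
  apply Prod.ext
  · rw [H.V_fst, H.V_fst, cis_add_pi]; ring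
  · rw [H.V_snd, H.V_snd]
    simp only
    have e : 2 * (x.1 + Real.pi) = 2 * x.1 + Real.pi + Real.pi := by ring
    rw [e, cis_add_pi, cis_add_pi, neg_neg]

theorem Sx_mem {m : AX} (h : m ∈ H.M) : Sx m ∈ H.M := by
  rcases h with ⟨⟨x, hx⟩, h1, h2⟩ | ⟨y, h1, h2, h3⟩
  · left
    refine ⟨⟨(x.1 + Real.pi, x.2), ?_⟩, ?_, ?_⟩
    · rw [H.V_symm, hx]; rfl
    · rintro ⟨h3, h4⟩
      apply h1
      refine ⟨h3, ?_⟩
      rcases h4 with h4 | h4
      · right
        change ‖-m.1.1 - 1‖ < 1/2 at h4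
        have e : -m.1.1 - 1 = -(m.1.1 + 1) := by ring
        rwa [e, norm_neg] at h4
      · left
        change ‖-m.1.1 + 1‖ < 1/2 at h4
        have e : -m.1.1 + 1 = -(m.1.1 - 1) := by ring
        rwa [e, norm_neg] at h4
    · simp only [Sx, h2]
      simp
  · right
    refine ⟨y, h1, h2, ?_⟩
    rcases h3 with h3 | h3
    · right; rw [h3]
    · left; rw [← h3, Sx_Sx]

/-- the open sets cover the surface -/
theorem cover {m : AX} (hm : m ∈ H.M) :
    m ∈ {m : AX | 8 < ‖m.1.2‖} ∨ m ∈ H.W1 ∨ m ∈ H.W2 ∨ Sx m ∈ H.W2 ∨ m ∈ H.W3 := by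
  have he := H.he
  have he1 := H.he1
  by_cases h8 : 8 < ‖m.1.2‖
  · exact Or.inl h8
  push Not at h8
  right
  have hbig := H.lt_big2 h8
  rcases hm with ⟨⟨x, hx⟩, h1, h2⟩ | ⟨y, h1, h2, h3⟩
  · have hbig' := hbig
    rw [← hx] at hbig'
    obtain ⟨h3, -⟩ := H.V_low hbig'
    rw [hx] at h3
    have h4 : ‖m.1.1‖ < 3 := by
      have := Fp_norm_ge (p := H.p) (Z := m.1.1)
      rw [← h3] at this
      have := norm_nonneg m.1.1
      nlinarith
    have hg : ‖m.2.1‖ < 1 := by rw [h2]; simp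
    by_cases h5 : 5/8 < ‖m.1.1 - 1‖
    · by_cases h6 : 5/8 < ‖m.1.1 + 1‖
      · exact Or.inl ⟨hg, h5, h6, h4, hbig⟩
      · right; right; left
        push Not at h6
        refine ⟨?_, ?_, hbig⟩
        · change ‖conj m.2.1‖ < 1
          rw [Complex.norm_conj]; exact hg
        · change ‖-m.1.1 - 1‖ < 3/4
          have e : -m.1.1 - 1 = -(m.1.1 + 1) := by ring
          rw [e, norm_neg]; linarith
    · right; left
      push Not at h5
      exact ⟨hg, by linarith, hbig⟩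
  · have key : H.N y ∈ H.W2 ∨ H.N y ∈ H.W3 := by
      rcases lt_or_ge (1/4) ‖y‖ with h | h
      · left
        exact ((H.mem_W2_iff (H.N y)).2 ⟨y, ⟨h, by linarith⟩, rfl⟩).2
      · right
        apply H.N_mem_W3
        refine ⟨?_, by linarith⟩
        nlinarith
    rcases h3 with h3 | h3
    · rw [← h3]
      rcases key with h | h
      · exact Or.inr (Or.inl h)
      · exact Or.inr (Or.inr (Or.inr h))
    · rw [← h3, Sx_Sx]
      rcases key with h | h
      · exact Or.inr (Or.inr (Or.inl h))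
      · right; right; right
        obtain ⟨h4, h5⟩ := h
        refine ⟨?_, ?_⟩
        · change conj (H.N y).2.1 ≠ 0
          intro h0
          apply h4
          simpa using h0
        · change |-(H.N y).2.2| < ‖conj (H.N y).2.1‖ * _
          rw [abs_neg, Complex.norm_conj]
          exact h5

end HD

end Pool.Agent.Helper331
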