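import Mathlib

set_option autoImplicit false

open Set Filter Topology
open scoped Manifold ContDiff

namespace Pool.Agent.Helper331

/-- Local chart on a subset `M` of `E` obtained from a parametrisation that is open onto `M`
and whose composition with the linear map `P` is immersed. -/
theorem exists_chart' {E E' F : Type*} [NormedAddCommGroup E] [NormedSpace ℝ E]
    [NormedAddCommGroup E'] [NormedSpace ℝ E'] [FiniteDimensional ℝ E']
    [NormedAddCommGroup F] [NormedSpace ℝ F] [FiniteDimensional ℝ F]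
    (P : E →L[ℝ] E')
    {M : Set E} {Φ : F → E} {V : Set F} (hV : IsOpen V) (hΦ : ContDiffOn ℝ ∞ Φ V)
    (hmaps : ∀ x ∈ V, Φ x ∈ M)
    (hopen : ∀ O ⊆ V, IsOpen O → ∃ W : Set E, IsOpen W ∧ Φ '' O = M ∩ W)
    {x : F} (hx : x ∈ V) (hinj : ∀ v, fderiv ℝ (fun z => P (Φ z)) x v = 0 → v = 0) :
    ∃ e : OpenPartialHomeomorph M F, (⟨Φ x, hmaps x hx⟩ : M) ∈ e.source ∧
      ContDiffOn ℝ ∞ (fun z => ((e.symm z : M) : E)) e.target ∧
      ∃ π : E' →L[ℝ] F, ∀ m : M, e m = π (P m) := by
  have : CompleteSpace F := FiniteDimensional.complete ℝ F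
  set L : F →L[ℝ] E' := fderiv ℝ (fun z => P (Φ z)) x with hL
  have hLinj : Function.Injective L := (injective_iff_map_eq_zero L).2 hinj
  obtain ⟨g, hg⟩ := LinearMap.exists_leftInverse_of_injective (L : F →ₗ[ℝ] E')
    (LinearMap.ker_eq_bot.2 hLinj)
  set π : E' →L[ℝ] F := LinearMap.toContinuousLinearMap g with hπ
  have hπL : π.comp L = ContinuousLinearMap.id ℝ F := by
    ext v
    exact congrArg (fun f => f v) hg
  set ψ : F → F := fun z => π (P (Φ z)) with hψ
  have hPΦ : ContDiffOn ℝ ∞ (fun z => P (Φ z)) V := P.contDiff.comp_contDiffOn hΦ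
  have hψs : ContDiffOn ℝ ∞ ψ V := π.contDiff.comp_contDiffOn hPΦ
  have hψat : ∀ z ∈ V, ContDiffAt ℝ ∞ ψ z := fun z hz => hψs.contDiffAt (hV.mem_nhds hz)
  have hψd : HasFDerivAt ψ ((ContinuousLinearEquiv.refl ℝ F : F ≃L[ℝ] F) : F →L[ℝ] F) x := by
    have h0 : HasFDerivAt (fun z => P (Φ z)) L x :=
      ((hPΦ.contDiffAt (hV.mem_nhds hx)).differentiableAt (by simp)).hasFDerivAt
    have h1 := π.hasFDerivAt.comp x h0
    rw [hπL] at h1
    exact h1
  set e0 := ((hψat x hx)).toOpenPartialHomeomorph ψ hψd (by simp) with he0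
  have hxe0 : x ∈ e0.source := ContDiffAt.mem_toOpenPartialHomeomorph_source _ _ _
  -- open set where derivative is invertible
  set D : Set F := V ∩ (fderiv ℝ ψ) ⁻¹' (range ((↑) : (F ≃L[ℝ] F) → F →L[ℝ] F)) with hD
  have hDo : IsOpen D := by
    have hc : ContinuousOn (fderiv ℝ ψ) V := hψs.continuousOn_fderiv_of_isOpen hV (by simp)
    exact hc.isOpen_inter_preimage hV (ContinuousLinearEquiv.isOpen (𝕜 := ℝ) (E := F) (F := F))
  have hxD : x ∈ D := ⟨hx, ContinuousLinearEquiv.refl ℝ F, hψd.fderiv.symm⟩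
  set e1 := e0.restrOpen (V ∩ D) (hV.inter hDo) with he1
  have hsrc : e1.source = e0.source ∩ (V ∩ D) := rfl
  have hxe1 : x ∈ e1.source := ⟨hxe0, hx, hxD⟩
  have he1c : ∀ z, e1 z = ψ z := fun z => rfl
  have hsV : e1.source ⊆ V := fun z hz => hz.2.1
  obtain ⟨W, hWo, hW⟩ := hopen e1.source hsV e1.open_source
  have hsymmV : ∀ z ∈ e1.target, e1.symm z ∈ V := fun z hz => hsV (e1.map_target hz)
  have hΦsm : ContDiffOn ℝ ∞ (fun z => Φ (e1.symm z)) e1.target := by
    intro z hz
    have hzs := e1.map_target hz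
    obtain ⟨f', hf'⟩ := hzs.2.2.2
    have h1 : ContDiffAt ℝ ∞ e1.symm z := by
      apply e1.contDiffAt_symm hz (f₀' := f')
      · rw [hf']
        exact ((hψat _ (hsV hzs)).differentiableAt (by simp)).hasFDerivAt
      · exact hψat _ (hsV hzs)
    exact ((hΦ.contDiffAt (hV.mem_nhds (hsV hzs))).comp z h1).contDiffWithinAt
  classical
  let e : OpenPartialHomeomorph M F :=
    { toFun := fun m => π (P m)
      invFun := fun z => if h : z ∈ e1.target then ⟨Φ (e1.symm z), hmaps _ (hsymmV z h)⟩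
        else ⟨Φ x, hmaps x hx⟩
      source := {m | (m : E) ∈ Φ '' e1.source}
      target := e1.target
      map_source' := by
        rintro m ⟨z, hz, hzm⟩
        change π (P (m : E)) ∈ e1.target
        rw [← hzm]
        exact e1.map_source hz
      map_target' := by
        intro z hz
        change ((if h : z ∈ e1.target then (⟨Φ (e1.symm z), hmaps _ (hsymmV z h)⟩ : M)
          else ⟨Φ x, hmaps x hx⟩ : M) : E) ∈ Φ '' e1.source
        rw [dif_pos hz]
        exact ⟨e1.symm z, e1.map_target hz, rfl⟩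
      left_inv' := by
        rintro m ⟨z, hz, hzm⟩
        apply Subtype.ext
        have h1 : π (P (m : E)) = e1 z := by rw [← hzm]; rfl
        have h2 : π (P (m : E)) ∈ e1.target := by rw [h1]; exact e1.map_source hz
        rw [dif_pos h2]
        change Φ (e1.symm (π (P (m : E)))) = m
        rw [h1, e1.left_inv hz, hzm]
      right_inv' := by
        intro z hz
        change π (P ((if h : z ∈ e1.target then (⟨Φ (e1.symm z), hmaps _ (hsymmV z h)⟩ : M)
          else ⟨Φ x, hmaps x hx⟩ : M) : E)) = z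
        rw [dif_pos hz]
        exact e1.right_inv hz
      open_source := by
        have : {m : M | (m : E) ∈ Φ '' e1.source} = Subtype.val ⁻¹' W := by
          ext m
          change (m : E) ∈ Φ '' e1.source ↔ (m : E) ∈ W
          rw [hW]
          exact ⟨fun h => h.2, fun h => ⟨m.2, h⟩⟩
        rw [this]
        exact hWo.preimage continuous_subtype_val
      open_target := e1.open_target
      continuousOn_toFun := (π.continuous.comp (P.continuous.comp continuous_subtype_val)).continuousOn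
      continuousOn_invFun := by
        rw [Topology.IsInducing.subtypeVal.continuousOn_iff]
        refine hΦsm.continuousOn.congr ?_
        intro z hz
        simp only [Function.comp]
        rw [dif_pos hz] }
  have hsymm : ∀ z ∈ e1.target, ((e.symm z : M) : E) = Φ (e1.symm z) := by
    intro z hz
    change ((if h : z ∈ e1.target then (⟨Φ (e1.symm z), hmaps _ (hsymmV z h)⟩ : M)
          else ⟨Φ x, hmaps x hx⟩ : M) : E) = _
    rw [dif_pos hz]
  refine ⟨e, ⟨x, hxe1, rfl⟩, ?_, π, fun m => rfl⟩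
  exact hΦsm.congr hsymm

/-- the same with the model plane, for a parametrisation defined on an isomorphic space. -/
theorem exists_chart2 {E E' F : Type*} [NormedAddCommGroup E] [NormedSpace ℝ E]
    [NormedAddCommGroup E'] [NormedSpace ℝ E'] [FiniteDimensional ℝ E']
    [NormedAddCommGroup F] [NormedSpace ℝ F]
    (P : E →L[ℝ] E') (L : EuclideanSpace ℝ (Fin 2) ≃L[ℝ] F)
    {M : Set E} {Φ : F → E} {V : Set F} (hV : IsOpen V) (hΦ : ContDiffOn ℝ ∞ Φ V)
    (hmaps : ∀ x ∈ V, Φ x ∈ M)
    (hopen : ∀ O ⊆ V, IsOpen O → ∃ W : Set E, IsOpen W ∧ Φ '' O = M ∩ W)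
    {x : F} (hx : x ∈ V) (hinj : ∀ v, fderiv ℝ (fun z => P (Φ z)) x v = 0 → v = 0) (y : M)
    (hy : (y : E) = Φ x) :
    ∃ e : OpenPartialHomeomorph M (EuclideanSpace ℝ (Fin 2)), y ∈ e.source ∧
      ContDiffOn ℝ ∞ (fun z => ((e.symm z : M) : E)) e.target ∧
      ∃ π : E' →L[ℝ] (EuclideanSpace ℝ (Fin 2)), ∀ m : M, e m = π (P m) := by
  have hV' : IsOpen (L ⁻¹' V) := hV.preimage L.continuous
  have hΦ' : ContDiffOn ℝ ∞ (fun v => Φ (L v)) (L ⁻¹' V) :=
    hΦ.comp L.contDiff.contDiffOn (fun v hv => hv)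
  have hmaps' : ∀ v ∈ L ⁻¹' V, Φ (L v) ∈ M := fun v hv => hmaps _ hv
  have hopen' : ∀ O ⊆ L ⁻¹' V, IsOpen O → ∃ W : Set E, IsOpen W ∧
      (fun v => Φ (L v)) '' O = M ∩ W := by
    intro O hO hOo
    obtain ⟨W', hW', he⟩ := hopen (L '' O) (by
      rintro _ ⟨v, hv, rfl⟩; exact hO hv) (L.toHomeomorph.isOpenMap O hOo)
    refine ⟨W', hW', ?_⟩
    rw [← he, image_image]
  have hxV : L.symm x ∈ L ⁻¹' V := by
    change L (L.symm x) ∈ V
    rw [L.apply_symm_apply]; exact hx
  have hinj' : ∀ v, fderiv ℝ (fun v => P (Φ (L v))) (L.symm x) v = 0 → v = 0 := by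
    have h0 : DifferentiableAt ℝ (fun z => P (Φ z)) x :=
      (P.contDiff.contDiffAt.comp x (hΦ.contDiffAt (hV.mem_nhds hx))).differentiableAt (by simp)
    have h1 : HasFDerivAt (fun z => P (Φ z)) (fderiv ℝ (fun z => P (Φ z)) x) (L (L.symm x)) := by
      rw [L.apply_symm_apply]
      exact h0.hasFDerivAt
    have h2 : HasFDerivAt (fun v => L v) (L : EuclideanSpace ℝ (Fin 2) →L[ℝ] F) (L.symm x) :=
      L.hasFDerivAt
    have h3 := h1.comp (L.symm x) h2
    have h4 : fderiv ℝ (fun v => P (Φ (L v))) (L.symm x)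
        = (fderiv ℝ (fun z => P (Φ z)) x).comp (L : EuclideanSpace ℝ (Fin 2) →L[ℝ] F) := h3.fderiv
    intro v hv
    rw [h4] at hv
    have := hinj _ hv
    exact L.map_eq_zero_iff.1 this
  obtain ⟨e, he1, he2, he3⟩ := exists_chart' P hV' hΦ' hmaps' hopen' hxV hinj'
  refine ⟨e, ?_, he2, he3⟩
  have : (⟨Φ (L (L.symm x)), hmaps' _ hxV⟩ : M) = y := by
    apply Subtype.ext
    change Φ (L (L.symm x)) = y
    rw [L.apply_symm_apply]; exact hy.symm
  rw [← this]
  exact he1

theorem exists_manifold' {E E' : Type*} [NormedAddCommGroup E] [NormedSpace ℝ E]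
    [NormedAddCommGroup E'] [NormedSpace ℝ E'] (P : E →L[ℝ] E')
    {M : Set E}
    (H : ∀ y : M, ∃ e : OpenPartialHomeomorph M (EuclideanSpace ℝ (Fin 2)), y ∈ e.source ∧
      ContDiffOn ℝ ∞ (fun z => ((e.symm z : M) : E)) e.target ∧
      ∃ π : E' →L[ℝ] (EuclideanSpace ℝ (Fin 2)), ∀ m : M, e m = π (P m)) :
    ∃ (_ : ChartedSpace (EuclideanSpace ℝ (Fin 2)) M) (_ : IsManifold (𝓡 2) ∞ M),
      ContMDiff (𝓡 2) 𝓘(ℝ, E') ∞ (fun m : M => P m) ∧
      ∀ x : M, Function.Injective (mfderiv (𝓡 2) 𝓘(ℝ, E') (fun m : M => P m) x) := by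
  choose e he hs π hπ using H
  let C : ChartedSpace (EuclideanSpace ℝ (Fin 2)) M :=
    { atlas := range e
      chartAt := e
      mem_chart_source := he
      chart_mem_atlas := fun x => ⟨x, rfl⟩ }
  have hs' : ∀ y, ContDiffOn ℝ ∞ (fun z => P (((e y).symm z : M) : E)) (e y).target := fun y =>
    P.contDiff.comp_contDiffOn (hs y)
  have hman : IsManifold (𝓡 2) ∞ M := by
    apply isManifold_of_contDiffOn
    rintro _ _ ⟨a, rfl⟩ ⟨b, rfl⟩
    have h1 : ContDiffOn ℝ ∞ (fun z => π b (P (((e a).symm z : M) : E))) (e a).target :=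
      (π b).contDiff.comp_contDiffOn (hs' a)
    have h2 : ContDiffOn ℝ ∞ (⇑((e a).symm ≫ₕ e b)) ((e a).symm ≫ₕ e b).source := by
      refine (h1.mono ?_).congr ?_
      · intro z hz
        exact hz.1
      · intro z hz
        exact hπ b _
    simpa using h2
  refine ⟨C, hman, ?_, ?_⟩
  · intro x
    rw [contMDiffAt_iff]
    refine ⟨(P.continuous.comp continuous_subtype_val).continuousAt, ?_⟩
    have hx : e x x ∈ (e x).target := (e x).map_source (he x)
    have := (hs' x) _ hx
    have h3 : ContDiffAt ℝ ∞ (fun z => P (((e x).symm z : M) : E)) (e x x) :=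
      this.contDiffAt ((e x).open_target.mem_nhds hx)
    have h4 : ContDiffWithinAt ℝ ∞ (fun z => P (((e x).symm z : M) : E)) (range (𝓡 2)) (e x x) :=
      h3.contDiffWithinAt
    exact h4
  · intro x
    have hx : e x x ∈ (e x).target := (e x).map_source (he x)
    have h3 : ContDiffAt ℝ ∞ (fun z => P (((e x).symm z : M) : E)) (e x x) :=
      ((hs' x) _ hx).contDiffAt ((e x).open_target.mem_nhds hx)
    have hmd : MDifferentiableAt (𝓡 2) 𝓘(ℝ, E') (fun m : M => P m) x := by
      rw [mdifferentiableAt_iff]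
      refine ⟨(P.continuous.comp continuous_subtype_val).continuousAt, ?_⟩
      exact (h3.differentiableAt (by simp)).differentiableWithinAt
    rw [hmd.mfderiv]
    have h5 : fderivWithin ℝ (writtenInExtChartAt (𝓡 2) 𝓘(ℝ, E') x (fun m : M => P m))
        (range (𝓡 2)) ((extChartAt (𝓡 2) x) x)
        = fderiv ℝ (fun z => P (((e x).symm z : M) : E)) (e x x) := by
      have : range (𝓡 2) = univ := by simp
      rw [this, fderivWithin_univ]
      rfl
    rw [h5]
    have hd := (h3.differentiableAt (by simp)).hasFDerivAt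
    have h6 := (π x).hasFDerivAt.comp (e x x) hd
    have h7 : HasFDerivAt (fun z => z)
        ((π x).comp (fderiv ℝ (fun z => P (((e x).symm z : M) : E)) (e x x))) (e x x) := by
      apply h6.congr_of_eventuallyEq
      filter_upwards [(e x).open_target.mem_nhds hx] with z hz
      change z = π x (P (((e x).symm z : M) : E))
      rw [← hπ x, (e x).right_inv hz]
    have h8 : (π x).comp (fderiv ℝ (fun z => P (((e x).symm z : M) : E)) (e x x))
        = ContinuousLinearMap.id ℝ _ := h7.unique (hasFDerivAt_id _)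
    intro v w hvw
    have h9 := congrArg (π x) hvw
    have h10 : ∀ v, π x (fderiv ℝ (fun z => P (((e x).symm z : M) : E)) (e x x) v) = v := fun v =>
      congrArg (fun f => f v) h8
    exact (h10 v).symm.trans (h9.trans (h10 w))

end Pool.Agent.Helper331
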