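import Pool.Agent.Helper331.Hd
import Pool.Agent.Helper331.Mfd3

set_option autoImplicit false

open Set Filter Topology Function
open scoped ContDiff ComplexConjugate Manifold

namespace Pool.Agent.Helper331

theorem hopen_of_compact {E F : Type*} [TopologicalSpace E] [T2Space E] [TopologicalSpace F]
    {M W : Set E} {Φ : F → E} {K V : Set F} (hK : IsCompact K) (hVK : V ⊆ K)
    (hc : ContinuousOn Φ K) (hinj : InjOn Φ K) (hW : IsOpen W)
    (hMW : ∀ m, m ∈ M ∩ W ↔ ∃ x ∈ V, Φ x = m) :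
    ∀ O ⊆ V, IsOpen O → ∃ W' : Set E, IsOpen W' ∧ Φ '' O = M ∩ W' := by
  intro O hO hOo
  have hcl : IsClosed (Φ '' (K \ O)) :=
    ((hK.diff hOo).image_of_continuousOn (hc.mono sdiff_subset)).isClosed
  refine ⟨W ∩ (Φ '' (K \ O))ᶜ, hW.inter hcl.isOpen_compl, ?_⟩
  ext m
  constructor
  · rintro ⟨x, hx, rfl⟩
    have h1 := (hMW (Φ x)).2 ⟨x, hO hx, rfl⟩
    refine ⟨h1.1, h1.2, ?_⟩
    rintro ⟨x', hx', he⟩
    have := hinj hx'.1 (hVK (hO hx)) he
    rw [this] at hx'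
    exact hx'.2 hx
  · rintro ⟨hm, hmW, hn⟩
    obtain ⟨x, hx, rfl⟩ := (hMW m).1 ⟨hm, hmW⟩
    by_contra hc'
    exact hn ⟨x, ⟨hVK hx, fun h => hc' ⟨x, h, rfl⟩⟩, rfl⟩

/-- the plane as complex numbers -/
noncomputable def LC : EuclideanSpace ℝ (Fin 2) ≃L[ℝ] ℂ :=
  Complex.orthonormalBasisOneI.repr.symm.toContinuousLinearEquiv

/-- the plane as a product -/
noncomputable def LR : EuclideanSpace ℝ (Fin 2) ≃L[ℝ] ℝ × ℝ :=
  (EuclideanSpace.equiv (Fin 2) ℝ).trans (ContinuousLinearEquiv.finTwoArrow ℝ ℝ)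

/-- projection to the first factor -/
noncomputable abbrev PX : AX →L[ℝ] (ℂ × ℂ) := ContinuousLinearMap.fst ℝ (ℂ × ℂ) (ℂ × ℝ)

/-- existence of a chart with projection -/
def HasChart (M : Set AX) (y : M) : Prop :=
  ∃ e : OpenPartialHomeomorph M (EuclideanSpace ℝ (Fin 2)), y ∈ e.source ∧
      ContDiffOn ℝ ∞ (fun z => ((e.symm z : M) : AX)) e.target ∧
      ∃ π : (ℂ × ℂ) →L[ℝ] (EuclideanSpace ℝ (Fin 2)), ∀ m : M, e m = π (PX m)

theorem chart_gen {F : Type*} [NormedAddCommGroup F] [NormedSpace ℝ F]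
    (L : EuclideanSpace ℝ (Fin 2) ≃L[ℝ] F) {M W : Set AX} {Φ : F → AX} {K V : Set F}
    (hV : IsOpen V) (hK : IsCompact K) (hVK : V ⊆ K)
    (hΦ : ContDiffOn ℝ ∞ Φ V) (hc : ContinuousOn Φ K) (hinj : InjOn Φ K) (hW : IsOpen W)
    (hMW : ∀ m, m ∈ M ∩ W ↔ ∃ x ∈ V, Φ x = m)
    (himm : ∀ x ∈ V, ∀ v, fderiv ℝ (fun z => PX (Φ z)) x v = 0 → v = 0)
    (y : M) (hy : (y : AX) ∈ W) : HasChart M y := by
  obtain ⟨x, hx, hxy⟩ := (hMW y).1 ⟨y.2, hy⟩
  have hmaps : ∀ x ∈ V, Φ x ∈ M := fun x hx => ((hMW _).2 ⟨x, hx, rfl⟩).1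
  exact exists_chart2 PX L hV hΦ hmaps (hopen_of_compact hK hVK hc hinj hW hMW) hx (himm x hx) y
    hxy.symm

theorem hh_contDiffAt {e r : ℝ} (hr : r ≠ 0) : ContDiffAt ℝ ∞ (hh e) r := by
  have h1 : ContDiffAt ℝ ∞ (fun r : ℝ => Real.smoothTransition (2 - 4 * r)) r :=
    (Real.smoothTransition.contDiff (n := ⊤)).contDiffAt.comp r
      (contDiffAt_const.sub (contDiffAt_const.mul contDiffAt_id))
  have h2 : ContDiffAt ℝ ∞ (fun r : ℝ => Real.smoothTransition (2 - 4 * (e^2/r))) r :=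
    (Real.smoothTransition.contDiff (n := ⊤)).contDiffAt.comp r
      (contDiffAt_const.sub (contDiffAt_const.mul (contDiffAt_const.div contDiffAt_id hr)))
  exact h1.mul h2

theorem Ng_contDiffAt {e : ℝ} (he : 0 < e) {y : ℂ} (hy : y ≠ 0) : ContDiffAt ℝ ∞ (Ng e) y := by
  have hn : ‖y‖ ≠ 0 := norm_ne_zero_iff.2 hy
  have h1 : ContDiffAt ℝ ∞ (fun y : ℂ => ‖y‖) y := contDiffAt_norm ℝ hy
  have h2 : ContDiffAt ℝ ∞ (fun y : ℂ => hh e ‖y‖) y := (hh_contDiffAt hn).comp y h1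
  have h3 : ContDiffAt ℝ ∞ (fun y : ℂ => ((hh e ‖y‖ : ℝ) : ℂ)) y :=
    Complex.ofRealCLM.contDiff.contDiffAt.comp y h2
  have h4 : ContDiffAt ℝ ∞ (fun y : ℂ => ((‖y‖⁻¹ : ℝ) : ℂ)) y :=
    Complex.ofRealCLM.contDiff.contDiffAt.comp y (h1.inv hn)
  have h5 : ContDiffAt ℝ ∞ (fun y : ℂ => Real.log (‖y‖ * e⁻¹)) y :=
    (h1.mul contDiffAt_const).log (mul_ne_zero hn (inv_ne_zero he.ne'))
  exact (h3.mul (contDiffAt_id.mul h4)).prodMk (h2.mul h5)

theorem Ng_inj {e : ℝ} (he : 0 < e) {y1 y2 : ℂ} (h1 : y1 ≠ 0) (h2 : y2 ≠ 0)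
    (hpos : 0 < hh e ‖y1‖) (h : Ng e y1 = Ng e y2) : y1 = y2 := by
  have hn1 : 0 < ‖y1‖ := norm_pos_iff.2 h1
  have hn2 : 0 < ‖y2‖ := norm_pos_iff.2 h2
  have e1 : hh e ‖y1‖ = hh e ‖y2‖ := by
    rw [← Ng_norm h1, ← Ng_norm h2, h]
  have e2 := congrArg Prod.snd h
  simp only [Ng] at e2
  rw [← e1] at e2
  have e3 := mul_left_cancel₀ hpos.ne' e2
  have e4 : ‖y1‖ * e⁻¹ = ‖y2‖ * e⁻¹ :=
    Real.log_injOn_pos (mem_Ioi.2 (by positivity)) (mem_Ioi.2 (by positivity)) e3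
  have e5 : ‖y1‖ = ‖y2‖ := mul_right_cancel₀ (inv_ne_zero he.ne') e4
  have e6 := congrArg Prod.fst h
  simp only [Ng] at e6
  rw [← e1, ← e5] at e6
  have hc : ((hh e ‖y1‖ : ℝ) : ℂ) ≠ 0 := by exact_mod_cast hpos.ne'
  have e7 := mul_left_cancel₀ hc e6
  have hc2 : ((‖y1‖⁻¹ : ℝ) : ℂ) ≠ 0 := by exact_mod_cast (inv_pos.2 hn1).ne'
  exact mul_right_cancel₀ hc2 e7

namespace HD

variable (H : HD)

theorem small {Z : ℂ} (h : ‖Z‖ ≤ 3) : 4 * H.p^2 * ‖Z‖^2 < 1 := by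
  have h1 := H.hp
  have h2 := H.hp1
  have h3 := norm_nonneg Z
  have h4 : H.p^2 ≤ (1/100)^2 := by gcongr
  have h5 : ‖Z‖^2 ≤ 3^2 := by gcongr
  have h6 : H.p^2 * ‖Z‖^2 ≤ (1/100)^2 * 3^2 := by gcongr
  nlinarith

theorem norm_one_add_le {y : ℂ} (h : ‖y‖ ≤ 3/4) : ‖1 + y‖ ≤ 3 := by
  refine (norm_add_le _ _).trans ?_
  rw [norm_one]; linarith

theorem f_contDiffAt {y : ℂ} (hy : y ≠ 0) (h : ‖y‖ ≤ 3/4) : ContDiffAt ℝ ∞ H.f y := by
  have h1 := fp_contDiffAt (τ := (H.p, H.c, H.e)) hy (H.small (norm_one_add_le h))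
  exact h1.comp y (contDiffAt_const.prodMk contDiffAt_id)

theorem g_contDiffAt {Z : ℂ} (h : ‖Z‖ ≤ 3) : ContDiffAt ℝ ∞ (gp H.p) Z := by
  have h1 := gp_contDiffAt (p := H.p) (H.small h)
  exact h1.comp Z (contDiffAt_const.prodMk contDiffAt_id)

theorem N_contDiffAt {y : ℂ} (hy : y ≠ 0) (h : ‖y‖ ≤ 3/4) : ContDiffAt ℝ ∞ H.N y :=
  (H.f_contDiffAt hy h).prodMk (Ng_contDiffAt H.he hy)

/-- the big compact annulus -/
def KK : Set ℂ := {y | 8/3 * H.e^2 ≤ ‖y‖ ∧ ‖y‖ ≤ 3/4}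

theorem KK_ne {y : ℂ} (h : y ∈ H.KK) : y ≠ 0 := by
  intro h0
  have h1 := h.1
  rw [h0, norm_zero] at h1
  have := pow_pos H.he 2
  linarith

theorem KK_div {y : ℂ} (h : y ∈ H.KK) : H.e^2/‖y‖ ≤ 3/8 := by
  have h0 : 0 < ‖y‖ := norm_pos_iff.2 (H.KK_ne h)
  rw [div_le_iff₀ h0]
  have := h.1
  linarith

theorem compact_ann (a b : ℝ) : IsCompact {y : ℂ | a ≤ ‖y‖ ∧ ‖y‖ ≤ b} := by
  have h1 : IsCompact (Metric.closedBall (0:ℂ) b) := isCompact_closedBall _ _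
  have h2 : IsClosed {y : ℂ | a ≤ ‖y‖} := isClosed_le continuous_const continuous_norm
  have h3 := h1.inter_left h2
  convert h3 using 1
  ext y
  simp [Metric.mem_closedBall]

theorem KK_compact : IsCompact H.KK := compact_ann _ _

theorem N_continuousOn : ContinuousOn H.N H.KK := fun y hy =>
  (H.N_contDiffAt (H.KK_ne hy) hy.2).continuousAt.continuousWithinAt

theorem N_injOn : InjOn H.N H.KK := by
  intro y1 h1 y2 h2 h
  have e2 : Ng H.e y1 = Ng H.e y2 := congrArg Prod.snd h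
  have hy1 := H.KK_ne h1
  have hy2 := H.KK_ne h2
  rcases eq_or_lt_of_le (hh_nonneg H.e ‖y1‖) with h0 | h0
  · have h0' : hh H.e ‖y2‖ = 0 := by
      rw [← Ng_norm hy2, ← e2, Ng_norm hy1]; exact h0.symm
    have b1 : 1/2 ≤ ‖y1‖ := by
      by_contra hc
      push Not at hc
      have := hh_pos hc (by linarith [H.KK_div h1] : H.e^2/‖y1‖ < 1/2)
      linarith
    have b2 : 1/2 ≤ ‖y2‖ := by
      by_contra hc
      push Not at hc
      have := hh_pos hc (by linarith [H.KK_div h2] : H.e^2/‖y2‖ < 1/2)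
      linarith
    rw [H.N_outer b1, H.N_outer b2] at h
    have := congrArg (fun m : AX => m.1.1) h
    exact add_left_cancel this
  · exact Ng_inj H.he hy1 hy2 h0 e2

/-! ### the sign change -/

/-- the linear part of the involution on the first factor -/
noncomputable def S1 : (ℂ × ℂ) →L[ℝ] (ℂ × ℂ) :=
  (-(ContinuousLinearMap.fst ℝ ℂ ℂ)).prod (ContinuousLinearMap.snd ℝ ℂ ℂ)

theorem S1_apply (x : ℂ × ℂ) : S1 x = (-x.1, x.2) := rfl

theorem S1_S1 (x : ℂ × ℂ) : S1 (S1 x) = x := by simp [S1_apply]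

theorem Sx_fst (m : AX) : PX (Sx m) = S1 (PX m) := rfl

theorem Sx_contDiff : ContDiff ℝ ∞ Sx := by
  unfold Sx
  have h1 : ContDiff ℝ ∞ (fun m : AX => conj m.2.1) :=
    (Complex.conjCLE.contDiff).comp (contDiff_fst.comp contDiff_snd)
  have h2 : ContDiff ℝ ∞ (fun m : AX => (-m.1.1, m.1.2)) := by fun_prop
  have h3 : ContDiff ℝ ∞ (fun m : AX => -m.2.2) := by fun_prop
  exact h2.prodMk (h1.prodMk h3)

theorem Sx_injective : Function.Injective Sx := by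
  intro x y h
  rw [← Sx_Sx x, h, Sx_Sx]

theorem mem_Sx_iff {V : Set ℂ} {W : Set AX} (hMW : ∀ m, m ∈ H.M ∩ W ↔ ∃ y ∈ V, H.N y = m) (m : AX) :
    m ∈ H.M ∩ Sx ⁻¹' W ↔ ∃ y ∈ V, Sx (H.N y) = m := by
  constructor
  · rintro ⟨h1, h2⟩
    obtain ⟨y, hy, he⟩ := (hMW (Sx m)).1 ⟨H.Sx_mem h1, h2⟩
    exact ⟨y, hy, by rw [he, Sx_Sx]⟩
  · rintro ⟨y, hy, rfl⟩
    have h1 := (hMW (H.N y)).2 ⟨y, hy, rfl⟩
    refine ⟨H.Sx_mem h1.1, ?_⟩
    change Sx (Sx (H.N y)) ∈ W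
    rw [Sx_Sx]; exact h1.2

/-- charts on the annulus -/
theorem chartN {V K : Set ℂ} {W : Set AX} (hV : IsOpen V) (hK : IsCompact K) (hVK : V ⊆ K)
    (hKK : K ⊆ H.KK) (hW : IsOpen W) (hMW : ∀ m, m ∈ H.M ∩ W ↔ ∃ y ∈ V, H.N y = m)
    (himm : ∀ y ∈ V, ∀ v, fderiv ℝ H.f y v = 0 → v = 0) (m : H.M) (hm : (m : AX) ∈ W) :
    HasChart H.M m :=
  chart_gen LC hV hK hVK
    (fun y hy => (H.N_contDiffAt (H.KK_ne (hKK (hVK hy))) (hKK (hVK hy)).2).contDiffWithinAt)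
    (H.N_continuousOn.mono hKK) (H.N_injOn.mono hKK) hW hMW himm m hm

theorem chartSN {V K : Set ℂ} {W : Set AX} (hV : IsOpen V) (hK : IsCompact K) (hVK : V ⊆ K)
    (hKK : K ⊆ H.KK) (hW : IsOpen W) (hMW : ∀ m, m ∈ H.M ∩ W ↔ ∃ y ∈ V, H.N y = m)
    (himm : ∀ y ∈ V, ∀ v, fderiv ℝ H.f y v = 0 → v = 0) (m : H.M) (hm : Sx (m : AX) ∈ W) :
    HasChart H.M m := by
  refine chart_gen LC hV hK hVK (Φ := fun y => Sx (H.N y)) (W := Sx ⁻¹' W)
    (fun y hy => (Sx_contDiff.contDiffAt.comp y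
      (H.N_contDiffAt (H.KK_ne (hKK (hVK hy))) (hKK (hVK hy)).2)).contDiffWithinAt)
    (Sx_continuous.comp_continuousOn (H.N_continuousOn.mono hKK))
    (fun y1 h1 y2 h2 h => H.N_injOn (hKK h1) (hKK h2) (Sx_injective h)) (hW.preimage Sx_continuous)
    (H.mem_Sx_iff hMW) ?_ m hm
  intro y hy v hv
  apply himm y hy
  have hd : DifferentiableAt ℝ H.f y :=
    (H.f_contDiffAt (H.KK_ne (hKK (hVK hy))) (hKK (hVK hy)).2).differentiableAt (by simp)
  have h1 : HasFDerivAt (fun z => PX (Sx (H.N z))) (S1.comp (fderiv ℝ H.f y)) y :=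
    S1.hasFDerivAt.comp y hd.hasFDerivAt
  rw [h1.fderiv] at hv
  have h2 : S1 (fderiv ℝ H.f y v) = 0 := hv
  rw [← S1_S1 (fderiv ℝ H.f y v), h2, map_zero]

theorem W2_open : IsOpen H.W2 := by
  have h1 : Continuous (fun m : AX => ‖m.2.1‖) := by fun_prop
  have h2 : Continuous (fun m : AX => ‖m.1.1 - 1‖) := by fun_prop
  have h3 : Continuous (fun m : AX => ‖m.1.2‖) := by fun_prop
  exact (isOpen_lt h1 continuous_const).inter
    ((isOpen_lt h2 continuous_const).inter (isOpen_lt h3 continuous_const))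

theorem W1_open : IsOpen H.W1 := by
  have h1 : Continuous (fun m : AX => ‖m.2.1‖) := by fun_prop
  have h2 : Continuous (fun m : AX => ‖m.1.1 - 1‖) := by fun_prop
  have h3 : Continuous (fun m : AX => ‖m.1.1 + 1‖) := by fun_prop
  have h4 : Continuous (fun m : AX => ‖m.1.1‖) := by fun_prop
  have h5 : Continuous (fun m : AX => ‖m.1.2‖) := by fun_prop
  exact (isOpen_lt h1 continuous_const).inter
    ((isOpen_lt continuous_const h2).inter ((isOpen_lt continuous_const h3).inter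
      ((isOpen_lt h4 continuous_const).inter (isOpen_lt h5 continuous_const))))

theorem W3_open : IsOpen H.W3 := by
  have h1 : Continuous (fun m : AX => m.2.1) := by fun_prop
  have h2 : Continuous (fun m : AX => |m.2.2|) := by fun_prop
  have h3 : Continuous (fun m : AX => ‖m.2.1‖ * Real.log (3/(8 * H.e))) := by fun_prop
  exact (isOpen_ne_fun h1 continuous_const).inter (isOpen_lt h2 h3)

theorem V3_open : IsOpen H.V3 :=
  (isOpen_lt continuous_const continuous_norm).inter (isOpen_lt continuous_norm continuous_const)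

def V2 : Set ℂ := {y | 1/4 < ‖y‖ ∧ ‖y‖ < 3/4}

theorem V2_open : IsOpen V2 :=
  (isOpen_lt continuous_const continuous_norm).inter (isOpen_lt continuous_norm continuous_const)

theorem K2_sub : {y : ℂ | 1/4 ≤ ‖y‖ ∧ ‖y‖ ≤ 3/4} ⊆ H.KK := by
  intro y hy
  refine ⟨?_, hy.2⟩
  have := H.he
  have := H.he1
  have h1 : H.e^2 ≤ (1/100)^2 := by gcongr
  have := hy.1
  linarith

theorem f_imm2 {y : ℂ} (hy : y ∈ V2) (v : ℂ) (h : fderiv ℝ H.f y v = 0) : v = 0 :=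
  (H.good2 y hy.1.le hy.2.le).1 v h

theorem f_eq_nk {y : ℂ} (hy : ‖y‖ ≤ 3/8) : H.f y = nk H.c H.e y := fp_eq_nk hy

theorem f_imm3 {y : ℂ} (hy : y ∈ H.V3) (v : ℂ) (h : fderiv ℝ H.f y v = 0) : v = 0 := by
  have hy0 := H.V3_ne hy
  apply neck_immersed H.he H.hc hy0 hy.2.le (H.V3_div hy).le
  have hd : DifferentiableAt ℝ H.f y :=
    (H.f_contDiffAt hy0 (by linarith [hy.2])).differentiableAt (by simp)
  have hline : HasDerivAt (fun r : ℝ => y + r • v) v 0 := by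
    have := ((hasDerivAt_id (0:ℝ)).smul_const v).const_add y
    simpa using this
  have h0 : y + (0:ℝ) • v = y := by simp
  have hd' : HasFDerivAt H.f (fderiv ℝ H.f y) (y + (0:ℝ) • v) := by
    rw [h0]; exact hd.hasFDerivAt
  have h1 := hd'.comp_hasDerivAt (0:ℝ) hline
  rw [h] at h1
  apply h1.congr_of_eventuallyEq
  have hc : ContinuousAt (fun r : ℝ => y + r • v) 0 := by fun_prop
  have h2 : ∀ᶠ z in 𝓝 (y + (0:ℝ) • v), z ∈ H.V3 := by
    rw [h0]; exact H.V3_open.mem_nhds hy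
  filter_upwards [hc.eventually h2] with r hr
  exact (H.f_eq_nk hr.2.le).symm

theorem hasChart (m : H.M) : HasChart H.M m := by
  have he := H.he
  have he1 := H.he1
  rcases H.cover m.2 with h | h | h | h | h
  · -- band
    obtain ⟨x, hx, hxm⟩ := (H.mem_W0_iff m).1 ⟨m.2, h⟩
    have hpi := Real.pi_pos
    have hcont : Continuous H.V := H.profV.continuous
    have hΦ : ContDiff ℝ ∞ (fun x => ((H.V x, 0) : AX)) :=
      (Ph_contDiff 0 H.profV.hA H.profV.hB).prodMk contDiff_const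
    have hOm : ∀ x : ℝ × ℝ, Om 0 (H.V x) = H.B x.2 * cis (2 * x.1) := fun x => Om_Ph 0 H.A H.B x
    refine chart_gen LR (Bx_open x.1 H.r1)
      (K := Icc (x.1 - Real.pi/4) (x.1 + Real.pi/4) ×ˢ Icc (-H.r1) H.r1)
      (W := {m | 8 < ‖m.1.2‖} ∩ {m | 0 < (Om 0 m.1 * cis (-(2 * x.1))).re})
      (isCompact_Icc.prod isCompact_Icc)
      (fun z hz => ⟨Ioo_subset_Icc_self hz.1, Ioo_subset_Icc_self hz.2⟩) hΦ.contDiffOn
      hΦ.continuous.continuousOn ?_ ?_ ?_ ?_ m ?_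
    · intro z1 h1 z2 h2 he
      exact H.profV.injOn (c := 0) x.1 h1 h2 (congrArg Prod.fst he)
    · refine (isOpen_lt continuous_const (by fun_prop)).inter (isOpen_lt continuous_const ?_)
      exact Complex.continuous_re.comp (((Om_continuous 0).comp continuous_fst).mul continuous_const)
    · intro m'
      constructor
      · rintro ⟨h1, h2, h3⟩
        obtain ⟨z, hz, rfl⟩ := (H.mem_W0_iff m').1 ⟨h1, h2⟩
        obtain ⟨z', a1, a2, a3⟩ := H.profV.select (c := 0) hz h3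
        exact ⟨z', ⟨a1, abs_lt.1 a2⟩, Prod.ext a3 rfl⟩
      · rintro ⟨z, hz, rfl⟩
        have h1 := (H.mem_W0_iff (H.V z, 0)).2 ⟨z, abs_lt.2 hz.2, rfl⟩
        refine ⟨h1.1, h1.2, ?_⟩
        change 0 < (Om 0 (H.V z) * cis (-(2 * x.1))).re
        rw [hOm, mul_assoc, ← cis_add, Complex.re_ofReal_mul, cis_re]
        apply mul_pos (H.profV.pos _ (abs_lt.2 hz.2).le)
        have e : 2 * z.1 + -(2 * x.1) = 2 * (z.1 - x.1) := by ring
        rw [e]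
        have h1 := hz.1.1
        have h2 := hz.1.2
        apply Real.cos_pos_of_mem_Ioo
        constructor <;> linarith
    · intro z hz v hv
      have := H.profV.fderiv_inj (c := 0) (x := z) (abs_lt.2 hz.2)
      rw [injective_iff_map_eq_zero] at this
      exact this v hv
    · refine ⟨h, ?_⟩
      rw [← hxm]
      change 0 < (Om 0 (H.V x) * cis (-(2 * x.1))).re
      rw [hOm, mul_assoc, ← cis_add, Complex.re_ofReal_mul, cis_re]
      apply mul_pos (H.profV.pos _ hx.le)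
      have e : 2 * x.1 + -(2 * x.1) = 0 := by ring
      rw [e, Real.cos_zero]
      norm_num
  · -- planar
    have hV1 : IsOpen V1 := by
      have h1 : Continuous (fun Z : ℂ => ‖Z - 1‖) := by fun_prop
      have h2 : Continuous (fun Z : ℂ => ‖Z + 1‖) := by fun_prop
      exact (isOpen_lt continuous_const h1).inter ((isOpen_lt continuous_const h2).inter
        (isOpen_lt continuous_norm continuous_const))
    have hsm : ∀ Z : ℂ, ‖Z‖ ≤ 3 → ContDiffAt ℝ ∞ (fun Z => ((gp H.p Z, 0) : AX)) Z := fun Z hZ =>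
      (H.g_contDiffAt hZ).prodMk contDiffAt_const
    refine chart_gen LC hV1 (K := Metric.closedBall 0 3) (isCompact_closedBall _ _)
      (fun Z hZ => by rw [mem_closedBall_zero_iff]; exact hZ.2.2.le)
      (fun Z hZ => (hsm Z hZ.2.2.le).contDiffWithinAt)
      (fun Z hZ => (hsm Z (mem_closedBall_zero_iff.1 hZ)).continuousAt.continuousWithinAt)
      ?_ H.W1_open H.mem_W1_iff ?_ m h
    · intro Z1 _ Z2 _ he
      exact congrArg (fun m : AX => m.1.1) he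
    · intro Z hZ v hv
      exact (H.good1 Z hZ.2.2.le).1 v hv
  · exact H.chartN V2_open (compact_ann (1/4) (3/4)) (fun y hy => ⟨hy.1.le, hy.2.le⟩) H.K2_sub
      H.W2_open H.mem_W2_iff (fun y hy v hv => H.f_imm2 hy v hv) m h
  · exact H.chartSN V2_open (compact_ann (1/4) (3/4)) (fun y hy => ⟨hy.1.le, hy.2.le⟩) H.K2_sub
      H.W2_open H.mem_W2_iff (fun y hy v hv => H.f_imm2 hy v hv) m h
  · exact H.chartN H.V3_open (compact_ann (8/3 * H.e^2) (3/8)) (fun y hy => ⟨hy.1.le, hy.2.le⟩)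
      (fun y hy => ⟨hy.1, by linarith [hy.2]⟩)
      H.W3_open H.mem_W3_iff (fun y hy v hv => H.f_imm3 hy v hv) m h

theorem manifold :
    ∃ (_ : ChartedSpace (EuclideanSpace ℝ (Fin 2)) H.M) (_ : IsManifold (𝓡 2) ∞ H.M),
      ContMDiff (𝓡 2) 𝓘(ℝ, ℂ × ℂ) ∞ (fun m : H.M => PX m) ∧
      ∀ x : H.M, Function.Injective (mfderiv (𝓡 2) 𝓘(ℝ, ℂ × ℂ) (fun m : H.M => PX m) x) :=
  exists_manifold' PX H.hasChart

/-! ### compactness -/

theorem V_continuous : Continuous H.V := H.profV.continuous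

theorem V_range_compact : IsCompact (range H.V) := by
  have hpi := Real.pi_pos
  have h1 : IsCompact (H.V '' (Icc 0 (2 * Real.pi) ×ˢ Icc 0 (2 * Real.pi))) :=
    (isCompact_Icc.prod isCompact_Icc).image H.V_continuous
  convert h1 using 1
  apply Subset.antisymm
  · rintro _ ⟨x, rfl⟩
    obtain ⟨n, hn, -⟩ := existsUnique_add_zsmul_mem_Ioc (show (0:ℝ) < 2 * Real.pi by positivity)
        x.2 0
    obtain ⟨k, hk, -⟩ := existsUnique_add_zsmul_mem_Ioc (show (0:ℝ) < 2 * Real.pi by positivity)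
        x.1 0
    rw [zsmul_eq_mul] at hn hk
    rw [zero_add] at hn hk
    refine ⟨(x.1 + k * (2 * Real.pi), x.2 + n * (2 * Real.pi)),
      ⟨Ioc_subset_Icc_self hk, Ioc_subset_Icc_self hn⟩, ?_⟩
    have hA : H.A (x.2 + n * (2 * Real.pi)) = H.A x.2 := by
      simp only [A, Real.sin_add_int_mul_two_pi]
    have hB : H.B (x.2 + n * (2 * Real.pi)) = H.B x.2 := by
      simp only [B, Real.cos_add_int_mul_two_pi]
    have hc : cis (x.1 + k * (2 * Real.pi)) = cis x.1 := by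
      apply Complex.ext
      · rw [cis_re, cis_re, Real.cos_add_int_mul_two_pi]
      · rw [cis_im, cis_im, Real.sin_add_int_mul_two_pi]
    apply Prod.ext
    · rw [H.V_fst, H.V_fst]; simp only; rw [hA, hc]
    · rw [H.V_snd, H.V_snd]; simp only; rw [hB, cis_two_mul, hc, ← cis_two_mul]
  · rintro _ ⟨x, -, rfl⟩
    exact ⟨x, rfl⟩

theorem M_compact : IsCompact H.M := by
  have he := H.he
  have he1 := H.he1
  apply IsCompact.union
  · have h1 : IsCompact (range H.V ∩ H.Dopᶜ) :=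
      H.V_range_compact.inter_right H.Dop_open.isClosed_compl
    have h2 : IsCompact ((fun x : ℂ × ℂ => ((x, 0) : AX)) '' (range H.V ∩ H.Dopᶜ)) :=
      h1.image (by fun_prop)
    convert h2 using 1
    ext m
    constructor
    · rintro ⟨⟨x, hx⟩, h1, h2⟩
      exact ⟨m.1, ⟨⟨x, hx⟩, h1⟩, Prod.ext rfl h2.symm⟩
    · rintro ⟨z, ⟨⟨x, hx⟩, h1⟩, rfl⟩
      exact ⟨⟨x, hx⟩, h1, rfl⟩
  · have hsub : {y : ℂ | H.e ≤ ‖y‖ ∧ ‖y‖ ≤ 1/2} ⊆ H.KK := by
      intro y hy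
      refine ⟨?_, by linarith [hy.2]⟩
      have := hy.1
      nlinarith
    have h1 : IsCompact (H.N '' {y : ℂ | H.e ≤ ‖y‖ ∧ ‖y‖ ≤ 1/2}) :=
      (compact_ann _ _).image_of_continuousOn (H.N_continuousOn.mono hsub)
    have h2 := h1.union (h1.image Sx_continuous)
    convert h2 using 1
    ext m
    constructor
    · rintro ⟨y, h1, h2, h3 | h3⟩
      · exact Or.inl ⟨y, ⟨h1, h2⟩, h3⟩
      · exact Or.inr ⟨H.N y, ⟨y, ⟨h1, h2⟩, rfl⟩, h3⟩
    · rintro (⟨y, ⟨h1, h2⟩, h3⟩ | ⟨_, ⟨y, ⟨h1, h2⟩, rfl⟩, h3⟩)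
      · exact ⟨y, h1, h2, Or.inl h3⟩
      · exact ⟨y, h1, h2, Or.inr h3⟩

end HD

end Pool.Agent.Helper331
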