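import Pool.Agent.Helper331.N3a
import Pool.Agent.Helper331.N3b

set_option autoImplicit false

open Real Set Filter Topology
open scoped ContDiff

namespace Pool.Agent.Helper331

/-- data for the surface -/
structure N3D where
  k : ℝ → ℝ
  k1 : ℝ → ℝ
  k2 : ℝ → ℝ
  g : ℝ → ℝ
  g1 : ℝ → ℝ
  g2 : ℝ → ℝ
  p : ℝ
  C : ℝ
  hp : 0 < p
  hpC : 36 * p^2 = 1 - C^2
  hC : 31/32 ≤ C
  hC1 : C < 1
  hks : ContDiff ℝ ∞ k
  hk1 : ∀ c, HasDerivAt k (k1 c) c
  hk2 : ∀ c, HasDerivAt k1 (k2 c) c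
  hk0 : ∀ c, c ≤ 1/2 → k c = 0
  hkq : ∀ c, C ≤ c → k c = -(1 - c)^2/4
  hkl : ∀ c, -(1 - c)^2/4 ≤ k c
  hkn : ∀ c, k c ≤ 0
  hkd : ∀ c ∈ Icc (-1:ℝ) 1, k1 c ≤ 1/4
  hkc : ∀ c s : ℝ, s^2 + c^2 = 1 → 1/3 < c → c < 1 →
      0 < (1/2 - k1 c) + c * s^2 * k2 c ∧
      0 < (1 - c) * (3 * c - 1) / 4 + 2 * c * k c + k1 c * s^2 / 2
  hgs : ContDiff ℝ ∞ g
  hg1 : ∀ a, HasDerivAt g (g1 a) a
  hg2 : ∀ a, HasDerivAt g1 (g2 a) a
  hge : ∀ a, g (-a) = g a
  hgq : ∀ a, p/10 ≤ |a| → g a = a^2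
  hgl : ∀ a, a^2 ≤ g a
  hgu : ∀ a, g a ≤ a^2 + p^2/100
  hgp : ∀ a, 0 < g a
  hg2p : ∀ a, 0 < g2 a
  hgz : ∀ a, 0 < 4 * g a - a * g1 a

theorem exists_N3D : Nonempty N3D := by
  obtain ⟨k, k1, k2, η, h1, h2, h3, h4, h5, h6, h7, h8, h9, h10, h11⟩ := exists_flat
  set p : ℝ := Real.sqrt (1 - (1 - η)^2) / 6 with hp
  have hpos : 0 < 1 - (1 - η)^2 := by nlinarith
  have hp0 : 0 < p := by
    rw [hp]; exact div_pos (Real.sqrt_pos.2 hpos) (by norm_num)
  have hp2 : 36 * p^2 = 1 - (1 - η)^2 := by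
    rw [hp, div_pow, Real.sq_sqrt hpos.le]; ring
  have hp1 : p ≤ 1 := by nlinarith
  obtain ⟨g, g1, g2, a1, a2, a3, a4, a5, a6, a7, a8, a9, a10⟩ :=
    exists_cap (r := p/10) (ε := p^2/100) (by positivity) (by linarith) (by positivity)
  exact ⟨{ k := k, k1 := k1, k2 := k2, g := g, g1 := g1, g2 := g2, p := p, C := 1 - η, hp := hp0,
           hpC := hp2, hC := by linarith, hC1 := by linarith, hks := h1, hk1 := h2, hk2 := h3,
           hk0 := h6, hkq := h7, hkl := h8, hkn := h9, hkd := h10, hkc := h11, hgs := a1,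
           hg1 := a2, hg2 := a3, hge := a4, hgq := a5, hgl := a6, hgu := a7, hgp := a8,
           hg2p := a9, hgz := a10 }⟩

namespace N3D

variable (D : N3D)

theorem hp2 : D.p^2 ≤ 1/500 := by
  have := D.hpC; have := D.hC; have := D.hC1; nlinarith

/-- value of `-cos` at the inner boundary of band 0 -/
noncomputable def C0 : ℝ := Real.sqrt (1 - 144/25 * D.p^2)

theorem C0_sq : D.C0^2 = 1 - 144/25 * D.p^2 := by
  rw [C0, Real.sq_sqrt]
  have := D.hp2; linarith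

theorem C0_pos : 0 < D.C0 := by
  apply Real.sqrt_pos.2
  have := D.hp2; linarith

theorem C_lt_C0 : D.C < D.C0 := by
  apply Real.lt_sqrt_of_sq_lt
  have := D.hpC
  have h2 : 0 < D.p^2 := pow_pos D.hp 2
  linarith

theorem C0_lt_one : D.C0 < 1 := by
  have h1 := D.C0_sq
  have h2 : 0 < D.p^2 := pow_pos D.hp 2
  have h3 := D.C0_pos
  nlinarith

/-- half width of band 0 -/
noncomputable def r0 : ℝ := Real.arccos (-D.C0)

theorem cos_r0 : cos D.r0 = -D.C0 := by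
  apply Real.cos_arccos
  · have := D.C0_lt_one; linarith
  · have := D.C0_pos; linarith

theorem r0_lt : D.r0 < π := by
  have h1 : D.r0 ≤ π := Real.arccos_le_pi _
  rcases eq_or_lt_of_le h1 with h | h
  · have h2 := D.cos_r0
    rw [h, Real.cos_pi] at h2
    have := D.C0_lt_one
    linarith
  · exact h

theorem r0_nonneg : 0 ≤ D.r0 := Real.arccos_nonneg _

theorem r0_pos : 0 < D.r0 := by
  rcases eq_or_lt_of_le D.r0_nonneg with h | h
  · have h2 := D.cos_r0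
    rw [← h, Real.cos_zero] at h2
    have := D.C0_pos
    linarith
  · exact h

/-- comparison of the angular coordinate through the cosine -/
theorem le_r0_iff {a : ℝ} (ha : |a| ≤ π) : |a| ≤ D.r0 ↔ -cos a ≤ D.C0 := by
  rw [← cos_abs]
  have h1 := D.cos_r0
  constructor
  · intro h
    have := Real.cos_le_cos_of_nonneg_of_le_pi (abs_nonneg a) D.r0_lt.le h
    linarith
  · intro h
    by_contra hc
    push Not at hc
    have := Real.cos_lt_cos_of_nonneg_of_le_pi D.r0_nonneg ha hc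
    linarith

theorem lt_r0_iff {a : ℝ} (ha : |a| ≤ π) : |a| < D.r0 ↔ -cos a < D.C0 := by
  rw [← cos_abs]
  have h1 := D.cos_r0
  constructor
  · intro h
    have := Real.cos_lt_cos_of_nonneg_of_le_pi (abs_nonneg a) D.r0_lt.le h
    linarith
  · intro h
    by_contra hc
    push Not at hc
    have := Real.cos_le_cos_of_nonneg_of_le_pi D.r0_nonneg ha hc
    linarith

/-- the profile as a function of the cosine -/
noncomputable def b (c : ℝ) : ℝ := (1 - c)/2 + D.k c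

theorem b_hasDerivAt (c : ℝ) : HasDerivAt D.b (-1/2 + D.k1 c) c := by
  have := (((hasDerivAt_id c).const_sub 1).div_const 2).add (D.hk1 c)
  exact this

theorem b_anti : StrictAntiOn D.b (Icc (-1) 1) := by
  apply strictAntiOn_of_deriv_neg (convex_Icc _ _)
  · exact fun c _ => (D.b_hasDerivAt c).continuousAt.continuousWithinAt
  · intro c hc
    rw [interior_Icc] at hc
    rw [(D.b_hasDerivAt c).deriv]
    have := D.hkd c (Ioo_subset_Icc_self hc)
    linarith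

theorem b_low {c : ℝ} (hc : D.C ≤ c) : D.b c = (1 - c^2)/4 := by
  rw [b, D.hkq c hc]; ring

theorem b_lower (c : ℝ) : (1 - c^2)/4 ≤ D.b c := by
  rw [b]; have := D.hkl c; nlinarith

theorem b_C : D.b D.C = 9 * D.p^2 := by
  rw [D.b_low le_rfl]; have := D.hpC; linarith

theorem b_C0 : D.b D.C0 = 36/25 * D.p^2 := by
  rw [D.b_low D.C_lt_C0.le, D.C0_sq]; ring

theorem C_mem : D.C ∈ Icc (-1:ℝ) 1 := ⟨by linarith [D.hC], D.hC1.le⟩

theorem C0_mem : D.C0 ∈ Icc (-1:ℝ) 1 := ⟨by linarith [D.C0_pos], D.C0_lt_one.le⟩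

theorem neg_cos_mem (a : ℝ) : -cos a ∈ Icc (-1:ℝ) 1 := by
  constructor
  · linarith [cos_le_one a]
  · linarith [neg_one_le_cos a]

noncomputable def A0 (a : ℝ) : ℝ := sin a / 2

noncomputable def B0 (a : ℝ) : ℝ := (1 + cos a)/2 + D.k (-cos a)

theorem B0_eq (a : ℝ) : D.B0 a = D.b (-cos a) := by simp only [B0, b]; ring

theorem A0_hasDerivAt (a : ℝ) : HasDerivAt A0 (cos a / 2) a := (hasDerivAt_sin a).div_const 2

theorem B0_hasDerivAt (a : ℝ) : HasDerivAt D.B0 (-sin a * (1/2 - D.k1 (-cos a))) a := by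
  have h1 : HasDerivAt (fun a => -cos a) (sin a) a := by
    have h0 := (hasDerivAt_cos a).neg
    rw [neg_neg] at h0
    exact h0
  have h2 := HasDerivAt.comp (h₂ := D.k) (h := fun a => -cos a) a (D.hk1 (-cos a)) h1
  have h3 := (((hasDerivAt_cos a).const_add 1).div_const 2).add h2
  exact h3.congr_deriv (by ring)

theorem prof0 : Prof A0 D.B0 D.r0 where
  hA := by unfold A0; fun_prop
  hB := by
    have h1 : ContDiff ℝ ∞ (fun a : ℝ => -cos a) := contDiff_cos.neg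
    have h2 : ContDiff ℝ ∞ (fun a : ℝ => (1 + cos a)/2) := by fun_prop
    exact h2.add (D.hks.comp h1)
  odd := fun a => by simp only [A0, sin_neg]; ring
  even := fun a => by simp only [B0, cos_neg]
  pos := by
    intro a ha
    have h1 := (D.le_r0_iff (ha.trans D.r0_lt.le)).1 ha
    rw [D.B0_eq]
    have h2 := D.b_anti.antitoneOn (neg_cos_mem a) D.C0_mem h1
    rw [D.b_C0] at h2
    have h3 : 0 < D.p^2 := pow_pos D.hp 2
    linarith
  inj := by
    intro a b ha hb hA hB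
    rw [D.B0_eq, D.B0_eq] at hB
    have hcos : cos a = cos b := by
      have := D.b_anti.injOn (neg_cos_mem a) (neg_cos_mem b) hB
      linarith
    have hsin : sin a = sin b := by simp only [A0] at hA; linarith
    have h1 : cos (a - b) = 1 := by
      rw [cos_sub, hcos, hsin]; nlinarith [sin_sq_add_cos_sq b]
    rw [cos_eq_one_iff] at h1
    obtain ⟨n, hn⟩ := h1
    have hpi := Real.pi_pos
    have h2 := D.r0_lt
    rw [abs_le] at ha hb
    have hn0 : n = 0 := by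
      have a1 : (n : ℝ) * (2 * π) < 1 * (2 * π) := by linarith [ha.2, hb.1]
      have a2 : (-1 : ℝ) * (2 * π) < n * (2 * π) := by linarith [ha.1, hb.2]
      have b1 : (n : ℝ) < 1 := lt_of_mul_lt_mul_right a1 (by positivity)
      have b2 : (-1 : ℝ) < n := lt_of_mul_lt_mul_right a2 (by positivity)
      have c1 : n < 1 := by exact_mod_cast b1
      have c2 : -1 < n := by exact_mod_cast b2
      omega
    rw [hn0] at hn
    simp at hn
    linarith
  imm := by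
    intro a _
    rw [(A0_hasDerivAt a).deriv, (D.B0_hasDerivAt a).deriv]
    by_cases h : cos a = 0
    · right
      apply mul_ne_zero
      · intro h1
        have := sin_sq_add_cos_sq a
        have h2 : sin a = 0 := by linarith
        rw [h, h2] at this
        norm_num at this
      · have := D.hkd _ (neg_cos_mem a)
        linarith
    · left
      exact div_ne_zero h (by norm_num)
  rho_pos := D.r0_pos

theorem profc : Prof (fun a => a) D.g (9/5 * D.p) where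
  hA := contDiff_id
  hB := D.hgs
  odd := fun a => rfl
  even := D.hge
  pos := fun a _ => D.hgp a
  inj := fun a b _ _ h _ => h
  imm := fun a _ => by
    left
    have : deriv (fun a : ℝ => a) a = 1 := deriv_id a
    rw [this]; norm_num
  rho_pos := by have := D.hp; positivity

/-- outer band map -/
noncomputable def P0 : ℝ × ℝ → ℂ × ℂ := Ph 0 A0 D.B0

/-- crosscap band map -/
noncomputable def Pc (c : ℝ) : ℝ × ℝ → ℂ × ℂ := Ph c (fun a => a) D.g

/-- the surface -/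
def M : Set (ℂ × ℂ) :=
  {y | ∃ x : ℝ × ℝ, |x.2| ≤ D.r0 ∧ D.P0 x = y} ∪
  ({y | ∃ x : ℝ × ℝ, |x.2| ≤ 9/5 * D.p ∧ D.Pc D.p x = y} ∪
   {y | ∃ x : ℝ × ℝ, |x.2| ≤ 9/5 * D.p ∧ D.Pc (-D.p) x = y})

theorem P0_fst (x : ℝ × ℝ) : (D.P0 x).1 = A0 x.2 * cis x.1 := by
  simp [P0, Ph]

theorem P0_snd (x : ℝ × ℝ) : (D.P0 x).2 = D.B0 x.2 * cis (2 * x.1) := by
  simp [P0, Ph]

theorem Pc_fst (c : ℝ) (x : ℝ × ℝ) : (D.Pc c x).1 = c + x.2 * cis x.1 := by
  simp [Pc, Ph]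

theorem Pc_snd (c : ℝ) (x : ℝ × ℝ) :
    (D.Pc c x).2 = c^2 + 2 * c * (x.2 * cis x.1) + D.g x.2 * cis (2 * x.1) := by
  simp [Pc, Ph]

/-- exact points lie on the outer band -/
theorem exact0 {z : ℂ} (h1 : 6/5 * D.p ≤ ‖z‖) (h2 : ‖z‖ ≤ 3 * D.p) :
    ∃ x : ℝ × ℝ, |x.2| ≤ D.r0 ∧ D.P0 x = (z, z^2) ∧ (6/5 * D.p < ‖z‖ → |x.2| < D.r0) := by
  have hp := D.hp
  set m := ‖z‖ with hm
  have hm0 : 0 < m := lt_of_lt_of_le (by positivity) h1
  have hm2 : m^2 ≤ 9 * D.p^2 := by nlinarith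
  have hpC := D.hpC
  have hp2 := D.hp2
  have h4 : (2 * m)^2 ≤ 1 := by nlinarith
  have hle : 2 * m ≤ 1 := by nlinarith
  set t := arcsin (2 * m) with ht
  have hsin : sin t = 2 * m := sin_arcsin (by linarith) hle
  have hcos : cos t = Real.sqrt (1 - (2*m)^2) := cos_arcsin _
  have ht0 : 0 ≤ t := arcsin_nonneg.2 (by linarith)
  have ht1 : t ≤ π/2 := arcsin_le_pi_div_two _
  have hpi := Real.pi_pos
  have hsa : sin (π - t) = 2 * m := by rw [sin_pi_sub, hsin]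
  have hca : cos (π - t) = -cos t := cos_pi_sub t
  have hC : D.C ≤ cos t := by
    rw [hcos]; apply Real.le_sqrt_of_sq_le; nlinarith
  have hcos2 : cos t ^2 = 1 - 4 * m^2 := by
    have := sin_sq_add_cos_sq t
    rw [hsin] at this; linarith
  have hct : 0 ≤ cos t := by linarith [D.hC]
  have habs : |π - t| ≤ π := by rw [abs_le]; constructor <;> linarith
  have hA : A0 (π - t) = m := by rw [A0, hsa]; ring
  have hB : D.B0 (π - t) = m^2 := by
    rw [D.B0_eq, hca, neg_neg, D.b_low hC, hcos2]; ring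
  have hz : (m : ℂ) * cis (Complex.arg z) = z := by
    have := Complex.norm_mul_exp_arg_mul_I z
    exact this
  refine ⟨(Complex.arg z, π - t), ?_, ?_, ?_⟩
  · change |π - t| ≤ D.r0
    rw [D.le_r0_iff habs, hca, neg_neg]
    have h5 := D.C0_sq
    have h6 : cos t^2 ≤ D.C0^2 := by rw [h5, hcos2]; nlinarith
    exact le_of_sq_le_sq h6 D.C0_pos.le
  · apply Prod.ext
    · rw [D.P0_fst]
      simp only
      rw [hA, hz]
    · rw [D.P0_snd]
      simp only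
      rw [hB, cis_two_mul]
      push_cast
      rw [← mul_pow, hz]
  · intro h
    change |π - t| < D.r0
    rw [D.lt_r0_iff habs, hca, neg_neg]
    have h5 := D.C0_sq
    have h6 : cos t^2 < D.C0^2 := by rw [h5, hcos2]; nlinarith
    exact lt_of_pow_lt_pow_left₀ 2 D.C0_pos.le h6

theorem exactc {c : ℝ} {z : ℂ} (h1 : D.p/10 ≤ ‖z - c‖) :
    D.Pc c (Complex.arg (z - c), ‖z - c‖) = (z, z^2) := by
  have hz : (‖z - c‖ : ℂ) * cis (Complex.arg (z - c)) = z - c :=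
    Complex.norm_mul_exp_arg_mul_I (z - c)
  apply Prod.ext
  · rw [D.Pc_fst]; simp only; rw [hz]; ring
  · rw [D.Pc_snd]
    simp only
    rw [hz, D.hgq _ (by rwa [abs_of_nonneg (norm_nonneg _)]), cis_two_mul]
    push_cast
    rw [← mul_pow, hz]; ring

theorem norm_P0_snd {x : ℝ × ℝ} (hx : |x.2| ≤ D.r0) : ‖(D.P0 x).2‖ = D.b (-cos x.2) := by
  rw [D.P0_snd, norm_mul, norm_cis, mul_one, Complex.norm_real,
    Real.norm_of_nonneg (D.prof0.pos _ hx).le, D.B0_eq]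

theorem P0_ge {x : ℝ × ℝ} (hx : |x.2| ≤ D.r0) : 36/25 * D.p^2 ≤ ‖(D.P0 x).2‖ := by
  rw [D.norm_P0_snd hx, ← D.b_C0]
  exact D.b_anti.antitoneOn (neg_cos_mem _) D.C0_mem
    ((D.le_r0_iff (hx.trans D.r0_lt.le)).1 hx)

theorem P0_gt_iff {x : ℝ × ℝ} (hx : |x.2| ≤ D.r0) :
    36/25 * D.p^2 < ‖(D.P0 x).2‖ ↔ |x.2| < D.r0 := by
  rw [D.norm_P0_snd hx, ← D.b_C0, D.lt_r0_iff (hx.trans D.r0_lt.le)]
  exact D.b_anti.lt_iff_gt D.C0_mem (neg_cos_mem _)

theorem P0_exact {x : ℝ × ℝ} (hx : |x.2| ≤ D.r0) (h : ‖(D.P0 x).2‖ ≤ 9 * D.p^2) :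
    (D.P0 x).2 = (D.P0 x).1^2 := by
  rw [D.norm_P0_snd hx, ← D.b_C] at h
  have h1 : D.C ≤ -cos x.2 := (D.b_anti.le_iff_ge (neg_cos_mem _) D.C_mem).1 h
  rw [D.P0_snd, D.P0_fst, D.B0_eq, D.b_low h1, mul_pow, cis_two_mul]
  congr 1
  have : (1 - (-cos x.2)^2)/4 = (A0 x.2)^2 := by
    rw [A0]; have := sin_sq_add_cos_sq x.2; linarith
  rw [this]; push_cast; ring

theorem Pc_norm (c : ℝ) (x : ℝ × ℝ) : ‖(D.Pc c x).1 - c‖ = |x.2| := by
  rw [D.Pc_fst, add_sub_cancel_left, norm_mul, norm_cis, mul_one, Complex.norm_real, norm_eq_abs]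

theorem Pc_exact {c : ℝ} {x : ℝ × ℝ} (hx : D.p/10 ≤ |x.2|) :
    (D.Pc c x).2 = (D.Pc c x).1^2 := by
  rw [D.Pc_snd, D.Pc_fst, D.hgq _ hx, cis_two_mul]
  push_cast; ring

theorem Pc_small {c : ℝ} (hc : |c| = D.p) {x : ℝ × ℝ} (hx : |x.2| < D.p/10) :
    ‖(D.Pc c x).2‖ ≤ 5/4 * D.p^2 := by
  have hp := D.hp
  rw [D.Pc_snd]
  have h1 : ‖((c:ℂ))^2‖ = D.p^2 := by
    rw [norm_pow, Complex.norm_real, norm_eq_abs, hc]
  have h2 : ‖2 * (c:ℂ) * (x.2 * cis x.1)‖ = 2 * D.p * |x.2| := by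
    rw [norm_mul, norm_mul, norm_mul, norm_cis, Complex.norm_real, Complex.norm_real,
      norm_eq_abs, norm_eq_abs, hc]
    simp
  have h3 : ‖(D.g x.2 : ℂ) * cis (2 * x.1)‖ = D.g x.2 := by
    rw [norm_mul, norm_cis, mul_one, Complex.norm_real, Real.norm_of_nonneg (D.hgp _).le]
  have h4 := norm_add_le ((c:ℂ)^2 + 2 * c * (x.2 * cis x.1)) (D.g x.2 * cis (2 * x.1))
  have h5 := norm_add_le ((c:ℂ)^2) (2 * c * (x.2 * cis x.1))
  rw [h3] at h4
  rw [h1, h2] at h5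
  have h6 := D.hgu x.2
  have h7 : x.2^2 ≤ D.p^2/100 := by
    rw [← sq_abs]
    have := abs_nonneg x.2
    nlinarith
  have h8 : 2 * D.p * |x.2| ≤ 2 * D.p * (D.p/10) := by gcongr
  nlinarith

theorem neg_of {c : ℝ} (hc : |c| = D.p) : c = D.p ∨ c = -D.p := eq_or_eq_neg_of_abs_eq hc

theorem mem_M_iff {c : ℝ} (hc : |c| = D.p) (y : ℂ × ℂ) : y ∈ D.M ↔
    (∃ x : ℝ × ℝ, |x.2| ≤ D.r0 ∧ D.P0 x = y) ∨
    (∃ x : ℝ × ℝ, |x.2| ≤ 9/5 * D.p ∧ D.Pc c x = y) ∨
    (∃ x : ℝ × ℝ, |x.2| ≤ 9/5 * D.p ∧ D.Pc (-c) x = y) := by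
  rcases D.neg_of hc with h | h
  · rw [h]; rfl
  · rw [h, neg_neg]
    constructor
    · rintro (h | h | h)
      · exact Or.inl h
      · exact Or.inr (Or.inr h)
      · exact Or.inr (Or.inl h)
    · rintro (h | h | h)
      · exact Or.inl h
      · exact Or.inr (Or.inr h)
      · exact Or.inr (Or.inl h)

theorem two_c {c : ℝ} (hc : |c| = D.p) (z : ℂ) : 2 * D.p ≤ ‖z - c‖ + ‖z + c‖ := by
  have h1 : ‖(2 * c : ℂ)‖ = 2 * D.p := by
    rw [norm_mul, Complex.norm_real, norm_eq_abs, hc]; simp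
  have h2 := norm_sub_le (z + c) (z - c)
  have e : z + c - (z - c) = 2 * c := by ring
  rw [e, h1] at h2
  linarith

/-- the open set carrying the crosscap band -/
def Wc (c : ℝ) : Set (ℂ × ℂ) := {y | ‖y.2‖ < 9 * D.p^2 ∧ ‖y.1 - c‖ < 9/5 * D.p}

def W0 : Set (ℂ × ℂ) := {y | 36/25 * D.p^2 < ‖y.2‖}

theorem W0_open : IsOpen D.W0 := isOpen_lt continuous_const (continuous_snd.norm)

theorem Wc_open (c : ℝ) : IsOpen (D.Wc c) :=
  (isOpen_lt (continuous_snd.norm) continuous_const).inter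
    (isOpen_lt ((continuous_fst.sub continuous_const).norm) continuous_const)

theorem norm_le_of_near {c : ℝ} (hc : |c| = D.p) {z : ℂ} (hz : ‖z - c‖ ≤ 9/5 * D.p) :
    ‖z‖ ≤ 14/5 * D.p := by
  have h1 : ‖(c : ℂ)‖ = D.p := by rw [Complex.norm_real, norm_eq_abs, hc]
  have h2 := norm_add_le (z - c) (c : ℂ)
  rw [sub_add_cancel, h1] at h2
  linarith

/-- points of M in the zone above the crosscaps -/
theorem mem_W0_iff (y : ℂ × ℂ) : y ∈ D.M ∩ D.W0 ↔ ∃ x : ℝ × ℝ, |x.2| < D.r0 ∧ D.P0 x = y := by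
  have hp := D.hp
  have hp2 : 0 < D.p^2 := by positivity
  constructor
  · rintro ⟨hM, hW⟩
    have hW' : 36/25 * D.p^2 < ‖y.2‖ := hW
    have key : ∀ c : ℝ, |c| = D.p → (∃ x : ℝ × ℝ, |x.2| ≤ 9/5 * D.p ∧ D.Pc c x = y) →
        ∃ x : ℝ × ℝ, |x.2| < D.r0 ∧ D.P0 x = y := by
      rintro c hc ⟨x, hx, rfl⟩
      have h1 : D.p/10 ≤ |x.2| := by
        by_contra h
        push Not at h
        have := D.Pc_small hc h
        nlinarith
      have h2 := D.Pc_exact (c := c) h1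
      have h3 := D.Pc_norm c x
      have h4 : ‖(D.Pc c x).1‖ ≤ 14/5 * D.p := D.norm_le_of_near hc (by rw [h3]; exact hx)
      have h5 : 6/5 * D.p < ‖(D.Pc c x).1‖ := by
        rw [h2, norm_pow] at hW'
        apply lt_of_pow_lt_pow_left₀ 2 (norm_nonneg _)
        nlinarith
      obtain ⟨x', h6, h7, h8⟩ := D.exact0 h5.le (by linarith)
      refine ⟨x', h8 h5, ?_⟩
      rw [h7, ← h2]
    rcases hM with ⟨x, hx, hxy⟩ | h | h
    · refine ⟨x, ?_, hxy⟩
      rw [← D.P0_gt_iff hx, hxy]; exact hW'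
    · exact key D.p (abs_of_pos hp) h
    · exact key (-D.p) (by rw [abs_neg, abs_of_pos hp]) h
  · rintro ⟨x, hx, rfl⟩
    exact ⟨Or.inl ⟨x, hx.le, rfl⟩, (D.P0_gt_iff hx.le).2 hx⟩

/-- points of M near a crosscap -/
theorem mem_Wc_iff {c : ℝ} (hc : |c| = D.p) (y : ℂ × ℂ) :
    y ∈ D.M ∩ D.Wc c ↔ ∃ x : ℝ × ℝ, |x.2| < 9/5 * D.p ∧ D.Pc c x = y := by
  have hp := D.hp
  have hp2 : 0 < D.p^2 := by positivity
  -- exact points
  have key : ∀ z : ℂ, D.p/10 ≤ ‖z - c‖ → ‖z - c‖ < 9/5 * D.p → ∃ x : ℝ × ℝ, |x.2| < 9/5 * D.p ∧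
      D.Pc c x = (z, z^2) := by
    intro z h1 h2
    exact ⟨_, by simpa [abs_of_nonneg (norm_nonneg _)] using h2, D.exactc h1⟩
  constructor
  · rintro ⟨hM, hW1, hW2⟩
    rw [D.mem_M_iff hc] at hM
    rcases hM with ⟨x, hx, rfl⟩ | ⟨x, hx, rfl⟩ | ⟨x, hx, rfl⟩
    · have h1 := D.P0_exact hx hW1.le
      have h2 := D.P0_ge hx
      rw [h1, norm_pow] at h2
      have h3 : 6/5 * D.p ≤ ‖(D.P0 x).1‖ := by
        apply le_of_pow_le_pow_left₀ two_ne_zero (norm_nonneg _)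
        nlinarith
      have h4 : ‖(c : ℂ)‖ = D.p := by rw [Complex.norm_real, norm_eq_abs, hc]
      have h5 := norm_sub_norm_le (D.P0 x).1 (c : ℂ)
      obtain ⟨x', h6, h7⟩ := key (D.P0 x).1 (by linarith) hW2
      exact ⟨x', h6, by rw [h7, ← h1]⟩
    · refine ⟨x, ?_, rfl⟩
      rw [← D.Pc_norm c x]; exact hW2
    · have h1 := D.Pc_norm (-c) x
      have h2 := D.two_c hc (D.Pc (-c) x).1
      push_cast at h1
      rw [sub_neg_eq_add] at h1
      have h3 : D.p/10 ≤ |x.2| := by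
        rw [← h1]; linarith
      have h4 := D.Pc_exact (c := -c) h3
      obtain ⟨x', h6, h7⟩ := key (D.Pc (-c) x).1 (by linarith) hW2
      exact ⟨x', h6, by rw [h7, ← h4]⟩
  · rintro ⟨x, hx, rfl⟩
    refine ⟨?_, ?_, ?_⟩
    · rw [D.mem_M_iff hc]; exact Or.inr (Or.inl ⟨x, hx.le, rfl⟩)
    · rcases lt_or_ge |x.2| (D.p/10) with h | h
      · have := D.Pc_small hc h
        nlinarith
      · rw [D.Pc_exact h, norm_pow]
        have := D.norm_le_of_near hc (z := (D.Pc c x).1) (by rw [D.Pc_norm]; exact hx.le)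
        have h0 := norm_nonneg (D.Pc c x).1
        nlinarith
    · rw [D.Pc_norm]; exact hx

/-- the three open sets cover the surface -/
theorem cover {c : ℝ} (hc : |c| = D.p) {y : ℂ × ℂ} (hy : y ∈ D.M) :
    y ∈ D.W0 ∨ y ∈ D.Wc c ∨ y ∈ D.Wc (-c) := by
  have hp := D.hp
  have hp2 : 0 < D.p^2 := by positivity
  by_cases hW : y ∈ D.W0
  · exact Or.inl hW
  right
  have hW' : ‖y.2‖ ≤ 36/25 * D.p^2 := not_lt.1 hW
  have h9 : ‖y.2‖ < 9 * D.p^2 := by nlinarith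
  -- exact points
  have key : y.2 = y.1^2 → y ∈ D.Wc c ∨ y ∈ D.Wc (-c) := by
    intro h
    have h1 : ‖y.1‖^2 ≤ 36/25 * D.p^2 := by rw [← norm_pow, ← h]; exact hW'
    have h2 : ‖y.1 - c‖^2 + ‖y.1 + c‖^2 = 2 * ‖y.1‖^2 + 2 * D.p^2 := by
      have h3 := parallelogram_law_with_norm ℝ y.1 (c : ℂ)
      have h4 : ‖(c : ℂ)‖ = D.p := by rw [Complex.norm_real, norm_eq_abs, hc]
      rw [h4] at h3
      nlinarith
    by_cases h5 : ‖y.1 - c‖ < 9/5 * D.p
    · exact Or.inl ⟨h9, h5⟩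
    · right
      refine ⟨h9, ?_⟩
      push_cast
      rw [sub_neg_eq_add]
      push Not at h5
      have h6 : (9/5 * D.p)^2 ≤ ‖y.1 - c‖^2 := by gcongr
      apply lt_of_pow_lt_pow_left₀ 2 (by positivity)
      nlinarith
  rw [D.mem_M_iff hc] at hy
  rcases hy with ⟨x, hx, rfl⟩ | ⟨x, hx, rfl⟩ | ⟨x, hx, rfl⟩
  · exact key (D.P0_exact hx h9.le)
  · rcases lt_or_ge |x.2| (D.p/10) with h | h
    · left
      refine ⟨h9, ?_⟩
      rw [D.Pc_norm]; linarith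
    · exact key (D.Pc_exact h)
  · rcases lt_or_ge |x.2| (D.p/10) with h | h
    · right
      refine ⟨h9, ?_⟩
      rw [D.Pc_norm]; linarith
    · exact key (D.Pc_exact h)

/-- low points on the surface that lie above the crosscaps or near both crosscaps are exact. -/
theorem exact_low {y : ℂ × ℂ} (hy : y ∈ D.M) (h0 : y ∈ D.W0) (h9 : ‖y.2‖ < 9 * D.p^2) :
    y.2 = y.1^2 := by
  obtain ⟨x, hx, rfl⟩ := (D.mem_W0_iff y).1 ⟨hy, h0⟩
  exact D.P0_exact hx.le h9.le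

end N3D

/-- compactness of the closed band -/
theorem Prof.compact {A B : ℝ → ℝ} {ρ : ℝ} (h : Prof A B ρ) (c : ℝ) :
    IsCompact {y | ∃ x : ℝ × ℝ, |x.2| ≤ ρ ∧ Ph c A B x = y} := by
  have h1 : {y | ∃ x : ℝ × ℝ, |x.2| ≤ ρ ∧ Ph c A B x = y} =
      Ph c A B '' (Icc 0 (2*π) ×ˢ Icc (-ρ) ρ) := by
    ext y
    constructor
    · rintro ⟨x, hx, rfl⟩
      obtain ⟨n, hn, -⟩ := existsUnique_add_zsmul_mem_Ico (show (0:ℝ) < 2 * π by positivity) x.1 0
      rw [zsmul_eq_mul, zero_add] at hn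
      refine ⟨(x.1 + n * (2 * π), x.2), ⟨⟨hn.1, hn.2.le⟩, abs_le.1 hx⟩, ?_⟩
      have e : ∀ m : ℤ, cis (m * (2 * π)) = 1 := by
        intro m
        unfold cis
        rw [Complex.exp_eq_one_iff]
        exact ⟨m, by push_cast; ring⟩
      have e1 : cis (x.1 + n * (2 * π)) = cis x.1 := by rw [cis_add, e, mul_one]
      have e2 : cis (2 * (x.1 + n * (2 * π))) = cis (2 * x.1) := by
        rw [cis_two_mul, e1, cis_two_mul]
      simp only [Ph, e1, e2]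
    · rintro ⟨x, hx, rfl⟩
      exact ⟨x, abs_le.2 hx.2, rfl⟩
  rw [h1]
  exact (isCompact_Icc.prod isCompact_Icc).image h.continuous

theorem N3D.M_compact (D : N3D) : IsCompact D.M :=
  (D.prof0.compact 0).union ((D.profc.compact D.p).union (D.profc.compact (-D.p)))

end Pool.Agent.Helper331
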