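import Pool.Agent.Helper331.He
import Pool.Agent.Helper331.N3e

set_option autoImplicit false

open Real Set Filter Topology Function
open scoped ContDiff ComplexConjugate

namespace Pool.Agent.Helper331

/-- height functional -/
noncomputable def htL (v0 v1 v2 v3 : ℝ) : (ℂ × ℂ) →L[ℝ] ℝ :=
  v0 • Complex.reCLM.comp (ContinuousLinearMap.fst ℝ ℂ ℂ)
    + v1 • Complex.imCLM.comp (ContinuousLinearMap.fst ℝ ℂ ℂ)
    + v2 • Complex.reCLM.comp (ContinuousLinearMap.snd ℝ ℂ ℂ)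
    + v3 • Complex.imCLM.comp (ContinuousLinearMap.snd ℝ ℂ ℂ)

theorem htL_apply (v0 v1 v2 v3 : ℝ) (y : ℂ × ℂ) : htL v0 v1 v2 v3 y = ht v0 v1 v2 v3 y := by
  simp [htL, ht]

theorem htL_zero {v0 v1 v2 v3 : ℝ} (h : htL v0 v1 v2 v3 = 0) :
    v0 = 0 ∧ v1 = 0 ∧ v2 = 0 ∧ v3 = 0 := by
  have h1 : ∀ y, ht v0 v1 v2 v3 y = 0 := fun y => by
    rw [← htL_apply, h]; rfl
  refine ⟨?_, ?_, ?_, ?_⟩
  · have := h1 (1, 0); simpa [ht] using this
  · have := h1 (Complex.I, 0); simpa [ht] using this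
  · have := h1 (0, 1); simpa [ht] using this
  · have := h1 (0, Complex.I); simpa [ht] using this

namespace HD

variable (H : HD) {v0 v1 v2 v3 : ℝ}

theorem ht_V (s t : ℝ) : ht v0 v1 v2 v3 (H.V (s, π - t))
    = hk (v0 / H.p) (v1 / H.p) (v2 / H.p^2) (v3 / H.p^2) (fun _ => 0) (s, t) := by
  have hA : H.A (π - t) = sin t / 2 / H.p := by rw [A, sin_pi_sub]
  have hB : H.B (π - t) = (1 - cos t)/2 / H.p^2 := by
    rw [B, cos_pi_sub]; ring
  rw [ht, H.V_fst, H.V_snd]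
  simp only
  rw [hA, hB, Complex.re_ofReal_mul, Complex.im_ofReal_mul, Complex.re_ofReal_mul,
    Complex.im_ofReal_mul, cis_re, cis_im, cis_re, cis_im, hk]
  ring

theorem VM_mem {x : ℝ × ℝ} (h : 8 < H.B x.2) : ((H.V x, 0) : AX) ∈ H.M := by
  refine Or.inl ⟨⟨x, rfl⟩, ?_, rfl⟩
  intro h2
  have := H.Dop_le h2
  rw [H.norm_V_snd] at this
  linarith

theorem V_periodic (s a : ℝ) (n : ℤ) : H.V (s, a + n * (2 * π)) = H.V (s, a) := by
  simp only [V, Ph, A, B]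
  rw [Real.sin_add_int_mul_two_pi, Real.cos_add_int_mul_two_pi]

/-- pull back a local maximum along a parametrisation -/
theorem locmax_pull {F : Type*} [TopologicalSpace F] {Φ : F → AX} {V : Set F} {x : F}
    (hV : V ∈ 𝓝 x) (hΦ : ContinuousAt Φ x) (hmem : ∀ z ∈ V, Φ z ∈ H.M)
    (hm : IsLocalMaxOn (fun m : AX => ht v0 v1 v2 v3 m.1) H.M (Φ x)) :
    IsLocalMax (fun z => ht v0 v1 v2 v3 (Φ z).1) x := by
  have h2 : Tendsto Φ (𝓝 x) (𝓝[H.M] (Φ x)) := by
    apply tendsto_nhdsWithin_of_tendsto_nhds_of_eventually_within _ hΦ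
    filter_upwards [hV] with z hz using hmem z hz
  exact h2.eventually hm

theorem locmax {m : AX} (hmM : m ∈ H.M)
    (hm : IsLocalMaxOn (fun m : AX => ht v0 v1 v2 v3 m.1) H.M m)
    (hv : ¬ (v0 = 0 ∧ v1 = 0 ∧ v2 = 0 ∧ v3 = 0)) :
    ∃ s t, cos t ≤ 1/3 ∧ ((H.V (s, π - t), 0) : AX) = m ∧
      IsLocalMax (hk (v0 / H.p) (v1 / H.p) (v2 / H.p^2) (v3 / H.p^2) (fun _ => 0)) (s, t) := by
  have hp := H.hp
  have hp2 := H.hp2
  rcases H.cover hmM with h | h | h | h | h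
  · obtain ⟨⟨s, a⟩, hx, rfl⟩ := (H.mem_W0_iff m).1 ⟨hmM, h⟩
    simp only at hx
    have hcont : Continuous (fun x : ℝ × ℝ => ((H.V (x.1, π - x.2), 0) : AX)) :=
      (H.V_continuous.comp (by fun_prop)).prodMk continuous_const
    have hV : {x : ℝ × ℝ | |π - x.2| < H.r1} ∈ 𝓝 ((s, π - a) : ℝ × ℝ) := by
      have h4 : Continuous (fun x : ℝ × ℝ => |π - x.2|) := by fun_prop
      apply (isOpen_lt h4 continuous_const).mem_nhds
      change |π - (π - a)| < H.r1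
      rw [sub_sub_cancel]; exact hx
    have e : a = π - (π - a) := by ring
    have hl : IsLocalMax (hk (v0 / H.p) (v1 / H.p) (v2 / H.p^2) (v3 / H.p^2) (fun _ => 0))
        (s, π - a) := by
      have h1 := H.locmax_pull (Φ := fun x : ℝ × ℝ => ((H.V (x.1, π - x.2), 0) : AX)) hV
        hcont.continuousAt (fun z hz => ((H.mem_W0_iff _).2 ⟨(z.1, π - z.2), hz, rfl⟩).1)
        (v0 := v0) (v1 := v1) (v2 := v2) (v3 := v3) (by
          simp only [sub_sub_cancel]; exact hm)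
      have h2 : (fun z : ℝ × ℝ => ht v0 v1 v2 v3 (H.V (z.1, π - z.2)))
          = hk (v0 / H.p) (v1 / H.p) (v2 / H.p^2) (v3 / H.p^2) (fun _ => 0) := by
        funext z
        obtain ⟨s', t'⟩ := z
        exact H.ht_V s' t'
      rw [← h2]
      exact h1
    refine ⟨s, π - a, ?_, by rw [← e], hl⟩
    by_contra hcon
    push Not at hcon
    apply hv
    set t := π - a with ht
    have hct : cos t < 1 := by
      rw [ht, cos_pi_sub]
      have h1 := (H.B_gt_iff (hx.le.trans H.r1_lt.le)).2 hx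
      rw [B, div_div, lt_div_iff₀ (by positivity)] at h1
      linarith
    have hCS := sin_sq_add_cos_sq t
    have hl' : IsLocalMax (fun p : ℝ × ℝ => (v0 / H.p * cos p.1 + v1 / H.p * sin p.1) * (sin p.2 / 2)
        + (v2 / H.p^2 * cos (2 * p.1) + v3 / H.p^2 * sin (2 * p.1)) * ((1 - cos p.2) / 2)) (s, t) := by
      have e1 : (fun p : ℝ × ℝ => (v0 / H.p * cos p.1 + v1 / H.p * sin p.1) * (sin p.2 / 2)
        + (v2 / H.p^2 * cos (2 * p.1) + v3 / H.p^2 * sin (2 * p.1)) * ((1 - cos p.2) / 2))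
        = hk (v0 / H.p) (v1 / H.p) (v2 / H.p^2) (v3 / H.p^2) (fun _ => 0) := by
        funext p; simp [hk]
      rw [e1]; exact hl
    have h5 := claimBgen (A := fun t => sin t / 2) (A1 := fun t => cos t / 2)
      (A2 := fun t => -sin t / 2) (B := fun t => (1 - cos t) / 2)
      (B1 := fun t => sin t / 2) (B2 := fun t => cos t / 2)
      hasDerivAt_A hasDerivAt_A1 (fun t => by
        have := ((hasDerivAt_cos t).const_sub 1).div_const 2
        exact this.congr_deriv (by ring)) (fun t => (hasDerivAt_sin t).div_const 2) hl'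
      (by linarith) (by linarith) (by nlinarith) (by nlinarith)
    obtain ⟨q0, q1, q2, q3⟩ := h5
    rw [div_eq_zero_iff] at q0 q1 q2 q3
    exact ⟨q0.resolve_right hp.ne', q1.resolve_right hp.ne', q2.resolve_right hp2.ne',
      q3.resolve_right hp2.ne'⟩
  · exfalso
    apply hv
    obtain ⟨Z, hZ, rfl⟩ := (H.mem_W1_iff m).1 ⟨hmM, h⟩
    have hV1 : IsOpen V1 := by
      have h1 : Continuous (fun Z : ℂ => ‖Z - 1‖) := by fun_prop
      have h2 : Continuous (fun Z : ℂ => ‖Z + 1‖) := by fun_prop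
      exact (isOpen_lt continuous_const h1).inter ((isOpen_lt continuous_const h2).inter
        (isOpen_lt continuous_norm continuous_const))
    have hg := H.g_contDiffAt hZ.2.2.le
    have h1 := H.locmax_pull (Φ := fun Z : ℂ => ((gp H.p Z, 0) : AX)) (hV1.mem_nhds hZ)
      (hg.continuousAt.prodMk continuousAt_const)
      (fun z hz => ((H.mem_W1_iff _).2 ⟨z, hz, rfl⟩).1) hm
    apply htL_zero
    apply (H.good1 Z hZ.2.2.le).no_max (hg.of_le (by norm_cast))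
    simp only [htL_apply]
    exact h1
  · exfalso
    apply hv
    obtain ⟨y, hy, rfl⟩ := (H.mem_W2_iff m).1 ⟨hmM, h⟩
    have hy0 : y ≠ 0 := H.KK_ne (H.K2_sub ⟨hy.1.le, hy.2.le⟩)
    have h1 := H.locmax_pull (Φ := H.N) (V2_open.mem_nhds hy)
      (H.N_contDiffAt hy0 hy.2.le).continuousAt
      (fun z hz => ((H.mem_W2_iff _).2 ⟨z, hz, rfl⟩).1) hm
    apply htL_zero
    apply (H.good2 y hy.1.le hy.2.le).no_max ((H.f_contDiffAt hy0 hy.2.le).of_le (by norm_cast))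
    simp only [htL_apply]
    exact h1
  · exfalso
    apply hv
    obtain ⟨y, hy, he⟩ := (H.mem_W2_iff (Sx m)).1 ⟨H.Sx_mem hmM, h⟩
    have he' : m = Sx (H.N y) := by rw [he, Sx_Sx]
    have hy0 : y ≠ 0 := H.KK_ne (H.K2_sub ⟨hy.1.le, hy.2.le⟩)
    have h1 := H.locmax_pull (Φ := fun z => Sx (H.N z)) (V2_open.mem_nhds hy)
      (Sx_continuous.continuousAt.comp (H.N_contDiffAt hy0 hy.2.le).continuousAt)
      (fun z hz => ((H.mem_Sx_iff H.mem_W2_iff _).2 ⟨z, hz, rfl⟩).1) (by rw [← he']; exact hm)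
    have h2 : (htL v0 v1 v2 v3).comp S1 = 0 := by
      apply (H.good2 y hy.1.le hy.2.le).no_max ((H.f_contDiffAt hy0 hy.2.le).of_le (by norm_cast))
      simp only [ContinuousLinearMap.comp_apply, htL_apply]
      exact h1
    apply htL_zero
    apply ContinuousLinearMap.ext
    intro x
    have h3 : htL v0 v1 v2 v3 (S1 (S1 x)) = 0 := congrArg (fun l => l (S1 x)) h2
    rw [S1_S1] at h3
    exact h3
  · exfalso
    apply hv
    obtain ⟨y, hy, rfl⟩ := (H.mem_W3_iff m).1 ⟨hmM, h⟩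
    have hy0 : y ≠ 0 := H.V3_ne hy
    have h1 := H.locmax_pull (Φ := H.N) (H.V3_open.mem_nhds hy)
      (H.N_contDiffAt hy0 (by linarith [hy.2])).continuousAt
      (fun z hz => ((H.mem_W3_iff _).2 ⟨z, hz, rfl⟩).1) hm
    apply htL_zero
    apply neck_no_max hy0 (c := H.c) (ε := H.e)
    have h2 : (fun z => htL v0 v1 v2 v3 (nk H.c H.e z)) =ᶠ[𝓝 y]
        (fun z => ht v0 v1 v2 v3 (H.N z).1) := by
      filter_upwards [H.V3_open.mem_nhds hy] with z hz
      rw [htL_apply, ← H.f_eq_nk hz.2.le]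
      rfl
    exact h2.symm.isLocalMax_iff.1 h1

/-- closed superlevel sets are connected, for a nontrivial direction -/
theorem tight_closed' (hv : ¬ (v0 = 0 ∧ v1 = 0 ∧ v2 = 0 ∧ v3 = 0)) (c : ℝ) :
    IsPreconnected {m | m ∈ H.M ∧ c ≤ ht v0 v1 v2 v3 m.1} := by
  have hp := H.hp
  have hp2 := H.hp2
  set S := {m | m ∈ H.M ∧ c ≤ ht v0 v1 v2 v3 m.1} with hS
  have hcont : Continuous (fun m : AX => ht v0 v1 v2 v3 m.1) :=
    (ht_continuous v0 v1 v2 v3).comp continuous_fst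
  have hScl : IsClosed {m : AX | c ≤ ht v0 v1 v2 v3 m.1} := isClosed_le continuous_const hcont
  have hSc : IsCompact S := H.M_compact.inter_right hScl
  rw [isPreconnected_closed_iff]
  intro T1 T2 hT1 hT2 hST hne1 hne2
  by_contra hcon
  rw [not_nonempty_iff_eq_empty] at hcon
  have hdis : ∀ y, y ∈ S → y ∈ T1 → y ∈ T2 → False := by
    intro y h1 h2 h3
    have : y ∈ S ∩ (T1 ∩ T2) := ⟨h1, h2, h3⟩
    rw [hcon] at this
    exact this
  have key : ∀ T T' : Set AX, IsClosed T → IsClosed T' → S ⊆ T ∪ T' →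
      (S ∩ T).Nonempty → (∀ y, y ∈ S → y ∈ T → y ∈ T' → False) →
      ∃ y ∈ S ∩ T, IsLocalMaxOn (fun m : AX => ht v0 v1 v2 v3 m.1) H.M y := by
    intro T T' hT hT' hTT hne hd
    obtain ⟨y, hy, hmax⟩ := (hSc.inter_right hT).exists_isMaxOn hne hcont.continuousOn
    refine ⟨y, hy, ?_⟩
    have hyT' : y ∉ T' := fun h => hd y hy.1 hy.2 h
    have hnb1 : T'ᶜ ∈ 𝓝[H.M] y := mem_nhdsWithin_of_mem_nhds (hT'.isOpen_compl.mem_nhds hyT')
    have hnb2 : H.M ∈ 𝓝[H.M] y := self_mem_nhdsWithin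
    filter_upwards [hnb1, hnb2] with z hz1 hz2
    have hz : z ∈ T'ᶜ ∧ z ∈ H.M := ⟨hz1, hz2⟩
    by_cases hcz : c ≤ ht v0 v1 v2 v3 z.1
    · have hzS : z ∈ S := ⟨hz.2, hcz⟩
      exact hmax ⟨hzS, (hTT hzS).resolve_right hz.1⟩
    · push Not at hcz
      exact hcz.le.trans hy.1.2
  obtain ⟨y1, hy1, hm1⟩ := key T1 T2 hT1 hT2 hST hne1 hdis
  obtain ⟨y2, hy2, hm2⟩ := key T2 T1 hT2 hT1 (by rw [union_comm]; exact hST) hne2
    (fun y h1 h2 h3 => hdis y h1 h3 h2)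
  obtain ⟨s1, t1, hc1, he1, hl1⟩ := H.locmax hy1.1.1 hm1 hv
  obtain ⟨s2, t2, hc2, he2, hl2⟩ := H.locmax hy2.1.1 hm2 hv
  have hk0 : ∀ c : ℝ, c ≤ 1/2 → (fun _ : ℝ => (0:ℝ)) c = 0 := fun _ _ => rfl
  have q1 := claimA hk0 (by linarith) hl1
  have q2 := claimA hk0 (by linarith) hl2
  have norm1 : ∀ s t : ℝ, (sin (t/2) * cos s)^2 + (sin (t/2) * sin s)^2 + (cos (t/2))^2 = 1 := by
    intro s t
    have h1 := sin_sq_add_cos_sq s
    have h2 := sin_sq_add_cos_sq (t/2)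
    linear_combination (sin (t/2))^2 * h1 + h2
  have heq : hk (v0 / H.p) (v1 / H.p) (v2 / H.p^2) (v3 / H.p^2) (fun _ => 0) (s2, t2)
      = hk (v0 / H.p) (v1 / H.p) (v2 / H.p^2) (v3 / H.p^2) (fun _ => 0) (s1, t1) := by
    apply le_antisymm
    · have := q1 (sin (t2/2) * cos s2) (sin (t2/2) * sin s2) (cos (t2/2))
      rw [norm1, mul_one, ← hk_eq_qf _ _ _ _ (fun _ => 0) s2 t2 rfl] at this
      exact this
    · have := q2 (sin (t1/2) * cos s1) (sin (t1/2) * sin s1) (cos (t1/2))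
      rw [norm1, mul_one, ← hk_eq_qf _ _ _ _ (fun _ => 0) s1 t1 rfl] at this
      exact this
  have hlc : c ≤ hk (v0 / H.p) (v1 / H.p) (v2 / H.p^2) (v3 / H.p^2) (fun _ => 0) (s1, t1) := by
    rw [← H.ht_V]
    have := hy1.1.2
    rw [← he1] at this
    exact this
  have hPc : Continuous (fun x : ℝ × ℝ => ((H.V (x.1, π - x.2), 0) : AX)) :=
    (H.V_continuous.comp (by fun_prop)).prodMk continuous_const
  have hinv : ∀ E : Set AX, KInv ((fun x : ℝ × ℝ => ((H.V (x.1, π - x.2), 0) : AX)) ⁻¹' E) := by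
    intro E
    constructor
    · intro s t
      have e : H.V (s + π, π - -t) = H.V (s, π - t) := by
        have h1 := H.profV.flip (c := 0) (s, π - t)
        have h2 := H.V_periodic (s + π) (-(π - t)) 1
        have h3 : -(π - t) + ((1:ℤ):ℝ) * (2 * π) = π - -t := by push_cast; ring
        rw [h3] at h2
        rw [h2]
        exact h1
      change (H.V (s, π - t), 0) ∈ E ↔ (H.V (s + π, π - -t), 0) ∈ E
      rw [e]
    · intro s t
      have e : H.V (s, π - (t + 2 * π)) = H.V (s, π - t) := by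
        have h2 := H.V_periodic s (π - t) (-1)
        have h3 : (π - t) + ((-1:ℤ):ℝ) * (2 * π) = π - (t + 2 * π) := by push_cast; ring
        rw [h3] at h2
        exact h2
      change (H.V (s, π - t), 0) ∈ E ↔ (H.V (s, π - (t + 2 * π)), 0) ∈ E
      rw [e]
  have hv' : ¬ (v0 / H.p = 0 ∧ v1 / H.p = 0 ∧ v2 / H.p^2 = 0 ∧ v3 / H.p^2 = 0) := by
    rintro ⟨a0, a1, a2, a3⟩
    rw [div_eq_zero_iff] at a0 a1 a2 a3
    exact hv ⟨a0.resolve_right hp.ne', a1.resolve_right hp.ne', a2.resolve_right hp2.ne',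
      a3.resolve_right hp2.ne'⟩
  refine tpp_gen (A := (fun x : ℝ × ℝ => ((H.V (x.1, π - x.2), 0) : AX)) ⁻¹' (S ∩ T1))
    (B := (fun x : ℝ × ℝ => ((H.V (x.1, π - x.2), 0) : AX)) ⁻¹' (S ∩ T2)) hk0
    ((hSc.isClosed.inter hT1).preimage hPc) ((hSc.isClosed.inter hT2).preimage hPc)
    (hinv _) (hinv _) ?_ ?_ q1 (qf_pos q1 hv') (sA := s1) (tA := t1) (sB := s2) (tB := t2)
    ?_ ?_ hc1 hc2 rfl heq
  · rw [Set.disjoint_left]
    intro x h1 h2
    exact hdis _ h1.1 h1.2 h2.2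
  · intro s t hct hh
    have hM : ((H.V (s, π - t), 0) : AX) ∈ H.M := by
      apply H.VM_mem
      have hB : H.B (π - t) = (1 - cos t)/2 / H.p^2 := by
        rw [B, cos_pi_sub]; ring
      have hp1 := H.hp1
      simp only
      rw [hB, lt_div_iff₀ hp2]
      nlinarith
    have hSm : ((H.V (s, π - t), 0) : AX) ∈ S := ⟨hM, by
      change c ≤ ht v0 v1 v2 v3 (H.V (s, π - t))
      rw [H.ht_V, hh]; exact hlc⟩
    rcases hST hSm with h | h
    · exact Or.inl ⟨hSm, h⟩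
    · exact Or.inr ⟨hSm, h⟩
  · change (H.V (s1, π - t1), 0) ∈ S ∩ T1
    rw [he1]; exact hy1
  · change (H.V (s2, π - t2), 0) ∈ S ∩ T2
    rw [he2]; exact hy2

theorem M_preconnected : IsPreconnected H.M := by
  have hcont : Continuous (fun m : AX => ht 1 0 0 0 m.1) :=
    (ht_continuous 1 0 0 0).comp continuous_fst
  obtain ⟨c, hc⟩ := (H.M_compact.image hcont).bddBelow
  have h1 := H.tight_closed' (v0 := 1) (v1 := 0) (v2 := 0) (v3 := 0) (by norm_num) c
  convert h1 using 1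
  ext m
  constructor
  · intro hm
    exact ⟨hm, hc ⟨m, hm, rfl⟩⟩
  · intro hm
    exact hm.1

theorem M_nonempty : H.M.Nonempty := by
  refine ⟨_, H.VM_mem (x := (0, 0)) ?_⟩
  have hp := H.hp
  have hp1 := H.hp1
  have hp2 := H.hp2
  simp only [B, cos_zero]
  rw [lt_div_iff₀ hp2]
  nlinarith

theorem tight_closed (v0 v1 v2 v3 c : ℝ) :
    IsPreconnected {m | m ∈ H.M ∧ c ≤ ht v0 v1 v2 v3 m.1} := by
  by_cases hv : v0 = 0 ∧ v1 = 0 ∧ v2 = 0 ∧ v3 = 0
  · obtain ⟨rfl, rfl, rfl, rfl⟩ := hv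
    have h0 : ∀ y, ht 0 0 0 0 y = 0 := fun y => by simp [ht]
    by_cases hc : c ≤ 0
    · have : {m : AX | m ∈ H.M ∧ c ≤ ht 0 0 0 0 m.1} = H.M := by
        ext y; simp [h0, hc]
      rw [this]; exact H.M_preconnected
    · have : {m : AX | m ∈ H.M ∧ c ≤ ht 0 0 0 0 m.1} = ∅ := by
        ext y; simp [h0, hc]
      rw [this]; exact isPreconnected_empty
  · exact H.tight_closed' hv c

/-- every open superlevel set is connected. -/
theorem tight_open (v0 v1 v2 v3 c : ℝ) :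
    IsPreconnected {m | m ∈ H.M ∧ c < ht v0 v1 v2 v3 m.1} := by
  apply isPreconnected_of_forall_pair
  intro y hy y' hy'
  refine ⟨{z | z ∈ H.M ∧ min (ht v0 v1 v2 v3 y.1) (ht v0 v1 v2 v3 y'.1) ≤ ht v0 v1 v2 v3 z.1},
    ?_, ⟨hy.1, min_le_left _ _⟩, ⟨hy'.1, min_le_right _ _⟩, H.tight_closed _ _ _ _ _⟩
  intro z hz
  exact ⟨hz.1, lt_of_lt_of_le (lt_min hy.2 hy'.2) hz.2⟩

end HD

end Pool.Agent.Helper331
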