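import Pool.Agent.Helper331.Mfd1

set_option autoImplicit false

open Set Filter Topology
open scoped Manifold ContDiff

namespace Pool.Agent.Helper331

theorem exists_manifold {E : Type*} [NormedAddCommGroup E] [NormedSpace ℝ E]
    {M : Set E}
    (H : ∀ y : M, ∃ e : OpenPartialHomeomorph M (EuclideanSpace ℝ (Fin 2)), y ∈ e.source ∧
      ContDiffOn ℝ ∞ (fun z => ((e.symm z : M) : E)) e.target ∧
      ∃ π : E →L[ℝ] (EuclideanSpace ℝ (Fin 2)), ∀ m : M, e m = π m) :
    ∃ (_ : ChartedSpace (EuclideanSpace ℝ (Fin 2)) M) (_ : IsManifold (𝓡 2) ∞ M),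
      ContMDiff (𝓡 2) 𝓘(ℝ, E) ∞ (Subtype.val : M → E) ∧
      ∀ x : M, Function.Injective (mfderiv (𝓡 2) 𝓘(ℝ, E) (Subtype.val : M → E) x) := by
  choose e he hs π hπ using H
  let C : ChartedSpace (EuclideanSpace ℝ (Fin 2)) M :=
    { atlas := range e
      chartAt := e
      mem_chart_source := he
      chart_mem_atlas := fun x => ⟨x, rfl⟩ }
  have hman : IsManifold (𝓡 2) ∞ M := by
    apply isManifold_of_contDiffOn
    rintro _ _ ⟨a, rfl⟩ ⟨b, rfl⟩
    have h1 : ContDiffOn ℝ ∞ (fun z => π b (((e a).symm z : M) : E)) (e a).target :=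
      (π b).contDiff.comp_contDiffOn (hs a)
    have h2 : ContDiffOn ℝ ∞ (⇑((e a).symm ≫ₕ e b)) ((e a).symm ≫ₕ e b).source := by
      refine (h1.mono ?_).congr ?_
      · intro z hz
        exact hz.1
      · intro z hz
        exact hπ b _
    simpa using h2
  refine ⟨C, hman, ?_, ?_⟩
  · intro x
    rw [contMDiffAt_iff]
    refine ⟨continuous_subtype_val.continuousAt, ?_⟩
    have hx : e x x ∈ (e x).target := (e x).map_source (he x)
    have := (hs x) _ hx
    have h3 : ContDiffAt ℝ ∞ (fun z => (((e x).symm z : M) : E)) (e x x) :=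
      this.contDiffAt ((e x).open_target.mem_nhds hx)
    have h4 : ContDiffWithinAt ℝ ∞ (fun z => (((e x).symm z : M) : E)) (range (𝓡 2)) (e x x) :=
      h3.contDiffWithinAt
    exact h4
  · intro x
    have hx : e x x ∈ (e x).target := (e x).map_source (he x)
    have h3 : ContDiffAt ℝ ∞ (fun z => (((e x).symm z : M) : E)) (e x x) :=
      ((hs x) _ hx).contDiffAt ((e x).open_target.mem_nhds hx)
    have hmd : MDifferentiableAt (𝓡 2) 𝓘(ℝ, E) (Subtype.val : M → E) x := by
      rw [mdifferentiableAt_iff]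
      refine ⟨continuous_subtype_val.continuousAt, ?_⟩
      exact (h3.differentiableAt (by simp)).differentiableWithinAt
    rw [hmd.mfderiv]
    have h5 : fderivWithin ℝ (writtenInExtChartAt (𝓡 2) 𝓘(ℝ, E) x (Subtype.val : M → E))
        (range (𝓡 2)) ((extChartAt (𝓡 2) x) x)
        = fderiv ℝ (fun z => (((e x).symm z : M) : E)) (e x x) := by
      have : range (𝓡 2) = univ := by simp
      rw [this, fderivWithin_univ]
      rfl
    rw [h5]
    have hd := (h3.differentiableAt (by simp)).hasFDerivAt
    have h6 := (π x).hasFDerivAt.comp (e x x) hd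
    have h7 : HasFDerivAt (fun z => z) ((π x).comp (fderiv ℝ (fun z => (((e x).symm z : M) : E)) (e x x)))
        (e x x) := by
      apply h6.congr_of_eventuallyEq
      filter_upwards [(e x).open_target.mem_nhds hx] with z hz
      change z = π x ((((e x).symm z : M) : E))
      rw [← hπ x, (e x).right_inv hz]
    have h8 : (π x).comp (fderiv ℝ (fun z => (((e x).symm z : M) : E)) (e x x))
        = ContinuousLinearMap.id ℝ _ := h7.unique (hasFDerivAt_id _)
    intro v w hvw
    have h9 := congrArg (π x) hvw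
    have h10 : ∀ v, π x (fderiv ℝ (fun z => (((e x).symm z : M) : E)) (e x x) v) = v := fun v =>
      congrArg (fun f => f v) h8
    exact (h10 v).symm.trans (h9.trans (h10 w))

end Pool.Agent.Helper331
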