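import Pool.Agent.Helper331.N3h
import Pool.Agent.Helper331.Mfd2

set_option autoImplicit false

open Set Filter Topology
open scoped Manifold ContDiff

namespace Pool.Agent.Helper331

/-- the plane as a product -/
noncomputable def L2 : EuclideanSpace ℝ (Fin 2) ≃L[ℝ] ℝ × ℝ :=
  (EuclideanSpace.equiv (Fin 2) ℝ).trans (ContinuousLinearEquiv.finTwoArrow ℝ ℝ)

theorem Prof.chart {c : ℝ} {A B : ℝ → ℝ} {ρ : ℝ} (h : Prof A B ρ) {M W : Set (ℂ × ℂ)}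
    (hW : IsOpen W) (hMW : ∀ y, y ∈ M ∩ W ↔ ∃ x : ℝ × ℝ, |x.2| < ρ ∧ Ph c A B x = y)
    (y : M) (hy : (y : ℂ × ℂ) ∈ W) :
    ∃ e : OpenPartialHomeomorph M (EuclideanSpace ℝ (Fin 2)), y ∈ e.source ∧
      ContDiffOn ℝ ∞ (fun z => ((e.symm z : M) : ℂ × ℂ)) e.target ∧
      ∃ π : (ℂ × ℂ) →L[ℝ] (EuclideanSpace ℝ (Fin 2)), ∀ m : M, e m = π m := by
  obtain ⟨x, hx, hxy⟩ := (hMW y).1 ⟨y.2, hy⟩
  have hV : IsOpen (L2 ⁻¹' (Bx x.1 ρ)) := (Bx_open _ _).preimage L2.continuous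
  have hΦ : ContDiff ℝ ∞ (fun v => Ph c A B (L2 v)) := (Ph_contDiff c h.hA h.hB).comp L2.contDiff
  have hmaps : ∀ v ∈ L2 ⁻¹' (Bx x.1 ρ), Ph c A B (L2 v) ∈ M := fun v hv =>
    ((hMW _).2 ⟨L2 v, abs_lt.2 hv.2, rfl⟩).1
  have hopen : ∀ O ⊆ L2 ⁻¹' (Bx x.1 ρ), IsOpen O → ∃ W : Set (ℂ × ℂ), IsOpen W ∧
      (fun v => Ph c A B (L2 v)) '' O = M ∩ W := by
    intro O hO hOo
    obtain ⟨W', hW', he⟩ := h.hopen (c := c) hW hMW x.1 (L2 '' O) (by
      rintro _ ⟨v, hv, rfl⟩; exact hO hv) (L2.toHomeomorph.isOpenMap O hOo)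
    refine ⟨W', hW', ?_⟩
    rw [← he, image_image]
  have hxV : L2.symm x ∈ L2 ⁻¹' (Bx x.1 ρ) := by
    change L2 (L2.symm x) ∈ Bx x.1 ρ
    rw [L2.apply_symm_apply]; exact mem_Bx_self hx
  have hinj : Function.Injective (fderiv ℝ (fun v => Ph c A B (L2 v)) (L2.symm x)) := by
    have h1 : HasFDerivAt (Ph c A B) (fderiv ℝ (Ph c A B) x) (L2 (L2.symm x)) := by
      rw [L2.apply_symm_apply]
      exact (((Ph_contDiff c h.hA h.hB).differentiable (by simp)) x).hasFDerivAt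
    have h2 : HasFDerivAt (fun v => L2 v) (L2 : EuclideanSpace ℝ (Fin 2) →L[ℝ] ℝ × ℝ) (L2.symm x) :=
      L2.hasFDerivAt
    have h3 := h1.comp (L2.symm x) h2
    have h4 : fderiv ℝ (fun v => Ph c A B (L2 v)) (L2.symm x)
        = (fderiv ℝ (Ph c A B) x).comp (L2 : EuclideanSpace ℝ (Fin 2) →L[ℝ] ℝ × ℝ) := h3.fderiv
    rw [h4]
    exact (h.fderiv_inj hx).comp L2.injective
  obtain ⟨e, he1, he2, he3⟩ := exists_chart hV hΦ hmaps hopen hxV hinj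
  refine ⟨e, ?_, he2, he3⟩
  have : (⟨Ph c A B (L2 (L2.symm x)), hmaps _ hxV⟩ : M) = y := by
    apply Subtype.ext
    change Ph c A B (L2 (L2.symm x)) = y
    rw [L2.apply_symm_apply]; exact hxy
  rw [← this]
  exact he1

theorem N3D.manifold (D : N3D) :
    ∃ (_ : ChartedSpace (EuclideanSpace ℝ (Fin 2)) D.M) (_ : IsManifold (𝓡 2) ∞ D.M),
      ContMDiff (𝓡 2) 𝓘(ℝ, ℂ × ℂ) ∞ (Subtype.val : D.M → ℂ × ℂ) ∧
      ∀ x : D.M, Function.Injective (mfderiv (𝓡 2) 𝓘(ℝ, ℂ × ℂ) (Subtype.val : D.M → ℂ × ℂ) x) := by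
  apply exists_manifold
  intro y
  rcases D.cover D.hcp y.2 with h | h | h
  · exact D.prof0.chart (c := 0) D.W0_open D.mem_W0_iff y h
  · exact D.profc.chart (c := D.p) (D.Wc_open _) (D.mem_Wc_iff D.hcp) y h
  · exact D.profc.chart (c := -D.p) (D.Wc_open _) (D.mem_Wc_iff D.hcn) y h

/-- identification of the ambient space with Euclidean four-space -/
noncomputable def J4l : (ℂ × ℂ) →ₗ[ℝ] EuclideanSpace ℝ (Fin 4) where
  toFun y := !₂[y.1.re, y.1.im, y.2.re, y.2.im]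
  map_add' x y := by
    ext i
    fin_cases i <;> simp
  map_smul' c x := by
    ext i
    fin_cases i <;> simp

noncomputable def J4 : (ℂ × ℂ) →L[ℝ] EuclideanSpace ℝ (Fin 4) := LinearMap.toContinuousLinearMap J4l

theorem J4_apply (y : ℂ × ℂ) : J4 y = !₂[y.1.re, y.1.im, y.2.re, y.2.im] := rfl

theorem J4_injective : Function.Injective J4 := by
  intro x y h
  rw [J4_apply, J4_apply] at h
  have h0 := congrFun (congrArg (fun v : EuclideanSpace ℝ (Fin 4) => (v : Fin 4 → ℝ)) h) 0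
  have h1 := congrFun (congrArg (fun v : EuclideanSpace ℝ (Fin 4) => (v : Fin 4 → ℝ)) h) 1
  have h2 := congrFun (congrArg (fun v : EuclideanSpace ℝ (Fin 4) => (v : Fin 4 → ℝ)) h) 2
  have h3 := congrFun (congrArg (fun v : EuclideanSpace ℝ (Fin 4) => (v : Fin 4 → ℝ)) h) 3
  simp at h0 h1 h2 h3
  exact Prod.ext (Complex.ext h0 h1) (Complex.ext h2 h3)

theorem inner_J4 (u : EuclideanSpace ℝ (Fin 4)) (y : ℂ × ℂ) :
    inner ℝ u (J4 y) = ht (u 0) (u 1) (u 2) (u 3) y := by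
  rw [J4_apply, PiLp.inner_apply, Fin.sum_univ_four, ht]
  simp
  ring

/-- The surface of Euler characteristic `-1` in four-space. -/
theorem n3_main :
  ∃ (M : Type) (_ : TopologicalSpace M) (_ : ChartedSpace (EuclideanSpace ℝ (Fin 2)) M)
    (_ : IsManifold (𝓡 2) ∞ M) (_ : CompactSpace M) (_ : ConnectedSpace M) (_ : T2Space M)
    (f : M → EuclideanSpace ℝ (Fin 4)),
    ContMDiff (𝓡 2) 𝓘(ℝ, EuclideanSpace ℝ (Fin 4)) ∞ f ∧
    Topology.IsEmbedding f ∧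
    (∀ x : M, Function.Injective (mfderiv (𝓡 2) 𝓘(ℝ, EuclideanSpace ℝ (Fin 4)) f x)) ∧
    (∃ x : M, Nat.card (FundamentalGroup M x →* Multiplicative (ZMod 2)) = 2 ^ 3) ∧
    (∀ (u : EuclideanSpace ℝ (Fin 4)) (c : ℝ),
      IsPreconnected (f ⁻¹' {y : EuclideanSpace ℝ (Fin 4) | c ≤ inner ℝ u y})) ∧
    (∀ (u : EuclideanSpace ℝ (Fin 4)) (c : ℝ),
      IsPreconnected (f ⁻¹' {y : EuclideanSpace ℝ (Fin 4) | c < inner ℝ u y})) ∧
    (∀ (u : EuclideanSpace ℝ (Fin 4)) (c : ℝ), (∀ x, inner ℝ u (f x) = c) → u = 0) := by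
  obtain ⟨D⟩ := exists_N3D
  obtain ⟨hC, hM, hval, hmf⟩ := D.manifold
  have hcomp : CompactSpace D.M := isCompact_iff_compactSpace.1 D.M_compact
  have hpc := D.M_pathConnected
  have hconn : ConnectedSpace D.M := inferInstance
  have hpre : ∀ (S : Set (ℂ × ℂ)), IsPreconnected {y | y ∈ D.M ∧ y ∈ S} →
      IsPreconnected {m : D.M | (m : ℂ × ℂ) ∈ S} := by
    intro S hS
    rw [← Topology.IsInducing.subtypeVal.isPreconnected_image]
    convert hS using 1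
    ext y
    constructor
    · rintro ⟨m, hm, rfl⟩; exact ⟨m.2, hm⟩
    · rintro ⟨h1, h2⟩; exact ⟨⟨y, h1⟩, h2, rfl⟩
  refine ⟨D.M, inferInstance, hC, hM, hcomp, hconn, inferInstance, fun m => J4 m, ?_, ?_, ?_, ?_, ?_,
    ?_, ?_⟩
  · exact J4.contDiff.contMDiff.comp hval
  · have hcl : Topology.IsClosedEmbedding (fun m : D.M => J4 (m : ℂ × ℂ)) :=
      (J4.continuous.comp continuous_subtype_val).isClosedEmbedding
        (J4_injective.comp Subtype.val_injective)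
    exact hcl.isEmbedding
  · intro x
    have h1 : MDifferentiableAt 𝓘(ℝ, ℂ × ℂ) 𝓘(ℝ, EuclideanSpace ℝ (Fin 4)) J4 (x : ℂ × ℂ) :=
      J4.mdifferentiableAt
    have h2 : MDifferentiableAt (𝓡 2) 𝓘(ℝ, ℂ × ℂ) (Subtype.val : D.M → ℂ × ℂ) x :=
      (hval x).mdifferentiableAt (by simp)
    have h3 := mfderiv_comp x h1 h2
    have h4 : mfderiv (𝓡 2) 𝓘(ℝ, EuclideanSpace ℝ (Fin 4)) (fun m : D.M => J4 (m : ℂ × ℂ)) x
      = (mfderiv 𝓘(ℝ, ℂ × ℂ) 𝓘(ℝ, EuclideanSpace ℝ (Fin 4)) J4 (x : ℂ × ℂ)).comp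
        (mfderiv (𝓡 2) 𝓘(ℝ, ℂ × ℂ) (Subtype.val : D.M → ℂ × ℂ) x) := h3
    rw [h4]
    have h5 : mfderiv 𝓘(ℝ, ℂ × ℂ) 𝓘(ℝ, EuclideanSpace ℝ (Fin 4)) J4 (x : ℂ × ℂ) = J4 := by
      rw [mfderiv_eq_fderiv]; exact J4.fderiv
    rw [h5]
    exact J4_injective.comp (hmf x)
  · exact ⟨D.xb, D.card_hom⟩
  · intro u c
    have h1 := hpre {y | c ≤ ht (u 0) (u 1) (u 2) (u 3) y} (D.tight_closed _ _ _ _ c)
    convert h1 using 1
    ext m
    simp only [mem_preimage, mem_ofPred_eq, inner_J4]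
  · intro u c
    have h1 := hpre {y | c < ht (u 0) (u 1) (u 2) (u 3) y} (D.tight_open _ _ _ _ c)
    convert h1 using 1
    ext m
    simp only [mem_preimage, mem_ofPred_eq, inner_J4]
  · intro u c h
    obtain ⟨h0, h1, h2, h3⟩ := D.substantial (v0 := u 0) (v1 := u 1) (v2 := u 2) (v3 := u 3)
      (c := c) (fun y hy => by rw [← inner_J4]; exact h ⟨y, hy⟩)
    ext i
    fin_cases i
    · exact h0
    · exact h1
    · exact h2
    · exact h3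

end Pool.Agent.Helper331
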