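import Pool.Agent.Helper331.Hf
import Pool.Agent.Helper331.N3i

set_option autoImplicit false

open Set Filter Topology Function
open scoped ContDiff ComplexConjugate Manifold

namespace Pool.Agent.Helper331

abbrev E3 : Type := EuclideanSpace ℝ (Fin 3)

theorem norm_E3 {x : E3} : ‖x‖ = 1 ↔ x 0^2 + x 1^2 + x 2^2 = 1 := by
  have h := EuclideanSpace.real_norm_sq_eq x
  rw [Fin.sum_univ_three] at h
  constructor
  · intro h1
    rw [← h, h1]; norm_num
  · intro h1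
    rw [h1] at h
    exact (pow_eq_one_iff_of_nonneg (norm_nonneg x) two_ne_zero).1 h

/-- the first two coordinates as a complex number -/
noncomputable def xi (x : E3) : ℂ := ⟨x 0, x 1⟩

theorem xi_norm_sq (x : E3) : ‖xi x‖^2 = x 0^2 + x 1^2 := by
  rw [← Complex.normSq_eq_norm_sq, Complex.normSq_apply, xi]; ring

namespace HD

variable (H : HD)

/-- scaled coordinates of a point of the sphere -/
noncomputable def sc (x : E3) : ℂ × ℂ := ((x 2 : ℂ) * xi x / H.p, xi x ^ 2 / (H.p : ℂ)^2)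

/-- the point of the sphere with given parameters -/
noncomputable def sp (y : ℝ × ℝ) : E3 :=
  !₂[Real.cos (y.2/2) * Real.cos y.1, Real.cos (y.2/2) * Real.sin y.1, Real.sin (y.2/2)]

theorem sp_norm (y : ℝ × ℝ) : ‖sp y‖ = 1 := by
  rw [norm_E3]
  simp [sp]
  have h1 := Real.sin_sq_add_cos_sq y.1
  have h2 := Real.sin_sq_add_cos_sq (y.2/2)
  linear_combination Real.cos (y.2/2)^2 * h1 + h2

theorem xi_sp (y : ℝ × ℝ) : xi (sp y) = (Real.cos (y.2/2) : ℂ) * cis y.1 := by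
  apply Complex.ext
  · rw [Complex.re_ofReal_mul, cis_re]; simp [xi, sp]
  · rw [Complex.im_ofReal_mul, cis_im]; simp [xi, sp]

theorem sc_sp (y : ℝ × ℝ) : H.sc (sp y) = H.V y := by
  have hp := H.hp
  have hs : Real.sin y.2 = 2 * Real.sin (y.2/2) * Real.cos (y.2/2) := by
    rw [← Real.sin_two_mul]; congr 1; ring
  have hc : Real.cos y.2 = 2 * Real.cos (y.2/2)^2 - 1 := by
    rw [← Real.cos_two_mul]; congr 1; ring
  have h2 : sp y 2 = Real.sin (y.2/2) := by simp [sp]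
  apply Prod.ext
  · rw [H.V_fst]
    simp only [sc]
    rw [xi_sp, h2, A, hs]
    push_cast
    ring
  · rw [H.V_snd]
    simp only [sc]
    rw [xi_sp, B, hc, cis_two_mul]
    push_cast
    ring

theorem sp_surj {x : E3} (hx : ‖x‖ = 1) : ∃ y, sp y = x := by
  rw [norm_E3] at hx
  have h1 : x 2 ≤ 1 := by nlinarith [sq_nonneg (x 0), sq_nonneg (x 1)]
  have h2 : -1 ≤ x 2 := by nlinarith [sq_nonneg (x 0), sq_nonneg (x 1)]
  have hs : Real.sin (Real.arcsin (x 2)) = x 2 := Real.sin_arcsin h2 h1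
  have hc : Real.cos (Real.arcsin (x 2)) = ‖xi x‖ := by
    rw [Real.cos_arcsin, ← Real.sqrt_sq (norm_nonneg (xi x)), xi_norm_sq]
    congr 1; linarith
  have he : (‖xi x‖ : ℂ) * cis (Complex.arg (xi x)) = xi x :=
    Complex.norm_mul_exp_arg_mul_I (xi x)
  refine ⟨(Complex.arg (xi x), 2 * Real.arcsin (x 2)), ?_⟩
  have e1 : 2 * Real.arcsin (x 2) / 2 = Real.arcsin (x 2) := by ring
  have hre := congrArg Complex.re he
  have him := congrArg Complex.im he
  rw [Complex.re_ofReal_mul, cis_re] at hre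
  rw [Complex.im_ofReal_mul, cis_im] at him
  ext i
  fin_cases i
  · simp [sp]
    rw [hc, hre]; rfl
  · simp [sp]
    rw [hc, him]; rfl
  · simp [sp]
    exact hs

theorem sc_inj {x y : E3} (hx : ‖x‖ = 1) (hy : ‖y‖ = 1) (h : H.sc x = H.sc y) :
    x = y ∨ x = -y := by
  have hp : (H.p : ℂ) ≠ 0 := by exact_mod_cast H.hp.ne'
  rw [norm_E3] at hx hy
  have h1 : (x 2 : ℂ) * xi x = (y 2 : ℂ) * xi y := by
    have := congrArg Prod.fst h
    simp only [sc] at this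
    field_simp at this
    exact this
  have h2 : xi x ^ 2 = xi y ^ 2 := by
    have := congrArg Prod.snd h
    simp only [sc] at this
    field_simp at this
    exact this
  have key : ∀ z : E3, z 0^2 + z 1^2 + z 2^2 = 1 → (x 2 : ℂ) * xi x = (z 2 : ℂ) * xi z →
      xi x = xi z → xi z ≠ 0 → x = z := by
    intro z _ hz1 hz2 hne
    rw [hz2] at hz1
    have h3 : (x 2 : ℂ) = z 2 := mul_right_cancel₀ hne hz1
    have h4 : x 2 = z 2 := by exact_mod_cast h3
    ext i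
    fin_cases i
    · exact congrArg Complex.re hz2
    · exact congrArg Complex.im hz2
    · exact h4
  by_cases h0 : xi y = 0
  · have h0' : xi x = 0 := by
      rw [h0] at h2
      simpa using h2
    have a0 : x 0 = 0 := congrArg Complex.re h0'
    have a1 : x 1 = 0 := congrArg Complex.im h0'
    have b0 : y 0 = 0 := congrArg Complex.re h0
    have b1 : y 1 = 0 := congrArg Complex.im h0
    rw [a0, a1] at hx
    rw [b0, b1] at hy
    have h3 : x 2^2 = y 2^2 := by linarith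
    rcases sq_eq_sq_iff_eq_or_eq_neg.1 h3 with h4 | h4
    · left
      ext i
      fin_cases i
      · simp [a0, b0]
      · simp [a1, b1]
      · simpa using h4
    · right
      ext i
      fin_cases i
      · simp [a0, b0]
      · simp [a1, b1]
      · simpa using h4
  · rcases sq_eq_sq_iff_eq_or_eq_neg.1 h2 with h3 | h3
    · left
      exact key y hy h1 h3 h0
    · right
      have e : xi (-y) = -xi y := by
        apply Complex.ext <;> simp [xi]
      apply key (-y)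
      · simpa using hy
      · rw [h1, e]; simp
      · rw [e]; exact h3
      · rw [e]; exact neg_ne_zero.2 h0

theorem sc_neg (x : E3) : H.sc (-x) = H.sc x := by
  have e : xi (-x) = -xi x := by
    apply Complex.ext <;> simp [xi]
  simp [sc, e]

theorem sc_continuous : Continuous H.sc := by
  unfold sc xi
  have h : Continuous (fun x : E3 => (⟨x 0, x 1⟩ : ℂ)) := by
    have e : (fun x : E3 => (⟨x 0, x 1⟩ : ℂ)) = fun x : E3 => (x 0 : ℂ) + (x 1 : ℂ) * Complex.I := by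
      funext x
      apply Complex.ext <;> simp
    rw [e]
    fun_prop
  fun_prop

/-! ### the linear map -/

/-- the projection -/
noncomputable def LLl : EuclideanSpace ℝ (Fin 6) →ₗ[ℝ] EuclideanSpace ℝ (Fin 4) where
  toFun v := !₂[v 5, v 4, (v 0 - v 1) / Real.sqrt 2, v 3]
  map_add' x y := by
    ext i
    fin_cases i <;> simp
    ring
  map_smul' c x := by
    ext i
    fin_cases i <;> simp
    ring

noncomputable def LL : EuclideanSpace ℝ (Fin 6) →L[ℝ] EuclideanSpace ℝ (Fin 4) :=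
  LinearMap.toContinuousLinearMap LLl

theorem LL_apply (v : EuclideanSpace ℝ (Fin 6)) :
    LL v = !₂[v 5, v 4, (v 0 - v 1) / Real.sqrt 2, v 3] := rfl

/-- the Veronese map -/
noncomputable def ver (x : E3) : EuclideanSpace ℝ (Fin 6) :=
  !₂[x 0 ^ 2, x 1 ^ 2, x 2 ^ 2, Real.sqrt 2 * (x 0 * x 1), Real.sqrt 2 * (x 1 * x 2),
    Real.sqrt 2 * (x 2 * x 0)]

theorem LL_ver (x : E3) : LL (ver x) = !₂[Real.sqrt 2 * (x 2 * x 0), Real.sqrt 2 * (x 1 * x 2),
    (x 0^2 - x 1^2) / Real.sqrt 2, Real.sqrt 2 * (x 0 * x 1)] := by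
  rw [LL_apply]; simp [ver]

/-- the scaling -/
noncomputable def Lam : (ℂ × ℂ) →L[ℝ] (ℂ × ℂ) :=
  ((Real.sqrt 2 * H.p) • ContinuousLinearMap.fst ℝ ℂ ℂ).prod
    ((H.p^2 / Real.sqrt 2) • ContinuousLinearMap.snd ℝ ℂ ℂ)

theorem Lam_apply (y : ℂ × ℂ) :
    H.Lam y = (((Real.sqrt 2 * H.p : ℝ) : ℂ) * y.1, ((H.p^2 / Real.sqrt 2 : ℝ) : ℂ) * y.2) := by
  simp [Lam]

theorem sqrt2_ne : Real.sqrt 2 ≠ 0 := by positivity

theorem sqrt2_mul : Real.sqrt 2 * Real.sqrt 2 = 2 := Real.mul_self_sqrt (by norm_num)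

theorem Lam_injective : Function.Injective H.Lam := by
  have hp := H.hp
  have h2 : 0 < Real.sqrt 2 := by positivity
  intro x y h
  rw [Lam_apply, Lam_apply] at h
  have h3 : ((Real.sqrt 2 * H.p : ℝ) : ℂ) ≠ 0 := by exact_mod_cast (by positivity : Real.sqrt 2 * H.p ≠ 0)
  have h4 : ((H.p^2 / Real.sqrt 2 : ℝ) : ℂ) ≠ 0 := by
    exact_mod_cast (by positivity : H.p^2 / Real.sqrt 2 ≠ 0)
  exact Prod.ext (mul_left_cancel₀ h3 (congrArg Prod.fst h)) (mul_left_cancel₀ h4 (congrArg Prod.snd h))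

/-- the projected Veronese surface in scaled coordinates -/
theorem LL_ver_eq (x : E3) : LL (ver x) = J4 (H.Lam (H.sc x)) := by
  have hp := H.hp
  have hpc : (H.p : ℂ) ≠ 0 := by exact_mod_cast hp.ne'
  have h2 := sqrt2_ne
  have h22 := sqrt2_mul
  have e1 : ((Real.sqrt 2 * H.p : ℝ) : ℂ) * ((x 2 : ℂ) * xi x / H.p)
      = ((Real.sqrt 2 * x 2 : ℝ) : ℂ) * xi x := by
    push_cast; field_simp
  have e2 : ((H.p^2 / Real.sqrt 2 : ℝ) : ℂ) * (xi x ^ 2 / (H.p : ℂ)^2)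
      = (((Real.sqrt 2)⁻¹ : ℝ) : ℂ) * (xi x)^2 := by
    push_cast; field_simp
  have e3 : ((xi x)^2).re = x 0^2 - x 1^2 := by rw [pow_two, Complex.mul_re]; simp [xi]; ring
  have e4 : ((xi x)^2).im = 2 * (x 0 * x 1) := by rw [pow_two, Complex.mul_im]; simp [xi]; ring
  rw [LL_ver, J4_apply, Lam_apply]
  simp only [sc]
  rw [e1, e2, Complex.re_ofReal_mul, Complex.im_ofReal_mul, Complex.re_ofReal_mul,
    Complex.im_ofReal_mul, e3, e4]
  ext i
  fin_cases i
  · simp [xi]; ring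
  · simp [xi]; ring
  · simp; ring
  · simp
    have : (Real.sqrt 2)⁻¹ * (2 * (x 0 * x 1)) = Real.sqrt 2 * (x 0 * x 1) := by
      field_simp
      linear_combination (-(x 0 * x 1)) * h22
    linarith

/-- the subspace -/
noncomputable def KS : Submodule ℝ (EuclideanSpace ℝ (Fin 6)) where
  carrier := {x | x 0 + x 1 = 0 ∧ x 2 = 0}
  add_mem' := by
    rintro x y ⟨h1, h2⟩ ⟨h3, h4⟩
    constructor
    · change (x 0 + y 0) + (x 1 + y 1) = 0
      linarith
    · change x 2 + y 2 = 0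
      linarith
  zero_mem' := by simp
  smul_mem' := by
    rintro c x ⟨h1, h2⟩
    constructor
    · change c * x 0 + c * x 1 = 0
      rw [← mul_add, h1, mul_zero]
    · change c * x 2 = 0
      rw [h2, mul_zero]

theorem KS_hyper {x : EuclideanSpace ℝ (Fin 6)} (hx : x ∈ KS) : x 0 + x 1 + x 2 = 0 := by
  have h1 : x 0 + x 1 = 0 ∧ x 2 = 0 := hx
  rw [h1.1, h1.2, add_zero]

/-- right inverse -/
noncomputable def UU (y : EuclideanSpace ℝ (Fin 4)) : EuclideanSpace ℝ (Fin 6) :=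
  !₂[y 2 / Real.sqrt 2, -(y 2 / Real.sqrt 2), 0, y 3, y 1, y 0]

theorem UU_mem (y : EuclideanSpace ℝ (Fin 4)) : UU y ∈ KS := by
  change UU y 0 + UU y 1 = 0 ∧ UU y 2 = 0
  simp [UU]

theorem LL_UU (y : EuclideanSpace ℝ (Fin 4)) : LL (UU y) = y := by
  have h2 := sqrt2_ne
  have h22 := sqrt2_mul
  rw [LL_apply]
  ext i
  fin_cases i
  · simp [UU]
  · simp [UU]
  · simp [UU]
    field_simp
    linear_combination (-(y 2)) * h22
  · simp [UU]

theorem inner_UU (y : EuclideanSpace ℝ (Fin 4)) (x : EuclideanSpace ℝ (Fin 6)) :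
    inner ℝ (UU y) x = inner ℝ y (LL x) := by
  have h2 := sqrt2_ne
  rw [LL_apply, PiLp.inner_apply, PiLp.inner_apply, Fin.sum_univ_six, Fin.sum_univ_four]
  simp [UU]
  ring

theorem LL_perp {x : EuclideanSpace ℝ (Fin 6)} (hx : x ∈ KSᗮ) : LL x = 0 := by
  have h1 := (Submodule.mem_orthogonal KS x).1 hx (UU (LL x)) (UU_mem _)
  rw [inner_UU] at h1
  exact inner_self_eq_zero.1 h1

theorem LL_isom {x : EuclideanSpace ℝ (Fin 6)} (hx : x ∈ KS) : ‖LL x‖ = ‖x‖ := by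
  have h22 := sqrt2_mul
  have h2 := sqrt2_ne
  obtain ⟨h3, h4⟩ : x 0 + x 1 = 0 ∧ x 2 = 0 := hx
  have h1 := EuclideanSpace.real_norm_sq_eq x
  have h5 := EuclideanSpace.real_norm_sq_eq (LL x)
  rw [Fin.sum_univ_six] at h1
  rw [Fin.sum_univ_four, LL_apply] at h5
  have h6 : ((x 0 - x 1) / Real.sqrt 2)^2 = (x 0 - x 1)^2 / 2 := by
    rw [div_pow, Real.sq_sqrt (by norm_num)]
  have e0 : (!₂[x 5, x 4, (x 0 - x 1) / Real.sqrt 2, x 3] : EuclideanSpace ℝ (Fin 4)) 0 = x 5 := by simp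
  have e1 : (!₂[x 5, x 4, (x 0 - x 1) / Real.sqrt 2, x 3] : EuclideanSpace ℝ (Fin 4)) 1 = x 4 := by simp
  have e2 : (!₂[x 5, x 4, (x 0 - x 1) / Real.sqrt 2, x 3] : EuclideanSpace ℝ (Fin 4)) 2
    = (x 0 - x 1) / Real.sqrt 2 := by simp
  have e3 : (!₂[x 5, x 4, (x 0 - x 1) / Real.sqrt 2, x 3] : EuclideanSpace ℝ (Fin 4)) 3 = x 3 := by simp
  rw [e0, e1, e2, e3, h6] at h5
  have h7 : ‖LL x‖^2 = ‖x‖^2 := by
    rw [LL_apply, h5, h1, h4]
    have : x 1 = - x 0 := by linarith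
    rw [this]; ring
  exact (sq_eq_sq₀ (norm_nonneg _) (norm_nonneg _)).1 h7

theorem LL_surj : Function.Surjective LL := fun y => ⟨UU y, LL_UU y⟩

theorem LL_ver_contDiff : ContDiff ℝ ∞ (fun x : E3 => LL (ver x)) := by
  have e : (fun x : E3 => LL (ver x)) = fun x : E3 => !₂[Real.sqrt 2 * (x 2 * x 0),
      Real.sqrt 2 * (x 1 * x 2), (x 0^2 - x 1^2) / Real.sqrt 2, Real.sqrt 2 * (x 0 * x 1)] := by
    funext x; exact LL_ver x
  rw [e, contDiff_euclidean]
  intro i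
  fin_cases i
  · simp; fun_prop
  · simp; fun_prop
  · simp; fun_prop
  · simp; fun_prop

theorem LL_ver_imm {x w : E3} (hx : ‖x‖ = 1) (hw : inner ℝ x w = 0)
    (h : fderiv ℝ (fun y => LL (ver y)) x w = 0) : w = 0 := by
  have h2 := sqrt2_ne
  rw [norm_E3] at hx
  have hw' : x 0 * w 0 + x 1 * w 1 + x 2 * w 2 = 0 := by
    rw [PiLp.inner_apply, Fin.sum_univ_three] at hw
    simp at hw
    linarith
  have hline : HasDerivAt (fun r : ℝ => x + r • w) w 0 := by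
    have := ((hasDerivAt_id (0:ℝ)).smul_const w).const_add x
    simpa using this
  have h0 : x + (0:ℝ) • w = x := by simp
  have hd' : HasFDerivAt (fun y => LL (ver y)) (fderiv ℝ (fun y => LL (ver y)) x) (x + (0:ℝ) • w) := by
    rw [h0]; exact (LL_ver_contDiff.differentiable (by simp) x).hasFDerivAt
  have h1 := hd'.comp_hasDerivAt (0:ℝ) hline
  rw [h] at h1
  have hc : ∀ i : Fin 4, HasDerivAt (fun r : ℝ => LL (ver (x + r • w)) i) 0 0 := by
    intro i
    have h3 := (EuclideanSpace.proj (𝕜 := ℝ) i).hasFDerivAt.comp_hasDerivAt (0:ℝ) h1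
    rw [map_zero] at h3
    exact h3
  have hl : ∀ i : Fin 3, HasDerivAt (fun r : ℝ => x i + r * w i) (w i) 0 := by
    intro i
    simpa using ((hasDerivAt_id (0:ℝ)).mul_const (w i)).const_add (x i)
  have hmul : ∀ i j : Fin 3, HasDerivAt (fun r : ℝ => (x i + r * w i) * (x j + r * w j))
      (w i * x j + x i * w j) 0 := by
    intro i j
    have := (hl i).mul (hl j)
    exact this.congr_deriv (by simp)
  have c0 : w 2 * x 0 + x 2 * w 0 = 0 := by
    have e : (fun r : ℝ => LL (ver (x + r • w)) 0)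
        = fun r : ℝ => Real.sqrt 2 * ((x 2 + r * w 2) * (x 0 + r * w 0)) := by
      funext r; rw [LL_ver]; simp
    have h3 := hc 0
    rw [e] at h3
    have := h3.unique ((hmul 2 0).const_mul (Real.sqrt 2))
    exact (mul_eq_zero.1 this.symm).resolve_left h2
  have c1 : w 1 * x 2 + x 1 * w 2 = 0 := by
    have e : (fun r : ℝ => LL (ver (x + r • w)) 1)
        = fun r : ℝ => Real.sqrt 2 * ((x 1 + r * w 1) * (x 2 + r * w 2)) := by
      funext r; rw [LL_ver]; simp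
    have h3 := hc 1
    rw [e] at h3
    have := h3.unique ((hmul 1 2).const_mul (Real.sqrt 2))
    exact (mul_eq_zero.1 this.symm).resolve_left h2
  have c2 : (w 0 * x 0 + x 0 * w 0) - (w 1 * x 1 + x 1 * w 1) = 0 := by
    have e : (fun r : ℝ => LL (ver (x + r • w)) 2)
        = fun r : ℝ => (((x 0 + r * w 0) * (x 0 + r * w 0)) - ((x 1 + r * w 1) * (x 1 + r * w 1)))
          / Real.sqrt 2 := by
      funext r; rw [LL_ver]; simp; ring
    have h3 := hc 2
    rw [e] at h3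
    have := h3.unique (((hmul 0 0).sub (hmul 1 1)).div_const (Real.sqrt 2))
    exact (div_eq_zero_iff.1 this.symm).resolve_right h2
  have c3 : w 0 * x 1 + x 0 * w 1 = 0 := by
    have e : (fun r : ℝ => LL (ver (x + r • w)) 3)
        = fun r : ℝ => Real.sqrt 2 * ((x 0 + r * w 0) * (x 1 + r * w 1)) := by
      funext r; rw [LL_ver]; simp
    have h3 := hc 3
    rw [e] at h3
    have := h3.unique ((hmul 0 1).const_mul (Real.sqrt 2))
    exact (mul_eq_zero.1 this.symm).resolve_left h2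
  -- algebra
  have p1 : (x 0^2 + x 1^2) * (w 0^2 + w 1^2) = 0 := by
    have a : x 0 * w 0 - x 1 * w 1 = 0 := by linarith
    have : (x 0^2 + x 1^2) * (w 0^2 + w 1^2) = (x 0 * w 0 - x 1 * w 1)^2
      + (w 0 * x 1 + x 0 * w 1)^2 := by ring
    rw [this, a, c3]; ring
  have fin : w 0 = 0 ∧ w 1 = 0 ∧ w 2 = 0 := by
    rcases mul_eq_zero.1 p1 with h3 | h3
    · have a0 : x 0 = 0 := by nlinarith [sq_nonneg (x 0), sq_nonneg (x 1)]
      have a1 : x 1 = 0 := by nlinarith [sq_nonneg (x 0), sq_nonneg (x 1)]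
      rw [a0, a1] at hx hw'
      rw [a0] at c0
      rw [a1] at c1
      have hx2 : x 2 ≠ 0 := by
        intro h4; rw [h4] at hx; norm_num at hx
      refine ⟨?_, ?_, ?_⟩
      · have : x 2 * w 0 = 0 := by linarith
        exact (mul_eq_zero.1 this).resolve_left hx2
      · have : x 2 * w 1 = 0 := by linarith
        exact (mul_eq_zero.1 this).resolve_left hx2
      · have : x 2 * w 2 = 0 := by linarith
        exact (mul_eq_zero.1 this).resolve_left hx2
    · have a0 : w 0 = 0 := by nlinarith [sq_nonneg (w 0), sq_nonneg (w 1)]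
      have a1 : w 1 = 0 := by nlinarith [sq_nonneg (w 0), sq_nonneg (w 1)]
      refine ⟨a0, a1, ?_⟩
      rw [a0] at c0 hw'
      rw [a1] at c1 hw'
      have b0 : w 2 * x 0 = 0 := by linarith
      have b1 : w 2 * x 1 = 0 := by linarith
      have b2 : w 2 * x 2 = 0 := by linarith
      have : w 2 * (x 0^2 + x 1^2 + x 2^2) = 0 := by
        linear_combination x 0 * b0 + x 1 * b1 + x 2 * b2
      rw [hx, mul_one] at this
      exact this
  ext i
  fin_cases i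
  · exact fin.1
  · exact fin.2.1
  · exact fin.2.2

/-! ### the discs -/

/-- third coordinate -/
noncomputable def kap (Z : ℂ) : ℝ := Real.sqrt ((1 + Real.sqrt (1 - 4 * H.p^2 * ‖Z‖^2)) / 2)

theorem kap_pos (Z : ℂ) : 0 < H.kap Z := by
  apply Real.sqrt_pos.2
  have := Real.sqrt_nonneg (1 - 4 * H.p^2 * ‖Z‖^2)
  linarith

theorem kap_sq (Z : ℂ) : H.kap Z^2 = (1 + Real.sqrt (1 - 4 * H.p^2 * ‖Z‖^2)) / 2 := by
  apply Real.sq_sqrt
  have := Real.sqrt_nonneg (1 - 4 * H.p^2 * ‖Z‖^2)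
  linarith

/-- the point of the sphere over `Z` -/
noncomputable def del (Z : ℂ) : E3 := !₂[H.p * Z.re / H.kap Z, H.p * Z.im / H.kap Z, H.kap Z]

theorem xi_del (Z : ℂ) : xi (H.del Z) = (H.p : ℂ) * Z / H.kap Z := by
  have e : (H.p : ℂ) * Z / H.kap Z = ((H.p / H.kap Z : ℝ) : ℂ) * Z := by push_cast; ring
  rw [e]
  apply Complex.ext
  · rw [Complex.re_ofReal_mul]; simp [xi, del]; ring
  · rw [Complex.im_ofReal_mul]; simp [xi, del]; ring

theorem del_norm {Z : ℂ} (hZ : ‖Z‖ ≤ 3) : ‖H.del Z‖ = 1 := by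
  have hk := H.kap_pos Z
  have hk2 := H.kap_sq Z
  have hs := H.small hZ
  have hσ : Real.sqrt (1 - 4 * H.p^2 * ‖Z‖^2)^2 = 1 - 4 * H.p^2 * ‖Z‖^2 :=
    Real.sq_sqrt (by linarith)
  set σ := Real.sqrt (1 - 4 * H.p^2 * ‖Z‖^2) with hσd
  have hn : ‖Z‖^2 = Z.re^2 + Z.im^2 := by
    rw [← Complex.normSq_eq_norm_sq, Complex.normSq_apply]; ring
  rw [norm_E3]
  simp [del]
  have h1 : (H.p * Z.re / H.kap Z)^2 + (H.p * Z.im / H.kap Z)^2 = H.p^2 * ‖Z‖^2 / H.kap Z^2 := by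
    rw [hn]; field_simp
  rw [h1, hk2]
  have h2 : 0 ≤ σ := Real.sqrt_nonneg _
  have h3 : H.p^2 * ‖Z‖^2 = (1 - σ^2)/4 := by linarith
  rw [h3]
  field_simp
  ring

theorem sc_del {Z : ℂ} : H.sc (H.del Z) = (Z, Fp H.p Z) := by
  have hk := H.kap_pos Z
  have hk2 := H.kap_sq Z
  have hp : (H.p : ℂ) ≠ 0 := by exact_mod_cast H.hp.ne'
  have hkc : (H.kap Z : ℂ) ≠ 0 := by exact_mod_cast hk.ne'
  have h2 : H.del Z 2 = H.kap Z := by simp [del]
  apply Prod.ext
  · simp only [sc]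
    rw [xi_del, h2]
    field_simp
  · simp only [sc]
    rw [xi_del, Fp]
    have e : (((1 + Real.sqrt (1 - 4 * H.p^2 * ‖Z‖^2))⁻¹ : ℝ) : ℂ) = ((2 * H.kap Z^2 : ℝ) : ℂ)⁻¹ := by
      rw [hk2, ← Complex.ofReal_inv]
      congr 2
      ring
    rw [e]
    push_cast
    field_simp

theorem kap_contDiffAt {Z : ℂ} (hZ : ‖Z‖ ≤ 3) : ContDiffAt ℝ ∞ H.kap Z := by
  have hs := H.small hZ
  have h1 : ContDiffAt ℝ ∞ (fun Z : ℂ => 1 - 4 * H.p^2 * ‖Z‖^2) Z :=
    contDiffAt_const.sub (contDiffAt_const.mul (contDiff_norm_sq ℝ).contDiffAt)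
  have h2 : ContDiffAt ℝ ∞ (fun Z : ℂ => Real.sqrt (1 - 4 * H.p^2 * ‖Z‖^2)) Z :=
    h1.sqrt (by linarith)
  have h3 : ContDiffAt ℝ ∞ (fun Z : ℂ => (1 + Real.sqrt (1 - 4 * H.p^2 * ‖Z‖^2)) / 2) Z :=
    (contDiffAt_const.add h2).div_const 2
  apply h3.sqrt
  have := Real.sqrt_nonneg (1 - 4 * H.p^2 * ‖Z‖^2)
  linarith

theorem del_contDiffAt {Z : ℂ} (hZ : ‖Z‖ ≤ 3) : ContDiffAt ℝ ∞ H.del Z := by
  have hk := H.kap_contDiffAt hZ
  have hre : ContDiffAt ℝ ∞ (fun Z : ℂ => Z.re) Z := Complex.reCLM.contDiff.contDiffAt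
  have him : ContDiffAt ℝ ∞ (fun Z : ℂ => Z.im) Z := Complex.imCLM.contDiff.contDiffAt
  unfold del
  rw [contDiffAt_euclidean]
  intro i
  fin_cases i
  · exact (contDiffAt_const.mul hre).div hk (H.kap_pos Z).ne'
  · exact (contDiffAt_const.mul him).div hk (H.kap_pos Z).ne'
  · simpa using hk

/-- parametrisation of the discs; `σ = 1` or `-1` -/
noncomputable def dd (σ : ℝ) (u : ℂ) : E3 := H.del ((σ : ℂ) * (1 + u / 2))

theorem arg_norm {σ : ℝ} (hσ : |σ| = 1) {u : ℂ} (hu : ‖u‖ < 2) : ‖(σ : ℂ) * (1 + u / 2)‖ ≤ 3 := by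
  rw [norm_mul, Complex.norm_real, Real.norm_eq_abs, hσ, one_mul]
  refine (norm_add_le _ _).trans ?_
  rw [norm_one, norm_div, Complex.norm_ofNat]
  linarith

theorem dd_norm {σ : ℝ} (hσ : |σ| = 1) {u : ℂ} (hu : ‖u‖ < 2) : ‖H.dd σ u‖ = 1 :=
  H.del_norm (arg_norm hσ hu)

theorem sc_dd {σ : ℝ} {u : ℂ} :
    H.sc (H.dd σ u) = ((σ : ℂ) * (1 + u / 2), Fp H.p ((σ : ℂ) * (1 + u / 2))) := H.sc_del

theorem dd_contDiffAt {σ : ℝ} (hσ : |σ| = 1) {u : ℂ} (hu : ‖u‖ < 2) :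
    ContDiffAt ℝ ∞ (H.dd σ) u := by
  have h1 : ContDiffAt ℝ ∞ (fun u : ℂ => (σ : ℂ) * (1 + u / 2)) u := by fun_prop
  exact (H.del_contDiffAt (arg_norm hσ hu)).comp u h1

theorem sc_contDiff : ContDiff ℝ ∞ H.sc := by
  unfold sc xi
  have e : (fun x : E3 => (⟨x 0, x 1⟩ : ℂ)) = fun x : E3 => (x 0 : ℂ) + (x 1 : ℂ) * Complex.I := by
    funext x
    apply Complex.ext <;> simp
  have hc : ∀ i : Fin 3, ContDiff ℝ ∞ (fun x : E3 => (x i : ℂ)) := fun i =>
    Complex.ofRealCLM.contDiff.comp (EuclideanSpace.proj (𝕜 := ℝ) i).contDiff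
  have h : ContDiff ℝ ∞ (fun x : E3 => (⟨x 0, x 1⟩ : ℂ)) := by
    rw [e]
    exact (hc 0).add ((hc 1).mul contDiff_const)
  exact (((hc 2).mul h).div_const _).prodMk ((h.pow 2).div_const _)

theorem dd_imm {σ : ℝ} (hσ : |σ| = 1) {u : ℂ} (hu : ‖u‖ < 2) {v : ℂ}
    (h : fderiv ℝ (H.dd σ) u v = 0) : v = 0 := by
  have hd : HasFDerivAt (H.dd σ) (fderiv ℝ (H.dd σ) u) u :=
    ((H.dd_contDiffAt hσ hu).differentiableAt (by simp)).hasFDerivAt
  have hs : HasFDerivAt H.sc (fderiv ℝ H.sc (H.dd σ u)) (H.dd σ u) :=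
    (H.sc_contDiff.differentiable (by simp) _).hasFDerivAt
  have h1 := hs.comp u hd
  have h2 := (ContinuousLinearMap.fst ℝ ℂ ℂ).hasFDerivAt.comp u h1
  have h3 : HasFDerivAt (fun u : ℂ => (σ : ℂ) * (1 + u / 2))
      (((σ : ℂ) * 2⁻¹) • ContinuousLinearMap.id ℝ ℂ) u := by
    have h4 : HasFDerivAt (fun u : ℂ => 1 + u / 2) ((2⁻¹ : ℂ) • ContinuousLinearMap.id ℝ ℂ) u := by
      have h5 := ((hasFDerivAt_id (𝕜 := ℝ) u).const_mul (2⁻¹ : ℂ)).const_add 1
      refine h5.congr_of_eventuallyEq (Filter.Eventually.of_forall fun u => ?_)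
      simp only [id]
      ring
    have h6 := h4.const_mul (σ : ℂ)
    refine h6.congr_fderiv ?_
    ext w
    simp [mul_assoc]
  have h5 : (fun u => (H.sc (H.dd σ u)).1) = fun u : ℂ => (σ : ℂ) * (1 + u / 2) := by
    funext u; rw [sc_dd]
  have h6 : HasFDerivAt (fun u => (H.sc (H.dd σ u)).1)
      ((ContinuousLinearMap.fst ℝ ℂ ℂ).comp ((fderiv ℝ H.sc (H.dd σ u)).comp (fderiv ℝ (H.dd σ) u))) u := h2
  rw [h5] at h6
  have h7 := h6.unique h3
  have h8 := congrArg (fun l => l v) h7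
  simp only [ContinuousLinearMap.comp_apply] at h8
  rw [h, map_zero, map_zero] at h8
  have h9 : ((σ : ℂ) * 2⁻¹) * v = 0 := by
    have : (((σ : ℂ) * 2⁻¹) • ContinuousLinearMap.id ℝ ℂ) v = ((σ : ℂ) * 2⁻¹) * v := rfl
    rw [← this, ← h8]
  have hσ0 : (σ : ℂ) ≠ 0 := by
    intro h0
    have : σ = 0 := by exact_mod_cast h0
    rw [this, abs_zero] at hσ
    norm_num at hσ
  exact (mul_eq_zero.1 h9).resolve_left (mul_ne_zero hσ0 (by norm_num))

/-- the points of the sphere in the removed open set -/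
theorem Dop_iff {x : E3} (hx : ‖x‖ = 1) : H.sc x ∈ H.Dop ↔
    ∃ σ : ℝ, |σ| = 1 ∧ ∃ u : ℂ, ‖u‖ < 1 ∧ (x = H.dd σ u ∨ x = -H.dd σ u) := by
  constructor
  · rintro ⟨h1, h2⟩
    obtain ⟨y, rfl⟩ := sp_surj hx
    rw [H.sc_sp] at h1 h2
    obtain ⟨h3, -⟩ := H.V_low h1
    have key : ∀ σ : ℝ, |σ| = 1 → ‖(H.V y).1 - (σ : ℂ)‖ < 1/2 →
        ∃ u : ℂ, ‖u‖ < 1 ∧ (sp y = H.dd σ u ∨ sp y = -H.dd σ u) := by
      intro σ hσ h
      have hσ2 : σ^2 = 1 := by rw [← sq_abs, hσ]; norm_num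
      have hσc : (σ : ℂ) * σ = 1 := by rw [← Complex.ofReal_mul, ← pow_two, hσ2]; simp
      have hu : ‖2 * ((σ : ℂ) * (H.V y).1 - 1)‖ < 1 := by
        have e : 2 * ((σ : ℂ) * (H.V y).1 - 1) = 2 * ((σ : ℂ) * ((H.V y).1 - (σ : ℂ))) := by
          linear_combination (2 : ℂ) * hσc
        rw [e, norm_mul, norm_mul, Complex.norm_real, Real.norm_eq_abs, hσ, Complex.norm_ofNat]
        linarith
      refine ⟨2 * ((σ : ℂ) * (H.V y).1 - 1), hu, ?_⟩
      apply H.sc_inj (sp_norm y) (H.dd_norm hσ (by linarith))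
      rw [H.sc_sp, sc_dd]
      have e2 : (σ : ℂ) * (1 + 2 * ((σ : ℂ) * (H.V y).1 - 1) / 2) = (H.V y).1 := by
        linear_combination (H.V y).1 * hσc
      rw [e2]
      exact Prod.ext rfl h3
    rcases h2 with h2 | h2
    · exact ⟨1, by simp, key 1 (by simp) (by simpa using h2)⟩
    · refine ⟨-1, by simp, key (-1) (by simp) ?_⟩
      push_cast
      rw [sub_neg_eq_add]; exact h2
  · rintro ⟨σ, hσ, u, hu, h⟩
    have hsc : H.sc x = ((σ : ℂ) * (1 + u / 2), Fp H.p ((σ : ℂ) * (1 + u / 2))) := by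
      rcases h with h | h
      · rw [h, sc_dd]
      · rw [h, sc_neg, sc_dd]
    rw [hsc]
    refine ⟨H.Fp_small (arg_norm hσ (by linarith)), ?_⟩
    have h2 : ‖u / 2‖ < 1/2 := by
      rw [norm_div, Complex.norm_ofNat]; linarith
    rcases (abs_eq (by norm_num : (0:ℝ) ≤ 1)).1 hσ with rfl | rfl
    · left
      have e : ((1:ℝ) : ℂ) * (1 + u / 2) - 1 = u / 2 := by push_cast; ring
      simp only
      rw [e]; exact h2
    · right
      have e : ((-1:ℝ) : ℂ) * (1 + u / 2) + 1 = -(u / 2) := by push_cast; ring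
      simp only
      rw [e, norm_neg]; exact h2

end HD

end Pool.Agent.Helper331
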