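import Pool.Agent.Helper331.Hg

set_option autoImplicit false

open Set Filter Topology Function
open scoped ContDiff ComplexConjugate Manifold

namespace Pool.Agent.Helper331

namespace HD

variable (H : HD)

/-- radius -/
noncomputable def rad (r : ℝ) : ℝ := H.e + |r| * (1/2 - H.e)

theorem rad_ge (r : ℝ) : H.e ≤ H.rad r := by
  have := H.he1
  have := abs_nonneg r
  unfold rad
  nlinarith

theorem rad_le {r : ℝ} (h : |r| ≤ 1) : H.rad r ≤ 1/2 := by
  have := H.he1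
  unfold rad
  nlinarith

theorem rad_pos (r : ℝ) : 0 < H.rad r := lt_of_lt_of_le H.he (H.rad_ge r)

theorem rad_inj {r s : ℝ} (h : H.rad r = H.rad s) : |r| = |s| := by
  have := H.he1
  unfold rad at h
  have h1 : (|r| - |s|) * (1/2 - H.e) = 0 := by linarith
  rcases mul_eq_zero.1 h1 with h2 | h2
  · linarith
  · linarith

theorem rad_zero : H.rad 0 = H.e := by simp [rad]

theorem rad_one {r : ℝ} (h : |r| = 1) : H.rad r = 1/2 := by rw [rad, h]; ring

theorem rad_continuous : Continuous H.rad := by unfold rad; fun_prop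

/-- parametrisation of the handle -/
noncomputable def jj (z : Circle × Icc (-1:ℝ) 1) : AX :=
  if (z.2 : ℝ) ≤ 0 then H.N ((H.rad z.2 : ℂ) * (z.1 : ℂ))
    else Sx (H.N ((H.rad z.2 : ℂ) * (z.1 : ℂ)⁻¹))

theorem abs_le_one (r : Icc (-1:ℝ) 1) : |(r : ℝ)| ≤ 1 := abs_le.2 r.2

theorem norm_y (z : Circle × Icc (-1:ℝ) 1) : ‖(H.rad z.2 : ℂ) * (z.1 : ℂ)‖ = H.rad z.2 := by
  rw [norm_mul, Complex.norm_real, Circle.norm_coe, mul_one, Real.norm_of_nonneg (H.rad_pos _).le]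

theorem norm_y' (z : Circle × Icc (-1:ℝ) 1) : ‖(H.rad z.2 : ℂ) * (z.1 : ℂ)⁻¹‖ = H.rad z.2 := by
  rw [norm_mul, Complex.norm_real, norm_inv, Circle.norm_coe, inv_one, mul_one,
    Real.norm_of_nonneg (H.rad_pos _).le]

theorem KK_of {y : ℂ} (h1 : H.e ≤ ‖y‖) (h2 : ‖y‖ ≤ 1/2) : y ∈ H.KK := by
  have he := H.he
  have he1 := H.he1
  refine ⟨?_, by linarith⟩
  nlinarith

theorem swap {ζ : ℂ} (hζ : ‖ζ‖ = 1) : H.N ((H.e : ℂ) * ζ) = Sx (H.N ((H.e : ℂ) * ζ⁻¹)) := by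
  have he := H.he
  have he1 := H.he1
  have hζ0 : ζ ≠ 0 := by
    intro h0; rw [h0, norm_zero] at hζ; norm_num at hζ
  have hec : (H.e : ℂ) ≠ 0 := by exact_mod_cast he.ne'
  have hn : ‖(H.e : ℂ) * ζ⁻¹‖ = H.e := by
    rw [norm_mul, Complex.norm_real, norm_inv, hζ, inv_one, mul_one, Real.norm_of_nonneg he.le]
  have h1 := H.N_inv (y := (H.e : ℂ) * ζ⁻¹) (mul_ne_zero hec (inv_ne_zero hζ0))
    (by rw [hn]; linarith) (by
      rw [hn, pow_two, mul_div_assoc, div_self he.ne']; linarith)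
  rw [← h1]
  congr 1
  field_simp

theorem jj_continuous : Continuous H.jj := by
  unfold jj
  have h1 : Continuous (fun z : Circle × Icc (-1:ℝ) 1 => (H.rad z.2 : ℂ)) :=
    Complex.continuous_ofReal.comp (H.rad_continuous.comp (continuous_subtype_val.comp continuous_snd))
  have h2 : Continuous (fun z : Circle × Icc (-1:ℝ) 1 => (z.1 : ℂ)) :=
    continuous_subtype_val.comp continuous_fst
  have h3 : Continuous (fun z : Circle × Icc (-1:ℝ) 1 => (z.1 : ℂ)⁻¹) :=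
    h2.inv₀ (fun z => Circle.coe_ne_zero z.1)
  apply Continuous.if_le
  · exact H.N_continuousOn.comp_continuous (h1.mul h2) (fun z => H.KK_of
      (by rw [H.norm_y]; exact H.rad_ge _) (by rw [H.norm_y]; exact H.rad_le (abs_le_one _)))
  · exact Sx_continuous.comp (H.N_continuousOn.comp_continuous (h1.mul h3) (fun z => H.KK_of
      (by rw [H.norm_y']; exact H.rad_ge _) (by rw [H.norm_y']; exact H.rad_le (abs_le_one _))))
  · exact continuous_subtype_val.comp continuous_snd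
  · exact continuous_const
  · intro z hz
    rw [hz, H.rad_zero]
    exact H.swap (Circle.norm_coe z.1)

theorem MA_eq : H.MA = range H.jj := by
  have he := H.he
  have he1 := H.he1
  have hec : (H.e : ℂ) ≠ 0 := by exact_mod_cast he.ne'
  ext m
  constructor
  · rintro ⟨y, h1, h2, h3⟩
    have hy0 := H.ne_zero_of h1
    have hn0 : 0 < ‖y‖ := norm_pos_iff.2 hy0
    have hnc : (‖y‖ : ℂ) ≠ 0 := by exact_mod_cast hn0.ne'
    -- the direction
    set ζ : Circle := ⟨y / ‖y‖, by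
      rw [Submonoid.unitSphere, Submonoid.mem_mk]
      change y / ‖y‖ ∈ Metric.sphere (0:ℂ) 1
      rw [mem_sphere_zero_iff_norm, norm_div, Complex.norm_real, norm_norm, div_self hn0.ne']⟩ with hζ
    have hζc : (ζ : ℂ) = y / ‖y‖ := rfl
    set s : ℝ := (‖y‖ - H.e) / (1/2 - H.e) with hs
    have hden : 0 < 1/2 - H.e := by linarith
    have hs0 : 0 ≤ s := div_nonneg (by linarith) hden.le
    have hs1 : s ≤ 1 := by rw [hs, div_le_one hden]; linarith
    have hrad : ∀ r : ℝ, |r| = s → H.rad r = ‖y‖ := by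
      intro r hr
      rw [rad, hr, hs, div_mul_cancel₀ _ hden.ne']; ring
    rcases h3 with h3 | h3
    · refine ⟨(ζ, ⟨-s, by constructor <;> linarith⟩), ?_⟩
      rw [jj, if_pos (by simp only; linarith)]
      simp only
      rw [hrad (-s) (by rw [abs_neg, abs_of_nonneg hs0]), hζc, mul_div_cancel₀ _ hnc]
      exact h3
    · rcases eq_or_lt_of_le hs0 with h0 | h0
      · -- the middle circle
        have hye : ‖y‖ = H.e := by
          have : (‖y‖ - H.e) / (1/2 - H.e) = 0 := h0.symm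
          rw [div_eq_zero_iff] at this
          rcases this with h | h
          · linarith
          · linarith
        refine ⟨(ζ⁻¹, ⟨0, by constructor <;> norm_num⟩), ?_⟩
        rw [jj, if_pos (by simp)]
        simp only
        rw [H.rad_zero, H.swap (Circle.norm_coe _), Circle.coe_inv, inv_inv, hζc, ← hye,
          mul_div_cancel₀ _ hnc]
        exact h3
      · refine ⟨(ζ⁻¹, ⟨s, by constructor <;> linarith⟩), ?_⟩
        rw [jj, if_neg (by simp only; linarith)]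
        simp only
        rw [hrad s (abs_of_nonneg hs0), Circle.coe_inv, inv_inv, hζc, mul_div_cancel₀ _ hnc]
        exact h3
  · rintro ⟨z, rfl⟩
    rw [jj]
    split_ifs with h
    · exact ⟨_, by rw [H.norm_y]; exact H.rad_ge _, by rw [H.norm_y]; exact H.rad_le (abs_le_one _),
        Or.inl rfl⟩
    · exact ⟨_, by rw [H.norm_y']; exact H.rad_ge _, by rw [H.norm_y']; exact H.rad_le (abs_le_one _),
        Or.inr rfl⟩

theorem eq_half {y : ℂ} (h1 : H.e ≤ ‖y‖) (h2 : ‖y‖ ≤ 1/2) (h0 : hh H.e ‖y‖ = 0) : ‖y‖ = 1/2 := by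
  apply le_antisymm h2
  by_contra hc
  push Not at hc
  have hy0 := H.ne_zero_of h1
  have := hh_pos hc (lt_of_le_of_lt (H.KK_div (H.KK_of h1 h2)) (by norm_num))
  linarith

/-- the two halves of the handle only meet along the middle circle -/
theorem halves {y y' : ℂ} (h1 : H.e ≤ ‖y‖) (h2 : ‖y‖ ≤ 1/2) (h1' : H.e < ‖y'‖) (h2' : ‖y'‖ ≤ 1/2)
    (h : H.N y = Sx (H.N y')) : False := by
  have he := H.he
  have hy := H.ne_zero_of h1
  have hy' := H.ne_zero_of h1'.le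
  have hn : 0 < ‖y‖ := norm_pos_iff.2 hy
  have hn' : 0 < ‖y'‖ := norm_pos_iff.2 hy'
  have e2 : (Ng H.e y).2 = -(Ng H.e y').2 := congrArg (fun m : AX => m.2.2) h
  have e1 : (Ng H.e y).1 = conj (Ng H.e y').1 := congrArg (fun m : AX => m.2.1) h
  have hhn : hh H.e ‖y‖ = hh H.e ‖y'‖ := by
    rw [← Ng_norm hy, ← Ng_norm hy', e1, Complex.norm_conj]
  rcases eq_or_lt_of_le (hh_nonneg H.e ‖y'‖) with h0 | h0
  · have a' := H.eq_half h1'.le h2' h0.symm
    have a := H.eq_half h1 h2 (by rw [hhn]; exact h0.symm)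
    rw [H.N_outer a.ge, H.N_outer a'.ge] at h
    have h3 : 1 + y = -(1 + y') := congrArg (fun m : AX => m.1.1) h
    have h4 : y + y' = -2 := by linear_combination h3
    have h5 := norm_add_le y y'
    rw [h4, norm_neg, Complex.norm_ofNat, a, a'] at h5
    norm_num at h5
  · simp only [Ng] at e2
    have l1 : 0 ≤ Real.log (‖y‖ * H.e⁻¹) := by
      apply Real.log_nonneg
      rw [← div_eq_mul_inv, le_div_iff₀ he, one_mul]; exact h1
    have l2 : 0 < Real.log (‖y'‖ * H.e⁻¹) := by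
      apply Real.log_pos
      rw [← div_eq_mul_inv, lt_div_iff₀ he, one_mul]; exact h1'
    have l3 : 0 < hh H.e ‖y'‖ * Real.log (‖y'‖ * H.e⁻¹) := mul_pos h0 l2
    have l4 : 0 ≤ hh H.e ‖y‖ * Real.log (‖y‖ * H.e⁻¹) := mul_nonneg (hh_nonneg _ _) l1
    linarith

theorem jj_injective : Function.Injective H.jj := by
  intro z w h
  have he := H.he
  have he1 := H.he1
  have posne : ∀ r : ℝ, 0 < r → H.e < H.rad r := by
    intro r hr
    have : 0 < |r| := abs_pos.2 hr.ne'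
    unfold rad
    nlinarith
  have nz := H.norm_y z
  have nw := H.norm_y w
  have nz' := H.norm_y' z
  have nw' := H.norm_y' w
  have kz : (H.rad z.2 : ℂ) * (z.1 : ℂ) ∈ H.KK :=
    H.KK_of (by rw [nz]; exact H.rad_ge _) (by rw [nz]; exact H.rad_le (abs_le_one _))
  have kw : (H.rad w.2 : ℂ) * (w.1 : ℂ) ∈ H.KK :=
    H.KK_of (by rw [nw]; exact H.rad_ge _) (by rw [nw]; exact H.rad_le (abs_le_one _))
  have kz' : (H.rad z.2 : ℂ) * (z.1 : ℂ)⁻¹ ∈ H.KK :=
    H.KK_of (by rw [nz']; exact H.rad_ge _) (by rw [nz']; exact H.rad_le (abs_le_one _))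
  have kw' : (H.rad w.2 : ℂ) * (w.1 : ℂ)⁻¹ ∈ H.KK :=
    H.KK_of (by rw [nw']; exact H.rad_ge _) (by rw [nw']; exact H.rad_le (abs_le_one _))
  have fin : ∀ (hr : H.rad z.2 = H.rad w.2) (hsgn : ((z.2:ℝ) ≤ 0 ∧ (w.2:ℝ) ≤ 0) ∨ (0 ≤ (z.2:ℝ) ∧ 0 ≤ (w.2:ℝ)))
      (hz1 : z.1 = w.1), z = w := by
    intro hr hsgn hz1
    have h3 := H.rad_inj hr
    apply Prod.ext hz1
    apply Subtype.ext
    rcases hsgn with ⟨a, b⟩ | ⟨a, b⟩
    · rw [abs_of_nonpos a, abs_of_nonpos b] at h3; linarith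
    · rw [abs_of_nonneg a, abs_of_nonneg b] at h3; exact h3
  rw [jj, jj] at h
  split_ifs at h with h1 h2 h2
  · have h3 := H.N_injOn kz kw h
    have hr : H.rad z.2 = H.rad w.2 := by rw [← nz, ← nw, h3]
    refine fin hr (Or.inl ⟨h1, h2⟩) ?_
    rw [hr] at h3
    have hc : (H.rad w.2 : ℂ) ≠ 0 := by exact_mod_cast (H.rad_pos _).ne'
    exact Subtype.ext (mul_left_cancel₀ hc h3)
  · exfalso
    push Not at h2
    exact H.halves (by rw [nz]; exact H.rad_ge _) (by rw [nz]; exact H.rad_le (abs_le_one _))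
      (by rw [nw']; exact posne _ h2) (by rw [nw']; exact H.rad_le (abs_le_one _)) h
  · exfalso
    push Not at h1
    exact H.halves (by rw [nw]; exact H.rad_ge _) (by rw [nw]; exact H.rad_le (abs_le_one _))
      (by rw [nz']; exact posne _ h1) (by rw [nz']; exact H.rad_le (abs_le_one _)) h.symm
  · push Not at h1 h2
    have h3 := H.N_injOn kz' kw' (Sx_injective h)
    have hr : H.rad z.2 = H.rad w.2 := by rw [← nz', ← nw', h3]
    refine fin hr (Or.inr ⟨h1.le, h2.le⟩) ?_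
    rw [hr] at h3
    have hc : (H.rad w.2 : ℂ) ≠ 0 := by exact_mod_cast (H.rad_pos _).ne'
    exact Subtype.ext (inv_injective (mul_left_cancel₀ hc h3))

theorem jj_mem (z : Circle × Icc (-1:ℝ) 1) : H.jj z ∈ H.M := by
  right
  rw [H.MA_eq]
  exact ⟨z, rfl⟩

/-- first boundary circle -/
theorem jj_left (ζ : Circle) (h : (-1:ℝ) ∈ Icc (-1:ℝ) 1) :
    H.jj (ζ, ⟨-1, h⟩) = (H.sc (H.dd 1 ζ), 0) := by
  rw [jj, if_pos (by norm_num), sc_dd]
  simp only
  rw [H.rad_one (by norm_num)]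
  have e : ((1/2 : ℝ) : ℂ) * (ζ : ℂ) = (ζ : ℂ) / 2 := by push_cast; ring
  rw [e, H.N_outer (by rw [norm_div, Circle.norm_coe, Complex.norm_ofNat])]
  simp

/-- second boundary circle -/
theorem jj_right (ζ : Circle) (h : (1:ℝ) ∈ Icc (-1:ℝ) 1) :
    H.jj (ζ, ⟨1, h⟩) = (H.sc (H.dd (-1) (ζ⁻¹ : Circle)), 0) := by
  rw [jj, if_neg (by norm_num), sc_dd]
  simp only
  rw [H.rad_one (by norm_num)]
  have e : ((1/2 : ℝ) : ℂ) * (ζ : ℂ)⁻¹ = (ζ : ℂ)⁻¹ / 2 := by push_cast; ring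
  rw [e, H.N_outer (by rw [norm_div, norm_inv, Circle.norm_coe, Complex.norm_ofNat, inv_one])]
  have e2 : ((-1:ℝ) : ℂ) * (1 + ((ζ⁻¹ : Circle) : ℂ) / 2) = -(1 + (ζ : ℂ)⁻¹ / 2) := by
    rw [Circle.coe_inv]; push_cast; ring
  rw [e2, Fp_neg]
  simp only [Sx]
  simp

theorem bdry {x : E3} {z : Circle × Icc (-1:ℝ) 1} (h : ((H.sc x, 0) : AX) = H.jj z) :
    (z.2 : ℝ) = -1 ∨ (z.2 : ℝ) = 1 := by
  have he1 := H.he1
  have key : ∀ y : ℂ, ‖y‖ = H.rad z.2 → (Ng H.e y).1 = 0 → |(z.2 : ℝ)| = 1 := by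
    intro y hy h0
    have h1 : H.e ≤ ‖y‖ := by rw [hy]; exact H.rad_ge _
    have h2 : ‖y‖ ≤ 1/2 := by rw [hy]; exact H.rad_le (abs_le_one _)
    have h3 : hh H.e ‖y‖ = 0 := by
      rw [← Ng_norm (H.ne_zero_of h1), h0, norm_zero]
    have h4 := H.eq_half h1 h2 h3
    rw [hy, rad] at h4
    have h5 : (|(z.2:ℝ)| - 1) * (1/2 - H.e) = 0 := by linarith
    rcases mul_eq_zero.1 h5 with h6 | h6
    · linarith
    · linarith
  have h1 : |(z.2 : ℝ)| = 1 := by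
    rw [jj] at h
    split_ifs at h with h2
    · exact key _ (H.norm_y z) (congrArg (fun m : AX => m.2.1) h).symm
    · apply key _ (H.norm_y' z)
      have h3 : (0:ℂ) = conj (Ng H.e ((H.rad z.2 : ℂ) * (z.1 : ℂ)⁻¹)).1 :=
        congrArg (fun m : AX => m.2.1) h
      have h4 := congrArg conj h3
      rw [Complex.conj_conj, map_zero] at h4
      exact h4.symm
  rcases (abs_eq (by norm_num : (0:ℝ) ≤ 1)).1 h1 with h2 | h2
  · exact Or.inr h2
  · exact Or.inl h2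

theorem MV_mem_iff {m : AX} : m ∈ H.MV ↔ ∃ x : E3, ‖x‖ = 1 ∧ H.sc x ∉ H.Dop ∧ (H.sc x, 0) = m := by
  constructor
  · rintro ⟨⟨y, hy⟩, h1, h2⟩
    refine ⟨sp y, sp_norm y, ?_, ?_⟩
    · rw [H.sc_sp, hy]; exact h1
    · rw [H.sc_sp, hy]; exact Prod.ext rfl h2.symm
  · rintro ⟨x, hx, h1, rfl⟩
    obtain ⟨y, rfl⟩ := sp_surj hx
    exact ⟨⟨y, (H.sc_sp y).symm⟩, h1, rfl⟩

/-- the immersion -/
noncomputable def FF (m : AX) : EuclideanSpace ℝ (Fin 4) := J4 (H.Lam m.1)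

theorem FF_sc (x : E3) : H.FF (H.sc x, 0) = LL (ver x) := (H.LL_ver_eq x).symm

/-- the linear map -/
noncomputable def FL : (ℂ × ℂ) →L[ℝ] EuclideanSpace ℝ (Fin 4) := J4.comp H.Lam

theorem FL_injective : Function.Injective H.FL := J4_injective.comp H.Lam_injective

theorem inner_FF (u : EuclideanSpace ℝ (Fin 4)) (m : AX) :
    inner ℝ u (H.FF m) = ht (u 0 * (Real.sqrt 2 * H.p)) (u 1 * (Real.sqrt 2 * H.p))
      (u 2 * (H.p^2 / Real.sqrt 2)) (u 3 * (H.p^2 / Real.sqrt 2)) m.1 := by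
  rw [FF, inner_J4, Lam_apply, ht, ht]
  simp only
  rw [Complex.re_ofReal_mul, Complex.im_ofReal_mul, Complex.re_ofReal_mul, Complex.im_ofReal_mul]
  ring

theorem final_tight (u : EuclideanSpace ℝ (Fin 4)) (c : ℝ) :
    IsPreconnected ((fun m : H.M => H.FF m) ⁻¹' {y | c < inner ℝ u y}) := by
  rw [← Topology.IsInducing.subtypeVal.isPreconnected_image]
  convert H.tight_open (u 0 * (Real.sqrt 2 * H.p)) (u 1 * (Real.sqrt 2 * H.p))
      (u 2 * (H.p^2 / Real.sqrt 2)) (u 3 * (H.p^2 / Real.sqrt 2)) c using 1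
  ext y
  constructor
  · rintro ⟨m, hm, rfl⟩
    refine ⟨m.2, ?_⟩
    rw [← inner_FF]; exact hm
  · rintro ⟨h1, h2⟩
    refine ⟨⟨y, h1⟩, ?_, rfl⟩
    change c < inner ℝ u (H.FF y)
    rw [inner_FF]; exact h2

theorem final_manifold :
    ∃ (_ : ChartedSpace (EuclideanSpace ℝ (Fin 2)) H.M), IsManifold (𝓡 2) ∞ H.M ∧
      ContMDiff (𝓡 2) 𝓘(ℝ, EuclideanSpace ℝ (Fin 4)) ∞ (fun m : H.M => H.FF m) ∧
      ∀ x : H.M, Function.Injective
        (mfderiv (𝓡 2) 𝓘(ℝ, EuclideanSpace ℝ (Fin 4)) (fun m : H.M => H.FF m) x) := by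
  obtain ⟨hC, hM, hval, hmf⟩ := H.manifold
  refine ⟨hC, hM, H.FL.contDiff.contMDiff.comp hval, ?_⟩
  intro x
  have h1 : MDifferentiableAt 𝓘(ℝ, ℂ × ℂ) 𝓘(ℝ, EuclideanSpace ℝ (Fin 4)) H.FL (PX (x : AX)) :=
    H.FL.mdifferentiableAt
  have h2 : MDifferentiableAt (𝓡 2) 𝓘(ℝ, ℂ × ℂ) (fun m : H.M => PX m) x :=
    (hval x).mdifferentiableAt (by simp)
  have h3 := mfderiv_comp x h1 h2
  have h4 : mfderiv (𝓡 2) 𝓘(ℝ, EuclideanSpace ℝ (Fin 4)) (fun m : H.M => H.FF m) x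
    = (mfderiv 𝓘(ℝ, ℂ × ℂ) 𝓘(ℝ, EuclideanSpace ℝ (Fin 4)) H.FL (PX (x : AX))).comp
      (mfderiv (𝓡 2) 𝓘(ℝ, ℂ × ℂ) (fun m : H.M => PX m) x) := h3
  rw [h4]
  have h5 : mfderiv 𝓘(ℝ, ℂ × ℂ) 𝓘(ℝ, EuclideanSpace ℝ (Fin 4)) H.FL (PX (x : AX)) = H.FL := by
    rw [mfderiv_eq_fderiv]; exact H.FL.fderiv
  rw [h5]
  exact H.FL_injective.comp (hmf x)

end HD

end Pool.Agent.Helper331
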