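import Mathlib

set_option autoImplicit false

open Real Set Filter Topology

namespace Pool.Agent.Helper331

/-- Second order necessary condition at a local maximum, in one variable. -/
theorem second_order {g g1 : ℝ → ℝ} {g2 : ℝ}
    (h1 : ∀ r, HasDerivAt g (g1 r) r) (h2 : HasDerivAt g1 g2 0)
    (hm : IsLocalMax g 0) : g1 0 = 0 ∧ g2 ≤ 0 := by
  have h0 : g1 0 = 0 := hm.hasDerivAt_eq_zero (h1 0)
  refine ⟨h0, ?_⟩
  by_contra hpos
  push Not at hpos
  have hs := (hasDerivAt_iff_tendsto_slope.1 h2)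
  have hev : ∀ᶠ r in 𝓝[≠] (0:ℝ), 0 < slope g1 0 r := hs.eventually (lt_mem_nhds hpos)
  have hev2 : ∀ᶠ r in 𝓝[>] (0:ℝ), 0 < g1 r := by
    have h3 : ∀ᶠ r in 𝓝[>] (0:ℝ), 0 < slope g1 0 r :=
      hev.filter_mono (nhdsWithin_mono _ (fun x hx => ne_of_gt hx))
    filter_upwards [h3, self_mem_nhdsWithin] with r hr hr0
    have hr0' : (0:ℝ) < r := hr0
    rw [slope_def_field, h0, sub_zero, sub_zero] at hr
    exact (div_pos_iff_of_pos_right hr0').1 hr
  have hm' : ∀ᶠ r in 𝓝[>] (0:ℝ), g r ≤ g 0 := hm.filter_mono nhdsWithin_le_nhds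
  obtain ⟨e, he, hI⟩ := mem_nhdsGT_iff_exists_Ioo_subset.1 (hev2.and hm')
  have he' : (0:ℝ) < e := he
  have hmono : StrictMonoOn g (Icc 0 (e/2)) := by
    apply strictMonoOn_of_deriv_pos (convex_Icc _ _)
    · exact fun x _ => (h1 x).continuousAt.continuousWithinAt
    · intro x hx
      rw [interior_Icc] at hx
      rw [(h1 x).deriv]
      exact (hI ⟨hx.1, by linarith [hx.2]⟩).1
  have hlt : g 0 < g (e/2) :=
    hmono ⟨le_refl _, by linarith⟩ ⟨by linarith, le_refl _⟩ (by linarith)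
  have := (hI (show e/2 ∈ Ioo 0 e from ⟨by linarith, by linarith⟩)).2
  linarith

/-- The bump profile. -/
theorem exists_bump : ∃ k k1 k2 : ℝ → ℝ, ContDiff ℝ (⊤ : ℕ∞) k ∧
    (∀ c, HasDerivAt k (k1 c) c) ∧ (∀ c, HasDerivAt k1 (k2 c) c) ∧
    (∀ c, c ≤ 1/2 → k c = 0) ∧ (∀ c, 1/2 < c → 0 < k c) ∧
    (∀ c ∈ Icc (-1:ℝ) 1, 0 ≤ k1 c ∧ k1 c ≤ 1/8 ∧ |k2 c| ≤ 1/8) := by
  set f : ℝ → ℝ := fun c => expNegInvGlue (c - 1/2) with hf
  have hfs : ContDiff ℝ (⊤ : ℕ∞) f := expNegInvGlue.contDiff.comp (contDiff_id.sub contDiff_const)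
  have hf1s : ContDiff ℝ (⊤ : ℕ∞) (deriv f) := by
    have := contDiff_infty_iff_deriv.1 hfs
    exact this.2
  have hf2s : ContDiff ℝ (⊤ : ℕ∞) (deriv (deriv f)) := by
    have := contDiff_infty_iff_deriv.1 hf1s
    exact this.2
  obtain ⟨L1, hL1⟩ := (isCompact_Icc (a := (-1:ℝ)) (b := 1)).exists_bound_of_continuousOn
    hf1s.continuous.continuousOn
  obtain ⟨L2, hL2⟩ := (isCompact_Icc (a := (-1:ℝ)) (b := 1)).exists_bound_of_continuousOn
    hf2s.continuous.continuousOn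
  set L := max (max L1 L2) 1 with hL
  have hLpos : 0 < L := lt_of_lt_of_le one_pos (le_max_right _ _)
  have hmono : Monotone f := fun x y hxy => expNegInvGlue.monotone (by linarith)
  refine ⟨fun c => (1/(8*L)) * f c, fun c => (1/(8*L)) * deriv f c,
    fun c => (1/(8*L)) * deriv (deriv f) c, ?_, ?_, ?_, ?_, ?_, ?_⟩
  · exact contDiff_const.mul hfs
  · intro c
    exact ((hfs.differentiable (by simp)) c).hasDerivAt.const_mul _
  · intro c
    exact ((hf1s.differentiable (by simp)) c).hasDerivAt.const_mul _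
  · intro c hc
    have : f c = 0 := expNegInvGlue.zero_of_nonpos (by linarith)
    simp [this]
  · intro c hc
    have : 0 < f c := expNegInvGlue.pos_of_pos (by linarith)
    positivity
  · intro c hc
    have h1 := hL1 c hc
    have h2 := hL2 c hc
    rw [Real.norm_eq_abs] at h1 h2
    have hd : 0 ≤ deriv f c := hmono.deriv_nonneg
    have hL1' : L1 ≤ L := le_trans (le_max_left _ _) (le_max_left _ _)
    have hL2' : L2 ≤ L := le_trans (le_max_right _ _) (le_max_left _ _)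
    have hc0 : (0:ℝ) ≤ 1/(8*L) := by positivity
    refine ⟨by positivity, ?_, ?_⟩
    · have : deriv f c ≤ L := le_trans (le_trans (le_abs_self _) h1) hL1'
      calc (1/(8*L)) * deriv f c ≤ (1/(8*L)) * L := by gcongr
        _ = 1/8 := by field_simp
    · rw [abs_mul, abs_of_nonneg hc0]
      have : |deriv (deriv f) c| ≤ L := le_trans h2 hL2'
      calc (1/(8*L)) * |deriv (deriv f) c| ≤ (1/(8*L)) * L := by gcongr
        _ = 1/8 := by field_simp

end Pool.Agent.Helper331
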