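import Pool.Agent.Helper331.Klein1

set_option autoImplicit false

open Real Set Filter Topology

namespace Pool.Agent.Helper331

/-- First and second order conditions at a local maximum of a function of the special form
`α(s) A(t) + β(s) B(t)`. -/
theorem prod_second_order {α α1 α2 β β1 β2 A A1 A2 B B1 B2 : ℝ → ℝ}
    (hα : ∀ s, HasDerivAt α (α1 s) s) (hα1 : ∀ s, HasDerivAt α1 (α2 s) s)
    (hβ : ∀ s, HasDerivAt β (β1 s) s) (hβ1 : ∀ s, HasDerivAt β1 (β2 s) s)
    (hA : ∀ s, HasDerivAt A (A1 s) s) (hA1 : ∀ s, HasDerivAt A1 (A2 s) s)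
    (hB : ∀ s, HasDerivAt B (B1 s) s) (hB1 : ∀ s, HasDerivAt B1 (B2 s) s)
    {s0 t0 : ℝ}
    (hm : IsLocalMax (fun p : ℝ × ℝ => α p.1 * A p.2 + β p.1 * B p.2) (s0, t0)) (u w : ℝ) :
    u * (α1 s0 * A t0 + β1 s0 * B t0) + w * (α s0 * A1 t0 + β s0 * B1 t0) = 0 ∧
    u^2 * (α2 s0 * A t0 + β2 s0 * B t0) + 2 * u * w * (α1 s0 * A1 t0 + β1 s0 * B1 t0)
      + w^2 * (α s0 * A2 t0 + β s0 * B2 t0) ≤ 0 := by
  have hls : ∀ r : ℝ, HasDerivAt (fun r : ℝ => s0 + u * r) u r := fun r => by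
    simpa using ((hasDerivAt_id r).const_mul u).const_add s0
  have hlt : ∀ r : ℝ, HasDerivAt (fun r : ℝ => t0 + w * r) w r := fun r => by
    simpa using ((hasDerivAt_id r).const_mul w).const_add t0
  set g : ℝ → ℝ := fun r => α (s0 + u * r) * A (t0 + w * r) + β (s0 + u * r) * B (t0 + w * r)
    with hg
  set g1 : ℝ → ℝ := fun r =>
    (α1 (s0 + u * r) * u) * A (t0 + w * r) + α (s0 + u * r) * (A1 (t0 + w * r) * w)
     + ((β1 (s0 + u * r) * u) * B (t0 + w * r) + β (s0 + u * r) * (B1 (t0 + w * r) * w)) with hg1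
  have H1 : ∀ r, HasDerivAt g (g1 r) r := by
    intro r
    exact (((hα _).comp r (hls r)).mul ((hA _).comp r (hlt r))).add
      (((hβ _).comp r (hls r)).mul ((hB _).comp r (hlt r)))
  have H2 := ((((((hα1 _).comp 0 (hls 0)).mul_const u).mul ((hA _).comp 0 (hlt 0))).add
      (((hα _).comp 0 (hls 0)).mul (((hA1 _).comp 0 (hlt 0)).mul_const w))).add
      (((((hβ1 _).comp 0 (hls 0)).mul_const u).mul ((hB _).comp 0 (hlt 0))).add
      (((hβ _).comp 0 (hls 0)).mul (((hB1 _).comp 0 (hlt 0)).mul_const w))))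
  have hmg : IsLocalMax g 0 := by
    have hc : ContinuousAt (fun r : ℝ => (s0 + u * r, t0 + w * r)) 0 :=
      ((hls 0).continuousAt).prodMk ((hlt 0).continuousAt)
    have h0 : (fun r : ℝ => (s0 + u * r, t0 + w * r)) 0 = (s0, t0) := by simp
    have : Tendsto (fun r : ℝ => (s0 + u * r, t0 + w * r)) (𝓝 0) (𝓝 (s0, t0)) := by
      have := hc.tendsto
      simpa using this
    have h2 := this.eventually hm
    filter_upwards [h2] with r hr
    simpa [hg] using hr
  obtain ⟨ha, hb⟩ := second_order H1 H2 hmg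
  constructor
  · have : g1 0 = u * (α1 s0 * A t0 + β1 s0 * B t0) + w * (α s0 * A1 t0 + β s0 * B1 t0) := by
      simp only [hg1, mul_zero, add_zero]; ring
    rw [← this]; exact ha
  · simp only [mul_zero, add_zero, Function.comp] at hb
    nlinarith [hb]

end Pool.Agent.Helper331
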