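import Pool.Agent.Helper331.Klein2

set_option autoImplicit false

open Real Set Filter Topology

namespace Pool.Agent.Helper331

/-- Algebraic core of: a local maximum on the Veronese part is a top eigenvector. -/
theorem top_alg {α α' β β' σ κ : ℝ} (hr : σ^2 + κ^2 = 1) (hσ : σ ≠ 0)
    (E1 : α * (κ^2 - σ^2) + 2 * β * σ * κ = 0) (E2 : α' * κ + 2 * β' * σ = 0)
    (D2 : ∀ u w : ℝ, u^2 * (-(α * (σ * κ)) - 4 * (β * σ^2))
      + 2 * u * w * (α' * ((κ^2 - σ^2)/2) + 2 * β' * (σ * κ))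
      + w^2 * (α * (-(σ * κ)) + β * ((κ^2 - σ^2)/2)) ≤ 0) (ρ τ z : ℝ) :
    α * ρ * z + α' * τ * z + β * (ρ^2 - τ^2) + 2 * β' * ρ * τ
      ≤ (α * (σ * κ) + β * σ^2) * (ρ^2 + τ^2 + z^2) := by
  set x := σ * ρ + κ * z with hx
  set y := κ * ρ - σ * z with hy
  have hρ : ρ = x * σ + y * κ := by rw [hx, hy]; linear_combination (-ρ) * hr
  have hz : z = x * κ - y * σ := by rw [hx, hy]; linear_combination (-z) * hr
  have hD := D2 τ (2 * y * σ)
  have hσ2 : 0 < σ^2 := by positivity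
  clear_value x y
  subst hρ
  subst hz
  have key : 2 * σ^2 * ((α * (σ * κ) + β * σ^2) * ((x * σ + y * κ)^2 + τ^2 + (x * κ - y * σ)^2)
      - (α * (x * σ + y * κ) * (x * κ - y * σ) + α' * τ * (x * κ - y * σ)
        + β * ((x * σ + y * κ)^2 - τ^2) + 2 * β' * (x * σ + y * κ) * τ))
      + (τ^2 * (-(α * (σ * κ)) - 4 * (β * σ^2))
      + 2 * τ * (2 * y * σ) * (α' * ((κ^2 - σ^2)/2) + 2 * β' * (σ * κ))
      + (2 * y * σ)^2 * (α * (-(σ * κ)) + β * ((κ^2 - σ^2)/2))) = 0 := by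
    linear_combination (-2 * σ^2 * x * y - σ * κ * τ^2) * E1
      + (-2 * σ^2 * τ * x + 2 * σ * κ * τ * y) * E2
      + (τ^2 * (α * σ * κ + 2 * β * σ^2)
         + 2 * σ^2 * (α * (σ * κ) + β * σ^2) * (x^2 + y^2)) * hr
  have h3 : 0 ≤ 2 * σ^2 * ((α * (σ * κ) + β * σ^2) * ((x * σ + y * κ)^2 + τ^2 + (x * κ - y * σ)^2)
      - (α * (x * σ + y * κ) * (x * κ - y * σ) + α' * τ * (x * κ - y * σ)
        + β * ((x * σ + y * κ)^2 - τ^2) + 2 * β' * (x * σ + y * κ) * τ)) := by linarith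
  have h4 := nonneg_of_mul_nonneg_right h3 (by positivity)
  linarith

/-- linear term of a nonnegative quadratic vanishes -/
theorem lin_zero {c l : ℝ} (h : ∀ r : ℝ, 0 ≤ c * r + l * r^2) : c = 0 := by
  by_contra hc
  have hl : 0 ≤ |l| := abs_nonneg l
  have h1 := h (-(c / (|l| + 1)))
  have h2 : l ≤ |l| := le_abs_self l
  have hp : 0 < |l| + 1 := by linarith
  have h3 : c * (-(c / (|l| + 1))) + l * (-(c / (|l| + 1)))^2
      = (c^2 / (|l|+1)^2) * (l - (|l| + 1)) := by field_simp; ring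
  rw [h3] at h1
  have hc2 : 0 < c^2 / (|l|+1)^2 := by positivity
  nlinarith

end Pool.Agent.Helper331
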