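import Pool.Agent.Helper331.Klein3

set_option autoImplicit false

open Real Set Filter Topology

namespace Pool.Agent.Helper331

/-- height function of the Klein bottle in the coordinates `(s, t)` -/
noncomputable def hk (v0 v1 v2 v3 : ℝ) (k : ℝ → ℝ) (p : ℝ × ℝ) : ℝ :=
  (v0 * cos p.1 + v1 * sin p.1) * (sin p.2 / 2)
    + (v2 * cos (2 * p.1) + v3 * sin (2 * p.1)) * ((1 - cos p.2) / 2 + k (cos p.2))

/-- the quadratic form -/
def qf (v0 v1 v2 v3 x y z : ℝ) : ℝ :=
  v0 * x * z + v1 * y * z + v2 * (x^2 - y^2) + 2 * v3 * x * y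

theorem hasDerivAt_al (a b s : ℝ) :
    HasDerivAt (fun s => a * cos s + b * sin s) (-a * sin s + b * cos s) s := by
  have := ((hasDerivAt_cos s).const_mul a).add ((hasDerivAt_sin s).const_mul b)
  exact this.congr_deriv (by ring)

theorem hasDerivAt_al1 (a b s : ℝ) :
    HasDerivAt (fun s => -a * sin s + b * cos s) (-(a * cos s + b * sin s)) s := by
  have := ((hasDerivAt_sin s).const_mul (-a)).add ((hasDerivAt_cos s).const_mul b)
  exact this.congr_deriv (by ring)

theorem hasDerivAt_two (s : ℝ) : HasDerivAt (fun s : ℝ => 2 * s) 2 s := by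
  simpa using (hasDerivAt_id s).const_mul (2:ℝ)

theorem hasDerivAt_be (a b s : ℝ) :
    HasDerivAt (fun s => a * cos (2 * s) + b * sin (2 * s))
      (2 * (-a * sin (2 * s) + b * cos (2 * s))) s := by
  have := (hasDerivAt_al a b (2 * s)).comp s (hasDerivAt_two s)
  exact this.congr_deriv (by ring)

theorem hasDerivAt_be1 (a b s : ℝ) :
    HasDerivAt (fun s => 2 * (-a * sin (2 * s) + b * cos (2 * s)))
      (-4 * (a * cos (2 * s) + b * sin (2 * s))) s := by
  have := ((hasDerivAt_al1 a b (2 * s)).comp s (hasDerivAt_two s)).const_mul (2:ℝ)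
  exact this.congr_deriv (by ring)

theorem hasDerivAt_A (t : ℝ) : HasDerivAt (fun t => sin t / 2) (cos t / 2) t :=
  (hasDerivAt_sin t).div_const 2

theorem hasDerivAt_A1 (t : ℝ) : HasDerivAt (fun t => cos t / 2) (-sin t / 2) t :=
  (hasDerivAt_cos t).div_const 2

theorem hasDerivAt_B {k k1 : ℝ → ℝ} (hk1 : ∀ c, HasDerivAt k (k1 c) c) (t : ℝ) :
    HasDerivAt (fun t => (1 - cos t) / 2 + k (cos t)) (sin t / 2 - k1 (cos t) * sin t) t := by
  have := (((hasDerivAt_cos t).const_sub 1).div_const 2).add ((hk1 (cos t)).comp t (hasDerivAt_cos t))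
  exact this.congr_deriv (by ring)

theorem hasDerivAt_B1 {k1 k2 : ℝ → ℝ} (hk2 : ∀ c, HasDerivAt k1 (k2 c) c) (t : ℝ) :
    HasDerivAt (fun t => sin t / 2 - k1 (cos t) * sin t)
      (cos t / 2 - k1 (cos t) * cos t + k2 (cos t) * sin t ^ 2) t := by
  have := ((hasDerivAt_sin t).div_const 2).sub
    (((hk2 (cos t)).comp t (hasDerivAt_cos t)).mul (hasDerivAt_sin t))
  exact this.congr_deriv (by simp only [Function.comp]; ring)

/-- the value of the height function on the Veronese part -/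
theorem hk_eq_qf (v0 v1 v2 v3 : ℝ) (k : ℝ → ℝ) (s t : ℝ) (h0 : k (cos t) = 0) :
    hk v0 v1 v2 v3 k (s, t) =
      qf v0 v1 v2 v3 (sin (t/2) * cos s) (sin (t/2) * sin s) (cos (t/2)) := by
  have h1 : sin t = 2 * sin (t/2) * cos (t/2) := by
    rw [← sin_two_mul]; congr 1; ring
  have h2 : cos t = 2 * cos (t/2)^2 - 1 := by
    rw [← cos_two_mul]; congr 1; ring
  have h3 := sin_sq_add_cos_sq (t/2)
  unfold hk qf
  rw [h0, cos_two_mul' s, sin_two_mul s, h1, h2]
  linear_combination (v2 * (cos s ^2 - sin s ^2) + 2 * v3 * sin s * cos s) * (-1) * h3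

/-- Claim A: a local maximum on the Veronese part is a maximum of the quadratic form. -/
theorem claimA {v0 v1 v2 v3 : ℝ} {k : ℝ → ℝ} (hk0 : ∀ c, c ≤ 1/2 → k c = 0)
    {s0 t0 : ℝ} (ht : cos t0 < 1/2) (hm : IsLocalMax (hk v0 v1 v2 v3 k) (s0, t0)) (x y z : ℝ) :
    qf v0 v1 v2 v3 x y z ≤ hk v0 v1 v2 v3 k (s0, t0) * (x^2 + y^2 + z^2) := by
  have hev : ∀ᶠ p : ℝ × ℝ in 𝓝 (s0, t0), hk v0 v1 v2 v3 k p =
      (fun p : ℝ × ℝ => (v0 * cos p.1 + v1 * sin p.1) * (sin p.2 / 2)
        + (v2 * cos (2 * p.1) + v3 * sin (2 * p.1)) * ((1 - cos p.2) / 2)) p := by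
    have hc : Continuous (fun p : ℝ × ℝ => cos p.2) := by fun_prop
    have : ∀ᶠ p : ℝ × ℝ in 𝓝 (s0, t0), cos p.2 < 1/2 :=
      hc.continuousAt.eventually (gt_mem_nhds ht)
    filter_upwards [this] with p hp
    simp only [hk, hk0 _ hp.le, add_zero]
  have hm' : IsLocalMax (fun p : ℝ × ℝ => (v0 * cos p.1 + v1 * sin p.1) * (sin p.2 / 2)
        + (v2 * cos (2 * p.1) + v3 * sin (2 * p.1)) * ((1 - cos p.2) / 2)) (s0, t0) := by
    have h0 := hev.self_of_nhds
    filter_upwards [hm, hev] with p hp hp2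
    exact (hp2.symm.le.trans hp).trans h0.le
  have hB : ∀ t, HasDerivAt (fun t => (1 - cos t) / 2) (sin t / 2) t := fun t => by
    have := ((hasDerivAt_cos t).const_sub 1).div_const 2
    exact this.congr_deriv (by ring)
  have hB1 : ∀ t, HasDerivAt (fun t => sin t / 2) (cos t / 2) t := fun t =>
    (hasDerivAt_sin t).div_const 2
  have H := prod_second_order (hasDerivAt_al v0 v1) (hasDerivAt_al1 v0 v1)
    (hasDerivAt_be v2 v3) (hasDerivAt_be1 v2 v3) hasDerivAt_A hasDerivAt_A1 hB hB1 hm'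
  set σ := sin (t0/2) with hσd
  set κ := cos (t0/2) with hκd
  have hr : σ^2 + κ^2 = 1 := sin_sq_add_cos_sq (t0/2)
  have h1 : sin t0 = 2 * σ * κ := by
    rw [hσd, hκd, ← sin_two_mul]; congr 1; ring
  have h2 : cos t0 = κ^2 - σ^2 := by
    rw [hσd, hκd, ← cos_two_mul']; congr 1; ring
  have hσ : σ ≠ 0 := by
    intro h0
    rw [h0] at hr h2
    have : κ^2 = 1 := by linarith
    rw [this] at h2
    rw [h2] at ht; norm_num at ht
  have hcs := sin_sq_add_cos_sq s0
  set c := cos s0 with hc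
  set s := sin s0 with hs
  have hc2 : cos (2 * s0) = c^2 - s^2 := cos_two_mul' s0
  have hs2 : sin (2 * s0) = 2 * s * c := sin_two_mul s0
  have hval : hk v0 v1 v2 v3 k (s0, t0) =
      (v0 * c + v1 * s) * (σ * κ) + (v2 * cos (2 * s0) + v3 * sin (2 * s0)) * σ^2 := by
    have hk00 : k (cos t0) = 0 := hk0 _ ht.le
    simp only [hk, hk00]
    rw [← hc, ← hs, h1, h2]
    linear_combination (v2 * cos (2 * s0) + v3 * sin (2 * s0)) * (-1/2) * hr
  have E1 : (v0 * c + v1 * s) * (κ^2 - σ^2)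
      + 2 * (v2 * cos (2 * s0) + v3 * sin (2 * s0)) * σ * κ = 0 := by
    have := (H 0 1).1
    simp only [h1, h2, zero_mul, zero_add, one_mul] at this
    linear_combination 2 * this
  have E2 : (-v0 * s + v1 * c) * κ
      + 2 * (-v2 * sin (2 * s0) + v3 * cos (2 * s0)) * σ = 0 := by
    have := (H 1 0).1
    simp only [h1, h2, zero_mul, add_zero, one_mul] at this
    have h5 : σ * ((-v0 * s + v1 * c) * κ
      + 2 * (-v2 * sin (2 * s0) + v3 * cos (2 * s0)) * σ) = 0 := by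
      linear_combination this + (-v2 * sin (2 * s0) + v3 * cos (2 * s0)) * hr
    exact (mul_eq_zero.1 h5).resolve_left hσ
  have D2 : ∀ u w : ℝ, u^2 * (-((v0 * c + v1 * s) * (σ * κ))
        - 4 * ((v2 * cos (2 * s0) + v3 * sin (2 * s0)) * σ^2))
      + 2 * u * w * ((-v0 * s + v1 * c) * ((κ^2 - σ^2)/2)
        + 2 * (-v2 * sin (2 * s0) + v3 * cos (2 * s0)) * (σ * κ))
      + w^2 * ((v0 * c + v1 * s) * (-(σ * κ))
        + (v2 * cos (2 * s0) + v3 * sin (2 * s0)) * ((κ^2 - σ^2)/2)) ≤ 0 := by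
    intro u w
    have := (H u w).2
    rw [h1, h2] at this
    refine le_trans (le_of_eq ?_) this
    linear_combination (-2 * u^2 * (v2 * cos (2 * s0) + v3 * sin (2 * s0))) * hr
  have T := top_alg hr hσ E1 E2 D2 (x * c + y * s) (-x * s + y * c) z
  rw [hval]
  have hL : (v0 * c + v1 * s) * (x * c + y * s) * z + (-v0 * s + v1 * c) * (-x * s + y * c) * z
      + (v2 * cos (2 * s0) + v3 * sin (2 * s0)) * ((x * c + y * s)^2 - (-x * s + y * c)^2)
      + 2 * (-v2 * sin (2 * s0) + v3 * cos (2 * s0)) * (x * c + y * s) * (-x * s + y * c)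
      = qf v0 v1 v2 v3 x y z := by
    rw [hc2, hs2]
    unfold qf
    linear_combination (v0 * x * z + v1 * y * z
      + (v2 * (x^2 - y^2) + 2 * v3 * x * y) * (c^2 + s^2 + 1)) * hcs
  have hR : (x * c + y * s)^2 + (-x * s + y * c)^2 + z^2 = x^2 + y^2 + z^2 := by
    linear_combination (x^2 + y^2) * hcs
  rw [hL, hR] at T
  exact T

end Pool.Agent.Helper331
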