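import Pool.Agent.Helper331.Klein4

set_option autoImplicit false

open Real Set Filter Topology

namespace Pool.Agent.Helper331

/-- Claim B: no local maximum of a nonzero height function on the lower part. -/
theorem claimB {v0 v1 v2 v3 : ℝ} {k k1 k2 : ℝ → ℝ}
    (hk1 : ∀ c, HasDerivAt k (k1 c) c) (hk2 : ∀ c, HasDerivAt k1 (k2 c) c)
    (hk0 : ∀ c, c ≤ 1/2 → k c = 0) (hkp : ∀ c, 1/2 < c → 0 < k c)
    (hkb : ∀ c ∈ Icc (-1:ℝ) 1, 0 ≤ k1 c ∧ k1 c ≤ 1/8 ∧ |k2 c| ≤ 1/8)
    {s0 t0 : ℝ} (ht : 1/3 < cos t0) (hm : IsLocalMax (hk v0 v1 v2 v3 k) (s0, t0)) :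
    v0 = 0 ∧ v1 = 0 ∧ v2 = 0 ∧ v3 = 0 := by
  have H := prod_second_order (hasDerivAt_al v0 v1) (hasDerivAt_al1 v0 v1)
    (hasDerivAt_be v2 v3) (hasDerivAt_be1 v2 v3) hasDerivAt_A hasDerivAt_A1
    (hasDerivAt_B hk1) (hasDerivAt_B1 hk2) hm
  have hcs := sin_sq_add_cos_sq s0
  have hcs2 := sin_sq_add_cos_sq (2 * s0)
  have hCS := sin_sq_add_cos_sq t0
  have hCm : cos t0 ∈ Icc (-1:ℝ) 1 := cos_mem_Icc t0
  obtain ⟨hb1, hb2, hb3⟩ := hkb _ hCm
  rw [abs_le] at hb3
  set α := v0 * cos s0 + v1 * sin s0 with hα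
  set α' := -v0 * sin s0 + v1 * cos s0 with hα'
  set β := v2 * cos (2 * s0) + v3 * sin (2 * s0) with hβ
  set β' := -v2 * sin (2 * s0) + v3 * cos (2 * s0) with hβ'
  set S := sin t0 with hS
  set C := cos t0 with hC
  set m1 := k1 C with hm1
  set m2 := k2 C with hm2
  set B := (1 - C) / 2 + k C with hB
  have hkC : 0 ≤ k C := by
    rcases le_or_gt C (1/2) with h | h
    · rw [hk0 _ h]
    · exact (hkp _ h).le
  have hC1 : C ≤ 1 := hCm.2
  have hBpos : 0 < B := by
    rcases eq_or_lt_of_le hC1 with h | h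
    · have : 0 < k C := hkp _ (by rw [h]; norm_num)
      rw [hB]; linarith
    · rw [hB]; linarith
  have hCpos : 0 < C := by linarith
  have hS2 : 0 ≤ S^2 := sq_nonneg S
  have hS2le : S^2 ≤ 1 := by nlinarith
  -- convexity
  have hconv : 0 < (C/2) * (C / 2 - m1 * C + m2 * S^2) - (-S/2) * (S / 2 - m1 * S) := by
    have e : (C/2) * (C / 2 - m1 * C + m2 * S^2) - (-S/2) * (S / 2 - m1 * S)
        = (1/2) * ((1/2 - m1) + C * S^2 * m2) := by
      linear_combination (1/2 - m1)/2 * hCS
    have hCS2 : C * S^2 ≤ 1 := by nlinarith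
    have hCS0 : 0 ≤ C * S^2 := by positivity
    rw [e]
    nlinarith
  -- zeta
  have hzeta : 0 < 2 * C * B - (S/2) * (S / 2 - m1 * S) := by
    have e : 2 * C * B - (S/2) * (S / 2 - m1 * S)
        = (1 - C) * (3 * C - 1) / 4 + 2 * C * k C + m1 * S^2 / 2 := by
      rw [hB]; linear_combination (-1/4) * hCS
    rw [e]
    have h1 : 0 ≤ (1 - C) * (3 * C - 1) / 4 := by
      apply div_nonneg _ (by norm_num)
      apply mul_nonneg <;> linarith
    have h3 : 0 ≤ m1 * S^2 / 2 := by positivity
    rcases eq_or_lt_of_le hC1 with h | h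
    · have : 0 < k C := hkp _ (by rw [h]; norm_num)
      have : 0 < 2 * C * k C := by positivity
      linarith
    · have : 0 < (1 - C) * (3 * C - 1) / 4 := by
        apply div_pos _ (by norm_num)
        apply mul_pos <;> linarith
      have : 0 ≤ 2 * C * k C := by positivity
      linarith
  have E1 : α * (C / 2) + β * (S / 2 - m1 * S) = 0 := by
    have := (H 0 1).1
    linarith
  have E2 : α' * (S / 2) + 2 * β' * B = 0 := by
    have := (H 1 0).1
    linarith
  set m := -2 * β / C with hmd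
  have hβm : β = -m * (C/2) := by rw [hmd]; field_simp
  have hαm : α = m * (S / 2 - m1 * S) := by
    have : (C/2) * α = (C/2) * (m * (S / 2 - m1 * S)) := by
      rw [hβm] at E1; linarith
    exact mul_left_cancel₀ (by positivity) this
  have hm_nonneg : 0 ≤ m := by
    have h2 := (H 0 1).2
    have h3 : -(m * ((C/2) * (C / 2 - m1 * C + m2 * S^2) - (-S/2) * (S / 2 - m1 * S))) ≤ 0 := by
      have e : -(m * ((C/2) * (C / 2 - m1 * C + m2 * S^2) - (-S/2) * (S / 2 - m1 * S)))
        = α * (-S/2) + β * (C / 2 - m1 * C + m2 * S^2) := by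
        rw [hαm, hβm]; ring
      rw [e]; linarith
    by_contra hneg
    push Not at hneg
    have := mul_neg_of_neg_of_pos hneg hconv
    linarith
  have hm_nonpos : m ≤ 0 := by
    have h2 := (H 1 0).2
    have h3 : m * (2 * C * B - (S/2) * (S / 2 - m1 * S)) ≤ 0 := by
      have e : m * (2 * C * B - (S/2) * (S / 2 - m1 * S)) = -α * (S/2) + -4 * β * B := by
        rw [hαm, hβm]; ring
      rw [e]; linarith
    by_contra hpos
    push Not at hpos
    have := mul_pos hpos hzeta
    linarith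
  have hm0 : m = 0 := le_antisymm hm_nonpos hm_nonneg
  have hα0 : α = 0 := by rw [hαm, hm0]; ring
  have hβ0 : β = 0 := by rw [hβm, hm0]; ring
  have hst : α' * (C/2) + 2 * β' * (S / 2 - m1 * S) = 0 := by
    have h1 := (H 1 1).2
    have h2 := (H 1 (-1)).2
    rw [hα0, hβ0] at h1 h2
    exact le_antisymm (by linarith only [h1]) (by linarith only [h2])
  -- third order
  have hβ'0 : β' = 0 := by
    have hline : ∀ᶠ r : ℝ in 𝓝 0, 2 * β' * B * (sin r * (cos r - 1)) ≤ 0 := by
      have hc : Tendsto (fun r : ℝ => (s0 + r, t0)) (𝓝 0) (𝓝 (s0, t0)) := by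
        have : Continuous (fun r : ℝ => (s0 + r, t0)) := by fun_prop
        simpa using this.tendsto 0
      filter_upwards [hc.eventually hm] with r hr
      have e0 : hk v0 v1 v2 v3 k (s0, t0) = 0 := by
        have : hk v0 v1 v2 v3 k (s0, t0) = α * (S/2) + β * B := rfl
        rw [this, hα0, hβ0]; ring
      have e1 : hk v0 v1 v2 v3 k (s0 + r, t0) = 2 * β' * B * (sin r * (cos r - 1)) := by
        have e2 : hk v0 v1 v2 v3 k (s0 + r, t0)
          = (v0 * cos (s0 + r) + v1 * sin (s0 + r)) * (S / 2)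
            + (v2 * cos (2 * (s0 + r)) + v3 * sin (2 * (s0 + r))) * B := rfl
        have e3 : v0 * cos (s0 + r) + v1 * sin (s0 + r) = α * cos r + α' * sin r := by
          rw [cos_add, sin_add, hα, hα']; ring
        have e4 : v2 * cos (2 * (s0 + r)) + v3 * sin (2 * (s0 + r))
            = β * cos (2 * r) + β' * sin (2 * r) := by
          rw [mul_add, cos_add, sin_add, hβ, hβ']; ring
        rw [e2, e3, e4, hα0, hβ0, sin_two_mul]
        linear_combination (sin r) * E2
      rw [e0, e1] at hr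
      exact hr
    obtain ⟨e, he, hball⟩ := Metric.eventually_nhds_iff.1 hline
    set r := min (e/2) 1 with hrd
    have hr0 : 0 < r := lt_min (by linarith) one_pos
    have hr1 : r ≤ 1 := min_le_right _ _
    have hre : r < e := lt_of_le_of_lt (min_le_left _ _) (by linarith)
    have p1 := hball (y := r) (by rw [Real.dist_eq, sub_zero, abs_of_pos hr0]; exact hre)
    have p2 := hball (y := -r) (by rw [Real.dist_eq, sub_zero, abs_neg, abs_of_pos hr0]; exact hre)
    rw [sin_neg, cos_neg] at p2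
    have hsin : 0 < sin r := sin_pos_of_pos_of_lt_pi hr0 (by linarith [pi_gt_three])
    have hcos : cos r < 1 := by
      have := sin_sq_add_cos_sq r
      have h5 := cos_le_one r
      nlinarith
    have hx : sin r * (cos r - 1) < 0 := mul_neg_of_pos_of_neg hsin (by linarith)
    have h0 : 2 * β' * B * (sin r * (cos r - 1)) = 0 := by
      apply le_antisymm p1
      linarith
    rcases mul_eq_zero.1 h0 with h | h
    · rcases mul_eq_zero.1 h with h | h
      · linarith
      · exact absurd h hBpos.ne'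
    · exact absurd h hx.ne
  have hα'0 : α' = 0 := by
    rw [hβ'0] at hst
    have : α' * (C/2) = 0 := by linarith
    exact (mul_eq_zero.1 this).resolve_right (by positivity)
  refine ⟨?_, ?_, ?_, ?_⟩
  · have : v0 = α * cos s0 - α' * sin s0 := by
      rw [hα, hα']; linear_combination (-v0) * hcs
    rw [this, hα0, hα'0]; ring
  · have : v1 = α * sin s0 + α' * cos s0 := by
      rw [hα, hα']; linear_combination (-v1) * hcs
    rw [this, hα0, hα'0]; ring
  · have : v2 = β * cos (2 * s0) - β' * sin (2 * s0) := by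
      rw [hβ, hβ']; linear_combination (-v2) * hcs2
    rw [this, hβ0, hβ'0]; ring
  · have : v3 = β * sin (2 * s0) + β' * cos (2 * s0) := by
      rw [hβ, hβ']; linear_combination (-v3) * hcs2
    rw [this, hβ0, hβ'0]; ring

end Pool.Agent.Helper331
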