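import Pool.Agent.Helper331.Klein5

set_option autoImplicit false

open Real Set Filter Topology

namespace Pool.Agent.Helper331

theorem qf_pos {v0 v1 v2 v3 l : ℝ} (h : ∀ x y z : ℝ, qf v0 v1 v2 v3 x y z ≤ l * (x^2 + y^2 + z^2))
    (hv : ¬ (v0 = 0 ∧ v1 = 0 ∧ v2 = 0 ∧ v3 = 0)) : 0 < l := by
  by_contra hl
  push Not at hl
  apply hv
  have key : ∀ x y z : ℝ, qf v0 v1 v2 v3 x y z ≤ 0 := fun x y z =>
    le_trans (h x y z) (mul_nonpos_of_nonpos_of_nonneg hl (by positivity))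
  have a1 := key 1 0 0
  have a2 := key 0 1 0
  have a3 := key 1 1 0
  have a4 := key 1 (-1) 0
  have a5 := key 1 0 1
  have a6 := key 1 0 (-1)
  have a7 := key 0 1 1
  have a8 := key 0 1 (-1)
  unfold qf at a1 a2 a3 a4 a5 a6 a7 a8
  refine ⟨?_, ?_, ?_, ?_⟩ <;> linarith

theorem qf_third {v0 v1 v2 v3 l x y z : ℝ}
    (h : ∀ x y z : ℝ, qf v0 v1 v2 v3 x y z ≤ l * (x^2 + y^2 + z^2)) (hl : 0 < l)
    (he : qf v0 v1 v2 v3 x y z = l * (x^2 + y^2 + z^2)) : z^2 ≤ 2 * (x^2 + y^2) := by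
  have h1 : 2 * l * z - (v0 * x + v1 * y) = 0 := by
    apply lin_zero (l := l)
    intro r
    have := h x y (z + r)
    unfold qf at this he
    nlinarith
  have h2 := h y (-x) 0
  unfold qf at h2 he
  have e : v0 * x * z + v1 * y * z = 2 * l * z^2 := by linear_combination (-z) * h1
  have h3 : l * z^2 ≤ l * (2 * (x^2 + y^2)) := by linarith
  exact le_of_mul_le_mul_left h3 hl

theorem qf_comb {v0 v1 v2 v3 l x y z x' y' z' : ℝ}
    (h : ∀ x y z : ℝ, qf v0 v1 v2 v3 x y z ≤ l * (x^2 + y^2 + z^2))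
    (he : qf v0 v1 v2 v3 x y z = l * (x^2 + y^2 + z^2))
    (he' : qf v0 v1 v2 v3 x' y' z' = l * (x'^2 + y'^2 + z'^2)) (a b : ℝ) :
    qf v0 v1 v2 v3 (a * x + b * x') (a * y + b * y') (a * z + b * z')
      = l * ((a * x + b * x')^2 + (a * y + b * y')^2 + (a * z + b * z')^2) := by
  have h1 : 2 * l * (x * x' + y * y' + z * z') - (v0 * (x * z' + x' * z) + v1 * (y * z' + y' * z)
      + v2 * (2 * x * x' - 2 * y * y') + 2 * v3 * (x * y' + x' * y)) = 0 := by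
    apply lin_zero (l := 0)
    intro r
    have := h (x + r * x') (y + r * y') (z + r * z')
    unfold qf at this he he'
    have e : 0 ≤ l * ((x + r * x') ^ 2 + (y + r * y') ^ 2 + (z + r * z') ^ 2)
      - (v0 * (x + r * x') * (z + r * z') + v1 * (y + r * y') * (z + r * z') +
        v2 * ((x + r * x') ^ 2 - (y + r * y') ^ 2) + 2 * v3 * (x + r * x') * (y + r * y')) := by
      linarith
    refine le_trans e (le_of_eq ?_)
    linear_combination (-1) * he + (-r^2) * he'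
  unfold qf at he he' ⊢
  linear_combination a^2 * he + b^2 * he' - a * b * h1

/-- invariance under the Klein bottle group -/
def KInv (A : Set (ℝ × ℝ)) : Prop :=
  (∀ s t, (s, t) ∈ A ↔ (s + π, -t) ∈ A) ∧ (∀ s t, (s, t) ∈ A ↔ (s, t + 2 * π) ∈ A)

theorem KInv.t {A : Set (ℝ × ℝ)} (hA : KInv A) (s t : ℝ) (n : ℤ) :
    (s, t + n * (2 * π)) ∈ A ↔ (s, t) ∈ A := by
  have hp : Function.Periodic (fun t => (s, t) ∈ A) (2 * π) := fun t =>
    propext (hA.2 s t).symm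
  have := hp.int_mul n t
  exact iff_of_eq this

theorem KInv.s {A : Set (ℝ × ℝ)} (hA : KInv A) (s t : ℝ) (n : ℤ) :
    (s + n * (2 * π), t) ∈ A ↔ (s, t) ∈ A := by
  have hp : Function.Periodic (fun s => (s, t) ∈ A) (2 * π) := fun s => by
    apply propext
    change (s + 2 * π, t) ∈ A ↔ (s, t) ∈ A
    rw [hA.1 s t, hA.1 (s + π) (-t), neg_neg]
    have : s + π + π = s + 2 * π := by ring
    rw [this]
  have := hp.int_mul n s
  exact iff_of_eq this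

theorem hk_flip (v0 v1 v2 v3 : ℝ) (k : ℝ → ℝ) (s t : ℝ) :
    hk v0 v1 v2 v3 k (s + π, -t) = hk v0 v1 v2 v3 k (s, t) := by
  simp only [hk]
  have e : 2 * (s + π) = 2 * s + 2 * π := by ring
  rw [cos_add_pi, sin_add_pi, sin_neg, cos_neg, e, cos_add_two_pi, sin_add_two_pi]
  ring

theorem hk_per (v0 v1 v2 v3 : ℝ) (k : ℝ → ℝ) (s t : ℝ) :
    hk v0 v1 v2 v3 k (s, t + 2 * π) = hk v0 v1 v2 v3 k (s, t) := by
  simp only [hk]
  rw [sin_add_two_pi, cos_add_two_pi]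

theorem hk_level_inv (v0 v1 v2 v3 : ℝ) (k : ℝ → ℝ) (l : ℝ) :
    KInv {p | hk v0 v1 v2 v3 k p = l} := by
  constructor
  · intro s t
    simp only [mem_ofPred_eq, hk_flip]
  · intro s t
    simp only [mem_ofPred_eq, hk_per]

theorem hk_continuous (v0 v1 v2 v3 : ℝ) {k : ℝ → ℝ} (hkc : Continuous k) :
    Continuous (hk v0 v1 v2 v3 k) := by
  unfold hk
  fun_prop

/-- every orbit meets the fundamental box -/
theorem exists_box (p : ℝ × ℝ) : ∃ q ∈ Icc (0:ℝ) (2*π) ×ˢ Icc (0:ℝ) (2*π),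
    ∀ A : Set (ℝ × ℝ), KInv A → (q ∈ A ↔ p ∈ A) := by
  obtain ⟨s, t⟩ := p
  have h2 : (0:ℝ) < 2 * π := by positivity
  obtain ⟨m, hm, -⟩ := existsUnique_add_zsmul_mem_Ico h2 s 0
  obtain ⟨n, hn, -⟩ := existsUnique_add_zsmul_mem_Ico h2 t 0
  rw [zsmul_eq_mul] at hm hn
  refine ⟨(s + m * (2 * π), t + n * (2 * π)), ⟨?_, ?_⟩, ?_⟩
  · exact ⟨hm.1, by linarith [hm.2]⟩
  · exact ⟨hn.1, by linarith [hn.2]⟩
  · intro A hA
    rw [hA.t, hA.s]

theorem exists_max {v0 v1 v2 v3 : ℝ} {k : ℝ → ℝ} (hkc : Continuous k) {c : ℝ}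
    {A B : Set (ℝ × ℝ)} (hBo : IsOpen B) (hA : KInv A)
    (hd : Disjoint A B) (hAB : A ∪ B = {p | c < hk v0 v1 v2 v3 k p}) (hne : A.Nonempty) :
    ∃ p ∈ A, ∀ q ∈ A, hk v0 v1 v2 v3 k q ≤ hk v0 v1 v2 v3 k p := by
  have hc := hk_continuous v0 v1 v2 v3 hkc
  set Q := Icc (0:ℝ) (2*π) ×ˢ Icc (0:ℝ) (2*π) with hQ
  have hQc : IsCompact Q := isCompact_Icc.prod isCompact_Icc
  have hS : IsCompact (closure A ∩ Q) := hQc.inter_left isClosed_closure
  obtain ⟨a, ha⟩ := hne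
  obtain ⟨a', ha'Q, ha'⟩ := exists_box a
  have ha'A : a' ∈ A := (ha' A hA).2 ha
  obtain ⟨p, hp, hpmax⟩ := hS.exists_isMaxOn ⟨a', subset_closure ha'A, ha'Q⟩ hc.continuousOn
  have hcp : c < hk v0 v1 v2 v3 k p := by
    have h1 : c < hk v0 v1 v2 v3 k a' := by
      have : a' ∈ A ∪ B := Or.inl ha'A
      rw [hAB] at this; exact this
    exact lt_of_lt_of_le h1 (hpmax ⟨subset_closure ha'A, ha'Q⟩)
  have hpAB : p ∈ A ∪ B := by rw [hAB]; exact hcp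
  have hpB : p ∉ B := by
    intro hpB
    obtain ⟨x, hxB, hxA⟩ := mem_closure_iff.1 hp.1 B hBo hpB
    exact (Set.disjoint_left.1 hd hxA hxB)
  have hpA : p ∈ A := hpAB.resolve_right hpB
  refine ⟨p, hpA, fun q hq => ?_⟩
  obtain ⟨q', hq'Q, hq'⟩ := exists_box q
  have hq'A : q' ∈ A := (hq' A hA).2 hq
  have h1 := hpmax ⟨subset_closure hq'A, hq'Q⟩
  have h2 : hk v0 v1 v2 v3 k q' = hk v0 v1 v2 v3 k q := by
    have := (hq' _ (hk_level_inv v0 v1 v2 v3 k (hk v0 v1 v2 v3 k q))).2 rfl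
    exact this
  rw [← h2]
  exact h1

end Pool.Agent.Helper331
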