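import Pool.Agent.Helper331.Klein6

set_option autoImplicit false

open Real Set Filter Topology

namespace Pool.Agent.Helper331

theorem tpp_aux {v0 v1 v2 v3 : ℝ} {k : ℝ → ℝ} (hk0 : ∀ c, c ≤ 1/2 → k c = 0) {c l : ℝ}
    {A B : Set (ℝ × ℝ)} (hAo : IsOpen A) (hBo : IsOpen B) (hA : KInv A) (hB : KInv B)
    (hd : Disjoint A B) (hAB : A ∪ B = {p | c < hk v0 v1 v2 v3 k p})
    (hq : ∀ x y z : ℝ, qf v0 v1 v2 v3 x y z ≤ l * (x^2 + y^2 + z^2)) (hl : 0 < l)
    {sA tA sB tB : ℝ} (hpA : (sA, tA) ∈ A) (hpB : (sB, tB) ∈ B)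
    (hcA : cos tA ≤ 1/3) (hcB : cos tB ≤ 1/3)
    (hvA : hk v0 v1 v2 v3 k (sA, tA) = l) (hvB : hk v0 v1 v2 v3 k (sB, tB) = l) : False := by
  have hcl : c < l := by
    have : (sA, tA) ∈ A ∪ B := Or.inl hpA
    rw [hAB] at this
    rw [← hvA]; exact this
  have qA : qf v0 v1 v2 v3 (sin (tA/2) * cos sA) (sin (tA/2) * sin sA) (cos (tA/2)) = l := by
    rw [← hk_eq_qf v0 v1 v2 v3 k sA tA (hk0 _ (by linarith))]; exact hvA
  have qB : qf v0 v1 v2 v3 (sin (tB/2) * cos sB) (sin (tB/2) * sin sB) (cos (tB/2)) = l := by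
    rw [← hk_eq_qf v0 v1 v2 v3 k sB tB (hk0 _ (by linarith))]; exact hvB
  have norm1 : ∀ s t : ℝ, (sin (t/2) * cos s)^2 + (sin (t/2) * sin s)^2 + (cos (t/2))^2 = 1 := by
    intro s t
    have h1 := sin_sq_add_cos_sq s
    have h2 := sin_sq_add_cos_sq (t/2)
    linear_combination (sin (t/2))^2 * h1 + h2
  have hsin : ∀ t : ℝ, cos t ≤ 1/3 → sin (t/2) ≠ 0 := by
    intro t ht h0
    have h1 : cos t = 1 - 2 * sin (t/2)^2 := by
      have : cos t = cos (2 * (t/2)) := by congr 1; ring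
      rw [this, cos_two_mul']
      linear_combination sin_sq_add_cos_sq (t/2)
    rw [h0] at h1; rw [h1] at ht; norm_num at ht
  have hsA := hsin tA hcA
  have hsB := hsin tB hcB
  have qA' : qf v0 v1 v2 v3 (sin (tA/2) * cos sA) (sin (tA/2) * sin sA) (cos (tA/2))
      = l * ((sin (tA/2) * cos sA)^2 + (sin (tA/2) * sin sA)^2 + (cos (tA/2))^2) := by
    rw [norm1, mul_one]; exact qA
  have qB' : qf v0 v1 v2 v3 (sin (tB/2) * cos sB) (sin (tB/2) * sin sB) (cos (tB/2))
      = l * ((sin (tB/2) * cos sB)^2 + (sin (tB/2) * sin sB)^2 + (cos (tB/2))^2) := by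
    rw [norm1, mul_one]; exact qB
  by_cases hD : sin (sB - sA) = 0
  · -- same angle
    obtain ⟨m, hm⟩ := sin_eq_zero_iff.1 hD
    have hsBeq : sB = sA + m * π := by linarith
    -- find t' with (sA,t') in B
    obtain ⟨t', ht'B, ht'c⟩ : ∃ t', (∀ E : Set (ℝ × ℝ), KInv E → ((sA, t') ∈ E ↔ (sB, tB) ∈ E)) ∧
        cos t' ≤ 1/3 := by
      rcases Int.even_or_odd' m with ⟨j, hj | hj⟩
      · refine ⟨tB, fun E hE => ?_, hcB⟩
        have : sB = sA + j * (2 * π) := by rw [hsBeq, hj]; push_cast; ring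
        rw [this, hE.s]
      · refine ⟨-tB, fun E hE => ?_, by rw [cos_neg]; exact hcB⟩
        have : sB = (sA + π) + j * (2 * π) := by rw [hsBeq, hj]; push_cast; ring
        rw [this, hE.s, hE.1 sA (-tB), neg_neg]
    have hv' : hk v0 v1 v2 v3 k (sA, t') = l :=
      (ht'B _ (hk_level_inv v0 v1 v2 v3 k l)).2 hvB
    have qC : qf v0 v1 v2 v3 (sin (t'/2) * cos sA) (sin (t'/2) * sin sA) (cos (t'/2))
      = l * ((sin (t'/2) * cos sA)^2 + (sin (t'/2) * sin sA)^2 + (cos (t'/2))^2) := by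
      rw [norm1, mul_one, ← hk_eq_qf v0 v1 v2 v3 k sA t' (hk0 _ (by linarith))]; exact hv'
    have hD' : sin ((tA - t')/2) = 0 := by
      by_contra hne
      have hcomb := qf_comb hq qA' qC (-(sin (t'/2)) / sin ((tA - t')/2))
        (sin (tA/2) / sin ((tA - t')/2))
      have e0 : sin ((tA - t')/2) = sin (tA/2) * cos (t'/2) - cos (tA/2) * sin (t'/2) := by
        rw [sub_div, sin_sub]
      have e1 : -(sin (t'/2)) / sin ((tA - t')/2) * (sin (tA/2) * cos sA)
          + sin (tA/2) / sin ((tA - t')/2) * (sin (t'/2) * cos sA) = 0 := by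
        field_simp; ring
      have e2 : -(sin (t'/2)) / sin ((tA - t')/2) * (sin (tA/2) * sin sA)
          + sin (tA/2) / sin ((tA - t')/2) * (sin (t'/2) * sin sA) = 0 := by
        field_simp; ring
      have e3 : -(sin (t'/2)) / sin ((tA - t')/2) * cos (tA/2)
          + sin (tA/2) / sin ((tA - t')/2) * cos (t'/2) = 1 := by
        rw [div_mul_eq_mul_div, div_mul_eq_mul_div, ← add_div, div_eq_one_iff_eq hne, e0]
        ring
      rw [e1, e2, e3] at hcomb
      unfold qf at hcomb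
      norm_num at hcomb
      linarith
    obtain ⟨n, hn⟩ := sin_eq_zero_iff.1 hD'
    have htA : tA = t' + n * (2 * π) := by linarith
    have h1 : (sA, t') ∈ A := by
      rw [htA] at hpA
      exact (hA.t sA t' n).1 hpA
    have h2 : (sA, t') ∈ B := (ht'B B hB).2 hpB
    exact Set.disjoint_left.1 hd h1 h2
  · -- different angles
    set n0 := (sin (tA/2) * sin sA) * cos (tB/2) - cos (tA/2) * (sin (tB/2) * sin sB) with hn0
    set n1 := cos (tA/2) * (sin (tB/2) * cos sB) - (sin (tA/2) * cos sA) * cos (tB/2) with hn1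
    set n2 := (sin (tA/2) * cos sA) * (sin (tB/2) * sin sB)
      - (sin (tA/2) * sin sA) * (sin (tB/2) * cos sB) with hn2
    have hn2' : n2 = sin (tA/2) * sin (tB/2) * sin (sB - sA) := by
      rw [hn2, sin_sub]; ring
    have hn2ne : n2 ≠ 0 := by
      rw [hn2']
      exact mul_ne_zero (mul_ne_zero hsA hsB) hD
    set U : ℝ → ℝ := fun s => (n0 * cos s + n1 * sin s) / n2 with hU
    set T : ℝ → ℝ := fun s => π + 2 * arctan (U s) with hT
    have hUc : Continuous U := by
      simp only [hU]; fun_prop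
    have hTc : Continuous T := by
      simp only [hT]
      exact continuous_const.add (continuous_const.mul (continuous_arctan.comp hUc))
    have hsT : ∀ s, sin (T s / 2) = cos (arctan (U s)) := by
      intro s
      have : T s / 2 = arctan (U s) + π / 2 := by simp only [hT]; ring
      rw [this, sin_add_pi_div_two]
    have hcT : ∀ s, cos (T s / 2) = -sin (arctan (U s)) := by
      intro s
      have : T s / 2 = arctan (U s) + π / 2 := by simp only [hT]; ring
      rw [this, cos_add_pi_div_two]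
    have hsc : ∀ s, sin (arctan (U s)) = U s * cos (arctan (U s)) := by
      intro s
      have h1 := tan_arctan (U s)
      rw [tan_eq_sin_div_cos] at h1
      have h2 : cos (arctan (U s)) ≠ 0 := (cos_arctan_pos _).ne'
      field_simp at h1
      linarith
    have hperp : ∀ s, n0 * (sin (T s / 2) * cos s) + n1 * (sin (T s / 2) * sin s)
        + n2 * cos (T s / 2) = 0 := by
      intro s
      rw [hsT, hcT, hsc]
      simp only [hU]
      field_simp
      ring
    have hqT : ∀ s, qf v0 v1 v2 v3 (sin (T s/2) * cos s) (sin (T s/2) * sin s) (cos (T s/2)) = l := by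
      intro s
      set X := sin (T s / 2) * cos s with hX
      set Y := sin (T s / 2) * sin s with hY
      set Z := cos (T s / 2) with hZ
      have hcomb := qf_comb hq qA' qB'
        ((X * (sin (tB/2) * sin sB) - Y * (sin (tB/2) * cos sB)) / n2)
        (((sin (tA/2) * cos sA) * Y - (sin (tA/2) * sin sA) * X) / n2)
      have e1 : (X * (sin (tB/2) * sin sB) - Y * (sin (tB/2) * cos sB)) / n2 * (sin (tA/2) * cos sA)
          + ((sin (tA/2) * cos sA) * Y - (sin (tA/2) * sin sA) * X) / n2 * (sin (tB/2) * cos sB)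
          = X := by
        rw [div_mul_eq_mul_div, div_mul_eq_mul_div, ← add_div, div_eq_iff hn2ne, hn2]
        ring
      have e2 : (X * (sin (tB/2) * sin sB) - Y * (sin (tB/2) * cos sB)) / n2 * (sin (tA/2) * sin sA)
          + ((sin (tA/2) * cos sA) * Y - (sin (tA/2) * sin sA) * X) / n2 * (sin (tB/2) * sin sB)
          = Y := by
        rw [div_mul_eq_mul_div, div_mul_eq_mul_div, ← add_div, div_eq_iff hn2ne, hn2]
        ring
      have e3 : (X * (sin (tB/2) * sin sB) - Y * (sin (tB/2) * cos sB)) / n2 * cos (tA/2)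
          + ((sin (tA/2) * cos sA) * Y - (sin (tA/2) * sin sA) * X) / n2 * cos (tB/2)
          = Z := by
        rw [div_mul_eq_mul_div, div_mul_eq_mul_div, ← add_div, div_eq_iff hn2ne]
        have := hperp s
        rw [← hX, ← hY, ← hZ] at this
        rw [hn0, hn1] at this
        linear_combination (-1) * this
      rw [e1, e2, e3] at hcomb
      rw [hcomb, hX, hY, hZ, norm1, mul_one]
    have hcosT : ∀ s, cos (T s) ≤ 1/3 := by
      intro s
      have h1 := hqT s
      have h2 : qf v0 v1 v2 v3 (sin (T s/2) * cos s) (sin (T s/2) * sin s) (cos (T s/2))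
        = l * ((sin (T s/2) * cos s)^2 + (sin (T s/2) * sin s)^2 + (cos (T s/2))^2) := by
        rw [norm1, mul_one]; exact h1
      have h3 := qf_third hq hl h2
      have h4 := norm1 s (T s)
      have h5 : cos (T s) = 2 * cos (T s / 2)^2 - 1 := by
        rw [← cos_two_mul]; congr 1; ring
      rw [h5]; linarith
    have hcurve : ∀ s, (s, T s) ∈ A ∪ B := by
      intro s
      rw [hAB]
      change c < hk v0 v1 v2 v3 k (s, T s)
      rw [hk_eq_qf v0 v1 v2 v3 k s (T s) (hk0 _ (by linarith [hcosT s])), hqT s]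
      exact hcl
    have hmem : ∀ (E : Set (ℝ × ℝ)) (s t : ℝ), KInv E → (s, t) ∈ E → sin (t/2) ≠ 0 →
        n0 * (sin (t / 2) * cos s) + n1 * (sin (t / 2) * sin s) + n2 * cos (t / 2) = 0 →
        (s, T s) ∈ E := by
      intro E s t hE hst hs0 hp
      have hUs : n0 * cos s + n1 * sin s = n2 * U s := by
        simp only [hU]; field_simp
      have h1 : sin ((t - T s)/2) = 0 := by
        rw [sub_div, sin_sub, hsT, hcT, hsc]
        have h2 : n2 * (sin (t/2) * U s + cos (t/2)) = 0 := by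
          linear_combination hp - sin (t/2) * hUs
        have h3 := (mul_eq_zero.1 h2).resolve_left hn2ne
        linear_combination (-cos (arctan (U s))) * h3
      obtain ⟨n, hn⟩ := sin_eq_zero_iff.1 h1
      have ht : t = T s + n * (2 * π) := by linarith
      rw [ht] at hst
      exact (hE.t s (T s) n).1 hst
    have hAm : (sA, T sA) ∈ A := by
      apply hmem A sA tA hA hpA hsA
      rw [hn0, hn1, hn2]; ring
    have hBm : (sB, T sB) ∈ B := by
      apply hmem B sB tB hB hpB hsB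
      rw [hn0, hn1, hn2]; ring
    have hpre : IsPreconnected (range (fun s : ℝ => (s, T s))) := by
      rw [← image_univ]
      exact isPreconnected_univ.image _ (continuous_id.prodMk hTc).continuousOn
    obtain ⟨x, hx1, hx2⟩ := hpre A B hAo hBo (by rintro _ ⟨s, rfl⟩; exact hcurve s)
      ⟨_, ⟨sA, rfl⟩, hAm⟩ ⟨_, ⟨sB, rfl⟩, hBm⟩
    exact Set.disjoint_left.1 hd hx2.1 hx2.2

/-- two-piece property of the Klein bottle, in angular coordinates. -/
theorem tpp {v0 v1 v2 v3 : ℝ} {k k1 k2 : ℝ → ℝ} (hks : ContDiff ℝ (⊤ : ℕ∞) k)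
    (hk1 : ∀ c, HasDerivAt k (k1 c) c) (hk2 : ∀ c, HasDerivAt k1 (k2 c) c)
    (hk0 : ∀ c, c ≤ 1/2 → k c = 0) (hkp : ∀ c, 1/2 < c → 0 < k c)
    (hkb : ∀ c ∈ Icc (-1:ℝ) 1, 0 ≤ k1 c ∧ k1 c ≤ 1/8 ∧ |k2 c| ≤ 1/8) {c : ℝ}
    {A B : Set (ℝ × ℝ)} (hAo : IsOpen A) (hBo : IsOpen B) (hA : KInv A) (hB : KInv B)
    (hd : Disjoint A B) (hAB : A ∪ B = {p | c < hk v0 v1 v2 v3 k p}) : A = ∅ ∨ B = ∅ := by
  by_contra hne
  push Not at hne
  obtain ⟨hAne, hBne⟩ := hne
  by_cases hv : v0 = 0 ∧ v1 = 0 ∧ v2 = 0 ∧ v3 = 0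
  · obtain ⟨h0, h1, h2, h3⟩ := hv
    have hz : ∀ p, hk v0 v1 v2 v3 k p = 0 := by
      intro p; simp [hk, h0, h1, h2, h3]
    have hc0 : c < 0 := by
      obtain ⟨a, ha⟩ := hAne
      have : a ∈ A ∪ B := Or.inl ha
      rw [hAB] at this
      have h5 : c < hk v0 v1 v2 v3 k a := this
      rwa [hz] at h5
    have huniv : (univ : Set (ℝ × ℝ)) ⊆ A ∪ B := by
      intro p _
      rw [hAB]
      change c < hk v0 v1 v2 v3 k p
      rw [hz]; exact hc0
    obtain ⟨a, ha⟩ := hAne
    obtain ⟨b, hb⟩ := hBne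
    obtain ⟨x, -, hx⟩ := (isPreconnected_univ (α := ℝ × ℝ)) A B hAo hBo huniv
      ⟨a, trivial, ha⟩ ⟨b, trivial, hb⟩
    exact Set.disjoint_left.1 hd hx.1 hx.2
  · have hkc := hks.continuous
    obtain ⟨pA, hpA, hmaxA⟩ := exists_max hkc hBo hA hd hAB hAne
    obtain ⟨pB, hpB, hmaxB⟩ := exists_max hkc hAo hB hd.symm (by rw [union_comm]; exact hAB) hBne
    obtain ⟨sA, tA⟩ := pA
    obtain ⟨sB, tB⟩ := pB
    have hlA : IsLocalMax (hk v0 v1 v2 v3 k) (sA, tA) := by
      filter_upwards [hAo.mem_nhds hpA] with q hq using hmaxA q hq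
    have hlB : IsLocalMax (hk v0 v1 v2 v3 k) (sB, tB) := by
      filter_upwards [hBo.mem_nhds hpB] with q hq using hmaxB q hq
    have hcA : cos tA ≤ 1/3 := by
      by_contra h
      push Not at h
      exact hv (claimB hk1 hk2 hk0 hkp hkb h hlA)
    have hcB : cos tB ≤ 1/3 := by
      by_contra h
      push Not at h
      exact hv (claimB hk1 hk2 hk0 hkp hkb h hlB)
    have qA := claimA hk0 (by linarith) hlA
    have qB := claimA hk0 (by linarith) hlB
    have norm1 : ∀ s t : ℝ, (sin (t/2) * cos s)^2 + (sin (t/2) * sin s)^2 + (cos (t/2))^2 = 1 := by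
      intro s t
      have h1 := sin_sq_add_cos_sq s
      have h2 := sin_sq_add_cos_sq (t/2)
      linear_combination (sin (t/2))^2 * h1 + h2
    have heq : hk v0 v1 v2 v3 k (sB, tB) = hk v0 v1 v2 v3 k (sA, tA) := by
      apply le_antisymm
      · have := qA (sin (tB/2) * cos sB) (sin (tB/2) * sin sB) (cos (tB/2))
        rw [norm1, mul_one, ← hk_eq_qf v0 v1 v2 v3 k sB tB (hk0 _ (by linarith))] at this
        exact this
      · have := qB (sin (tA/2) * cos sA) (sin (tA/2) * sin sA) (cos (tA/2))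
        rw [norm1, mul_one, ← hk_eq_qf v0 v1 v2 v3 k sA tA (hk0 _ (by linarith))] at this
        exact this
    exact tpp_aux hk0 hAo hBo hA hB hd hAB qA (qf_pos qA hv) hpA hpB hcA hcB rfl heq

end Pool.Agent.Helper331
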