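import Pool.Agent.Helper331.Klein7

set_option autoImplicit false

open Real Set Filter Topology

namespace Pool.Agent.Helper331

/-- the Klein bottle in Euclidean 4-space -/
noncomputable def KF (k : ℝ → ℝ) (p : ℝ × ℝ) : EuclideanSpace ℝ (Fin 4) :=
  !₂[cos (π * p.1) * (sin (2 * π * p.2) / 2),
     sin (π * p.1) * (sin (2 * π * p.2) / 2),
     cos (2 * (π * p.1)) * ((1 - cos (2 * π * p.2)) / 2 + k (cos (2 * π * p.2))),
     sin (2 * (π * p.1)) * ((1 - cos (2 * π * p.2)) / 2 + k (cos (2 * π * p.2)))]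

theorem KF_contDiff {k : ℝ → ℝ} (hks : ContDiff ℝ (⊤ : ℕ∞) k) :
    ContDiff ℝ (⊤ : ℕ∞) (KF k) := by
  rw [contDiff_euclidean]
  intro i
  fin_cases i
  · show ContDiff ℝ (⊤ : ℕ∞) (fun p : ℝ × ℝ => cos (π * p.1) * (sin (2 * π * p.2) / 2))
    fun_prop
  · show ContDiff ℝ (⊤ : ℕ∞) (fun p : ℝ × ℝ => sin (π * p.1) * (sin (2 * π * p.2) / 2))
    fun_prop
  · show ContDiff ℝ (⊤ : ℕ∞) (fun p : ℝ × ℝ => cos (2 * (π * p.1)) *
      ((1 - cos (2 * π * p.2)) / 2 + k (cos (2 * π * p.2))))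
    fun_prop
  · show ContDiff ℝ (⊤ : ℕ∞) (fun p : ℝ × ℝ => sin (2 * (π * p.1)) *
      ((1 - cos (2 * π * p.2)) / 2 + k (cos (2 * π * p.2))))
    fun_prop

theorem KF_flip (k : ℝ → ℝ) (x y : ℝ) : KF k (x + 1, -y) = KF k (x, y) := by
  have e1 : π * (x + 1) = π * x + π := by ring
  have e2 : 2 * (π * x + π) = 2 * (π * x) + 2 * π := by ring
  have e3 : 2 * π * (-y) = -(2 * π * y) := by ring
  have e4 : -cos (π * x) * (-sin (2 * π * y) / 2) = cos (π * x) * (sin (2 * π * y) / 2) := by ring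
  have e5 : -sin (π * x) * (-sin (2 * π * y) / 2) = sin (π * x) * (sin (2 * π * y) / 2) := by ring
  simp only [KF, e1, e2, e3, cos_add_pi, sin_add_pi, cos_add_two_pi, sin_add_two_pi, cos_neg,
    sin_neg, e4, e5]

theorem KF_per (k : ℝ → ℝ) (x y : ℝ) : KF k (x, y + 1) = KF k (x, y) := by
  have e3 : 2 * π * (y + 1) = 2 * π * y + 2 * π := by ring
  simp only [KF, e3, cos_add_two_pi, sin_add_two_pi]

theorem inner_KF (v : EuclideanSpace ℝ (Fin 4)) (k : ℝ → ℝ) (s t : ℝ) :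
    inner ℝ v (KF k (s / π, t / (2 * π))) = hk (v 0) (v 1) (v 2) (v 3) k (s, t) := by
  have e1 : π * (s / π) = s := by field_simp
  have e2 : 2 * π * (t / (2 * π)) = t := by field_simp
  simp only [KF, e1, e2, PiLp.inner_apply, Fin.sum_univ_four, hk]
  simp
  ring

theorem KF_fderiv_inj {k k1 k2 : ℝ → ℝ} (hks : ContDiff ℝ (⊤ : ℕ∞) k)
    (hk1 : ∀ c, HasDerivAt k (k1 c) c)
    (hk0 : ∀ c, c ≤ 1/2 → k c = 0) (hkp : ∀ c, 1/2 < c → 0 < k c)
    (hkb : ∀ c ∈ Icc (-1:ℝ) 1, 0 ≤ k1 c ∧ k1 c ≤ 1/8 ∧ |k2 c| ≤ 1/8) (p : ℝ × ℝ) :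
    Function.Injective (fderiv ℝ (KF k) p) := by
  rw [injective_iff_map_eq_zero]
  rintro ⟨a, b⟩ hw
  obtain ⟨x, y⟩ := p
  have hd : DifferentiableAt ℝ (KF k) (x, y) := (KF_contDiff hks).differentiable (by simp) _
  have hline : HasDerivAt (fun r : ℝ => ((x, y) + r • (a, b) : ℝ × ℝ)) (a, b) 0 := by
    simpa using ((hasDerivAt_id (0:ℝ)).smul_const ((a, b) : ℝ × ℝ)).const_add (x, y)
  have hcomp : HasDerivAt (fun r : ℝ => KF k ((x, y) + r • (a, b))) 0 0 := by
    have h1 : HasFDerivAt (KF k) (fderiv ℝ (KF k) (x, y)) ((x, y) + (0:ℝ) • (a, b)) := by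
      simpa using hd.hasFDerivAt
    have := h1.comp_hasDerivAt (0:ℝ) hline
    rw [hw] at this
    exact this
  have hco : ∀ i : Fin 4, HasDerivAt (fun r : ℝ => KF k ((x, y) + r • (a, b)) i) 0 0 := by
    intro i
    have := ((EuclideanSpace.proj i : EuclideanSpace ℝ (Fin 4) →L[ℝ] ℝ).hasFDerivAt
      (x := KF k ((x, y) + (0:ℝ) • (a, b)))).comp_hasDerivAt (0:ℝ) hcomp
    simpa [Function.comp_def] using this
  have hx : ∀ r : ℝ, HasDerivAt (fun r : ℝ => π * (x + r * a)) (π * a) r := fun r => by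
    simpa using (((hasDerivAt_id r).mul_const a).const_add x).const_mul π
  have hx2 : ∀ r : ℝ, HasDerivAt (fun r : ℝ => 2 * (π * (x + r * a))) (2 * (π * a)) r := fun r => by
    simpa using (hx r).const_mul 2
  have hy : ∀ r : ℝ, HasDerivAt (fun r : ℝ => 2 * π * (y + r * b)) (2 * π * b) r := fun r => by
    simpa using (((hasDerivAt_id r).mul_const b).const_add y).const_mul (2 * π)
  have hA : HasDerivAt (fun r : ℝ => sin (2 * π * (y + r * b)) / 2)
      (cos (2 * π * y) / 2 * (2 * π * b)) 0 := by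
    have := (hasDerivAt_A (2 * π * (y + 0 * b))).comp (0:ℝ) (hy 0)
    simpa [Function.comp_def] using this
  have hB : HasDerivAt (fun r : ℝ => (1 - cos (2 * π * (y + r * b))) / 2
      + k (cos (2 * π * (y + r * b))))
      ((sin (2 * π * y) / 2 - k1 (cos (2 * π * y)) * sin (2 * π * y)) * (2 * π * b)) 0 := by
    have := (hasDerivAt_B hk1 (2 * π * (y + 0 * b))).comp (0:ℝ) (hy 0)
    simpa [Function.comp_def] using this
  have hc1 : HasDerivAt (fun r : ℝ => cos (π * (x + r * a))) (-sin (π * x) * (π * a)) 0 := by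
    simpa using (hx 0).cos
  have hs1 : HasDerivAt (fun r : ℝ => sin (π * (x + r * a))) (cos (π * x) * (π * a)) 0 := by
    simpa using (hx 0).sin
  have hc2 : HasDerivAt (fun r : ℝ => cos (2 * (π * (x + r * a))))
      (-sin (2 * (π * x)) * (2 * (π * a))) 0 := by
    simpa using (hx2 0).cos
  have hs2 : HasDerivAt (fun r : ℝ => sin (2 * (π * (x + r * a))))
      (cos (2 * (π * x)) * (2 * (π * a))) 0 := by
    simpa using (hx2 0).sin
  set C := cos (2 * π * y) with hC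
  set S := sin (2 * π * y) with hS
  have e0 := (hco 0).unique (hc1.mul hA)
  have e1 := (hco 1).unique (hs1.mul hA)
  have e2 := (hco 2).unique (hc2.mul hB)
  have e3 := (hco 3).unique (hs2.mul hB)
  simp only [zero_mul, add_zero, Prod.snd_add, Prod.smul_snd, zero_smul] at e0 e1 e2 e3
  have hcs := sin_sq_add_cos_sq (π * x)
  have hcs2 := sin_sq_add_cos_sq (2 * (π * x))
  have hCS := sin_sq_add_cos_sq (2 * π * y)
  rw [← hC, ← hS] at hCS
  have hCm : C ∈ Icc (-1:ℝ) 1 := cos_mem_Icc _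
  obtain ⟨hb1, hb2, -⟩ := hkb _ hCm
  have hkC : 0 ≤ k C := by
    rcases le_or_gt C (1/2) with h | h
    · rw [hk0 _ h]
    · exact (hkp _ h).le
  have hBpos : 0 < (1 - C) / 2 + k C := by
    rcases eq_or_lt_of_le hCm.2 with h | h
    · have : 0 < k C := hkp _ (by rw [h]; norm_num)
      linarith
    · linarith
  have ha : a = 0 := by
    have h1 : (2 * π * a) * ((1 - C) / 2 + k C) = 0 := by
      linear_combination (sin (2 * (π * x))) * e2 - (cos (2 * (π * x))) * e3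
        - (2 * π * a) * ((1 - C) / 2 + k C) * hcs2
    have h2 := (mul_eq_zero.1 h1).resolve_right hBpos.ne'
    have h3 : (2 * π) ≠ 0 := by positivity
    exact (mul_eq_zero.1 h2).resolve_left h3
  have hb : b = 0 := by
    by_contra hbne
    have h3 : (2 * π) ≠ 0 := by positivity
    have h1 : (2 * π * b) * (C / 2) = 0 := by
      linear_combination (-cos (π * x)) * e0 - (sin (π * x)) * e1
        - (2 * π * b) * (C / 2) * hcs
    have hC0 : C = 0 := by
      have := (mul_eq_zero.1 h1).resolve_left (mul_ne_zero h3 hbne)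
      linarith
    have h2 : (2 * π * b) * (S / 2 - k1 C * S) = 0 := by
      linear_combination (-cos (2 * (π * x))) * e2 - (sin (2 * (π * x))) * e3
        - (2 * π * b) * (S / 2 - k1 C * S) * hcs2
    have h4 := (mul_eq_zero.1 h2).resolve_left (mul_ne_zero h3 hbne)
    have h5 : S * (1/2 - k1 C) = 0 := by linarith
    have h6 : S = 0 := (mul_eq_zero.1 h5).resolve_right (by linarith)
    rw [h6, hC0] at hCS
    norm_num at hCS
  rw [ha, hb]
  rfl

end Pool.Agent.Helper331
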