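import Pool.Agent.Helper331.Klein8

set_option autoImplicit false

open Real Set Filter Topology

namespace Pool.Agent.Helper331

/-- A smooth, tight, substantial (embedded) Klein bottle in Euclidean 4-space. -/
theorem klein_main :
  ∃ F : ℝ × ℝ → EuclideanSpace ℝ (Fin 4),
    ContDiff ℝ (⊤ : ℕ∞) F ∧
    (∀ x y : ℝ, F (x + 1, -y) = F (x, y)) ∧
    (∀ x y : ℝ, F (x, y + 1) = F (x, y)) ∧
    (∀ p : ℝ × ℝ, Function.Injective (fderiv ℝ F p)) ∧
    (∀ (v : EuclideanSpace ℝ (Fin 4)) (c : ℝ), v ≠ 0 → ∃ p : ℝ × ℝ, inner ℝ v (F p) ≠ c) ∧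
    (∀ (v : EuclideanSpace ℝ (Fin 4)) (c : ℝ) (A B : Set (ℝ × ℝ)),
      IsOpen A → IsOpen B →
      (∀ x y : ℝ, ((x, y) ∈ A ↔ (x + 1, -y) ∈ A) ∧ ((x, y) ∈ A ↔ (x, y + 1) ∈ A)) →
      (∀ x y : ℝ, ((x, y) ∈ B ↔ (x + 1, -y) ∈ B) ∧ ((x, y) ∈ B ↔ (x, y + 1) ∈ B)) →
      Disjoint A B →
      A ∪ B = {p : ℝ × ℝ | c < inner ℝ v (F p)} →
      A = ∅ ∨ B = ∅) := by
  obtain ⟨k, k1, k2, hks, hk1, hk2, hk0, hkp, hkb⟩ := exists_bump
  have hpi : (0:ℝ) < π := Real.pi_pos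
  refine ⟨KF k, KF_contDiff hks, KF_flip k, KF_per k, KF_fderiv_inj hks hk1 hk0 hkp hkb, ?_, ?_⟩
  · intro v c hv
    by_contra hall
    push Not at hall
    have hval : ∀ q : ℝ × ℝ, hk (v 0) (v 1) (v 2) (v 3) k q = c := by
      rintro ⟨s, t⟩
      rw [← inner_KF]
      exact hall _
    have hloc : IsLocalMax (hk (v 0) (v 1) (v 2) (v 3) k) ((0:ℝ), (0:ℝ)) :=
      Filter.Eventually.of_forall fun q => by rw [hval, hval]
    obtain ⟨h0, h1, h2, h3⟩ := claimB hk1 hk2 hk0 hkp hkb (by rw [Real.cos_zero]; norm_num) hloc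
    apply hv
    ext i
    fin_cases i
    · exact h0
    · exact h1
    · exact h2
    · exact h3
  · intro v c A B hAo hBo hA hB hd hAB
    set φ : ℝ × ℝ → ℝ × ℝ := fun q => (q.1 / π, q.2 / (2 * π)) with hφ
    have hφc : Continuous φ := by
      rw [hφ]; fun_prop
    have hinv : ∀ E : Set (ℝ × ℝ),
        (∀ x y : ℝ, ((x, y) ∈ E ↔ (x + 1, -y) ∈ E) ∧ ((x, y) ∈ E ↔ (x, y + 1) ∈ E)) →
        KInv (φ ⁻¹' E) := by
      intro E hE
      constructor
      · intro s t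
        have e1 : (s + π) / π = s / π + 1 := by field_simp
        have e2 : -t / (2 * π) = -(t / (2 * π)) := by ring
        change (s / π, t / (2 * π)) ∈ E ↔ ((s + π) / π, -t / (2 * π)) ∈ E
        rw [e1, e2]
        exact (hE _ _).1
      · intro s t
        have e1 : (t + 2 * π) / (2 * π) = t / (2 * π) + 1 := by field_simp
        change (s / π, t / (2 * π)) ∈ E ↔ (s / π, (t + 2 * π) / (2 * π)) ∈ E
        rw [e1]
        exact (hE _ _).2
    have hAB' : φ ⁻¹' A ∪ φ ⁻¹' B = {p | c < hk (v 0) (v 1) (v 2) (v 3) k p} := by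
      rw [← Set.preimage_union, hAB]
      ext ⟨s, t⟩
      change c < inner ℝ v (KF k (s / π, t / (2 * π))) ↔ c < hk (v 0) (v 1) (v 2) (v 3) k (s, t)
      rw [inner_KF]
    have hempty : ∀ E : Set (ℝ × ℝ), φ ⁻¹' E = ∅ → E = ∅ := by
      intro E hE
      rw [Set.eq_empty_iff_forall_notMem]
      rintro ⟨x, y⟩ hxy
      have : (π * x, 2 * π * y) ∈ φ ⁻¹' E := by
        have e1 : π * x / π = x := by field_simp
        have e2 : 2 * π * y / (2 * π) = y := by field_simp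
        change (π * x / π, 2 * π * y / (2 * π)) ∈ E
        rw [e1, e2]; exact hxy
      rw [hE] at this
      exact this
    rcases tpp hks hk1 hk2 hk0 hkp hkb (hAo.preimage hφc) (hBo.preimage hφc) (hinv A hA)
      (hinv B hB) (hd.preimage φ) hAB' with h | h
    · exact Or.inl (hempty A h)
    · exact Or.inr (hempty B h)

end Pool.Agent.Helper331
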