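import Mathlib

set_option autoImplicit false

open Set Filter Topology
open scoped Manifold ContDiff

namespace Pool.Agent.Helper331

/-- Local chart on a subset `M` of `E` obtained from an immersed parametrisation that is open
onto `M`. -/
theorem exists_chart {E F : Type*} [NormedAddCommGroup E] [NormedSpace ℝ E]
    [FiniteDimensional ℝ E] [NormedAddCommGroup F] [NormedSpace ℝ F] [FiniteDimensional ℝ F]
    {M : Set E} {Φ : F → E} {V : Set F} (hV : IsOpen V) (hΦ : ContDiff ℝ ∞ Φ)
    (hmaps : ∀ x ∈ V, Φ x ∈ M)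
    (hopen : ∀ O ⊆ V, IsOpen O → ∃ W : Set E, IsOpen W ∧ Φ '' O = M ∩ W)
    {x : F} (hx : x ∈ V) (hinj : Function.Injective (fderiv ℝ Φ x)) :
    ∃ e : OpenPartialHomeomorph M F, (⟨Φ x, hmaps x hx⟩ : M) ∈ e.source ∧
      ContDiffOn ℝ ∞ (fun z => ((e.symm z : M) : E)) e.target ∧
      ∃ π : E →L[ℝ] F, ∀ m : M, e m = π m := by
  have : CompleteSpace F := FiniteDimensional.complete ℝ F
  set L : F →L[ℝ] E := fderiv ℝ Φ x with hL
  obtain ⟨g, hg⟩ := LinearMap.exists_leftInverse_of_injective (L : F →ₗ[ℝ] E)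
    (LinearMap.ker_eq_bot.2 hinj)
  set π : E →L[ℝ] F := LinearMap.toContinuousLinearMap g with hπ
  have hπL : π.comp L = ContinuousLinearMap.id ℝ F := by
    ext v
    exact congrArg (fun f => f v) hg
  set ψ : F → F := fun z => π (Φ z) with hψ
  have hψs : ContDiff ℝ ∞ ψ := π.contDiff.comp hΦ
  have hΦd : ∀ z, HasFDerivAt Φ (fderiv ℝ Φ z) z := fun z =>
    ((hΦ.differentiable (by simp)) z).hasFDerivAt
  have hψd : HasFDerivAt ψ ((ContinuousLinearEquiv.refl ℝ F : F ≃L[ℝ] F) : F →L[ℝ] F) x := by
    have h1 := π.hasFDerivAt.comp x (hΦd x)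
    rw [← hL, hπL] at h1
    exact h1
  set e0 := (hψs.contDiffAt (x := x)).toOpenPartialHomeomorph ψ hψd (by simp) with he0
  have hxe0 : x ∈ e0.source := ContDiffAt.mem_toOpenPartialHomeomorph_source _ _ _
  -- open set where derivative is invertible
  set D : Set F := {z | fderiv ℝ ψ z ∈ range ((↑) : (F ≃L[ℝ] F) → F →L[ℝ] F)} with hD
  have hDo : IsOpen D := by
    have hc : Continuous (fderiv ℝ ψ) := hψs.continuous_fderiv (by simp)
    exact (ContinuousLinearEquiv.isOpen (𝕜 := ℝ) (E := F) (F := F)).preimage hc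
  have hxD : x ∈ D := ⟨ContinuousLinearEquiv.refl ℝ F, hψd.fderiv.symm⟩
  set e1 := e0.restrOpen (V ∩ D) (hV.inter hDo) with he1
  have hsrc : e1.source = e0.source ∩ (V ∩ D) := rfl
  have hxe1 : x ∈ e1.source := ⟨hxe0, hx, hxD⟩
  have he1c : ∀ z, e1 z = ψ z := fun z => rfl
  have hsV : e1.source ⊆ V := fun z hz => hz.2.1
  obtain ⟨W, hWo, hW⟩ := hopen e1.source hsV e1.open_source
  have hsymmV : ∀ z ∈ e1.target, e1.symm z ∈ V := fun z hz => hsV (e1.map_target hz)
  have hΦsm : ContDiffOn ℝ ∞ (fun z => Φ (e1.symm z)) e1.target := by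
    intro z hz
    have hzs := e1.map_target hz
    obtain ⟨f', hf'⟩ := hzs.2.2
    have h1 : ContDiffAt ℝ ∞ e1.symm z := by
      apply e1.contDiffAt_symm hz (f₀' := f')
      · rw [hf']
        exact ((hψs.differentiable (by simp)) _).hasFDerivAt
      · exact hψs.contDiffAt
    exact ((hΦ.contDiffAt).comp z h1).contDiffWithinAt
  classical
  let e : OpenPartialHomeomorph M F :=
    { toFun := fun m => π m
      invFun := fun z => if h : z ∈ e1.target then ⟨Φ (e1.symm z), hmaps _ (hsymmV z h)⟩
        else ⟨Φ x, hmaps x hx⟩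
      source := {m | (m : E) ∈ Φ '' e1.source}
      target := e1.target
      map_source' := by
        rintro m ⟨z, hz, hzm⟩
        change π (m : E) ∈ e1.target
        rw [← hzm]
        exact e1.map_source hz
      map_target' := by
        intro z hz
        change ((if h : z ∈ e1.target then (⟨Φ (e1.symm z), hmaps _ (hsymmV z h)⟩ : M)
          else ⟨Φ x, hmaps x hx⟩ : M) : E) ∈ Φ '' e1.source
        rw [dif_pos hz]
        exact ⟨e1.symm z, e1.map_target hz, rfl⟩
      left_inv' := by
        rintro m ⟨z, hz, hzm⟩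
        apply Subtype.ext
        have h1 : π (m : E) = e1 z := by rw [← hzm]; rfl
        have h2 : π (m : E) ∈ e1.target := by rw [h1]; exact e1.map_source hz
        rw [dif_pos h2]
        change Φ (e1.symm (π (m : E))) = m
        rw [h1, e1.left_inv hz, hzm]
      right_inv' := by
        intro z hz
        change π ((if h : z ∈ e1.target then (⟨Φ (e1.symm z), hmaps _ (hsymmV z h)⟩ : M)
          else ⟨Φ x, hmaps x hx⟩ : M) : E) = z
        rw [dif_pos hz]
        exact e1.right_inv hz
      open_source := by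
        have : {m : M | (m : E) ∈ Φ '' e1.source} = Subtype.val ⁻¹' W := by
          ext m
          change (m : E) ∈ Φ '' e1.source ↔ (m : E) ∈ W
          rw [hW]
          exact ⟨fun h => h.2, fun h => ⟨m.2, h⟩⟩
        rw [this]
        exact hWo.preimage continuous_subtype_val
      open_target := e1.open_target
      continuousOn_toFun := (π.continuous.comp continuous_subtype_val).continuousOn
      continuousOn_invFun := by
        rw [Topology.IsInducing.subtypeVal.continuousOn_iff]
        refine hΦsm.continuousOn.congr ?_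
        intro z hz
        simp only [Function.comp]
        rw [dif_pos hz] }
  have hsymm : ∀ z ∈ e1.target, ((e.symm z : M) : E) = Φ (e1.symm z) := by
    intro z hz
    change ((if h : z ∈ e1.target then (⟨Φ (e1.symm z), hmaps _ (hsymmV z h)⟩ : M)
          else ⟨Φ x, hmaps x hx⟩ : M) : E) = _
    rw [dif_pos hz]
  refine ⟨e, ⟨x, hxe1, rfl⟩, ?_, π, fun m => rfl⟩
  exact hΦsm.congr hsymm

end Pool.Agent.Helper331
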