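import Mathlib

set_option autoImplicit false

open Real Set Filter Topology

namespace Pool.Agent.Helper331

/-- Profile correction which makes the lower part exactly quadratic. -/
theorem exists_flat : ∃ (k k1 k2 : ℝ → ℝ) (η : ℝ), ContDiff ℝ (⊤ : ℕ∞) k ∧
    (∀ c, HasDerivAt k (k1 c) c) ∧ (∀ c, HasDerivAt k1 (k2 c) c) ∧ 0 < η ∧ η ≤ 1/32 ∧
    (∀ c, c ≤ 1/2 → k c = 0) ∧ (∀ c, 1 - η ≤ c → k c = -(1 - c)^2/4) ∧
    (∀ c, -(1 - c)^2/4 ≤ k c) ∧ (∀ c, k c ≤ 0) ∧
    (∀ c ∈ Icc (-1:ℝ) 1, k1 c ≤ 1/4) ∧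
    (∀ c s : ℝ, s^2 + c^2 = 1 → 1/3 < c → c < 1 →
      0 < (1/2 - k1 c) + c * s^2 * k2 c ∧
      0 < (1 - c) * (3 * c - 1) / 4 + 2 * c * k c + k1 c * s^2 / 2) := by
  -- the model function
  set K : ℝ → ℝ := fun u => -(Real.smoothTransition (2 - u)) * u^2/4 with hK
  have hKs : ContDiff ℝ (⊤ : ℕ∞) K := by
    have h1 : ContDiff ℝ (⊤ : ℕ∞) (fun u : ℝ => Real.smoothTransition (2 - u)) :=
      Real.smoothTransition.contDiff.comp (contDiff_const.sub contDiff_id)
    simp only [hK]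
    fun_prop
  have hK1s : ContDiff ℝ (⊤ : ℕ∞) (deriv K) := (contDiff_infty_iff_deriv.1 hKs).2
  have hK2s : ContDiff ℝ (⊤ : ℕ∞) (deriv (deriv K)) := (contDiff_infty_iff_deriv.1 hK1s).2
  have hK0 : ∀ u, 2 ≤ u → K u = 0 := by
    intro u hu
    simp only [hK]
    rw [Real.smoothTransition.zero_of_nonpos (by linarith)]; ring
  have hK10 : ∀ u, 2 < u → deriv K u = 0 := by
    intro u hu
    have : K =ᶠ[𝓝 u] fun _ => 0 := by
      filter_upwards [lt_mem_nhds hu] with v hv using hK0 v hv.le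
    rw [this.deriv_eq]; simp
  have hK20 : ∀ u, 2 < u → deriv (deriv K) u = 0 := by
    intro u hu
    have : deriv K =ᶠ[𝓝 u] fun _ => 0 := by
      filter_upwards [lt_mem_nhds hu] with v hv using hK10 v hv
    rw [this.deriv_eq]; simp
  obtain ⟨L1, hL1⟩ := (isCompact_Icc (a := (0:ℝ)) (b := 2)).exists_bound_of_continuousOn
    hK1s.continuous.continuousOn
  obtain ⟨L2, hL2⟩ := (isCompact_Icc (a := (0:ℝ)) (b := 2)).exists_bound_of_continuousOn
    hK2s.continuous.continuousOn
  set L := max (max L1 L2) 0 with hL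
  have hLnn : 0 ≤ L := le_max_right _ _
  have b1 : ∀ u, 0 ≤ u → |deriv K u| ≤ L := by
    intro u hu
    rcases le_or_gt u 2 with h | h
    · exact le_trans (hL1 u ⟨hu, h⟩) (le_trans (le_max_left _ _) (le_max_left _ _))
    · rw [hK10 u h]; simpa using hLnn
  have b2 : ∀ u, 0 ≤ u → |deriv (deriv K) u| ≤ L := by
    intro u hu
    rcases le_or_gt u 2 with h | h
    · exact le_trans (hL2 u ⟨hu, h⟩) (le_trans (le_max_right _ _) (le_max_left _ _))
    · rw [hK20 u h]; simpa using hLnn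
  have b0 : ∀ u, 0 ≤ u → -(u/2) ≤ K u := by
    intro u hu
    rcases le_or_gt u 2 with h | h
    · simp only [hK]
      have h1 := Real.smoothTransition.le_one (2 - u)
      have h2 := Real.smoothTransition.nonneg (2 - u)
      nlinarith [mul_nonneg h2 (sq_nonneg u), mul_nonneg (sub_nonneg.2 h1) (sq_nonneg u)]
    · rw [hK0 u h.le]; linarith
  have bn : ∀ u, K u ≤ 0 := by
    intro u
    simp only [hK]
    have h2 := Real.smoothTransition.nonneg (2 - u)
    nlinarith [mul_nonneg h2 (sq_nonneg u)]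
  have bq : ∀ u, -(u^2)/4 ≤ K u := by
    intro u
    simp only [hK]
    have h1 := Real.smoothTransition.le_one (2 - u)
    nlinarith [mul_nonneg (sub_nonneg.2 h1) (sq_nonneg u)]
  set η : ℝ := 1 / (32 * (L + 1)) with hη
  have hηpos : 0 < η := by positivity
  have hη1 : η ≤ 1/32 := by
    rw [hη]; apply one_div_le_one_div_of_le <;> linarith
  have hηL : η * L ≤ 1/32 := by
    rw [hη, div_mul_eq_mul_div, div_le_div_iff₀ (by positivity) (by norm_num)]
    nlinarith
  have hηne : η ≠ 0 := hηpos.ne'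
  have hlin : ∀ c : ℝ, HasDerivAt (fun c : ℝ => (1 - c) / η) (-1 / η) c := fun c => by
    simpa using ((hasDerivAt_id c).const_sub 1).div_const η
  refine ⟨fun c => η^2 * K ((1 - c)/η), fun c => -η * deriv K ((1 - c)/η),
    fun c => deriv (deriv K) ((1 - c)/η), η, ?_, ?_, ?_, hηpos, hη1, ?_, ?_, ?_, ?_, ?_, ?_⟩
  · exact contDiff_const.mul (hKs.comp ((contDiff_const.sub contDiff_id).div_const η))
  · intro c
    have h1 := ((hKs.differentiable (by simp)) ((1 - c)/η)).hasDerivAt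
    have h2 := (h1.comp c (hlin c)).const_mul (η^2)
    exact h2.congr_deriv (by field_simp)
  · intro c
    have h1 := ((hK1s.differentiable (by simp)) ((1 - c)/η)).hasDerivAt
    have h2 := (h1.comp c (hlin c)).const_mul (-η)
    exact h2.congr_deriv (by field_simp)
  · intro c hc
    have : 2 ≤ (1 - c)/η := by
      rw [le_div_iff₀ hηpos]; linarith
    simp only [hK0 _ this, mul_zero]
  · intro c hc
    have h1 : (1 - c)/η ≤ 1 := by rw [div_le_one hηpos]; linarith
    simp only [hK]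
    rw [Real.smoothTransition.one_of_one_le (by linarith)]
    field_simp
  · intro c
    have := bq ((1 - c)/η)
    have h2 : η^2 * (-(((1 - c)/η)^2)/4) ≤ η^2 * K ((1 - c)/η) := by gcongr
    refine le_trans (le_of_eq ?_) h2
    field_simp
  · intro c
    exact mul_nonpos_of_nonneg_of_nonpos (by positivity) (bn _)
  · intro c hc
    have h0 : 0 ≤ (1 - c)/η := div_nonneg (by linarith [hc.2]) hηpos.le
    have h1 := b1 _ h0
    rw [abs_le] at h1
    have : -η * deriv K ((1 - c)/η) ≤ η * L := by nlinarith [h1.1]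
    linarith
  · intro c s hs hc3 hc1
    have hu0 : 0 ≤ (1 - c)/η := div_nonneg (by linarith) hηpos.le
    have h1 := b1 _ hu0
    have h2 := b2 _ hu0
    have h0 := b0 _ hu0
    rw [abs_le] at h1 h2
    have hs2 : s^2 = (1 - c) * (1 + c) := by linarith [hs]
    have hs0 : 0 ≤ s^2 := sq_nonneg s
    set d1 := deriv K ((1 - c)/η) with hd1
    set d2 := deriv (deriv K) ((1 - c)/η) with hd2
    have hk1u : -η * d1 ≤ 1/32 := by nlinarith [h1.1]
    have hk1l : -(η * L) ≤ -η * d1 := by nlinarith [h1.2]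
    constructor
    · rcases le_or_gt ((1 - c)/η) 2 with h | h
      · have h3 : 1 - c ≤ 2 * η := by rwa [div_le_iff₀ hηpos] at h
        have h4 : s^2 ≤ 4 * η := by rw [hs2]; nlinarith
        have h5 : s^2 * L ≤ 1/8 := by nlinarith
        have h6 : -(s^2 * L) ≤ s^2 * d2 := by nlinarith [h2.1]
        have h7 : -(1/8) ≤ c * (s^2 * d2) := by nlinarith
        have e : c * s^2 * d2 = c * (s^2 * d2) := by ring
        rw [e]; linarith
      · have h3 : d2 = 0 := hK20 _ h
        change 0 < 1/2 - (-η * d1) + c * s^2 * d2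
        rw [h3]; linarith
    · rcases le_or_gt c (1/2) with h | h
      · have h3 : 2 < (1 - c)/η := by rw [lt_div_iff₀ hηpos]; linarith
        have h4 : d1 = 0 := hK10 _ h3
        change 0 < (1 - c) * (3 * c - 1) / 4 + 2 * c * (η^2 * K ((1 - c)/η)) + (-η * d1) * s^2 / 2
        rw [h4, hK0 _ h3.le]
        have : 0 < (1 - c) * (3 * c - 1) := mul_pos (by linarith) (by linarith)
        linarith
      · have h3 : -(η * (1 - c)) ≤ 2 * c * (η^2 * K ((1 - c)/η)) := by
          have h4 : η^2 * (-((1 - c)/η/2)) ≤ η^2 * K ((1 - c)/η) := by gcongr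
          have h5 : η^2 * (-((1 - c)/η/2)) = -(η * (1 - c))/2 := by field_simp
          rw [h5] at h4
          have h6 : 0 ≤ η * (1 - c) := mul_nonneg hηpos.le (by linarith)
          nlinarith
        have h4 : -(η * L * (1 - c)) ≤ -η * d1 * s^2 / 2 := by
          rw [hs2]
          have h6 : 0 ≤ (1 - c) * (1 + c) := by rw [← hs2]; exact hs0
          have h7 : -(η * L) * ((1 - c) * (1 + c)) ≤ -η * d1 * ((1 - c) * (1 + c)) := by gcongr
          have h8 : 0 ≤ η * L * (1 - c) := mul_nonneg (mul_nonneg hηpos.le hLnn) (by linarith)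
          nlinarith
        have h5 : 0 < (1 - c) * ((3 * c - 1)/4 - η - η * L) := by
          apply mul_pos (by linarith)
          linarith
        nlinarith

/-- Profile of a small crosscap. -/
theorem exists_cap {r ε : ℝ} (hr : 0 < r) (hr1 : r ≤ 1) (hε : 0 < ε) :
    ∃ (g g1 g2 : ℝ → ℝ), ContDiff ℝ (⊤ : ℕ∞) g ∧
    (∀ a, HasDerivAt g (g1 a) a) ∧ (∀ a, HasDerivAt g1 (g2 a) a) ∧
    (∀ a, g (-a) = g a) ∧ (∀ a, r ≤ |a| → g a = a^2) ∧
    (∀ a, a^2 ≤ g a) ∧ (∀ a, g a ≤ a^2 + ε) ∧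
    (∀ a, 0 < g a) ∧ (∀ a, 0 < g2 a) ∧ (∀ a, 0 < 4 * g a - a * g1 a) := by
  set f : ℝ → ℝ := fun x => expNegInvGlue (r^2 - x) with hf
  have hfs : ContDiff ℝ (⊤ : ℕ∞) f := expNegInvGlue.contDiff.comp (contDiff_const.sub contDiff_id)
  have hf1s : ContDiff ℝ (⊤ : ℕ∞) (deriv f) := (contDiff_infty_iff_deriv.1 hfs).2
  have hf2s : ContDiff ℝ (⊤ : ℕ∞) (deriv (deriv f)) := (contDiff_infty_iff_deriv.1 hf1s).2
  have hanti : Antitone f := fun x y hxy => expNegInvGlue.monotone (by linarith)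
  have hf0 : ∀ x, r^2 ≤ x → f x = 0 := fun x hx =>
    expNegInvGlue.zero_of_nonpos (by linarith)
  have hfp : ∀ x, x < r^2 → 0 < f x := fun x hx => expNegInvGlue.pos_of_pos (by linarith)
  have hfnn : ∀ x, 0 ≤ f x := fun x => expNegInvGlue.nonneg _
  have hf1n : ∀ x, deriv f x ≤ 0 := fun x => hanti.deriv_nonpos
  have hf10 : ∀ x, r^2 < x → deriv f x = 0 := by
    intro x hx
    have : f =ᶠ[𝓝 x] fun _ => 0 := by
      filter_upwards [lt_mem_nhds hx] with v hv using hf0 v hv.le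
    rw [this.deriv_eq]; simp
  have hf20 : ∀ x, r^2 < x → deriv (deriv f) x = 0 := by
    intro x hx
    have : deriv f =ᶠ[𝓝 x] fun _ => 0 := by
      filter_upwards [lt_mem_nhds hx] with v hv using hf10 v hv
    rw [this.deriv_eq]; simp
  obtain ⟨L1, hL1⟩ := (isCompact_Icc (a := (0:ℝ)) (b := r^2)).exists_bound_of_continuousOn
    hf1s.continuous.continuousOn
  obtain ⟨L2, hL2⟩ := (isCompact_Icc (a := (0:ℝ)) (b := r^2)).exists_bound_of_continuousOn
    hf2s.continuous.continuousOn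
  set L := max (max (max L1 L2) (f 0)) 1 with hL
  have hLpos : 0 < L := lt_of_lt_of_le one_pos (le_max_right _ _)
  have b1 : ∀ x, 0 ≤ x → |deriv f x| ≤ L := by
    intro u hu
    rcases le_or_gt u (r^2) with h | h
    · exact le_trans (hL1 u ⟨hu, h⟩)
        (le_trans (le_max_left _ _) (le_trans (le_max_left _ _) (le_max_left _ _)))
    · rw [hf10 u h]; simpa using hLpos.le
  have b2 : ∀ x, 0 ≤ x → |x * deriv (deriv f) x| ≤ L := by
    intro u hu
    rcases le_or_gt u (r^2) with h | h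
    · rw [abs_mul, abs_of_nonneg hu]
      have h1 : |deriv (deriv f) u| ≤ L := le_trans (hL2 u ⟨hu, h⟩)
        (le_trans (le_max_right _ _) (le_trans (le_max_left _ _) (le_max_left _ _)))
      have h2 : u ≤ 1 := by nlinarith
      calc u * |deriv (deriv f) u| ≤ 1 * L := by gcongr
        _ = L := one_mul _
    · rw [hf20 u h]; simpa using hLpos.le
  have b0 : ∀ x, 0 ≤ x → f x ≤ L := fun x hx => le_trans (hanti hx)
    (le_trans (le_max_right _ _) (le_max_left _ _))
  set δ : ℝ := min (1/8) ε / L with hδ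
  have hδpos : 0 < δ := by
    apply div_pos (lt_min (by norm_num) hε) hLpos
  have hδL : δ * L = min (1/8) ε := by rw [hδ]; field_simp
  have hδ8 : δ * L ≤ 1/8 := by rw [hδL]; exact min_le_left _ _
  have hδε : δ * L ≤ ε := by rw [hδL]; exact min_le_right _ _
  have hsq : ∀ a : ℝ, HasDerivAt (fun a : ℝ => a^2) (2 * a) a := fun a => by
    simpa using hasDerivAt_pow 2 a
  refine ⟨fun a => a^2 + δ * f (a^2), fun a => 2 * a + δ * (deriv f (a^2) * (2 * a)),
    fun a => 2 + δ * ((deriv (deriv f) (a^2) * (2 * a)) * (2 * a) + deriv f (a^2) * 2),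
    ?_, ?_, ?_, ?_, ?_, ?_, ?_, ?_, ?_, ?_⟩
  · exact (contDiff_id.pow 2).add (contDiff_const.mul (hfs.comp (contDiff_id.pow 2)))
  · intro a
    have h1 := ((hfs.differentiable (by simp)) (a^2)).hasDerivAt
    have h2 : HasDerivAt (fun a : ℝ => f (a^2)) (deriv f (a^2) * (2 * a)) a :=
      HasDerivAt.comp (h₂ := f) (h := fun a : ℝ => a^2) a h1 (hsq a)
    exact (hsq a).add (h2.const_mul δ)
  · intro a
    have h1 := ((hf1s.differentiable (by simp)) (a^2)).hasDerivAt
    have h2 : HasDerivAt (fun a : ℝ => 2 * a) 2 a := by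
      simpa using (hasDerivAt_id a).const_mul (2:ℝ)
    have h3 : HasDerivAt (fun a : ℝ => deriv f (a^2)) (deriv (deriv f) (a^2) * (2 * a)) a :=
      HasDerivAt.comp (h₂ := deriv f) (h := fun a : ℝ => a^2) a h1 (hsq a)
    exact h2.add ((h3.mul h2).const_mul δ)
  · intro a; simp
  · intro a ha
    have : r^2 ≤ a^2 := by rw [← sq_abs a]; gcongr
    simp [hf0 _ this]
  · intro a
    have := mul_nonneg hδpos.le (hfnn (a^2))
    linarith
  · intro a
    have h1 : δ * f (a^2) ≤ δ * L := by gcongr; exact b0 _ (sq_nonneg a)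
    linarith
  · intro a
    rcases lt_or_ge (a^2) (r^2) with h | h
    · have := mul_pos hδpos (hfp _ h)
      have := sq_nonneg a
      linarith
    · have h2 : 0 < a^2 := lt_of_lt_of_le (by positivity) h
      have := mul_nonneg hδpos.le (hfnn (a^2))
      linarith
  · intro a
    have h1 := b1 (a^2) (sq_nonneg a)
    have h2 := b2 (a^2) (sq_nonneg a)
    rw [abs_le] at h1 h2
    have h3 : -(δ * L) ≤ δ * deriv f (a^2) := by nlinarith [h1.1]
    have h4 : -(δ * L) ≤ δ * (a^2 * deriv (deriv f) (a^2)) := by nlinarith [h2.1]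
    have e : 2 + δ * ((deriv (deriv f) (a^2) * (2 * a)) * (2 * a) + deriv f (a^2) * 2)
      = 2 + 4 * (δ * (a^2 * deriv (deriv f) (a^2))) + 2 * (δ * deriv f (a^2)) := by ring
    change 0 < 2 + δ * ((deriv (deriv f) (a^2) * (2 * a)) * (2 * a) + deriv f (a^2) * 2)
    rw [e]; linarith
  · intro a
    have e : 4 * (a^2 + δ * f (a^2)) - a * (2 * a + δ * (deriv f (a^2) * (2 * a)))
      = 2 * a^2 + 4 * (δ * f (a^2)) + 2 * (δ * (a^2 * (-deriv f (a^2)))) := by ring
    change 0 < 4 * (a^2 + δ * f (a^2)) - a * (2 * a + δ * (deriv f (a^2) * (2 * a)))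
    rw [e]
    have h1 : 0 ≤ δ * (a^2 * (-deriv f (a^2))) :=
      mul_nonneg hδpos.le (mul_nonneg (sq_nonneg a) (by linarith [hf1n (a^2)]))
    rcases lt_or_ge (a^2) (r^2) with h | h
    · have := mul_pos hδpos (hfp _ h)
      have := sq_nonneg a
      linarith
    · have h2 : 0 < a^2 := lt_of_lt_of_le (by positivity) h
      have := mul_nonneg hδpos.le (hfnn (a^2))
      linarith

end Pool.Agent.Helper331
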