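import Pool.Agent.Helper331.Klein6

set_option autoImplicit false

open Real Set Filter Topology

namespace Pool.Agent.Helper331

/-- No local maximum of a nonzero height function where the profile is suitably curved. -/
theorem claimBgen {v0 v1 v2 v3 : ℝ} {A A1 A2 B B1 B2 : ℝ → ℝ}
    (hA : ∀ t, HasDerivAt A (A1 t) t) (hA1 : ∀ t, HasDerivAt A1 (A2 t) t)
    (hB : ∀ t, HasDerivAt B (B1 t) t) (hB1 : ∀ t, HasDerivAt B1 (B2 t) t)
    {s0 t0 : ℝ}
    (hm : IsLocalMax (fun p : ℝ × ℝ => (v0 * cos p.1 + v1 * sin p.1) * A p.2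
      + (v2 * cos (2 * p.1) + v3 * sin (2 * p.1)) * B p.2) (s0, t0))
    (hApos : 0 < A1 t0) (hBpos : 0 < B t0)
    (hconv : 0 < A1 t0 * B2 t0 - A2 t0 * B1 t0)
    (hzeta : 0 < 4 * A1 t0 * B t0 - A t0 * B1 t0) :
    v0 = 0 ∧ v1 = 0 ∧ v2 = 0 ∧ v3 = 0 := by
  have H := prod_second_order (hasDerivAt_al v0 v1) (hasDerivAt_al1 v0 v1)
    (hasDerivAt_be v2 v3) (hasDerivAt_be1 v2 v3) hA hA1 hB hB1 hm
  have hcs := sin_sq_add_cos_sq s0
  have hcs2 := sin_sq_add_cos_sq (2 * s0)
  set α := v0 * cos s0 + v1 * sin s0 with hα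
  set α' := -v0 * sin s0 + v1 * cos s0 with hα'
  set β := v2 * cos (2 * s0) + v3 * sin (2 * s0) with hβ
  set β' := -v2 * sin (2 * s0) + v3 * cos (2 * s0) with hβ'
  have E1 : α * A1 t0 + β * B1 t0 = 0 := by
    have := (H 0 1).1
    linarith
  have E2 : α' * A t0 + 2 * β' * B t0 = 0 := by
    have := (H 1 0).1
    linarith
  set m := -β / A1 t0 with hmd
  have hβm : β = -m * A1 t0 := by rw [hmd]; field_simp
  have hαm : α = m * B1 t0 := by
    have : A1 t0 * α = A1 t0 * (m * B1 t0) := by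
      rw [hβm] at E1; linarith
    exact mul_left_cancel₀ hApos.ne' this
  have hm_nonneg : 0 ≤ m := by
    have h2 := (H 0 1).2
    have h3 : -(m * (A1 t0 * B2 t0 - A2 t0 * B1 t0)) ≤ 0 := by
      have e : -(m * (A1 t0 * B2 t0 - A2 t0 * B1 t0)) = α * A2 t0 + β * B2 t0 := by
        rw [hαm, hβm]; ring
      rw [e]; linarith
    by_contra hneg
    push Not at hneg
    have := mul_neg_of_neg_of_pos hneg hconv
    linarith
  have hm_nonpos : m ≤ 0 := by
    have h2 := (H 1 0).2
    have h3 : m * (4 * A1 t0 * B t0 - A t0 * B1 t0) ≤ 0 := by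
      have e : m * (4 * A1 t0 * B t0 - A t0 * B1 t0) = -α * A t0 + -4 * β * B t0 := by
        rw [hαm, hβm]; ring
      rw [e]; linarith
    by_contra hpos
    push Not at hpos
    have := mul_pos hpos hzeta
    linarith
  have hm0 : m = 0 := le_antisymm hm_nonpos hm_nonneg
  have hα0 : α = 0 := by rw [hαm, hm0]; ring
  have hβ0 : β = 0 := by rw [hβm, hm0]; ring
  have hst : α' * A1 t0 + 2 * β' * B1 t0 = 0 := by
    have h1 := (H 1 1).2
    have h2 := (H 1 (-1)).2
    rw [hα0, hβ0] at h1 h2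
    exact le_antisymm (by linarith only [h1]) (by linarith only [h2])
  -- third order
  have hβ'0 : β' = 0 := by
    have hline : ∀ᶠ r : ℝ in 𝓝 0, 2 * β' * B t0 * (sin r * (cos r - 1)) ≤ 0 := by
      have hc : Tendsto (fun r : ℝ => (s0 + r, t0)) (𝓝 0) (𝓝 (s0, t0)) := by
        have : Continuous (fun r : ℝ => (s0 + r, t0)) := by fun_prop
        simpa using this.tendsto 0
      filter_upwards [hc.eventually hm] with r hr
      have e3 : v0 * cos (s0 + r) + v1 * sin (s0 + r) = α * cos r + α' * sin r := by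
        rw [cos_add, sin_add, hα, hα']; ring
      have e4 : v2 * cos (2 * (s0 + r)) + v3 * sin (2 * (s0 + r))
          = β * cos (2 * r) + β' * sin (2 * r) := by
        rw [mul_add, cos_add, sin_add, hβ, hβ']; ring
      rw [e3, e4, ← hα, ← hβ, hα0, hβ0, sin_two_mul] at hr
      have e1 : 2 * β' * B t0 * (sin r * (cos r - 1))
          = (0 * cos r + α' * sin r) * A t0 + (0 * cos (2 * r) + β' * (2 * sin r * cos r)) * B t0 := by
        linear_combination (-sin r) * E2
      rw [e1]
      linarith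
    obtain ⟨e, he, hball⟩ := Metric.eventually_nhds_iff.1 hline
    set r := min (e/2) 1 with hrd
    have hr0 : 0 < r := lt_min (by linarith) one_pos
    have hr1 : r ≤ 1 := min_le_right _ _
    have hre : r < e := lt_of_le_of_lt (min_le_left _ _) (by linarith)
    have p1 := hball (y := r) (by rw [Real.dist_eq, sub_zero, abs_of_pos hr0]; exact hre)
    have p2 := hball (y := -r) (by rw [Real.dist_eq, sub_zero, abs_neg, abs_of_pos hr0]; exact hre)
    rw [sin_neg, cos_neg] at p2
    have hsin : 0 < sin r := sin_pos_of_pos_of_lt_pi hr0 (by linarith [pi_gt_three])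
    have hcos : cos r < 1 := by
      have := sin_sq_add_cos_sq r
      have h5 := cos_le_one r
      nlinarith
    have hx : sin r * (cos r - 1) < 0 := mul_neg_of_pos_of_neg hsin (by linarith)
    have h0 : 2 * β' * B t0 * (sin r * (cos r - 1)) = 0 := by
      apply le_antisymm p1
      linarith
    rcases mul_eq_zero.1 h0 with h | h
    · rcases mul_eq_zero.1 h with h | h
      · linarith
      · exact absurd h hBpos.ne'
    · exact absurd h hx.ne
  have hα'0 : α' = 0 := by
    rw [hβ'0] at hst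
    have : α' * A1 t0 = 0 := by linarith
    exact (mul_eq_zero.1 this).resolve_right hApos.ne'
  refine ⟨?_, ?_, ?_, ?_⟩
  · have : v0 = α * cos s0 - α' * sin s0 := by
      rw [hα, hα']; linear_combination (-v0) * hcs
    rw [this, hα0, hα'0]; ring
  · have : v1 = α * sin s0 + α' * cos s0 := by
      rw [hα, hα']; linear_combination (-v1) * hcs
    rw [this, hα0, hα'0]; ring
  · have : v2 = β * cos (2 * s0) - β' * sin (2 * s0) := by
      rw [hβ, hβ']; linear_combination (-v2) * hcs2
    rw [this, hβ0, hβ'0]; ring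
  · have : v3 = β * sin (2 * s0) + β' * cos (2 * s0) := by
      rw [hβ, hβ']; linear_combination (-v3) * hcs2
    rw [this, hβ0, hβ'0]; ring

/-- two disjoint closed invariant sets cannot separate the maxima of the quadratic form. -/
theorem tpp_gen {v0 v1 v2 v3 : ℝ} {k : ℝ → ℝ} (hk0 : ∀ c, c ≤ 1/2 → k c = 0) {l : ℝ}
    {A B : Set (ℝ × ℝ)} (hAo : IsClosed A) (hBo : IsClosed B) (hA : KInv A) (hB : KInv B)
    (hd : Disjoint A B)
    (hAB : ∀ s t, cos t ≤ 1/3 → hk v0 v1 v2 v3 k (s, t) = l → (s, t) ∈ A ∪ B)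
    (hq : ∀ x y z : ℝ, qf v0 v1 v2 v3 x y z ≤ l * (x^2 + y^2 + z^2)) (hl : 0 < l)
    {sA tA sB tB : ℝ} (hpA : (sA, tA) ∈ A) (hpB : (sB, tB) ∈ B)
    (hcA : cos tA ≤ 1/3) (hcB : cos tB ≤ 1/3)
    (hvA : hk v0 v1 v2 v3 k (sA, tA) = l) (hvB : hk v0 v1 v2 v3 k (sB, tB) = l) : False := by
  have qA : qf v0 v1 v2 v3 (sin (tA/2) * cos sA) (sin (tA/2) * sin sA) (cos (tA/2)) = l := by
    rw [← hk_eq_qf v0 v1 v2 v3 k sA tA (hk0 _ (by linarith))]; exact hvA
  have qB : qf v0 v1 v2 v3 (sin (tB/2) * cos sB) (sin (tB/2) * sin sB) (cos (tB/2)) = l := by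
    rw [← hk_eq_qf v0 v1 v2 v3 k sB tB (hk0 _ (by linarith))]; exact hvB
  have norm1 : ∀ s t : ℝ, (sin (t/2) * cos s)^2 + (sin (t/2) * sin s)^2 + (cos (t/2))^2 = 1 := by
    intro s t
    have h1 := sin_sq_add_cos_sq s
    have h2 := sin_sq_add_cos_sq (t/2)
    linear_combination (sin (t/2))^2 * h1 + h2
  have hsin : ∀ t : ℝ, cos t ≤ 1/3 → sin (t/2) ≠ 0 := by
    intro t ht h0
    have h1 : cos t = 1 - 2 * sin (t/2)^2 := by
      have : cos t = cos (2 * (t/2)) := by congr 1; ring
      rw [this, cos_two_mul']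
      linear_combination sin_sq_add_cos_sq (t/2)
    rw [h0] at h1; rw [h1] at ht; norm_num at ht
  have hsA := hsin tA hcA
  have hsB := hsin tB hcB
  have qA' : qf v0 v1 v2 v3 (sin (tA/2) * cos sA) (sin (tA/2) * sin sA) (cos (tA/2))
      = l * ((sin (tA/2) * cos sA)^2 + (sin (tA/2) * sin sA)^2 + (cos (tA/2))^2) := by
    rw [norm1, mul_one]; exact qA
  have qB' : qf v0 v1 v2 v3 (sin (tB/2) * cos sB) (sin (tB/2) * sin sB) (cos (tB/2))
      = l * ((sin (tB/2) * cos sB)^2 + (sin (tB/2) * sin sB)^2 + (cos (tB/2))^2) := by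
    rw [norm1, mul_one]; exact qB
  by_cases hD : sin (sB - sA) = 0
  · -- same angle
    obtain ⟨m, hm⟩ := sin_eq_zero_iff.1 hD
    have hsBeq : sB = sA + m * π := by linarith
    -- find t' with (sA,t') in B
    obtain ⟨t', ht'B, ht'c⟩ : ∃ t', (∀ E : Set (ℝ × ℝ), KInv E → ((sA, t') ∈ E ↔ (sB, tB) ∈ E)) ∧
        cos t' ≤ 1/3 := by
      rcases Int.even_or_odd' m with ⟨j, hj | hj⟩
      · refine ⟨tB, fun E hE => ?_, hcB⟩
        have : sB = sA + j * (2 * π) := by rw [hsBeq, hj]; push_cast; ring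
        rw [this, hE.s]
      · refine ⟨-tB, fun E hE => ?_, by rw [cos_neg]; exact hcB⟩
        have : sB = (sA + π) + j * (2 * π) := by rw [hsBeq, hj]; push_cast; ring
        rw [this, hE.s, hE.1 sA (-tB), neg_neg]
    have hv' : hk v0 v1 v2 v3 k (sA, t') = l :=
      (ht'B _ (hk_level_inv v0 v1 v2 v3 k l)).2 hvB
    have qC : qf v0 v1 v2 v3 (sin (t'/2) * cos sA) (sin (t'/2) * sin sA) (cos (t'/2))
      = l * ((sin (t'/2) * cos sA)^2 + (sin (t'/2) * sin sA)^2 + (cos (t'/2))^2) := by
      rw [norm1, mul_one, ← hk_eq_qf v0 v1 v2 v3 k sA t' (hk0 _ (by linarith))]; exact hv'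
    have hD' : sin ((tA - t')/2) = 0 := by
      by_contra hne
      have hcomb := qf_comb hq qA' qC (-(sin (t'/2)) / sin ((tA - t')/2))
        (sin (tA/2) / sin ((tA - t')/2))
      have e0 : sin ((tA - t')/2) = sin (tA/2) * cos (t'/2) - cos (tA/2) * sin (t'/2) := by
        rw [sub_div, sin_sub]
      have e1 : -(sin (t'/2)) / sin ((tA - t')/2) * (sin (tA/2) * cos sA)
          + sin (tA/2) / sin ((tA - t')/2) * (sin (t'/2) * cos sA) = 0 := by
        field_simp; ring
      have e2 : -(sin (t'/2)) / sin ((tA - t')/2) * (sin (tA/2) * sin sA)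
          + sin (tA/2) / sin ((tA - t')/2) * (sin (t'/2) * sin sA) = 0 := by
        field_simp; ring
      have e3 : -(sin (t'/2)) / sin ((tA - t')/2) * cos (tA/2)
          + sin (tA/2) / sin ((tA - t')/2) * cos (t'/2) = 1 := by
        rw [div_mul_eq_mul_div, div_mul_eq_mul_div, ← add_div, div_eq_one_iff_eq hne, e0]
        ring
      rw [e1, e2, e3] at hcomb
      unfold qf at hcomb
      norm_num at hcomb
      linarith
    obtain ⟨n, hn⟩ := sin_eq_zero_iff.1 hD'
    have htA : tA = t' + n * (2 * π) := by linarith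
    have h1 : (sA, t') ∈ A := by
      rw [htA] at hpA
      exact (hA.t sA t' n).1 hpA
    have h2 : (sA, t') ∈ B := (ht'B B hB).2 hpB
    exact Set.disjoint_left.1 hd h1 h2
  · -- different angles
    set n0 := (sin (tA/2) * sin sA) * cos (tB/2) - cos (tA/2) * (sin (tB/2) * sin sB) with hn0
    set n1 := cos (tA/2) * (sin (tB/2) * cos sB) - (sin (tA/2) * cos sA) * cos (tB/2) with hn1
    set n2 := (sin (tA/2) * cos sA) * (sin (tB/2) * sin sB)
      - (sin (tA/2) * sin sA) * (sin (tB/2) * cos sB) with hn2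
    have hn2' : n2 = sin (tA/2) * sin (tB/2) * sin (sB - sA) := by
      rw [hn2, sin_sub]; ring
    have hn2ne : n2 ≠ 0 := by
      rw [hn2']
      exact mul_ne_zero (mul_ne_zero hsA hsB) hD
    set U : ℝ → ℝ := fun s => (n0 * cos s + n1 * sin s) / n2 with hU
    set T : ℝ → ℝ := fun s => π + 2 * arctan (U s) with hT
    have hUc : Continuous U := by
      simp only [hU]; fun_prop
    have hTc : Continuous T := by
      simp only [hT]
      exact continuous_const.add (continuous_const.mul (continuous_arctan.comp hUc))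
    have hsT : ∀ s, sin (T s / 2) = cos (arctan (U s)) := by
      intro s
      have : T s / 2 = arctan (U s) + π / 2 := by simp only [hT]; ring
      rw [this, sin_add_pi_div_two]
    have hcT : ∀ s, cos (T s / 2) = -sin (arctan (U s)) := by
      intro s
      have : T s / 2 = arctan (U s) + π / 2 := by simp only [hT]; ring
      rw [this, cos_add_pi_div_two]
    have hsc : ∀ s, sin (arctan (U s)) = U s * cos (arctan (U s)) := by
      intro s
      have h1 := tan_arctan (U s)
      rw [tan_eq_sin_div_cos] at h1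
      have h2 : cos (arctan (U s)) ≠ 0 := (cos_arctan_pos _).ne'
      field_simp at h1
      linarith
    have hperp : ∀ s, n0 * (sin (T s / 2) * cos s) + n1 * (sin (T s / 2) * sin s)
        + n2 * cos (T s / 2) = 0 := by
      intro s
      rw [hsT, hcT, hsc]
      simp only [hU]
      field_simp
      ring
    have hqT : ∀ s, qf v0 v1 v2 v3 (sin (T s/2) * cos s) (sin (T s/2) * sin s) (cos (T s/2)) = l := by
      intro s
      set X := sin (T s / 2) * cos s with hX
      set Y := sin (T s / 2) * sin s with hY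
      set Z := cos (T s / 2) with hZ
      have hcomb := qf_comb hq qA' qB'
        ((X * (sin (tB/2) * sin sB) - Y * (sin (tB/2) * cos sB)) / n2)
        (((sin (tA/2) * cos sA) * Y - (sin (tA/2) * sin sA) * X) / n2)
      have e1 : (X * (sin (tB/2) * sin sB) - Y * (sin (tB/2) * cos sB)) / n2 * (sin (tA/2) * cos sA)
          + ((sin (tA/2) * cos sA) * Y - (sin (tA/2) * sin sA) * X) / n2 * (sin (tB/2) * cos sB)
          = X := by
        rw [div_mul_eq_mul_div, div_mul_eq_mul_div, ← add_div, div_eq_iff hn2ne, hn2]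
        ring
      have e2 : (X * (sin (tB/2) * sin sB) - Y * (sin (tB/2) * cos sB)) / n2 * (sin (tA/2) * sin sA)
          + ((sin (tA/2) * cos sA) * Y - (sin (tA/2) * sin sA) * X) / n2 * (sin (tB/2) * sin sB)
          = Y := by
        rw [div_mul_eq_mul_div, div_mul_eq_mul_div, ← add_div, div_eq_iff hn2ne, hn2]
        ring
      have e3 : (X * (sin (tB/2) * sin sB) - Y * (sin (tB/2) * cos sB)) / n2 * cos (tA/2)
          + ((sin (tA/2) * cos sA) * Y - (sin (tA/2) * sin sA) * X) / n2 * cos (tB/2)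
          = Z := by
        rw [div_mul_eq_mul_div, div_mul_eq_mul_div, ← add_div, div_eq_iff hn2ne]
        have := hperp s
        rw [← hX, ← hY, ← hZ] at this
        rw [hn0, hn1] at this
        linear_combination (-1) * this
      rw [e1, e2, e3] at hcomb
      rw [hcomb, hX, hY, hZ, norm1, mul_one]
    have hcosT : ∀ s, cos (T s) ≤ 1/3 := by
      intro s
      have h1 := hqT s
      have h2 : qf v0 v1 v2 v3 (sin (T s/2) * cos s) (sin (T s/2) * sin s) (cos (T s/2))
        = l * ((sin (T s/2) * cos s)^2 + (sin (T s/2) * sin s)^2 + (cos (T s/2))^2) := by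
        rw [norm1, mul_one]; exact h1
      have h3 := qf_third hq hl h2
      have h4 := norm1 s (T s)
      have h5 : cos (T s) = 2 * cos (T s / 2)^2 - 1 := by
        rw [← cos_two_mul]; congr 1; ring
      rw [h5]; linarith
    have hcurve : ∀ s, (s, T s) ∈ A ∪ B := by
      intro s
      apply hAB s (T s) (hcosT s)
      rw [hk_eq_qf v0 v1 v2 v3 k s (T s) (hk0 _ (by linarith [hcosT s])), hqT s]
    have hmem : ∀ (E : Set (ℝ × ℝ)) (s t : ℝ), KInv E → (s, t) ∈ E → sin (t/2) ≠ 0 →
        n0 * (sin (t / 2) * cos s) + n1 * (sin (t / 2) * sin s) + n2 * cos (t / 2) = 0 →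
        (s, T s) ∈ E := by
      intro E s t hE hst hs0 hp
      have hUs : n0 * cos s + n1 * sin s = n2 * U s := by
        simp only [hU]; field_simp
      have h1 : sin ((t - T s)/2) = 0 := by
        rw [sub_div, sin_sub, hsT, hcT, hsc]
        have h2 : n2 * (sin (t/2) * U s + cos (t/2)) = 0 := by
          linear_combination hp - sin (t/2) * hUs
        have h3 := (mul_eq_zero.1 h2).resolve_left hn2ne
        linear_combination (-cos (arctan (U s))) * h3
      obtain ⟨n, hn⟩ := sin_eq_zero_iff.1 h1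
      have ht : t = T s + n * (2 * π) := by linarith
      rw [ht] at hst
      exact (hE.t s (T s) n).1 hst
    have hAm : (sA, T sA) ∈ A := by
      apply hmem A sA tA hA hpA hsA
      rw [hn0, hn1, hn2]; ring
    have hBm : (sB, T sB) ∈ B := by
      apply hmem B sB tB hB hpB hsB
      rw [hn0, hn1, hn2]; ring
    have hpre : IsPreconnected (range (fun s : ℝ => (s, T s))) := by
      rw [← image_univ]
      exact isPreconnected_univ.image _ (continuous_id.prodMk hTc).continuousOn
    obtain ⟨x, hx1, hx2⟩ := (isPreconnected_closed_iff.1 hpre) A B hAo hBo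
      (by rintro _ ⟨s, rfl⟩; exact hcurve s)
      ⟨_, ⟨sA, rfl⟩, hAm⟩ ⟨_, ⟨sB, rfl⟩, hBm⟩
    exact Set.disjoint_left.1 hd hx2.1 hx2.2

end Pool.Agent.Helper331
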