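import Pool.Agent.Helper331.Pot2

set_option autoImplicit false

open Set Filter Topology unitInterval

namespace Pool.Agent.Helper331

variable {X A : Type*} [TopologicalSpace X] [PathConnectedSpace X] [CommGroup A]

/-- The weight on paths associated with a homomorphism of the fundamental group into a
commutative group. -/
noncomputable def wtOfHom (x0 : X) (α : FundamentalGroup X x0 →* A) : Wt X A where
  w := fun {a b} p => α (FundamentalGroup.fromPath
    (((Path.Homotopic.Quotient.mk (PathConnectedSpace.somePath x0 a)).trans
      (Path.Homotopic.Quotient.mk p)).trans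
      (Path.Homotopic.Quotient.mk (PathConnectedSpace.somePath x0 b)).symm))
  homot := by
    intro a b p q h
    rw [Path.Homotopic.Quotient.eq.2 h]
  trans := by
    intro a b c p q
    set ca := Path.Homotopic.Quotient.mk (PathConnectedSpace.somePath x0 a)
    set cb := Path.Homotopic.Quotient.mk (PathConnectedSpace.somePath x0 b)
    set cc := Path.Homotopic.Quotient.mk (PathConnectedSpace.somePath x0 c)
    rw [Path.Homotopic.Quotient.mk_trans]
    set P := Path.Homotopic.Quotient.mk p
    set Q := Path.Homotopic.Quotient.mk q
    rw [mul_comm, ← map_mul]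
    congr 1
    rw [FundamentalGroup.mul_def]
    change (ca.trans (P.trans Q)).trans cc.symm
      = ((ca.trans P).trans cb.symm).trans ((cb.trans Q).trans cc.symm)
    have e1 : ((ca.trans P).trans cb.symm).trans ((cb.trans Q).trans cc.symm)
        = (ca.trans P).trans ((cb.symm.trans cb).trans (Q.trans cc.symm)) := by
      simp only [Path.Homotopic.Quotient.trans_assoc]
    rw [e1, Path.Homotopic.Quotient.symm_trans, Path.Homotopic.Quotient.refl_trans]
    simp only [Path.Homotopic.Quotient.trans_assoc]

theorem wtOfHom_loop (x0 : X) (α : FundamentalGroup X x0 →* A) (l : Path x0 x0) :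
    (wtOfHom x0 α).w l = α (FundamentalGroup.fromPath (Path.Homotopic.Quotient.mk l)) := by
  set c : FundamentalGroup X x0 := FundamentalGroup.fromPath
    (Path.Homotopic.Quotient.mk (PathConnectedSpace.somePath x0 x0)) with hc
  set L : FundamentalGroup X x0 := FundamentalGroup.fromPath (Path.Homotopic.Quotient.mk l)
  have : (wtOfHom x0 α).w l = α (c⁻¹ * (L * c)) := rfl
  rw [this, map_mul, map_mul, map_inv, mul_comm (α L) (α c), inv_mul_cancel_left]

theorem hom_eq_one (x0 : X) (α : FundamentalGroup X x0 →* A)
    (h : ∀ l : Path x0 x0, (wtOfHom x0 α).w l = 1) : α = 1 := by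
  ext g
  obtain ⟨l, rfl⟩ := Path.Homotopic.Quotient.mk_surjective g
  have := h l
  rw [wtOfHom_loop] at this
  exact this

end Pool.Agent.Helper331
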