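import Pool.Agent.Helper331.N3b
import Pool.Agent.Helper331.Pot3
import Pool.Agent.Helper331.Cov2

set_option autoImplicit false

open Set Filter Topology unitInterval
open scoped ContDiff

namespace Pool.Agent.Helper331

/-- open strip -/
abbrev St (ρ : ℝ) : Type := {x : ℝ × ℝ // |x.2| < ρ}

theorem St_simply {ρ : ℝ} (hρ : 0 < ρ) : SimplyConnectedSpace (St ρ) := by
  have hconv : Convex ℝ {x : ℝ × ℝ | |x.2| < ρ} := by
    have : {x : ℝ × ℝ | |x.2| < ρ} = univ ×ˢ Ioo (-ρ) ρ := by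
      ext x; simp [abs_lt]
    rw [this]
    exact convex_univ.prod (convex_Ioo _ _)
  have hne : {x : ℝ × ℝ | |x.2| < ρ}.Nonempty := ⟨(0, 0), by simpa using hρ⟩
  have : ContractibleSpace {x : ℝ × ℝ | |x.2| < ρ} := hconv.contractibleSpace hne
  exact (inferInstance : SimplyConnectedSpace {x : ℝ × ℝ | |x.2| < ρ})

/-- deck transformation of the strip -/
noncomputable def tau (ρ : ℝ) : St ρ ≃ St ρ where
  toFun x := ⟨fl x.1, by simpa [fl] using x.2⟩
  invFun x := ⟨(x.1.1 - Real.pi, -x.1.2), by simpa using x.2⟩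
  left_inv x := by apply Subtype.ext; simp [fl]
  right_inv x := by apply Subtype.ext; simp [fl]

theorem tau_continuous (ρ : ℝ) : Continuous (tau ρ) := by
  apply Continuous.subtype_mk
  unfold fl
  fun_prop

variable {c : ℝ} {A B : ℝ → ℝ} {ρ : ℝ} {M : Set (ℂ × ℂ)}

/-- band map into the surface -/
noncomputable def bm (c : ℝ) (A B : ℝ → ℝ) (ρ : ℝ) (M : Set (ℂ × ℂ))
    (hM : ∀ x : ℝ × ℝ, |x.2| < ρ → Ph c A B x ∈ M) (x : St ρ) : M := ⟨Ph c A B x.1, hM x.1 x.2⟩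

theorem bm_continuous (h : Prof A B ρ) (hM : ∀ x : ℝ × ℝ, |x.2| < ρ → Ph c A B x ∈ M) :
    Continuous (bm c A B ρ M hM) :=
  (h.continuous.comp continuous_subtype_val).subtype_mk _

theorem bm_tau (h : Prof A B ρ) (hM : ∀ x : ℝ × ℝ, |x.2| < ρ → Ph c A B x ∈ M) (s : St ρ) :
    bm c A B ρ M hM (tau ρ s) = bm c A B ρ M hM s :=
  Subtype.ext (h.flip s.1)

theorem bm_tau_zpow (h : Prof A B ρ) (hM : ∀ x : ℝ × ℝ, |x.2| < ρ → Ph c A B x ∈ M) (n : ℤ) :
    ∀ s : St ρ, bm c A B ρ M hM ((tau ρ ^ n) s) = bm c A B ρ M hM s ∧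
      ((tau ρ ^ n) s).1.1 = s.1.1 + n * Real.pi := by
  induction n using Int.induction_on with
  | zero => intro s; simp
  | succ n ih =>
    intro s
    rw [zpow_add_one, Equiv.Perm.mul_apply]
    obtain ⟨h1, h2⟩ := ih (tau ρ s)
    refine ⟨by rw [h1, bm_tau h], ?_⟩
    rw [h2]
    have : (tau ρ s).1.1 = s.1.1 + Real.pi := rfl
    rw [this]; push_cast; ring
  | pred n ih =>
    intro s
    rw [zpow_sub_one, Equiv.Perm.mul_apply]
    obtain ⟨h1, h2⟩ := ih ((tau ρ)⁻¹ s)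
    have h9 : tau ρ ((tau ρ)⁻¹ s) = s := (tau ρ).apply_symm_apply s
    refine ⟨by rw [h1, ← bm_tau h, h9], ?_⟩
    rw [h2]
    have : ((tau ρ)⁻¹ s).1.1 = s.1.1 - Real.pi := rfl
    rw [this]; push_cast; ring

theorem band_pot (h : Prof A B ρ) {W : Set (ℂ × ℂ)} (hW : IsOpen W)
    (hMW : ∀ y, y ∈ M ∩ W ↔ ∃ x : ℝ × ℝ, |x.2| < ρ ∧ Ph c A B x = y)
    (hM : ∀ x : ℝ × ℝ, |x.2| < ρ → Ph c A B x ∈ M)
    {G : Type*} [CommGroup G] (w : Wt M G) (s0 : St ρ) (q : Path s0 (tau ρ s0))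
    (hl : w.w (q.map (bm_continuous h hM)) = 1) :
    ∃ f : M → G, ∀ (a b : M) (p : Path a b), (∀ t, (p t : ℂ × ℂ) ∈ W) →
      w.w p = (f a)⁻¹ * f b := by
  classical
  have := St_simply h.rho_pos
  have hfib : ∀ s s' : St ρ, bm c A B ρ M hM s = bm c A B ρ M hM s' →
      ∃ n : ℤ, (tau ρ ^ n) s = s' := by
    intro s s' hss
    have he : Ph c A B s.1 = Ph c A B s'.1 := congrArg Subtype.val hss
    obtain ⟨n, hn⟩ := h.angle (le_of_lt s.2) (le_of_lt s'.2) he
    refine ⟨n, ?_⟩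
    obtain ⟨h1, h2⟩ := bm_tau_zpow h hM n s
    apply Subtype.ext
    apply h.eq_of_angle (c := c) (le_of_lt ((tau ρ ^ n) s).2) (le_of_lt s'.2)
    · rw [h2, hn]
    · have := congrArg Subtype.val h1
      exact this.trans he
  have hsec : ∀ y ∈ range (bm c A B ρ M hM), ∃ N ∈ 𝓝 y, ∃ g : M → St ρ, ContinuousOn g N ∧
      ∀ y' ∈ N, bm c A B ρ M hM (g y') = y' := by
    rintro y ⟨x, rfl⟩
    have hinj : InjOn (Ph c A B) (Bx x.1.1 ρ) := (h.injOn (c := c) x.1.1).mono (by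
      intro v hv
      exact ⟨Ioo_subset_Icc_self hv.1, Ioo_subset_Icc_self hv.2⟩)
    have hop := h.hopen (c := c) hW hMW x.1.1
    obtain ⟨g, hg, hg2⟩ := exists_section (M := M) (Bx_open x.1.1 ρ) hinj hop
    obtain ⟨W', hW', hWe⟩ := hop _ subset_rfl (Bx_open x.1.1 ρ)
    have hNeq : {m : M | (m : ℂ × ℂ) ∈ Ph c A B '' Bx x.1.1 ρ} = Subtype.val ⁻¹' W' := by
      ext m
      change (m : ℂ × ℂ) ∈ Ph c A B '' Bx x.1.1 ρ ↔ (m : ℂ × ℂ) ∈ W'
      rw [hWe]
      exact ⟨fun h => h.2, fun h => ⟨m.2, h⟩⟩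
    have hN : {m : M | (m : ℂ × ℂ) ∈ Ph c A B '' Bx x.1.1 ρ} ∈ 𝓝 (bm c A B ρ M hM x) := by
      rw [hNeq]
      apply (hW'.preimage continuous_subtype_val).mem_nhds
      have : (bm c A B ρ M hM x : ℂ × ℂ) ∈ M ∩ W' := by
        rw [← hWe]
        exact ⟨x.1, mem_Bx_self x.2, rfl⟩
      exact this.2
    have hgl : ∀ m : M, (m : ℂ × ℂ) ∈ Ph c A B '' Bx x.1.1 ρ → |(g m).2| < ρ := fun m hm =>
      abs_lt.2 (hg2 m hm).1.2
    refine ⟨_, hN, fun m => if hm : |(g m).2| < ρ then ⟨g m, hm⟩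
      else ⟨(0, 0), by simpa using h.rho_pos⟩, ?_, ?_⟩
    · rw [Topology.IsInducing.subtypeVal.continuousOn_iff]
      refine hg.congr ?_
      intro m hm
      simp only [Function.comp]
      rw [dif_pos (hgl m hm)]
    · intro m hm
      apply Subtype.ext
      simp only
      rw [dif_pos (hgl m hm)]
      exact (hg2 m hm).2
  obtain ⟨f, hf⟩ := w.band_potential (bm c A B ρ M hM) (bm_continuous h hM) (tau ρ)
    (tau_continuous ρ) (bm_tau h hM) hfib hsec s0 q hl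
  refine ⟨f, fun a b p hp => hf a b p fun t => ?_⟩
  obtain ⟨x, hx, hxy⟩ := (hMW (p t)).1 ⟨(p t).2, hp t⟩
  exact ⟨⟨x, hx⟩, Subtype.ext hxy⟩

/-- evaluation of the homomorphism of a double relation on a band loop. -/
theorem loop_eval {X V S : Type*} [TopologicalSpace X] [NormedAddCommGroup V] [NormedSpace ℝ V]
    [TopologicalSpace S] {E : Set (X × V)} {x0 : X} {α : FundamentalGroup X x0 →* ℤˣ}
    (hα : ∀ (l : Path x0 x0) (u : I → V), Continuous u → (∀ t, (l t, u t) ∈ E) →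
      (u 1 = u 0 → α (FundamentalGroup.fromPath (Path.Homotopic.Quotient.mk l)) = 1) ∧
      (u 1 = -u 0 → α (FundamentalGroup.fromPath (Path.Homotopic.Quotient.mk l)) = -1))
    {Φ : S → X} (hΦ : Continuous Φ) {s0 s1 : S} (q : Path s0 s1) (h0 : x0 = Φ s0) (h1 : x0 = Φ s1)
    {u : S → V} (hu : Continuous u) (hE : ∀ s, (Φ s, u s) ∈ E) :
    (u s1 = u s0 → α (FundamentalGroup.fromPath
      (Path.Homotopic.Quotient.mk ((q.map hΦ).cast h0 h1))) = 1) ∧
    (u s1 = -u s0 → α (FundamentalGroup.fromPath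
      (Path.Homotopic.Quotient.mk ((q.map hΦ).cast h0 h1))) = -1) := by
  have := hα ((q.map hΦ).cast h0 h1) (fun t => u (q t)) (hu.comp q.continuous)
    (fun t => hE (q t))
  simpa using this

/-- principal square root -/
noncomputable def rt (z : ℂ) : ℂ := z ^ ((2:ℂ)⁻¹)

theorem rt_sq (z : ℂ) : rt z ^ 2 = z := by
  have := Complex.cpow_nat_inv_pow z (n := 2) two_ne_zero
  exact this

theorem rt_continuousAt {z : ℂ} (hz : z ∈ Complex.slitPlane) : ContinuousAt rt z :=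
  continuousAt_cpow_const hz

/-- local square roots -/
theorem local_sqrt {X : Type*} [TopologicalSpace X] {f : X → ℂ} (hf : Continuous f) {x : X}
    (hx : f x ≠ 0) : ∃ W : Set X, IsOpen W ∧ x ∈ W ∧ ∃ g : X → ℂ, ContinuousOn g W ∧
      ∀ y ∈ W, g y ^ 2 = f y ∧ f y ≠ 0 := by
  obtain ⟨u0, hu0⟩ := IsAlgClosed.exists_pow_nat_eq (f x) (n := 2) (by norm_num)
  refine ⟨{y | f y / f x ∈ Complex.slitPlane}, ?_, ?_, fun y => u0 * rt (f y / f x), ?_, ?_⟩
  · exact Complex.isOpen_slitPlane.preimage (hf.div_const _)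
  · change f x / f x ∈ Complex.slitPlane
    rw [div_self hx]; exact Complex.one_mem_slitPlane
  · intro y hy
    apply ContinuousAt.continuousWithinAt
    have hy' : f y / f x ∈ Complex.slitPlane := hy
    apply continuousAt_const.mul
    exact (rt_continuousAt hy').comp (f := fun y => f y / f x) (hf.div_const _).continuousAt
  · intro y hy
    have hy' : f y / f x ∈ Complex.slitPlane := hy
    constructor
    · rw [mul_pow, rt_sq, hu0]; field_simp
    · intro h0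
      rw [h0, zero_div] at hy'
      exact Complex.zero_notMem_slitPlane hy'

/-- the double relation of a nowhere vanishing function -/
theorem doubleRel_sq {X : Type*} [TopologicalSpace X] {f : X → ℂ} (hf : Continuous f)
    (hx : ∀ x, f x ≠ 0) : DoubleRel {e : X × ℂ | e.2^2 = f e.1} := by
  intro x
  obtain ⟨W, hW, hxW, g, hg, hgW⟩ := local_sqrt hf (hx x)
  refine ⟨W, hW, hxW, g, hg, fun y hy => ⟨?_, fun v => ?_⟩⟩
  · intro h0
    obtain ⟨h1, h2⟩ := hgW y hy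
    rw [h0] at h1
    apply h2
    rw [← h1]; ring
  · change v^2 = f y ↔ _
    rw [← (hgW y hy).1]
    exact sq_eq_sq_iff_eq_or_eq_neg

end Pool.Agent.Helper331
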