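import Pool.Agent.Helper331.N3e
import Pool.Agent.Helper331.N3f
import Pool.Agent.Helper331.Count

set_option autoImplicit false

open Set Filter Topology unitInterval
open scoped ContDiff

namespace Pool.Agent.Helper331

/-! ### path connected planar regions -/

/-- crescent -/
def R1 (p c : ℝ) : Set ℂ := {z | 6/5 * p < ‖z‖ ∧ ‖z - c‖ < 9/5 * p}

theorem norm_cis_sub (p m ψ : ℝ) : ‖(m : ℂ) * cis ψ - p‖^2 = m^2 - 2 * m * p * Real.cos ψ + p^2 := by
  rw [← Complex.normSq_eq_norm_sq, Complex.normSq_apply]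
  have h1 : ((m : ℂ) * cis ψ - p).re = m * Real.cos ψ - p := by
    rw [Complex.sub_re, Complex.re_ofReal_mul, cis_re, Complex.ofReal_re]
  have h2 : ((m : ℂ) * cis ψ - p).im = m * Real.sin ψ := by
    rw [Complex.sub_im, Complex.im_ofReal_mul, cis_im, Complex.ofReal_im, sub_zero]
  rw [h1, h2]
  have := Real.sin_sq_add_cos_sq ψ
  linear_combination m^2 * this

theorem R1_to_real {p : ℝ} (hp : 0 < p) {w : ℂ} (hw : w ∈ R1 p p) :
    JoinedIn (R1 p p) w (‖w‖ : ℂ) := by
  obtain ⟨h1, h2⟩ := hw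
  set m := ‖w‖ with hm
  have hm0 : 0 < m := lt_trans (by positivity) h1
  have hw' : (m : ℂ) * cis (Complex.arg w) = w := Complex.norm_mul_exp_arg_mul_I w
  refine JoinedIn.ofLine (f := fun t : ℝ => (m : ℂ) * cis ((1 - t) * Complex.arg w)) ?_ ?_ ?_ ?_
  · apply Continuous.continuousOn
    exact continuous_const.mul (cis_continuous.comp (by fun_prop))
  · simp [hw']
  · simp [cis_zero]
  · rintro _ ⟨t, ht, rfl⟩
    constructor
    · simp only
      rw [norm_mul, norm_cis, mul_one, Complex.norm_real, Real.norm_of_nonneg hm0.le]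
      exact h1
    · simp only
      apply lt_of_pow_lt_pow_left₀ 2 (by positivity)
      refine lt_of_le_of_lt ?_ (pow_lt_pow_left₀ h2 (norm_nonneg _) two_ne_zero)
      rw [norm_cis_sub, ← hw', norm_cis_sub]
      have hcos : Real.cos (Complex.arg w) ≤ Real.cos ((1 - t) * Complex.arg w) := by
        rw [← Real.cos_abs (Complex.arg w), ← Real.cos_abs ((1 - t) * Complex.arg w)]
        apply Real.cos_le_cos_of_nonneg_of_le_pi (abs_nonneg _) (Complex.abs_arg_le_pi w)
        rw [abs_mul]
        have : |1 - t| ≤ 1 := by rw [abs_le]; constructor <;> linarith [ht.1, ht.2]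
        have := abs_nonneg (Complex.arg w)
        nlinarith
      have : 0 ≤ 2 * m * p := by positivity
      rw [hw']
      nlinarith

theorem R1_real {p m m' : ℝ} (hp : 0 < p) (hm : 6/5 * p < m ∧ m < 14/5 * p)
    (hm' : 6/5 * p < m' ∧ m' < 14/5 * p) : JoinedIn (R1 p p) (m : ℂ) (m' : ℂ) := by
  refine JoinedIn.ofLine (f := fun t : ℝ => (((1 - t) * m + t * m' : ℝ) : ℂ)) ?_ ?_ ?_ ?_
  · apply Continuous.continuousOn
    exact Complex.continuous_ofReal.comp (by fun_prop)
  · simp
  · simp
  · rintro _ ⟨t, ht, rfl⟩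
    have h1 : 0 ≤ 1 - t := by linarith [ht.2]
    have h2 : 0 ≤ t := ht.1
    set n := (1 - t) * m + t * m' with hn
    have h3 : 6/5 * p < n := by
      rcases eq_or_lt_of_le h2 with h | h
      · rw [hn, ← h]; linarith [hm.1]
      · have a1 : t * (6/5 * p) < t * m' := mul_lt_mul_of_pos_left hm'.1 h
        have a2 : (1 - t) * (6/5 * p) ≤ (1 - t) * m := mul_le_mul_of_nonneg_left hm.1.le h1
        linarith
    have h4 : n < 14/5 * p := by
      rcases eq_or_lt_of_le h2 with h | h
      · rw [hn, ← h]; linarith [hm.2]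
      · have a1 : t * m' < t * (14/5 * p) := mul_lt_mul_of_pos_left hm'.2 h
        have a2 : (1 - t) * m ≤ (1 - t) * (14/5 * p) := mul_le_mul_of_nonneg_left hm.2.le h1
        linarith
    constructor
    · simp only
      rw [Complex.norm_real, Real.norm_of_nonneg (by linarith)]; exact h3
    · simp only
      rw [← Complex.ofReal_sub, Complex.norm_real, Real.norm_eq_abs, abs_lt]
      constructor <;> linarith

theorem R1_pathConnected_aux {p : ℝ} (hp : 0 < p) {w w' : ℂ} (hw : w ∈ R1 p p) (hw' : w' ∈ R1 p p) :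
    JoinedIn (R1 p p) w w' := by
  have key : ∀ w ∈ R1 p p, 6/5 * p < ‖w‖ ∧ ‖w‖ < 14/5 * p := by
    intro w hw
    refine ⟨hw.1, ?_⟩
    have h2 := norm_add_le (w - p) (p : ℂ)
    rw [sub_add_cancel, Complex.norm_real, Real.norm_of_nonneg hp.le] at h2
    linarith [hw.2]
  exact (R1_to_real hp hw).trans ((R1_real hp (key w hw) (key w' hw')).trans
    (R1_to_real hp hw').symm)

theorem R1_joined {p c : ℝ} (hp : 0 < p) (hc : |c| = p) {w w' : ℂ} (hw : w ∈ R1 p c)
    (hw' : w' ∈ R1 p c) : JoinedIn (R1 p c) w w' := by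
  rcases eq_or_eq_neg_of_abs_eq hc with h | h
  · rw [h] at hw hw' ⊢
    exact R1_pathConnected_aux hp hw hw'
  · have hneg : ∀ z, z ∈ R1 p c → -z ∈ R1 p p := by
      intro z hz
      rw [h] at hz
      refine ⟨by rw [norm_neg]; exact hz.1, ?_⟩
      have h2 := hz.2
      push_cast at h2
      have e : -z - (p : ℂ) = -(z - -(p : ℂ)) := by ring
      rw [e, norm_neg]; exact h2
    have hneg' : ∀ z, z ∈ R1 p p → -z ∈ R1 p c := by
      intro z hz
      rw [h]
      refine ⟨by rw [norm_neg]; exact hz.1, ?_⟩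
      have h2 := hz.2
      push_cast
      have e : -z - -(p : ℂ) = -(z - (p : ℂ)) := by ring
      rw [e, norm_neg]; exact h2
    obtain ⟨γ, hγ⟩ := R1_pathConnected_aux hp (hneg w hw) (hneg w' hw')
    refine ⟨(γ.map (f := fun z : ℂ => -z) continuous_neg).cast (by simp) (by simp), ?_⟩
    intro t
    simpa using hneg' _ (hγ t)

/-- lens -/
def R2 (p : ℝ) : Set ℂ := {z | ‖z - p‖ < 9/5 * p ∧ ‖z + p‖ < 9/5 * p}

theorem R2_joined {p : ℝ} {w w' : ℂ} (hw : w ∈ R2 p) (hw' : w' ∈ R2 p) :
    JoinedIn (R2 p) w w' := by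
  have hconv : Convex ℝ (R2 p) := by
    have : R2 p = Metric.ball (p : ℂ) (9/5 * p) ∩ Metric.ball (-(p : ℂ)) (9/5 * p) := by
      ext z; simp [R2, dist_eq_norm]
    rw [this]
    exact (convex_ball _ _).inter (convex_ball _ _)
  exact hconv.isPathConnected ⟨w, hw⟩ |>.joinedIn w hw w' hw'

namespace N3D

variable (D : N3D)

theorem hcp : |D.p| = D.p := abs_of_pos D.hp

theorem hcn : |-D.p| = D.p := by rw [abs_neg, D.hcp]

theorem Om_expand (c : ℝ) (y : ℂ × ℂ) : Om c y = (y.1 - c)^2 + (y.2 - y.1^2) := by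
  simp only [Om]; ring

/-- near the other crosscap -/
theorem other_slit {c : ℝ} (hc : |c| = D.p) {x : ℝ × ℝ} (hx : |x.2| < 9/5 * D.p) :
    (D.Pc (-c) x).1 - c ≠ 0 ∧ Om c (D.Pc (-c) x) / ((D.Pc (-c) x).1 - c)^2 ∈ Complex.slitPlane := by
  have hp := D.hp
  set y := D.Pc (-c) x with hy
  have h1 : ‖y.1 + c‖ = |x.2| := by
    have := D.Pc_norm (-c) x
    push_cast at this
    rwa [sub_neg_eq_add] at this
  have h2 := D.two_c hc y.1
  have h3 : 0 < ‖y.1 - c‖ := by linarith
  have h4 : y.1 - c ≠ 0 := norm_pos_iff.1 h3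
  refine ⟨h4, ?_⟩
  have e : Om c y / (y.1 - c)^2 = 1 + (y.2 - y.1^2) / (y.1 - c)^2 := by
    rw [Om_expand]; field_simp
  rw [e]
  rcases lt_or_ge |x.2| (D.p/10) with h | h
  · apply Complex.mem_slitPlane_of_norm_lt_one
    have h5 : y.2 - y.1^2 = ((D.g x.2 - x.2^2 : ℝ) : ℂ) * cis (2 * x.1) := by
      rw [hy, D.Pc_snd, D.Pc_fst, cis_two_mul]; push_cast; ring
    rw [norm_div, norm_pow, h5, norm_mul, norm_cis, mul_one, Complex.norm_real,
      Real.norm_of_nonneg (by linarith [D.hgl x.2])]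
    have h6 := D.hgu x.2
    have h7 : 3/2 * D.p ≤ ‖y.1 - c‖ := by linarith
    rw [div_lt_one (by positivity)]
    have h8 : (3/2 * D.p)^2 ≤ ‖y.1 - c‖^2 := by gcongr
    have : 0 < D.p^2 := by positivity
    nlinarith
  · rw [D.Pc_exact h, ← hy]
    simp

/-- on the outer band -/
theorem outer_slit {c : ℝ} (hc : |c| = D.p) {x : ℝ × ℝ} (hx : |x.2| < D.r0) :
    cis (-(2 * x.1)) * Om c (D.P0 x) ∈ Complex.slitPlane := by
  have hp := D.hp
  have hp2 : 0 < D.p^2 := by positivity
  have hc2 : c^2 = D.p^2 := by rw [← sq_abs, hc]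
  obtain ⟨s, a⟩ := x
  simp only at hx ⊢
  set A := A0 a with hA
  set B := D.B0 a with hB
  have hgt := (D.P0_gt_iff (x := (s, a)) (le_of_lt hx)).2 hx
  have hnB : ‖(D.P0 (s, a)).2‖ = B := by
    rw [D.norm_P0_snd (x := (s, a)) (le_of_lt hx), hB, D.B0_eq]
  rw [hnB] at hgt
  have hcc : cis (-(2 * s)) * cis (2 * s) = 1 := cis_neg_mul _
  have hcc1 : cis (-(2 * s)) * cis s = cis (-s) := by rw [← cis_add]; congr 1; ring
  have hcc2 : cis (-(2 * s)) = cis (-s)^2 := by rw [← cis_two_mul]; congr 1; ring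
  have e : cis (-(2 * s)) * Om c (D.P0 (s, a)) = B - 2 * c * A * cis (-s) + c^2 * cis (-(2 * s)) := by
    rw [Om, D.P0_fst, D.P0_snd]
    simp only
    rw [← hA, ← hB]
    linear_combination (B : ℂ) * hcc - 2 * c * A * hcc1
  rcases le_or_gt B (9 * D.p^2) with h | h
  · -- exact
    have hBA : B = A^2 := by
      have h1 := D.P0_exact (x := (s, a)) (le_of_lt hx) (by rw [hnB]; exact h)
      rw [D.P0_fst, D.P0_snd, mul_pow, ← cis_two_mul] at h1
      simp only at h1
      have h2 := mul_right_cancel₀ (cis_ne_zero _) h1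
      exact_mod_cast h2
    have e2 : cis (-(2 * s)) * Om c (D.P0 (s, a)) = ((A : ℂ) - c * cis (-s))^2 := by
      rw [e, hBA, hcc2]; push_cast; ring
    rw [e2]
    set om := (A : ℂ) - c * cis (-s) with hom
    have hre : om.re = A - c * Real.cos s := by
      rw [hom, Complex.sub_re, Complex.re_ofReal_mul, cis_re, Complex.ofReal_re, Real.cos_neg]
    have hre0 : om.re ≠ 0 := by
      rw [hre]
      intro h0
      have h1 : A^2 = c^2 * Real.cos s^2 := by
        have : A = c * Real.cos s := by linarith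
        rw [this]; ring
      have h2 : Real.cos s^2 ≤ 1 := Real.cos_sq_le_one s
      rw [← hBA, hc2] at h1
      nlinarith
    rw [Complex.mem_slitPlane_iff]
    by_cases him : om.im = 0
    · left
      rw [pow_two, Complex.mul_re, him]
      have : 0 < om.re * om.re := mul_self_pos.2 hre0
      linarith
    · right
      rw [pow_two, Complex.mul_im]
      intro h0
      have : om.re * om.im = 0 := by linarith
      rcases mul_eq_zero.1 this with h1 | h1
      · exact hre0 h1
      · exact him h1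
  · -- upper part
    left
    rw [e]
    have hAB : A^2 ≤ B := by
      rw [hB, D.B0_eq, hA, A0]
      have := D.b_lower (-Real.cos a)
      have := Real.sin_sq_add_cos_sq a
      nlinarith
    have e3 : ((B : ℂ) - 2 * c * A * cis (-s) + c^2 * cis (-(2 * s))).re
        = B - 2 * c * A * Real.cos s + c^2 * Real.cos (2 * s) := by
      have e4 : (B : ℂ) - 2 * c * A * cis (-s) + c^2 * cis (-(2 * s))
          = ((B : ℝ) : ℂ) - ((2 * c * A : ℝ) : ℂ) * cis (-s)
            + ((c^2 : ℝ) : ℂ) * cis (-(2 * s)) := by push_cast; ring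
      rw [e4, Complex.add_re, Complex.sub_re, Complex.re_ofReal_mul, Complex.re_ofReal_mul,
        cis_re, cis_re, Complex.ofReal_re, Real.cos_neg, Real.cos_neg]
    rw [e3]
    have h5 : |c * A * Real.cos s| ≤ D.p * |A| := by
      rw [abs_mul, abs_mul, hc]
      have := Real.abs_cos_le_one s
      have h6 : 0 ≤ D.p * |A| := by positivity
      nlinarith
    have h6 := (abs_le.1 h5).2
    have h7 : -1 ≤ Real.cos (2 * s) := Real.neg_one_le_cos _
    have h8 : 6 * (D.p * |A|) ≤ 9 * D.p^2 + A^2 := by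
      have := sq_nonneg (3 * D.p - |A|)
      rw [← sq_abs A]; nlinarith
    rw [hc2]
    nlinarith

/-- the discriminant does not vanish on the surface -/
theorem Om_ne_zero {c : ℝ} (hc : |c| = D.p) {y : ℂ × ℂ} (hy : y ∈ D.M) : Om c y ≠ 0 := by
  rcases D.cover hc hy with h | h | h
  · obtain ⟨x, hx, rfl⟩ := (D.mem_W0_iff y).1 ⟨hy, h⟩
    intro h0
    have := D.outer_slit hc hx
    rw [h0, mul_zero] at this
    exact Complex.zero_notMem_slitPlane this
  · obtain ⟨x, hx, rfl⟩ := (D.mem_Wc_iff hc y).1 ⟨hy, h⟩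
    rw [Pc, Om_Ph]
    apply mul_ne_zero _ (cis_ne_zero _)
    exact_mod_cast (D.hgp _).ne'
  · have hc' : |-c| = D.p := by rw [abs_neg, hc]
    obtain ⟨x, hx, rfl⟩ := (D.mem_Wc_iff hc' y).1 ⟨hy, h⟩
    intro h0
    have := (D.other_slit hc hx).2
    rw [h0, zero_div] at this
    exact Complex.zero_notMem_slitPlane this

/-- double cover associated with one crosscap -/
def Ec (c : ℝ) : Set (D.M × ℂ) := {e | e.2^2 = Om c (e.1 : ℂ × ℂ)}

theorem Ec_double {c : ℝ} (hc : |c| = D.p) : DoubleRel (D.Ec c) :=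
  doubleRel_sq (f := fun y : D.M => Om c (y : ℂ × ℂ))
    ((Om_continuous c).comp continuous_subtype_val) (fun y => D.Om_ne_zero hc y.2)

noncomputable def χ1 (y : ℂ × ℂ) : ℝ := max 0 (‖y.2‖ - 2 * D.p^2)

noncomputable def χ2 (y : ℂ × ℂ) : ℝ := max 0 (4 * D.p^2 - ‖y.2‖)

theorem χ1_continuous : Continuous D.χ1 := by
  unfold χ1; exact continuous_const.max ((continuous_snd.norm).sub continuous_const)

theorem χ2_continuous : Continuous D.χ2 := by
  unfold χ2; exact continuous_const.max (continuous_const.sub (continuous_snd.norm))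

/-- double cover coming from the projective plane -/
def E0 : Set (D.M × (ℂ × ℝ)) := {e | e.2.1^2 = (D.χ1 e.1 : ℂ)^2 * (e.1 : ℂ × ℂ).2 ∧
  e.2.2^2 = D.χ2 e.1^2 ∧ e.2.1 * D.χ2 e.1 = e.2.2 * (D.χ1 e.1 * (e.1 : ℂ × ℂ).1)}

theorem χ1_exact {y : ℂ × ℂ} (hy : y ∈ D.M) (h : ‖y.2‖ < 9 * D.p^2) :
    (D.χ1 y : ℂ)^2 * y.2 = (D.χ1 y * y.1)^2 ∧ (2 * D.p^2 < ‖y.2‖ → 0 < D.χ1 y ∧ y.1 ≠ 0) := by
  have hp := D.hp
  have hp2 : 0 < D.p^2 := by positivity
  rcases le_or_gt ‖y.2‖ (2 * D.p^2) with h1 | h1
  · have : D.χ1 y = 0 := max_eq_left (by linarith)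
    rw [this]
    refine ⟨by simp, fun h2 => absurd h2 (not_lt.2 h1)⟩
  · have hW : y ∈ D.W0 := by
      change 36/25 * D.p^2 < ‖y.2‖
      linarith
    have he := D.exact_low hy hW h
    refine ⟨by rw [he]; ring, fun _ => ⟨lt_max_of_lt_right (by linarith), ?_⟩⟩
    intro h0
    rw [he, h0] at h1
    norm_num at h1
    linarith

theorem E0_double : DoubleRel D.E0 := by
  have hp := D.hp
  have hp2 : 0 < D.p^2 := by positivity
  intro x
  rcases lt_or_ge ‖(x : ℂ × ℂ).2‖ (9 * D.p^2) with h | h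
  · refine ⟨{y | ‖(y : ℂ × ℂ).2‖ < 9 * D.p^2}, ?_, h,
      fun y => ((D.χ1 y : ℂ) * (y : ℂ × ℂ).1, D.χ2 y), ?_, ?_⟩
    · exact isOpen_lt ((continuous_snd.comp continuous_subtype_val).norm) continuous_const
    · apply Continuous.continuousOn
      have h1 : Continuous (fun y : D.M => D.χ1 y) := D.χ1_continuous.comp continuous_subtype_val
      have h2 : Continuous (fun y : D.M => D.χ2 y) := D.χ2_continuous.comp continuous_subtype_val
      have h3 : Continuous (fun y : D.M => (y : ℂ × ℂ).1) := by fun_prop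
      exact ((Complex.continuous_ofReal.comp h1).mul h3).prodMk h2
    · intro y hy
      have hy' : ‖(y : ℂ × ℂ).2‖ < 9 * D.p^2 := hy
      obtain ⟨he, hne⟩ := D.χ1_exact y.2 hy'
      constructor
      · intro h0
        have h1 : (D.χ1 y : ℂ) * (y : ℂ × ℂ).1 = 0 := congrArg Prod.fst h0
        have h2 : D.χ2 y = 0 := congrArg Prod.snd h0
        have h3 : 4 * D.p^2 ≤ ‖(y : ℂ × ℂ).2‖ := by
          by_contra hc
          push Not at hc
          have : 0 < D.χ2 y := lt_max_of_lt_right (by linarith)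
          linarith
        obtain ⟨h4, h5⟩ := hne (by linarith)
        rcases mul_eq_zero.1 h1 with h6 | h6
        · have : D.χ1 y = 0 := by exact_mod_cast h6
          linarith
        · exact h5 h6
      · rintro ⟨u1, u2⟩
        change _ ↔ ((u1, u2) = ((D.χ1 y : ℂ) * (y : ℂ × ℂ).1, D.χ2 y) ∨
          (u1, u2) = (-((D.χ1 y : ℂ) * (y : ℂ × ℂ).1), -D.χ2 y))
        constructor
        · rintro ⟨h1, h2, h3⟩
          simp only at h1 h2 h3
          rw [he] at h1
          have h1' := sq_eq_sq_iff_eq_or_eq_neg.1 h1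
          have h2' := sq_eq_sq_iff_eq_or_eq_neg.1 h2
          by_cases hχ2 : D.χ2 y = 0
          · have hu2 : u2 = 0 := by rcases h2' with h | h <;> rw [h, hχ2] <;> simp
            rcases h1' with h | h
            · left; rw [h, hu2, hχ2]
            · right; rw [h, hu2, hχ2]; simp
          · by_cases hχ1 : (D.χ1 y : ℂ) * (y : ℂ × ℂ).1 = 0
            · have hu1 : u1 = 0 := by rcases h1' with h | h <;> rw [h, hχ1] <;> simp
              rcases h2' with h | h
              · left; rw [h, hu1, hχ1]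
              · right; rw [h, hu1, hχ1]; simp
            · rcases h2' with h | h
              · left
                rw [h] at h3 ⊢
                have hne2 : (D.χ2 y : ℂ) ≠ 0 := by exact_mod_cast hχ2
                have : u1 = (D.χ1 y : ℂ) * (y : ℂ × ℂ).1 := by
                  apply mul_right_cancel₀ hne2
                  rw [h3]; ring
                rw [this]
              · right
                rw [h] at h3 ⊢
                have hne2 : (D.χ2 y : ℂ) ≠ 0 := by exact_mod_cast hχ2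
                have : u1 = -((D.χ1 y : ℂ) * (y : ℂ × ℂ).1) := by
                  apply mul_right_cancel₀ hne2
                  rw [h3]; push_cast; ring
                rw [this]
        · rintro (h | h)
          · obtain ⟨rfl, rfl⟩ := Prod.mk.inj h
            refine ⟨he.symm, rfl, by simp only; ring⟩
          · have h' : (u1, u2) = (-((D.χ1 y : ℂ) * (y : ℂ × ℂ).1), -D.χ2 y) := h
            obtain ⟨rfl, rfl⟩ := Prod.mk.inj h'
            refine ⟨?_, ?_, ?_⟩
            · simp only; rw [neg_sq, he]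
            · simp only; rw [neg_sq]
            · simp only; push_cast; ring
  · have hx0 : (x : ℂ × ℂ).2 ≠ 0 := by
      intro h0; rw [h0, norm_zero] at h; linarith
    obtain ⟨W, hW, hxW, g, hg, hgW⟩ := local_sqrt (X := D.M) (f := fun y => (y : ℂ × ℂ).2)
      (continuous_snd.comp continuous_subtype_val) hx0
    refine ⟨W ∩ {y | 4 * D.p^2 < ‖(y : ℂ × ℂ).2‖}, hW.inter ?_, ⟨hxW, ?_⟩,
      fun y => ((D.χ1 y : ℂ) * g y, 0), ?_, ?_⟩
    · exact isOpen_lt continuous_const ((continuous_snd.comp continuous_subtype_val).norm)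
    · change 4 * D.p^2 < ‖(x : ℂ × ℂ).2‖
      linarith
    · have h1 : Continuous (fun y : D.M => D.χ1 y) := D.χ1_continuous.comp continuous_subtype_val
      exact (((Complex.continuous_ofReal.comp h1).continuousOn.mul
        (hg.mono inter_subset_left))).prodMk continuousOn_const
    · rintro y ⟨hyW, hy4⟩
      have hy4' : 4 * D.p^2 < ‖(y : ℂ × ℂ).2‖ := hy4
      obtain ⟨hgy, hne⟩ := hgW y hyW
      have hχ2 : D.χ2 y = 0 := max_eq_left (by linarith)
      have hχ1 : 0 < D.χ1 y := lt_max_of_lt_right (by linarith)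
      constructor
      · intro h0
        have h1 : (D.χ1 y : ℂ) * g y = 0 := congrArg Prod.fst h0
        rcases mul_eq_zero.1 h1 with h6 | h6
        · have : D.χ1 y = 0 := by exact_mod_cast h6
          linarith
        · rw [h6] at hgy
          apply hne
          rw [← hgy]; ring
      · rintro ⟨u1, u2⟩
        have he : (D.χ1 y : ℂ)^2 * (y : ℂ × ℂ).2 = ((D.χ1 y : ℂ) * g y)^2 := by
          rw [mul_pow, hgy]
        constructor
        · rintro ⟨h1, h2, h3⟩
          simp only at h1 h2 h3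
          rw [he] at h1
          rw [hχ2] at h2
          have hu2 : u2 = 0 := by
            have : u2^2 = 0 := by rw [h2]; ring
            exact pow_eq_zero_iff two_ne_zero |>.1 this
          rcases sq_eq_sq_iff_eq_or_eq_neg.1 h1 with h | h
          · left; rw [h, hu2]
          · right; rw [h, hu2]; simp
        · rintro (h | h)
          · obtain ⟨rfl, rfl⟩ := Prod.mk.inj h
            refine ⟨he.symm, by simp only; rw [hχ2], by simp only; rw [hχ2]; simp⟩
          · have h' : (u1, u2) = (-((D.χ1 y : ℂ) * g y), -0) := h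
            obtain ⟨rfl, rfl⟩ := Prod.mk.inj h'
            refine ⟨?_, ?_, ?_⟩
            · simp only; rw [neg_sq, he]
            · simp only; rw [hχ2]; simp
            · simp only; rw [hχ2]; simp

end N3D

end Pool.Agent.Helper331
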