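import Pool.Agent.Helper331.N3g

set_option autoImplicit false

open Set Filter Topology unitInterval
open scoped ContDiff

namespace Pool.Agent.Helper331

namespace N3D

variable (D : N3D)

theorem exactR1 {c : ℝ} (hc : |c| = D.p) {z : ℂ} (hz : z ∈ R1 D.p c) :
    (z, z^2) ∈ D.M ∧ (z, z^2) ∈ D.W0 ∧ (z, z^2) ∈ D.Wc c := by
  have hp := D.hp
  have h1 := D.norm_le_of_near hc hz.2.le
  obtain ⟨x, hx, hx2, -⟩ := D.exact0 hz.1.le (by linarith)
  refine ⟨Or.inl ⟨x, hx, hx2⟩, ?_, ?_, hz.2⟩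
  · change 36/25 * D.p^2 < ‖z^2‖
    rw [norm_pow]
    have := hz.1
    nlinarith
  · simp only
    rw [norm_pow]
    have := norm_nonneg z
    nlinarith

theorem exactR2 {z : ℂ} (hz : z ∈ R2 D.p) :
    (z, z^2) ∈ D.M ∧ (z, z^2) ∈ D.Wc D.p ∧ (z, z^2) ∈ D.Wc (-D.p) := by
  have hp := D.hp
  have h1 := D.norm_le_of_near D.hcp hz.1.le
  have h2 := D.two_c D.hcp z
  have h3 := hz.1
  have h4 := hz.2
  have h5 : ‖z^2‖ < 9 * D.p^2 := by
    rw [norm_pow]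
    have := norm_nonneg z
    nlinarith
  refine ⟨?_, ⟨h5, hz.1⟩, ⟨h5, ?_⟩⟩
  · rw [← D.exactc (c := D.p) (z := z) (by linarith)]
    apply D.Pc_mem D.hcp
    simp only
    rw [abs_of_nonneg (norm_nonneg _)]; exact h3.le
  · push_cast
    rw [sub_neg_eq_add]; exact h4

theorem z0_R1 {c : ℝ} (hc : |c| = D.p) : D.z0 ∈ R1 D.p c := by
  have hp := D.hp
  refine ⟨?_, D.norm_z0_sub_lt hc⟩
  rw [D.norm_z0]; linarith

theorem z0_R2 : D.z0 ∈ R2 D.p := by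
  refine ⟨D.norm_z0_sub_lt D.hcp, ?_⟩
  have := D.norm_z0_sub_lt D.hcn
  push_cast at this
  rwa [sub_neg_eq_add] at this

/-- base point -/
noncomputable def xb : D.M := ⟨(D.z0, D.z0^2), (D.exactR1 D.hcp (D.z0_R1 D.hcp)).1⟩

theorem path_of {R : Set ℂ} (hR : ∀ z ∈ R, (z, z^2) ∈ D.M) {z w : ℂ} (h : JoinedIn R z w)
    {x y : D.M} (hx : (x : ℂ × ℂ) = (z, z^2)) (hy : (y : ℂ × ℂ) = (w, w^2)) :
    ∃ p : Path x y, ∀ t, ∃ v ∈ R, (p t : ℂ × ℂ) = (v, v^2) := by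
  obtain ⟨γ, hγ⟩ := h
  refine ⟨{ toFun := fun t => ⟨(γ t, (γ t)^2), hR _ (hγ t)⟩
            continuous_toFun := ?_
            source' := ?_
            target' := ?_ }, fun t => ⟨γ t, hγ t, rfl⟩⟩
  · apply Continuous.subtype_mk
    exact γ.continuous.prodMk (γ.continuous.pow 2)
  · apply Subtype.ext
    simp only [γ.source, hx]
  · apply Subtype.ext
    simp only [γ.target, hy]

theorem overlap1 {c : ℝ} (hc : |c| = D.p) (y : D.M)
    (hy : y ∈ {y : D.M | (y : ℂ × ℂ) ∈ D.W0} ∩ {y : D.M | (y : ℂ × ℂ) ∈ D.Wc c}) :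
    ∃ p : Path D.xb y, ∀ t, p t ∈ {y : D.M | (y : ℂ × ℂ) ∈ D.W0} ∩
      {y : D.M | (y : ℂ × ℂ) ∈ D.Wc c} := by
  have hp := D.hp
  have h0 : (y : ℂ × ℂ) ∈ D.W0 := hy.1
  have h1 : (y : ℂ × ℂ) ∈ D.Wc c := hy.2
  have he := D.exact_low y.2 h0 h1.1
  have hR : (y : ℂ × ℂ).1 ∈ R1 D.p c := by
    refine ⟨?_, h1.2⟩
    have h2 : 36/25 * D.p^2 < ‖(y : ℂ × ℂ).2‖ := h0
    rw [he, norm_pow] at h2
    apply lt_of_pow_lt_pow_left₀ 2 (norm_nonneg _)
    nlinarith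
  have hj := R1_joined hp hc (D.z0_R1 hc) hR
  obtain ⟨p, hpp⟩ := D.path_of (fun z hz => (D.exactR1 hc hz).1) hj (x := D.xb) (y := y) rfl
    (Prod.ext rfl he)
  refine ⟨p, fun t => ?_⟩
  obtain ⟨v, hv, hvp⟩ := hpp t
  constructor
  · change (p t : ℂ × ℂ) ∈ D.W0
    rw [hvp]; exact (D.exactR1 hc hv).2.1
  · change (p t : ℂ × ℂ) ∈ D.Wc c
    rw [hvp]; exact (D.exactR1 hc hv).2.2

theorem overlap2 (y : D.M)
    (hy : y ∈ {y : D.M | (y : ℂ × ℂ) ∈ D.Wc D.p} ∩ {y : D.M | (y : ℂ × ℂ) ∈ D.Wc (-D.p)}) :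
    ∃ p : Path D.xb y, ∀ t, p t ∈ {y : D.M | (y : ℂ × ℂ) ∈ D.Wc D.p} ∩
      {y : D.M | (y : ℂ × ℂ) ∈ D.Wc (-D.p)} := by
  have hp := D.hp
  have h0 : (y : ℂ × ℂ) ∈ D.Wc D.p := hy.1
  have h1 : (y : ℂ × ℂ) ∈ D.Wc (-D.p) := hy.2
  have hR : (y : ℂ × ℂ).1 ∈ R2 D.p := by
    refine ⟨h0.2, ?_⟩
    have := h1.2
    push_cast at this
    rwa [sub_neg_eq_add] at this
  have he : (y : ℂ × ℂ).2 = (y : ℂ × ℂ).1^2 := by
    obtain ⟨x, hx, hxy⟩ := (D.mem_Wc_iff D.hcp _).1 ⟨y.2, h0⟩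
    have h2 := D.two_c D.hcp (y : ℂ × ℂ).1
    have h3 := hR.2
    have h4 := D.Pc_norm D.p x
    rw [hxy] at h4
    have h5 : D.p/10 ≤ |x.2| := by linarith
    have h6 := D.Pc_exact (c := D.p) h5
    rw [hxy] at h6
    exact h6
  have hj := R2_joined D.z0_R2 hR
  obtain ⟨p, hpp⟩ := D.path_of (fun z hz => (D.exactR2 hz).1) hj (x := D.xb) (y := y) rfl
    (Prod.ext rfl he)
  refine ⟨p, fun t => ?_⟩
  obtain ⟨v, hv, hvp⟩ := hpp t
  constructor
  · change (p t : ℂ × ℂ) ∈ D.Wc D.p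
    rw [hvp]; exact (D.exactR2 hv).2.1
  · change (p t : ℂ × ℂ) ∈ D.Wc (-D.p)
    rw [hvp]; exact (D.exactR2 hv).2.2

theorem hM0 : ∀ x : ℝ × ℝ, |x.2| < D.r0 → Ph 0 A0 D.B0 x ∈ D.M := fun _ hx =>
  D.P0_mem (le_of_lt hx)

theorem hMc {c : ℝ} (hc : |c| = D.p) : ∀ x : ℝ × ℝ, |x.2| < 9/5 * D.p →
    Ph c (fun a => a) D.g x ∈ D.M := fun _ hx => D.Pc_mem hc (le_of_lt hx)

/-- outer band -/
noncomputable def b0 : St D.r0 → D.M := bm 0 A0 D.B0 D.r0 D.M D.hM0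

/-- crosscap band -/
noncomputable def bc {c : ℝ} (hc : |c| = D.p) : St (9/5 * D.p) → D.M :=
  bm c (fun a => a) D.g (9/5 * D.p) D.M (D.hMc hc)

theorem b0_continuous : Continuous D.b0 := bm_continuous D.prof0 D.hM0

theorem bc_continuous {c : ℝ} (hc : |c| = D.p) : Continuous (D.bc hc) :=
  bm_continuous D.profc (D.hMc hc)

theorem b0_tau (s : St D.r0) : D.b0 (tau _ s) = D.b0 s := bm_tau D.prof0 D.hM0 s

theorem bc_tau {c : ℝ} (hc : |c| = D.p) (s : St (9/5 * D.p)) : D.bc hc (tau _ s) = D.bc hc s :=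
  bm_tau D.profc (D.hMc hc) s

theorem exists_s0 : ∃ s : St D.r0, D.b0 s = D.xb := by
  have hp := D.hp
  obtain ⟨x, h1, h2, h3⟩ := D.exact0 (z := D.z0) (by rw [norm_z0]; linarith)
    (by rw [norm_z0]; linarith)
  exact ⟨⟨x, h3 (by rw [norm_z0]; linarith)⟩, Subtype.ext h2⟩

theorem exists_sc {c : ℝ} (hc : |c| = D.p) : ∃ s : St (9/5 * D.p), D.bc hc s = D.xb := by
  refine ⟨⟨(Complex.arg (D.z0 - c), ‖D.z0 - c‖), ?_⟩, Subtype.ext (D.exactc (D.norm_z0_sub_gt hc))⟩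
  change |‖D.z0 - c‖| < _
  rw [abs_of_nonneg (norm_nonneg _)]
  exact D.norm_z0_sub_lt hc

theorem M_pathConnected : PathConnectedSpace D.M := by
  have h0 : PathConnectedSpace (St D.r0) := by
    have := St_simply D.r0_pos; infer_instance
  have h1 : PathConnectedSpace (St (9/5 * D.p)) := by
    have := St_simply D.profc.rho_pos; infer_instance
  have key : ∀ y : D.M, Joined D.xb y := by
    intro y
    rcases D.cover D.hcp y.2 with h | h | h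
    · obtain ⟨x, hx, hxy⟩ := (D.mem_W0_iff _).1 ⟨y.2, h⟩
      obtain ⟨s, hs⟩ := D.exists_s0
      have e : D.b0 ⟨x, hx⟩ = y := Subtype.ext hxy
      rw [← hs, ← e]
      exact ⟨(PathConnectedSpace.somePath s ⟨x, hx⟩).map D.b0_continuous⟩
    · obtain ⟨x, hx, hxy⟩ := (D.mem_Wc_iff D.hcp _).1 ⟨y.2, h⟩
      obtain ⟨s, hs⟩ := D.exists_sc D.hcp
      have e : D.bc D.hcp ⟨x, hx⟩ = y := Subtype.ext hxy
      rw [← hs, ← e]
      exact ⟨(PathConnectedSpace.somePath s ⟨x, hx⟩).map (D.bc_continuous D.hcp)⟩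
    · obtain ⟨x, hx, hxy⟩ := (D.mem_Wc_iff D.hcn _).1 ⟨y.2, h⟩
      obtain ⟨s, hs⟩ := D.exists_sc D.hcn
      have e : D.bc D.hcn ⟨x, hx⟩ = y := Subtype.ext hxy
      rw [← hs, ← e]
      exact ⟨(PathConnectedSpace.somePath s ⟨x, hx⟩).map (D.bc_continuous D.hcn)⟩
  exact { nonempty := ⟨D.xb⟩, joined := fun x y => (key x).symm.trans (key y) }

/-! ### lifts -/

/-- lift of the outer band to `Ec` -/
theorem lift_Ec_b0 {c : ℝ} (hc : |c| = D.p) : ∃ u : St D.r0 → ℂ, Continuous u ∧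
    (∀ s, (D.b0 s, u s) ∈ D.Ec c) ∧ ∀ s, u (tau _ s) = -u s := by
  refine ⟨fun x => cis x.1.1 * rt (cis (-(2 * x.1.1)) * Om c (D.P0 x.1)), ?_, ?_, ?_⟩
  · have h1 : Continuous (fun x : St D.r0 => cis x.1.1) := cis_continuous.comp (by fun_prop)
    have h2 : Continuous (fun x : St D.r0 => cis (-(2 * x.1.1)) * Om c (D.P0 x.1)) :=
      (cis_continuous.comp (by fun_prop)).mul
        ((Om_continuous c).comp (D.P0_continuous.comp continuous_subtype_val))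
    apply h1.mul
    rw [continuous_iff_continuousAt]
    intro x
    exact (rt_continuousAt (D.outer_slit hc x.2)).comp
      (f := fun x : St D.r0 => cis (-(2 * x.1.1)) * Om c (D.P0 x.1)) h2.continuousAt
  · intro x
    change (cis x.1.1 * rt (cis (-(2 * x.1.1)) * Om c (D.P0 x.1)))^2 = Om c (D.P0 x.1)
    rw [mul_pow, rt_sq, ← cis_two_mul, ← mul_assoc, mul_comm (cis (2 * x.1.1)), cis_neg_mul, one_mul]
  · intro x
    have h1 : D.P0 (tau _ x).1 = D.P0 x.1 := D.prof0.flip x.1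
    have h2 : (tau _ x).1.1 = x.1.1 + Real.pi := rfl
    simp only
    rw [h1, h2, cis_add_pi]
    have h3 : cis (-(2 * (x.1.1 + Real.pi))) = cis (-(2 * x.1.1)) := by
      have e : -(2 * x.1.1) = -(2 * (x.1.1 + Real.pi)) + Real.pi + Real.pi := by ring
      rw [e, cis_add_pi, cis_add_pi, neg_neg]
    rw [h3]; ring

theorem lift_Ec_bc {c : ℝ} (hc : |c| = D.p) : ∃ u : St (9/5 * D.p) → ℂ, Continuous u ∧
    (∀ s, (D.bc hc s, u s) ∈ D.Ec c) ∧ ∀ s, u (tau _ s) = -u s := by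
  refine ⟨fun x => (Real.sqrt (D.g x.1.2) : ℂ) * cis x.1.1, ?_, ?_, ?_⟩
  · have h1 : Continuous (fun x : St (9/5 * D.p) => cis x.1.1) := cis_continuous.comp (by fun_prop)
    have h2 : Continuous (fun x : St (9/5 * D.p) => (Real.sqrt (D.g x.1.2) : ℂ)) := by
      apply Complex.continuous_ofReal.comp
      apply Real.continuous_sqrt.comp
      exact D.hgs.continuous.comp (by fun_prop)
    exact h2.mul h1
  · intro x
    change ((Real.sqrt (D.g x.1.2) : ℂ) * cis x.1.1)^2 = Om c (Ph c (fun a => a) D.g x.1)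
    rw [Om_Ph, mul_pow, ← cis_two_mul]
    congr 1
    have := Real.sq_sqrt (D.hgp x.1.2).le
    exact_mod_cast this
  · intro x
    have h2 : (tau _ x).1.1 = x.1.1 + Real.pi := rfl
    have h3 : (tau _ x).1.2 = -x.1.2 := rfl
    simp only
    rw [h2, h3, D.hge, cis_add_pi]
    ring

theorem lift_Ec_bother {c c' : ℝ} (hc : |c| = D.p) (hc' : |c'| = D.p) (hcc : c' = -c) :
    ∃ u : St (9/5 * D.p) → ℂ, Continuous u ∧
    (∀ s, (D.bc hc' s, u s) ∈ D.Ec c) ∧ ∀ s, u (tau _ s) = u s := by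
  subst hcc
  have hne := fun x : St (9/5 * D.p) => (D.other_slit hc x.2).1
  refine ⟨fun x => ((D.Pc (-c) x.1).1 - c) *
    rt (Om c (D.Pc (-c) x.1) / ((D.Pc (-c) x.1).1 - c)^2), ?_, ?_, ?_⟩
  · have h0 : Continuous (fun x : St (9/5 * D.p) => D.Pc (-c) x.1) :=
      (D.Pc_continuous _).comp continuous_subtype_val
    have h1 : Continuous (fun x : St (9/5 * D.p) => (D.Pc (-c) x.1).1 - c) :=
      (continuous_fst.comp h0).sub continuous_const
    have h2 : Continuous (fun x : St (9/5 * D.p) =>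
        Om c (D.Pc (-c) x.1) / ((D.Pc (-c) x.1).1 - c)^2) := by
      apply ((Om_continuous c).comp h0).div (h1.pow 2)
      intro x
      exact pow_ne_zero 2 (hne x)
    apply h1.mul
    rw [continuous_iff_continuousAt]
    intro x
    exact (rt_continuousAt (D.other_slit hc x.2).2).comp
      (f := fun x : St (9/5 * D.p) => Om c (D.Pc (-c) x.1) / ((D.Pc (-c) x.1).1 - c)^2)
      h2.continuousAt
  · intro x
    change (((D.Pc (-c) x.1).1 - c) * rt (Om c (D.Pc (-c) x.1) / ((D.Pc (-c) x.1).1 - c)^2))^2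
      = Om c (D.Pc (-c) x.1)
    rw [mul_pow, rt_sq]
    have := hne x
    field_simp
  · intro x
    have h1 : D.Pc (-c) (tau _ x).1 = D.Pc (-c) x.1 := D.profc.flip x.1
    simp only
    rw [h1]

theorem lift_E0_bc {c : ℝ} (hc : |c| = D.p) :
    ∃ u : St (9/5 * D.p) → ℂ × ℝ, Continuous u ∧
    (∀ s, (D.bc hc s, u s) ∈ D.E0) ∧ ∀ s, u (tau _ s) = u s := by
  refine ⟨fun x => ((D.χ1 (D.Pc c x.1) : ℂ) * (D.Pc c x.1).1, D.χ2 (D.Pc c x.1)), ?_, ?_, ?_⟩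
  · have h0 : Continuous (fun x : St (9/5 * D.p) => D.Pc c x.1) :=
      (D.Pc_continuous _).comp continuous_subtype_val
    exact ((Complex.continuous_ofReal.comp (D.χ1_continuous.comp h0)).mul
      (continuous_fst.comp h0)).prodMk (D.χ2_continuous.comp h0)
  · intro x
    have hW := ((D.mem_Wc_iff hc (D.Pc c x.1)).2 ⟨x.1, x.2, rfl⟩)
    have he := (D.χ1_exact hW.1 hW.2.1).1
    refine ⟨he.symm, rfl, ?_⟩
    change (D.χ1 (D.Pc c x.1) : ℂ) * (D.Pc c x.1).1 * (D.χ2 (D.Pc c x.1) : ℂ)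
      = (D.χ2 (D.Pc c x.1) : ℂ) * ((D.χ1 (D.Pc c x.1) : ℂ) * (D.Pc c x.1).1)
    ring
  · intro x
    have h1 : D.Pc c (tau _ x).1 = D.Pc c x.1 := D.profc.flip x.1
    simp only
    rw [h1]

theorem lift_E0_b0 : ∃ u : St D.r0 → ℂ × ℝ, Continuous u ∧
    (∀ s, (D.b0 s, u s) ∈ D.E0) ∧ ∀ s, u (tau _ s) = -u s := by
  have hBpos : ∀ x : St D.r0, 0 < D.B0 x.1.2 := fun x => D.prof0.pos _ (le_of_lt x.2)
  refine ⟨fun x => (((D.χ1 (D.P0 x.1) * Real.sqrt (D.B0 x.1.2) : ℝ) : ℂ) * cis x.1.1,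
    D.χ2 (D.P0 x.1) * (A0 x.1.2 / Real.sqrt (D.B0 x.1.2))), ?_, ?_, ?_⟩
  · have h0 : Continuous (fun x : St D.r0 => D.P0 x.1) :=
      D.P0_continuous.comp continuous_subtype_val
    have hs : Continuous (fun x : St D.r0 => x.1.2) := by fun_prop
    have h1 : Continuous (fun x : St D.r0 => Real.sqrt (D.B0 x.1.2)) :=
      Real.continuous_sqrt.comp (D.prof0.hB.continuous.comp hs)
    have h2 : Continuous (fun x : St D.r0 => A0 x.1.2) := D.prof0.hA.continuous.comp hs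
    have h3 : Continuous (fun x : St D.r0 => cis x.1.1) := cis_continuous.comp (by fun_prop)
    refine Continuous.prodMk ((Complex.continuous_ofReal.comp
      ((D.χ1_continuous.comp h0).mul h1)).mul h3) ((D.χ2_continuous.comp h0).mul (h2.div h1 ?_))
    intro x
    exact (Real.sqrt_pos.2 (hBpos x)).ne'
  · intro x
    set B := D.B0 x.1.2 with hB
    set A := A0 x.1.2 with hA
    have hsB : 0 < Real.sqrt B := Real.sqrt_pos.2 (hBpos x)
    have hsq : Real.sqrt B ^ 2 = B := Real.sq_sqrt (hBpos x).le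
    have hAB : D.χ2 (D.P0 x.1) ≠ 0 → A^2 = B := by
      intro hne
      have hp2 : 0 < D.p^2 := pow_pos D.hp 2
      have hn : ‖(D.P0 x.1).2‖ < 4 * D.p^2 := by
        by_contra h
        push Not at h
        exact hne (max_eq_left (by linarith))
      have h1 := D.P0_exact (le_of_lt x.2) (by linarith)
      rw [D.P0_fst, D.P0_snd, mul_pow, ← cis_two_mul] at h1
      have h2 := mul_right_cancel₀ (cis_ne_zero _) h1
      have h3 : B = A^2 := by exact_mod_cast h2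
      exact h3.symm
    have hP1 : ((D.b0 x : ℂ × ℂ)).1 = A * cis x.1.1 := D.P0_fst x.1
    have hP2 : ((D.b0 x : ℂ × ℂ)).2 = B * cis (2 * x.1.1) := D.P0_snd x.1
    have hbP : ((D.b0 x : ℂ × ℂ)) = D.P0 x.1 := rfl
    refine ⟨?_, ?_, ?_⟩
    · change (((D.χ1 (D.P0 x.1) * Real.sqrt B : ℝ) : ℂ) * cis x.1.1)^2
        = (D.χ1 (D.P0 x.1) : ℂ)^2 * (D.b0 x : ℂ × ℂ).2
      rw [hP2, mul_pow, ← cis_two_mul, ← mul_assoc]
      congr 1
      have : (D.χ1 (D.P0 x.1) * Real.sqrt B)^2 = D.χ1 (D.P0 x.1)^2 * B := by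
        rw [mul_pow, hsq]
      exact_mod_cast this
    · change (D.χ2 (D.P0 x.1) * (A / Real.sqrt B))^2 = D.χ2 (D.P0 x.1)^2
      by_cases h : D.χ2 (D.P0 x.1) = 0
      · rw [h]; ring
      · rw [mul_pow, div_pow, hsq, hAB h, div_self (hBpos x).ne', mul_one]
    · change ((D.χ1 (D.P0 x.1) * Real.sqrt B : ℝ) : ℂ) * cis x.1.1 * (D.χ2 (D.P0 x.1) : ℂ)
        = ((D.χ2 (D.P0 x.1) * (A / Real.sqrt B) : ℝ) : ℂ) *
          ((D.χ1 (D.P0 x.1) : ℂ) * (D.b0 x : ℂ × ℂ).1)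
      rw [hP1]
      by_cases h : D.χ2 (D.P0 x.1) = 0
      · rw [h]; simp
      · have h5 : A / Real.sqrt B * A = Real.sqrt B := by
          rw [div_mul_eq_mul_div, div_eq_iff hsB.ne', ← pow_two, ← pow_two, hsq]
          exact hAB h
        have h6 : (((A / Real.sqrt B * A : ℝ)) : ℂ) = ((Real.sqrt B : ℝ) : ℂ) := by rw [h5]
        push_cast at h6 ⊢
        linear_combination (-(D.χ2 (D.P0 x.1) : ℂ) * (D.χ1 (D.P0 x.1) : ℂ) * cis x.1.1) * h6
  · intro x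
    have h1 : D.P0 (tau _ x).1 = D.P0 x.1 := D.prof0.flip x.1
    have h2 : (tau _ x).1.1 = x.1.1 + Real.pi := rfl
    have h3 : (tau _ x).1.2 = -x.1.2 := rfl
    simp only
    rw [h1, h2, h3, cis_add_pi, D.prof0.even, D.prof0.odd]
    apply Prod.ext
    · simp
    · simp [neg_div]

/-- the fundamental group has exactly eight homomorphisms to the group with two elements -/
theorem card_hom : Nat.card (FundamentalGroup D.M D.xb →* Multiplicative (ZMod 2)) = 2^3 := by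
  have hpc := D.M_pathConnected
  have i0 := St_simply D.r0_pos
  have i1 := St_simply D.profc.rho_pos
  obtain ⟨s0, hs0⟩ := D.exists_s0
  obtain ⟨s1, hs1⟩ := D.exists_sc D.hcp
  obtain ⟨s2, hs2⟩ := D.exists_sc D.hcn
  have hs0' : D.b0 (tau _ s0) = D.xb := by rw [D.b0_tau, hs0]
  have hs1' : D.bc D.hcp (tau _ s1) = D.xb := by rw [D.bc_tau, hs1]
  have hs2' : D.bc D.hcn (tau _ s2) = D.xb := by rw [D.bc_tau, hs2]
  set q0 := PathConnectedSpace.somePath s0 (tau _ s0) with hq0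
  set q1 := PathConnectedSpace.somePath s1 (tau _ s1) with hq1
  set q2 := PathConnectedSpace.somePath s2 (tau _ s2) with hq2
  set l0 : Path D.xb D.xb := (q0.map D.b0_continuous).cast hs0.symm hs0'.symm with hl0
  set l1 : Path D.xb D.xb := (q1.map (D.bc_continuous D.hcp)).cast hs1.symm hs1'.symm with hl1
  set l2 : Path D.xb D.xb := (q2.map (D.bc_continuous D.hcn)).cast hs2.symm hs2'.symm with hl2
  obtain ⟨α0, hα0⟩ := D.E0_double.exists_hom D.xb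
  obtain ⟨α1, hα1⟩ := (D.Ec_double D.hcp).exists_hom D.xb
  obtain ⟨α2, hα2⟩ := (D.Ec_double D.hcn).exists_hom D.xb
  refine card_hom_eq (FundamentalGroup.fromPath (Path.Homotopic.Quotient.mk l0))
    (FundamentalGroup.fromPath (Path.Homotopic.Quotient.mk l1))
    (FundamentalGroup.fromPath (Path.Homotopic.Quotient.mk l2)) ?_ α0 α1 α2 ?_ ?_ ?_ ?_ ?_ ?_ ?_ ?_ ?_
  · intro α h0 h1 h2
    apply hom_eq_one
    intro l
    set w := wtOfHom D.xb α with hw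
    have e0 : w.w (q0.map D.b0_continuous) = 1 := by
      rw [← w.cast (q0.map D.b0_continuous) hs0.symm hs0'.symm, ← hl0, hw, wtOfHom_loop, h0]
    have e1 : w.w (q1.map (D.bc_continuous D.hcp)) = 1 := by
      rw [← w.cast (q1.map (D.bc_continuous D.hcp)) hs1.symm hs1'.symm, ← hl1, hw, wtOfHom_loop, h1]
    have e2 : w.w (q2.map (D.bc_continuous D.hcn)) = 1 := by
      rw [← w.cast (q2.map (D.bc_continuous D.hcn)) hs2.symm hs2'.symm, ← hl2, hw, wtOfHom_loop, h2]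
    obtain ⟨f0, hf0⟩ := band_pot (c := 0) D.prof0 D.W0_open D.mem_W0_iff D.hM0 w s0 q0 e0
    obtain ⟨f1, hf1⟩ := band_pot (c := D.p) D.profc (D.Wc_open D.p) (D.mem_Wc_iff D.hcp)
      (D.hMc D.hcp) w s1 q1 e1
    obtain ⟨f2, hf2⟩ := band_pot (c := -D.p) D.profc (D.Wc_open (-D.p)) (D.mem_Wc_iff D.hcn)
      (D.hMc D.hcn) w s2 q2 e2
    exact w.three_potentials (U0 := {y : D.M | (y : ℂ × ℂ) ∈ D.W0})
      (U1 := {y : D.M | (y : ℂ × ℂ) ∈ D.Wc D.p}) (U2 := {y : D.M | (y : ℂ × ℂ) ∈ D.Wc (-D.p)})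
      (D.W0_open.preimage continuous_subtype_val) ((D.Wc_open _).preimage continuous_subtype_val)
      ((D.Wc_open _).preimage continuous_subtype_val)
      (fun y => D.cover D.hcp y.2) f0 f1 f2 hf0 hf1 hf2
      (D.overlap1 D.hcp) (D.overlap1 D.hcn) D.overlap2 l
  · obtain ⟨u, hu, hE, hf⟩ := D.lift_E0_b0
    exact (loop_eval hα0 D.b0_continuous q0 hs0.symm hs0'.symm hu hE).2 (hf s0)
  · obtain ⟨u, hu, hE, hf⟩ := D.lift_E0_bc D.hcp
    exact (loop_eval hα0 (D.bc_continuous D.hcp) q1 hs1.symm hs1'.symm hu hE).1 (hf s1)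
  · obtain ⟨u, hu, hE, hf⟩ := D.lift_E0_bc D.hcn
    exact (loop_eval hα0 (D.bc_continuous D.hcn) q2 hs2.symm hs2'.symm hu hE).1 (hf s2)
  · obtain ⟨u, hu, hE, hf⟩ := D.lift_Ec_b0 D.hcp
    exact (loop_eval hα1 D.b0_continuous q0 hs0.symm hs0'.symm hu hE).2 (hf s0)
  · obtain ⟨u, hu, hE, hf⟩ := D.lift_Ec_bc D.hcp
    exact (loop_eval hα1 (D.bc_continuous D.hcp) q1 hs1.symm hs1'.symm hu hE).2 (hf s1)
  · obtain ⟨u, hu, hE, hf⟩ := D.lift_Ec_bother D.hcp D.hcn rfl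
    exact (loop_eval hα1 (D.bc_continuous D.hcn) q2 hs2.symm hs2'.symm hu hE).1 (hf s2)
  · obtain ⟨u, hu, hE, hf⟩ := D.lift_Ec_b0 D.hcn
    exact (loop_eval hα2 D.b0_continuous q0 hs0.symm hs0'.symm hu hE).2 (hf s0)
  · obtain ⟨u, hu, hE, hf⟩ := D.lift_Ec_bother D.hcn D.hcp (neg_neg _).symm
    exact (loop_eval hα2 (D.bc_continuous D.hcp) q1 hs1.symm hs1'.symm hu hE).1 (hf s1)
  · obtain ⟨u, hu, hE, hf⟩ := D.lift_Ec_bc D.hcn
    exact (loop_eval hα2 (D.bc_continuous D.hcn) q2 hs2.symm hs2'.symm hu hE).2 (hf s2)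

end N3D

end Pool.Agent.Helper331
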