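import Mathlib

set_option autoImplicit false

open Set Filter Topology unitInterval

namespace Pool.Agent.Helper331

/-- A homotopy invariant multiplicative weight on paths. -/
structure Wt (X A : Type*) [TopologicalSpace X] [CommGroup A] where
  w : ∀ {a b : X}, Path a b → A
  homot : ∀ {a b : X} (p q : Path a b), p.Homotopic q → w p = w q
  trans : ∀ {a b c : X} (p : Path a b) (q : Path b c), w (p.trans q) = w p * w q

namespace Wt

variable {X A : Type*} [TopologicalSpace X] [CommGroup A] (W : Wt X A)

theorem refl (a : X) : W.w (Path.refl a) = 1 := by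
  have h1 := W.trans (Path.refl a) (Path.refl a)
  rw [Path.refl_trans_refl] at h1
  simpa using h1.symm

theorem cast {a b a' b' : X} (p : Path a b) (ha : a' = a) (hb : b' = b) :
    W.w (p.cast ha hb) = W.w p := by
  subst ha; subst hb; rfl

/-- A locally defined potential computes the weight of every path. -/
theorem of_local {U : Set X} {f : X → A}
    (hloc : ∀ y ∈ U, ∃ N ∈ 𝓝 y, ∀ (a b : X) (p : Path a b), (∀ t, p t ∈ N) →
      W.w p = (f a)⁻¹ * f b)
    {a b : X} (p : Path a b) (hp : ∀ t, p t ∈ U) : W.w p = (f a)⁻¹ * f b := by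
  set G : I → A := fun t => W.w (p.subpath 0 t) * (f (p t))⁻¹ with hG
  have hlc : IsLocallyConstant G := by
    rw [IsLocallyConstant.iff_eventually_eq]
    intro t0
    obtain ⟨N, hN, hNp⟩ := hloc (p t0) (hp t0)
    have hpre : p ⁻¹' N ∈ 𝓝 t0 := p.continuous.continuousAt.preimage_mem_nhds hN
    obtain ⟨ε, hε, hball⟩ := Metric.mem_nhds_iff.1 hpre
    filter_upwards [Metric.ball_mem_nhds t0 hε] with t ht
    have h1 : W.w (p.subpath t0 t) = (f (p t0))⁻¹ * f (p t) := by
      apply hNp
      intro r
      have : (p.subpath t0 t) r ∈ range (p.subpath t0 t) := ⟨r, rfl⟩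
      rw [Path.range_subpath] at this
      obtain ⟨r', hr', hr''⟩ := this
      rw [← hr'']
      apply hball
      rw [Metric.mem_ball] at ht ⊢
      refine lt_of_le_of_lt ?_ ht
      rw [Subtype.dist_eq, Subtype.dist_eq, Real.dist_eq, Real.dist_eq]
      rw [mem_uIcc] at hr'
      rcases hr' with ⟨h1, h2⟩ | ⟨h1, h2⟩
      · have h1' : (t0 : ℝ) ≤ r' := h1
        have h2' : (r' : ℝ) ≤ t := h2
        rw [abs_of_nonneg (by linarith), abs_of_nonneg (by linarith)]
        linarith
      · have h1' : (t : ℝ) ≤ r' := h1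
        have h2' : (r' : ℝ) ≤ t0 := h2
        rw [abs_of_nonpos (by linarith), abs_of_nonpos (by linarith)]
        linarith
    have h2 : W.w (p.subpath 0 t) = W.w (p.subpath 0 t0) * W.w (p.subpath t0 t) := by
      rw [← W.trans]
      exact (W.homot _ _ ⟨Path.Homotopy.subpathTransSubpath p 0 t0 t⟩).symm
    simp only [hG]
    rw [h2, h1]
    group
  have hconst : G 1 = G 0 := hlc.apply_eq_of_isPreconnected isPreconnected_univ trivial trivial
  simp only [hG] at hconst
  rw [Path.subpath_self, W.refl, Path.subpath_zero_one, W.cast, one_mul] at hconst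
  have e0 : p 0 = a := p.source
  have e1 : p 1 = b := p.target
  rw [e0, e1] at hconst
  rw [← hconst]; group

end Wt

end Pool.Agent.Helper331
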