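import Pool.Agent.Helper331.Pot1

set_option autoImplicit false

open Set Filter Topology unitInterval

namespace Pool.Agent.Helper331

namespace Wt

variable {X A : Type*} [TopologicalSpace X] [CommGroup A] (W : Wt X A)

/-- Potential on the image of a simply connected space under a map whose fibres are orbits of
an infinite cyclic group generated by `τ`. -/
theorem band_potential {S : Type*} [TopologicalSpace S] [SimplyConnectedSpace S]
    (Φ : S → X) (hΦ : Continuous Φ) (τ : S ≃ S) (hτc : Continuous τ)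
    (hτ : ∀ s, Φ (τ s) = Φ s) (hfib : ∀ s s', Φ s = Φ s' → ∃ n : ℤ, (τ ^ n) s = s')
    (hsec : ∀ y ∈ range Φ, ∃ N ∈ 𝓝 y, ∃ g : X → S, ContinuousOn g N ∧ ∀ y' ∈ N, Φ (g y') = y')
    (s0 : S) (l : Path s0 (τ s0)) (hl : W.w (l.map hΦ) = 1) :
    ∃ f : X → A, ∀ (a b : X) (p : Path a b), (∀ t, p t ∈ range Φ) → W.w p = (f a)⁻¹ * f b := by
  classical
  set F : S → A := fun s => W.w ((PathConnectedSpace.somePath s0 s).map hΦ) with hF
  have hFp : ∀ (s s' : S) (q : Path s s'), W.w (q.map hΦ) = (F s)⁻¹ * F s' := by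
    intro s s' q
    have h1 : ((PathConnectedSpace.somePath s0 s).trans q).Homotopic
        (PathConnectedSpace.somePath s0 s') := SimplyConnectedSpace.paths_homotopic _ _
    have h2 : F s' = W.w (((PathConnectedSpace.somePath s0 s).trans q).map hΦ) :=
      (W.homot _ _ (h1.map ⟨Φ, hΦ⟩)).symm
    rw [h2, Path.map_trans, W.trans]
    simp only [hF]; group
  have hG : ∀ s, F (τ s) = F s := by
    intro s
    have h0 : (F s0)⁻¹ * F (τ s0) = 1 := by rw [← hFp _ _ l]; exact hl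
    set q := PathConnectedSpace.somePath s0 s with hq
    have h1 : W.w ((q.map hτc).map hΦ) = W.w (q.map hΦ) := by
      have e : ((q.map hτc).map hΦ) = (q.map hΦ).cast (hτ s0) (hτ s) := by
        ext t
        simp [hτ]
      rw [e, W.cast]
    rw [hFp, hFp] at h1
    have h3 : F (τ s0) = F s0 := by
      have := congrArg (fun x => F s0 * x) h0
      simpa using this
    rw [h3] at h1
    exact mul_left_cancel h1
  have hGn : ∀ (n : ℤ) (s : S), F ((τ ^ n) s) = F s := by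
    intro n
    induction n using Int.induction_on with
    | zero => intro s; simp
    | succ n ih =>
      intro s
      rw [zpow_add_one, Equiv.Perm.mul_apply, ih, hG]
    | pred n ih =>
      intro s
      rw [zpow_sub_one, Equiv.Perm.mul_apply, ih]
      have := hG (τ⁻¹ s)
      have h9 : τ (τ⁻¹ s) = s := τ.apply_symm_apply s
      rw [h9] at this
      exact this.symm
  refine ⟨fun y => if h : y ∈ range Φ then F h.choose else 1, ?_⟩
  have hf : ∀ s, (if h : Φ s ∈ range Φ then F h.choose else 1) = F s := by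
    intro s
    have h : Φ s ∈ range Φ := ⟨s, rfl⟩
    rw [dif_pos h]
    obtain ⟨n, hn⟩ := hfib s h.choose h.choose_spec.symm
    rw [← hn, hGn]
  intro a b p hp
  apply W.of_local (U := range Φ) (f := fun y => if h : y ∈ range Φ then F h.choose else 1) _ p hp
  intro y hy
  obtain ⟨N, hN, g, hg, hgΦ⟩ := hsec y hy
  refine ⟨N, hN, fun a b p hp => ?_⟩
  have hgp : Continuous (fun t => g (p t)) := hg.comp_continuous p.continuous hp
  set q : Path (g a) (g b) :=
    { toFun := fun t => g (p t)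
      continuous_toFun := hgp
      source' := by simp
      target' := by simp } with hq
  have ha : Φ (g a) = a := by
    have := hgΦ (p 0) (hp 0)
    simpa using this
  have hb : Φ (g b) = b := by
    have := hgΦ (p 1) (hp 1)
    simpa using this
  have e : p = (q.map hΦ).cast ha.symm hb.symm := by
    ext t
    simp [hq, hgΦ (p t) (hp t)]
  rw [e, W.cast, hFp, ← hf (g a), ← hf (g b)]
  simp only [ha, hb]

/-- Three sets with potentials and path connected overlaps. -/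
theorem three_potentials {U0 U1 U2 : Set X} (h0 : IsOpen U0) (h1 : IsOpen U1) (h2 : IsOpen U2)
    (hcov : ∀ y, y ∈ U0 ∨ y ∈ U1 ∨ y ∈ U2) {x0 : X}
    (f0 f1 f2 : X → A)
    (hf0 : ∀ (a b : X) (p : Path a b), (∀ t, p t ∈ U0) → W.w p = (f0 a)⁻¹ * f0 b)
    (hf1 : ∀ (a b : X) (p : Path a b), (∀ t, p t ∈ U1) → W.w p = (f1 a)⁻¹ * f1 b)
    (hf2 : ∀ (a b : X) (p : Path a b), (∀ t, p t ∈ U2) → W.w p = (f2 a)⁻¹ * f2 b)
    (h01 : ∀ y ∈ U0 ∩ U1, ∃ p : Path x0 y, ∀ t, p t ∈ U0 ∩ U1)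
    (h02 : ∀ y ∈ U0 ∩ U2, ∃ p : Path x0 y, ∀ t, p t ∈ U0 ∩ U2)
    (h12 : ∀ y ∈ U1 ∩ U2, ∃ p : Path x0 y, ∀ t, p t ∈ U1 ∩ U2)
    (l : Path x0 x0) : W.w l = 1 := by
  classical
  have e01 : ∀ y ∈ U0 ∩ U1, (f0 x0)⁻¹ * f0 y = (f1 x0)⁻¹ * f1 y := by
    intro y hy
    obtain ⟨p, hp⟩ := h01 y hy
    rw [← hf0 _ _ p fun t => (hp t).1, ← hf1 _ _ p fun t => (hp t).2]
  have e02 : ∀ y ∈ U0 ∩ U2, (f0 x0)⁻¹ * f0 y = (f2 x0)⁻¹ * f2 y := by
    intro y hy
    obtain ⟨p, hp⟩ := h02 y hy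
    rw [← hf0 _ _ p fun t => (hp t).1, ← hf2 _ _ p fun t => (hp t).2]
  have e12 : ∀ y ∈ U1 ∩ U2, (f1 x0)⁻¹ * f1 y = (f2 x0)⁻¹ * f2 y := by
    intro y hy
    obtain ⟨p, hp⟩ := h12 y hy
    rw [← hf1 _ _ p fun t => (hp t).1, ← hf2 _ _ p fun t => (hp t).2]
  set F : X → A := fun y => if y ∈ U0 then (f0 x0)⁻¹ * f0 y else
    if y ∈ U1 then (f1 x0)⁻¹ * f1 y else (f2 x0)⁻¹ * f2 y with hF
  have F0 : ∀ y ∈ U0, F y = (f0 x0)⁻¹ * f0 y := fun y hy => if_pos hy
  have F1 : ∀ y ∈ U1, F y = (f1 x0)⁻¹ * f1 y := by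
    intro y hy
    by_cases h : y ∈ U0
    · rw [F0 y h, e01 y ⟨h, hy⟩]
    · simp only [hF, if_neg h, if_pos hy]
  have F2 : ∀ y ∈ U2, F y = (f2 x0)⁻¹ * f2 y := by
    intro y hy
    by_cases h : y ∈ U0
    · rw [F0 y h, e02 y ⟨h, hy⟩]
    · by_cases h' : y ∈ U1
      · rw [F1 y h', e12 y ⟨h', hy⟩]
      · simp only [hF, if_neg h, if_neg h']
  have key := W.of_local (U := univ) (f := F) (p := l) ?_ (fun t => trivial)
  · rw [key]; simp
  · intro y _
    have hsplit : ∀ (U : Set X) (f : X → A), (∀ y ∈ U, F y = (f x0)⁻¹ * f y) →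
        (∀ (a b : X) (p : Path a b), (∀ t, p t ∈ U) → W.w p = (f a)⁻¹ * f b) →
        ∀ (a b : X) (p : Path a b), (∀ t, p t ∈ U) → W.w p = (F a)⁻¹ * F b := by
      intro U f hFU hfU a b p hp
      have ha : a ∈ U := by simpa using hp 0
      have hb : b ∈ U := by simpa using hp 1
      rw [hfU a b p hp, hFU a ha, hFU b hb]
      group
    rcases hcov y with h | h | h
    · exact ⟨U0, h0.mem_nhds h, hsplit U0 f0 F0 hf0⟩
    · exact ⟨U1, h1.mem_nhds h, hsplit U1 f1 F1 hf1⟩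
    · exact ⟨U2, h2.mem_nhds h, hsplit U2 f2 F2 hf2⟩

end Wt

end Pool.Agent.Helper331
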