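import Mathlib

set_option autoImplicit false

open Set Filter Topology
open scoped ContDiff

namespace Pool.Agent.Helper331.White

noncomputable section

/-- Euclidean three-space. -/
abbrev E3 := EuclideanSpace ℝ (Fin 3)

/-- The two scalar profile functions (with their first two derivatives) used for the surface. -/
structure Prof where
  A : ℝ → ℝ
  A1 : ℝ → ℝ
  A2 : ℝ → ℝ
  s : ℝ → ℝ
  s1 : ℝ → ℝ
  s2 : ℝ → ℝ
  A_smooth : ContDiff ℝ ∞ A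
  hA1 : ∀ t, HasDerivAt A (A1 t) t
  hA2 : ∀ t, HasDerivAt A1 (A2 t) t
  A_even : ∀ t, A (-t) = A t
  A_abs : ∀ t, 1 / 10 ≤ |t| → A t = |t|
  A2_pos : ∀ t, |t| < 1 / 10 → 0 < A2 t
  s_smooth : ContDiff ℝ ∞ s
  hs1 : ∀ z, HasDerivAt s (s1 z) z
  hs2 : ∀ z, HasDerivAt s1 (s2 z) z
  s_odd : ∀ z, s (-z) = - s z
  s_one : ∀ z, 1 / 2 ≤ z → s z = 1
  s_lt : ∀ z, |z| < 1 / 2 → |s z| < 1
  s1_pos : ∀ z, |z| < 1 / 2 → 0 < s1 z
  E1 : ∀ z T, |z| < 1 / 2 → 9 / 10 + z ≤ (1 + s z) * T / 2 →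
    0 ≤ 2 * s1 z * (s1 z * T - 2) - (1 + s z) * s2 z * T
  E2 : ∀ z T, |z| < 1 / 2 → 9 / 10 - z ≤ (1 - s z) * T / 2 →
    0 ≤ 2 * s1 z * (s1 z * T - 2) + (1 - s z) * s2 z * T
  reg : ∀ z T, |z| < 1 / 2 → 2 * z = s z * T → 18 / 10 ≤ T → T ≤ 2 → 2 < s1 z * T

namespace Prof

variable (P : Prof)

/-- the function whose nonnegativity cuts out the surface; its zero set is the boundary -/
def T (p : E3) : ℝ := 2 - P.A (p 0) - P.A (p 1)

/-- the equation of the surface -/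
def F (p : E3) : ℝ := P.s (p 2) * P.T p - 2 * p 2 + P.A (p 0) - P.A (p 1)

/-- the surface -/
def M : Set E3 := {p | P.F p = 0 ∧ 0 ≤ P.T p}

/-- its boundary curve -/
def C : Set E3 := {p | P.F p = 0 ∧ P.T p = 0}

end Prof

end

end Pool.Agent.Helper331.White
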