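import Pool.Agent.Helper331.WLem

/-! Written by helper223 (job 2176). -/

set_option autoImplicit false

open Set Filter Topology
open scoped ContDiff

namespace Pool.Agent.Helper331.White

noncomputable section

/-- the complex function used for the linking argument -/
def Prof.lkg (p : E3) : ℂ := ((p 1 : ℝ) : ℂ) + ((p 2 - 7 / 10 : ℝ) : ℂ) * Complex.I

/-- the reflection -/
def Prof.lkr (p : E3) : E3 := !₂[p 0, - p 1, p 2]

theorem Prof.lkg_cont : Continuous Prof.lkg := by
  unfold Prof.lkg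
  fun_prop

theorem Prof.lkr_cont : Continuous Prof.lkr := by
  unfold Prof.lkr
  fun_prop

theorem Prof.lkg_ne (P : Prof) {p : E3} (hp : p ∈ P.M) : Prof.lkg p ≠ 0 := by
  intro h
  have hre := congrArg Complex.re h
  have him := congrArg Complex.im h
  simp [Prof.lkg] at hre him
  have h2 : p 2 = 7 / 10 := by linarith
  have hF := hp.1
  unfold Prof.F Prof.T at hF
  rw [hre, h2, P.s_one (7 / 10) (by norm_num)] at hF
  have := P.A_zero_lt
  linarith

theorem Prof.lkr_mem (P : Prof) {p : E3} (hp : p ∈ P.M) : Prof.lkr p ∈ P.M := by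
  have h0 : Prof.lkr p 0 = p 0 := rfl
  have h1 : Prof.lkr p 1 = - p 1 := rfl
  have h2 : Prof.lkr p 2 = p 2 := rfl
  obtain ⟨h3, h4⟩ := hp
  unfold Prof.F Prof.T at h3
  unfold Prof.T at h4
  refine ⟨?_, ?_⟩
  · unfold Prof.F Prof.T
    rw [h0, h1, h2, P.A_even]
    exact h3
  · unfold Prof.T
    rw [h0, h1, P.A_even]
    exact h4

theorem Prof.lkg_lkr (p : E3) : Prof.lkg (Prof.lkr p) = - (starRingEnd ℂ) (Prof.lkg p) := by
  have h1 : Prof.lkr p 1 = - p 1 := rfl
  have h2 : Prof.lkr p 2 = p 2 := rfl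
  unfold Prof.lkg
  rw [h1, h2]
  simp only [map_add, map_mul, Complex.conj_ofReal, Complex.conj_I]
  push_cast
  ring

/-- a continuous logarithm on the disc -/
theorem Prof.disc_log {X : Type*} [TopologicalSpace X]
    (φ : X ≃ₜ Metric.closedBall (0 : EuclideanSpace ℝ (Fin 2)) 1) (g : X → ℂ) (hg : Continuous g)
    (hg0 : ∀ x, g x ≠ 0) : ∃ h : X → ℂ, Continuous h ∧ ∀ x, Complex.exp (h x) = g x := by
  set r : EuclideanSpace ℝ (Fin 2) → EuclideanSpace ℝ (Fin 2) := fun x => (max 1 ‖x‖)⁻¹ • x with hr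
  have hpos : ∀ x : EuclideanSpace ℝ (Fin 2), 0 < max 1 ‖x‖ := fun x =>
    lt_of_lt_of_le one_pos (le_max_left _ _)
  have hrc : Continuous r := by
    refine Continuous.smul (Continuous.inv₀ (continuous_const.max continuous_norm) ?_) continuous_id
    intro x; exact (hpos x).ne'
  have hrm : ∀ x, r x ∈ Metric.closedBall (0 : EuclideanSpace ℝ (Fin 2)) 1 := by
    intro x
    rw [mem_closedBall_zero_iff, hr]
    show ‖(max 1 ‖x‖)⁻¹ • x‖ ≤ 1
    rw [norm_smul, norm_inv, Real.norm_eq_abs, abs_of_pos (hpos x), inv_mul_le_iff₀ (hpos x), mul_one]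
    exact le_max_right _ _
  have hrid : ∀ x ∈ Metric.closedBall (0 : EuclideanSpace ℝ (Fin 2)) 1, r x = x := by
    intro x hx
    rw [mem_closedBall_zero_iff] at hx
    show (max 1 ‖x‖)⁻¹ • x = x
    rw [max_eq_left hx, inv_one, one_smul]
  set G : EuclideanSpace ℝ (Fin 2) → ℂ := fun x => g (φ.symm ⟨r x, hrm x⟩) with hG
  have hGc : Continuous G := hg.comp (φ.symm.continuous.comp (hrc.subtype_mk hrm))
  have hsc : IsSimplyConnected (Set.univ : Set (EuclideanSpace ℝ (Fin 2))) := by
    unfold IsSimplyConnected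
    have : ContractibleSpace (Set.univ : Set (EuclideanSpace ℝ (Fin 2))) :=
      convex_univ.contractibleSpace ⟨0, Set.mem_univ _⟩
    infer_instance
  obtain ⟨f, hf, hfe⟩ := Complex.exists_continuousOn_eqOn_exp_comp hsc isOpen_univ
    (g := G) hGc.continuousOn (by
      rintro ⟨x, -, hx⟩
      exact hg0 _ hx)
  have hfc : Continuous f := continuousOn_univ.1 hf
  refine ⟨fun x => f (φ x), hfc.comp (continuous_subtype_val.comp φ.continuous), ?_⟩
  intro x
  have h1 := hfe (Set.mem_univ ((φ x : Metric.closedBall (0 : EuclideanSpace ℝ (Fin 2)) 1) : EuclideanSpace ℝ (Fin 2)))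
  have h2 : Complex.exp (f (φ x)) = G (φ x) := h1
  rw [h2, hG]
  show g (φ.symm ⟨r (φ x), hrm _⟩) = g x
  have h3 : (⟨r (φ x), hrm _⟩ : Metric.closedBall (0 : EuclideanSpace ℝ (Fin 2)) 1) = φ x := by
    apply Subtype.ext
    exact hrid _ (φ x).2
  rw [h3, φ.symm_apply_apply]

/-- a continuous real function on a connected space with integral values is constant -/
theorem Prof.int_const {X : Type*} [TopologicalSpace X] [PreconnectedSpace X] (u : X → ℝ)
    (hu : Continuous u) (hint : ∀ x, ∃ k : ℤ, u x = k) (x y : X) : u x = u y := by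
  have key : ∀ x y : X, ¬ u x < u y := by
    intro x y hlt
    obtain ⟨k, hk⟩ := hint x
    obtain ⟨l, hl⟩ := hint y
    rw [hk, hl] at hlt
    have hkl : k < l := by exact_mod_cast hlt
    have hkl' : (k : ℝ) + 1 ≤ l := by exact_mod_cast hkl
    obtain ⟨z, hz⟩ := mem_range_of_exists_le_of_exists_ge hu (c := (k : ℝ) + 1 / 2)
      ⟨x, by rw [hk]; linarith⟩ ⟨y, by rw [hl]; linarith⟩
    obtain ⟨m, hm⟩ := hint z
    rw [hm] at hz
    have h1 : (2 * m : ℝ) = 2 * k + 1 := by linarith
    have h2 : (2 * m : ℤ) = 2 * k + 1 := by exact_mod_cast h1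
    omega
  exact le_antisymm (not_lt.1 (key y x)) (not_lt.1 (key x y))

/-- JOB W3: the surface is not a disc. -/
theorem Prof.not_disc (P : Prof) (hM : IsConnected P.M) :
    ¬ Nonempty (P.M ≃ₜ Metric.closedBall (0 : EuclideanSpace ℝ (Fin 2)) 1) := by
  rintro ⟨φ⟩
  haveI : PreconnectedSpace P.M := Subtype.preconnectedSpace hM.isPreconnected
  obtain ⟨h, hc, he⟩ := Prof.disc_log φ (fun p : P.M => Prof.lkg p)
    (Prof.lkg_cont.comp continuous_subtype_val) (fun p => P.lkg_ne p.2)
  set ρ : P.M → P.M := fun p => ⟨Prof.lkr p, P.lkr_mem p.2⟩ with hρ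
  have hρc : Continuous ρ := (Prof.lkr_cont.comp continuous_subtype_val).subtype_mk _
  set D : P.M → ℂ := fun p => h (ρ p) - (starRingEnd ℂ) (h p) - Real.pi * Complex.I with hD
  have hDc : Continuous D := by
    have h1 : Continuous fun p => (starRingEnd ℂ) (h p) := Complex.continuous_conj.comp hc
    exact ((hc.comp hρc).sub h1).sub continuous_const
  have hDe : ∀ p, Complex.exp (D p) = 1 := by
    intro p
    rw [hD]
    show Complex.exp (h (ρ p) - (starRingEnd ℂ) (h p) - Real.pi * Complex.I) = 1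
    rw [Complex.exp_sub, Complex.exp_sub, he, Complex.exp_conj, he, Complex.exp_pi_mul_I]
    have h1 : Prof.lkg (ρ p : E3) = - (starRingEnd ℂ) (Prof.lkg (p : E3)) := Prof.lkg_lkr _
    rw [h1]
    have h2 : (starRingEnd ℂ) (Prof.lkg (p : E3)) ≠ 0 := by
      rw [Ne, map_eq_zero]; exact P.lkg_ne p.2
    field_simp
  set u : P.M → ℝ := fun p => (D p).im / (2 * Real.pi) with hu
  have huc : Continuous u := (Complex.continuous_im.comp hDc).div_const _
  have hint : ∀ p, ∃ k : ℤ, u p = k := by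
    intro p
    obtain ⟨k, hk⟩ := Complex.exp_eq_one_iff.1 (hDe p)
    refine ⟨k, ?_⟩
    rw [hu]
    show (D p).im / (2 * Real.pi) = k
    rw [hk]
    have : ((k : ℂ) * (2 * (Real.pi : ℂ) * Complex.I)).im = k * (2 * Real.pi) := by
      simp
    rw [this]
    have := Real.pi_pos
    field_simp
  have hconst := Prof.int_const u huc hint
  -- two points on the plane of symmetry
  have hfix : ∀ p : P.M, (p : E3) 1 = 0 → (D p).im = 2 * (h p).im - Real.pi := by
    intro p hp
    have h1 : ρ p = p := by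
      apply Subtype.ext
      show Prof.lkr (p : E3) = p
      unfold Prof.lkr
      ext i
      fin_cases i
      · rfl
      · simp [hp]
      · rfl
    rw [hD]
    show (h (ρ p) - (starRingEnd ℂ) (h p) - Real.pi * Complex.I).im = _
    rw [h1]
    simp
    ring
  have hQ : (!₂[2 - P.A 0, 0, 1 - P.A 0] : E3) ∈ P.M := by
    apply P.C_sub_M
    rw [P.mem_C_iff']
    have h0 : (!₂[2 - P.A 0, 0, 1 - P.A 0] : E3) 0 = 2 - P.A 0 := rfl
    have h1 : (!₂[2 - P.A 0, 0, 1 - P.A 0] : E3) 1 = 0 := rfl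
    have h2 : (!₂[2 - P.A 0, 0, 1 - P.A 0] : E3) 2 = 1 - P.A 0 := rfl
    rw [h0, h1, h2]
    refine ⟨rfl, ?_⟩
    have := P.A_zero_lt
    rw [P.A_of_ge (t := 2 - P.A 0) (by linarith)]
    ring
  set O : P.M := ⟨_, P.origin_mem⟩ with hO
  set Q : P.M := ⟨_, hQ⟩ with hQ'
  have e1 : (h O).im = (h Q).im := by
    have h1 := hconst O Q
    rw [hu] at h1
    have h2 : (D O).im / (2 * Real.pi) = (D Q).im / (2 * Real.pi) := h1
    rw [hfix O rfl, hfix Q rfl] at h2
    have := Real.pi_pos
    field_simp at h2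
    linarith
  have e2 := congrArg Complex.im (he O)
  have e3 := congrArg Complex.im (he Q)
  rw [Complex.exp_im] at e2 e3
  have e4 : (Prof.lkg (O : E3)).im = -(7 / 10) := by
    have h1 : (O : E3) 1 = 0 := rfl
    have h2 : (O : E3) 2 = 0 := rfl
    unfold Prof.lkg
    rw [h1, h2]
    simp
  have e5 : (Prof.lkg (Q : E3)).im = 3 / 10 - P.A 0 := by
    have h1 : (Q : E3) 1 = 0 := rfl
    have h2 : (Q : E3) 2 = 1 - P.A 0 := rfl
    unfold Prof.lkg
    rw [h1, h2]
    simp
    ring
  have e6 : Real.exp (h O).re * Real.sin (h O).im = -(7 / 10) := by rw [e2]; exact e4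
  have e7 : Real.exp (h Q).re * Real.sin (h Q).im = 3 / 10 - P.A 0 := by rw [e3]; exact e5
  rw [e1] at e6
  have h1 : Real.sin (h Q).im < 0 := by
    by_contra hcon
    push Not at hcon
    have := mul_nonneg (Real.exp_pos (h O).re).le hcon
    linarith
  have h2 := mul_neg_of_pos_of_neg (Real.exp_pos (h Q).re) h1
  have := P.A_zero_lt
  linarith

end

end Pool.Agent.Helper331.White
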