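import Pool.Agent.Helper331.WLem

/-! Written by helper724 (job 2177). -/

set_option autoImplicit false

open Set Filter Topology
open scoped ContDiff

namespace Pool.Agent.Helper331.White

noncomputable section

theorem v0 (a b c : ℝ) : (!₂[a, b, c] : E3) 0 = a := rfl
theorem v1 (a b c : ℝ) : (!₂[a, b, c] : E3) 1 = b := rfl
theorem v2 (a b c : ℝ) : (!₂[a, b, c] : E3) 2 = c := rfl

theorem e3_ext {p q : E3} (h0 : p 0 = q 0) (h1 : p 1 = q 1) (h2 : p 2 = q 2) : p = q := by
  ext i
  fin_cases i
  · exact h0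
  · exact h1
  · exact h2

theorem Prof.mem_C_vec (P : Prof) (a b c : ℝ) :
    (!₂[a, b, c] : E3) ∈ P.C ↔ c = 1 - P.A b ∧ c = -1 + P.A a := P.mem_C_iff' _

theorem Prof.A_one (P : Prof) : P.A 1 = 1 := P.A_of_ge (by norm_num)

theorem Prof.A_neg_one (P : Prof) : P.A (-1) = 1 := by rw [P.A_even, P.A_one]

theorem Prof.A_two_sub (P : Prof) {t : ℝ} (ht : |t| ≤ 1) : P.A (2 - P.A t) = 2 - P.A t := by
  have := P.A_le_one_iff.mpr ht
  exact P.A_of_ge (by linarith)

theorem Prof.A_neg_two_sub (P : Prof) {t : ℝ} (ht : |t| ≤ 1) : P.A (-(2 - P.A t)) = 2 - P.A t := by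
  rw [P.A_even, P.A_two_sub ht]

/-- JOB W4: the boundary curve is connected. -/
theorem Prof.C_connected (P : Prof) : IsConnected P.C := by
  have hA := P.A_cont
  have hI : IsConnected (Icc (-1 : ℝ) 1) := isConnected_Icc (by norm_num)
  set S1 : Set E3 := (fun t : ℝ => (!₂[t, 2 - P.A t, -1 + P.A t] : E3)) '' Icc (-1) 1 with hS1
  set S2 : Set E3 := (fun t : ℝ => (!₂[t, -(2 - P.A t), -1 + P.A t] : E3)) '' Icc (-1) 1 with hS2
  set S3 : Set E3 := (fun t : ℝ => (!₂[2 - P.A t, t, 1 - P.A t] : E3)) '' Icc (-1) 1 with hS3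
  set S4 : Set E3 := (fun t : ℝ => (!₂[-(2 - P.A t), t, 1 - P.A t] : E3)) '' Icc (-1) 1 with hS4
  have c1 : IsConnected S1 := hI.image _ (by fun_prop)
  have c2 : IsConnected S2 := hI.image _ (by fun_prop)
  have c3 : IsConnected S3 := hI.image _ (by fun_prop)
  have c4 : IsConnected S4 := hI.image _ (by fun_prop)
  have m1 : (1 : ℝ) ∈ Icc (-1 : ℝ) 1 := by constructor <;> norm_num
  have m2 : (-1 : ℝ) ∈ Icc (-1 : ℝ) 1 := by constructor <;> norm_num
  have hC : P.C = ((S1 ∪ S3) ∪ S2) ∪ S4 := by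
    ext p
    constructor
    · intro hp
      rw [P.mem_C_iff'] at hp
      obtain ⟨h1, h2⟩ := hp
      by_cases hx : |p 0| ≤ 1
      · have hAx := P.A_le_one_iff.mpr hx
        have hAy : 1 ≤ P.A (p 1) := by linarith
        have hy : 1 / 10 ≤ |p 1| := by
          by_contra hcon
          push Not at hcon
          have := P.A_lt_of hcon
          linarith
        have hy2 := P.A_abs (p 1) hy
        have hy3 : |p 1| = 2 - P.A (p 0) := by linarith
        rcases abs_cases (p 1) with h | h
        · left; left; left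
          refine ⟨p 0, abs_le.mp hx, e3_ext ?_ ?_ ?_⟩
          · rfl
          · show 2 - P.A (p 0) = p 1
            linarith
          · show -1 + P.A (p 0) = p 2
            linarith
        · left; right
          refine ⟨p 0, abs_le.mp hx, e3_ext ?_ ?_ ?_⟩
          · rfl
          · show -(2 - P.A (p 0)) = p 1
            linarith
          · show -1 + P.A (p 0) = p 2
            linarith
      · push Not at hx
        have hx2 := P.A_abs (p 0) (by linarith)
        have hy : |p 1| ≤ 1 := by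
          have := P.abs_le_A (p 1)
          linarith
        have hx3 : |p 0| = 2 - P.A (p 1) := by linarith
        rcases abs_cases (p 0) with h | h
        · left; left; right
          refine ⟨p 1, abs_le.mp hy, e3_ext ?_ ?_ ?_⟩
          · show 2 - P.A (p 1) = p 0
            linarith
          · rfl
          · show 1 - P.A (p 1) = p 2
            linarith
        · right
          refine ⟨p 1, abs_le.mp hy, e3_ext ?_ ?_ ?_⟩
          · show -(2 - P.A (p 1)) = p 0
            linarith
          · rfl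
          · show 1 - P.A (p 1) = p 2
            linarith
    · rintro (((⟨t, ht, rfl⟩ | ⟨t, ht, rfl⟩) | ⟨t, ht, rfl⟩) | ⟨t, ht, rfl⟩)
      · have := P.A_two_sub (abs_le.mpr ht)
        rw [P.mem_C_vec]
        constructor <;> linarith
      · have := P.A_two_sub (abs_le.mpr ht)
        rw [P.mem_C_vec]
        constructor <;> linarith
      · have := P.A_neg_two_sub (abs_le.mpr ht)
        rw [P.mem_C_vec]
        constructor <;> linarith
      · have := P.A_neg_two_sub (abs_le.mpr ht)
        rw [P.mem_C_vec]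
        constructor <;> linarith
  rw [hC]
  have hA1 := P.A_one
  have hA2 := P.A_neg_one
  apply IsConnected.union _ (IsConnected.union _ (IsConnected.union _ c1 c3) c2) c4
  · -- (S1 ∪ S3 ∪ S2) and S4 share (-1,-1,0)
    refine ⟨!₂[-1, -1, 0], Or.inr ⟨-1, m2, e3_ext ?_ ?_ ?_⟩, ⟨-1, m2, e3_ext ?_ ?_ ?_⟩⟩ <;>
      simp only [v0, v1, v2, hA2] <;> norm_num
  · refine ⟨!₂[1, -1, 0], Or.inr ⟨-1, m2, e3_ext ?_ ?_ ?_⟩, ⟨1, m1, e3_ext ?_ ?_ ?_⟩⟩ <;>
      simp only [v0, v1, v2, hA1, hA2] <;> norm_num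
  · refine ⟨!₂[1, 1, 0], ⟨1, m1, e3_ext ?_ ?_ ?_⟩, ⟨1, m1, e3_ext ?_ ?_ ?_⟩⟩ <;>
      simp only [v0, v1, v2, hA1, hA2] <;> norm_num

theorem seg_mem {K : Set E3} (hK : Convex ℝ K) (a d : E3) {α β u : ℝ} (h1 : a + α • d ∈ K)
    (h2 : a + β • d ∈ K) (hα : α ≤ u) (hβ : u ≤ β) : a + u • d ∈ K := by
  rcases (hα.trans hβ).eq_or_lt with h | h
  · have : u = α := le_antisymm (by linarith) hα
    rw [this]; exact h1
  · have hpos : 0 < β - α := by linarith
    have h3 := hK h1 h2 (a := (β - u) / (β - α)) (b := (u - α) / (β - α))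
      (div_nonneg (by linarith) hpos.le) (div_nonneg (by linarith) hpos.le)
      (by field_simp; ring)
    have e : ((β - u) / (β - α)) • (a + α • d) + ((u - α) / (β - α)) • (a + β • d)
        = (((β - u) / (β - α)) + ((u - α) / (β - α))) • a
          + (((β - u) / (β - α)) * α + ((u - α) / (β - α)) * β) • d := by
      module
    rw [e] at h3
    have e1 : ((β - u) / (β - α)) + ((u - α) / (β - α)) = 1 := by field_simp; ring
    have e2 : ((β - u) / (β - α)) * α + ((u - α) / (β - α)) * β = u := by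
      field_simp; ring
    rwa [e1, e2, one_smul] at h3

/-- JOB W4: the convex hull of the surface is that of its boundary curve. -/
theorem Prof.hull_eq (P : Prof) : convexHull ℝ P.M = convexHull ℝ P.C := by
  apply Subset.antisymm
  · apply convexHull_min _ (convex_convexHull ℝ P.C)
    intro p hp
    have hU := P.U_nonneg hp
    have hV := P.V_nonneg hp
    have hK := convex_convexHull ℝ P.C
    have hsub := subset_convexHull ℝ P.C
    have ivt : ∀ x y : ℝ, P.A x ≤ 2 - P.A y → ∃ X, |x| ≤ X ∧ P.A X = 2 - P.A y := by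
      intro x y hxy
      have hx2 : |x| ≤ 2 := by
        have := P.abs_le_A x
        have := P.A_nonneg y
        linarith
      have hA2 : P.A 2 = 2 := P.A_of_ge (by norm_num)
      have h1 := intermediate_value_Icc hx2 (P.A_cont.continuousOn)
      have h2 : 2 - P.A y ∈ Icc (P.A |x|) (P.A 2) := by
        rw [P.A_abs', hA2]
        exact ⟨hxy, by have := P.A_nonneg y; linarith⟩
      obtain ⟨X, hX, hX2⟩ := h1 h2
      exact ⟨X, hX.1, hX2⟩
    -- upper point
    have up : (!₂[p 0, p 1, 1 - P.A (p 1)] : E3) ∈ convexHull ℝ P.C := by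
      obtain ⟨X, hX, hX2⟩ := ivt (p 0) (p 1) (by linarith)
      have e : ∀ u : ℝ, (!₂[u, p 1, 1 - P.A (p 1)] : E3)
          = !₂[0, p 1, 1 - P.A (p 1)] + u • !₂[1, 0, 0] := by
        intro u
        apply e3_ext <;> simp
      rw [e]
      apply seg_mem hK _ _ (α := -X) (β := X)
      · rw [← e]
        apply hsub
        rw [P.mem_C_vec, P.A_even]
        constructor <;> linarith
      · rw [← e]
        apply hsub
        rw [P.mem_C_vec]
        constructor <;> linarith
      · exact (abs_le.mp hX).1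
      · exact (abs_le.mp hX).2
    have down : (!₂[p 0, p 1, -1 + P.A (p 0)] : E3) ∈ convexHull ℝ P.C := by
      obtain ⟨X, hX, hX2⟩ := ivt (p 1) (p 0) (by linarith)
      have e : ∀ u : ℝ, (!₂[p 0, u, -1 + P.A (p 0)] : E3)
          = !₂[p 0, 0, -1 + P.A (p 0)] + u • !₂[0, 1, 0] := by
        intro u
        apply e3_ext <;> simp
      rw [e]
      apply seg_mem hK _ _ (α := -X) (β := X)
      · rw [← e]
        apply hsub
        rw [P.mem_C_vec, P.A_even]
        constructor <;> linarith
      · rw [← e]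
        apply hsub
        rw [P.mem_C_vec]
        constructor <;> linarith
      · exact (abs_le.mp hX).1
      · exact (abs_le.mp hX).2
    have e : ∀ u : ℝ, (!₂[p 0, p 1, u] : E3) = !₂[p 0, p 1, 0] + u • !₂[0, 0, 1] := by
      intro u
      apply e3_ext <;> simp
    have hp' : p = !₂[p 0, p 1, p 2] := e3_ext rfl rfl rfl
    rw [hp', e]
    rw [e] at up down
    apply seg_mem hK _ _ down up
    · linarith
    · linarith
  · exact convexHull_mono P.C_sub_M

/-- JOB W4: the surface lies in no plane. -/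
theorem Prof.not_planar (P : Prof) (l : E3 →L[ℝ] ℝ) (c : ℝ) (h : ∀ p ∈ P.M, l p = c) :
    l = 0 := by
  have hA1 := P.A_one
  have hA2 := P.A_neg_one
  have hA0 := P.A_zero_lt
  have hA3 : P.A (2 - P.A 0) = 2 - P.A 0 := P.A_two_sub (by simp)
  have dec : ∀ a b c : ℝ, l (!₂[a, b, c] : E3)
      = a * l !₂[1, 0, 0] + b * l !₂[0, 1, 0] + c * l !₂[0, 0, 1] := by
    intro a b c
    have : (!₂[a, b, c] : E3) = a • !₂[1, 0, 0] + b • !₂[0, 1, 0] + c • !₂[0, 0, 1] := by
      apply e3_ext <;> simp
    rw [this]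
    simp only [map_add, map_smul, smul_eq_mul]
  have h0 := h _ P.origin_mem
  have h1 := h (!₂[1, 1, 0] : E3) (P.C_sub_M (by
    rw [P.mem_C_vec]
    constructor <;> linarith))
  have h2 := h (!₂[1, -1, 0] : E3) (P.C_sub_M (by
    rw [P.mem_C_vec]
    constructor <;> linarith))
  have h3 := h (!₂[2 - P.A 0, 0, 1 - P.A 0] : E3) (P.C_sub_M (by
    rw [P.mem_C_vec]
    constructor <;> linarith))
  rw [dec] at h0 h1 h2 h3
  have a1 : l !₂[1, 0, 0] = 0 := by linarith
  have a2 : l !₂[0, 1, 0] = 0 := by linarith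
  have a3 : l !₂[0, 0, 1] = 0 := by
    have h4 : (1 - P.A 0) * l !₂[0, 0, 1] = 0 := by
      rw [a1, a2] at h3 h0
      linarith
    rcases mul_eq_zero.mp h4 with h5 | h5
    · linarith
    · exact h5
  ext p
  have hp' : p = !₂[p 0, p 1, p 2] := e3_ext rfl rfl rfl
  rw [hp', dec, a1, a2, a3]
  simp

end

end Pool.Agent.Helper331.White
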