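import Pool.Agent.Helper331.WDefs

set_option autoImplicit false

open Set Filter Topology
open scoped ContDiff

namespace Pool.Agent.Helper331.White

noncomputable section

namespace Prof

variable (P : Prof)

theorem A_cont : Continuous P.A := P.A_smooth.continuous

theorem s_cont : Continuous P.s := P.s_smooth.continuous

theorem A1_odd (t : ℝ) : P.A1 (-t) = - P.A1 t := by
  have h1 : HasDerivAt (fun t => P.A (-t)) (P.A1 (-t) * (-1)) t :=
    (P.hA1 (-t)).comp t (hasDerivAt_neg t)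
  have h2 : HasDerivAt (fun t => P.A (-t)) (P.A1 t) t := by
    have : (fun t => P.A (-t)) = P.A := funext P.A_even
    rw [this]; exact P.hA1 t
  have := h1.unique h2
  linarith

theorem A1_zero : P.A1 0 = 0 := by
  have := P.A1_odd 0
  simp at this
  linarith

theorem A_of_ge {t : ℝ} (h : 1 / 10 ≤ t) : P.A t = t := by
  rw [P.A_abs t (h.trans (le_abs_self t)), abs_of_nonneg (by linarith)]

theorem A1_of_ge {t : ℝ} (h : 1 / 10 ≤ t) : P.A1 t = 1 := by
  have h1 : HasDerivWithinAt P.A (P.A1 t) (Ici t) t := (P.hA1 t).hasDerivWithinAt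
  have h2 : HasDerivWithinAt P.A 1 (Ici t) t := by
    refine (hasDerivWithinAt_id t (Ici t)).congr (fun x hx => ?_) ?_
    · exact P.A_of_ge (h.trans hx)
    · exact P.A_of_ge h
  exact (uniqueDiffOn_Ici t t self_mem_Ici).eq_deriv _ h1 h2

theorem A1_of_le {t : ℝ} (h : t ≤ -(1 / 10)) : P.A1 t = -1 := by
  have := P.A1_of_ge (t := -t) (by linarith)
  rw [P.A1_odd] at this
  linarith

theorem A1_cont : Continuous P.A1 :=
  continuous_iff_continuousAt.2 fun t => (P.hA2 t).continuousAt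

theorem A1_strictMono : StrictMonoOn P.A1 (Icc (-(1/10)) (1/10)) := by
  apply strictMonoOn_of_deriv_pos (convex_Icc _ _) P.A1_cont.continuousOn
  intro x hx
  rw [interior_Icc] at hx
  rw [(P.hA2 x).deriv]
  exact P.A2_pos x (abs_lt.2 hx)

theorem A1_pos {t : ℝ} (h : 0 < t) : 0 < P.A1 t := by
  rcases le_total (1/10) t with h1 | h1
  · rw [P.A1_of_ge h1]; norm_num
  · have := P.A1_strictMono (a := 0) ⟨by norm_num, by norm_num⟩ (b := t) ⟨by linarith, h1⟩ h
    rwa [P.A1_zero] at this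

theorem A1_neg {t : ℝ} (h : t < 0) : P.A1 t < 0 := by
  have := P.A1_pos (t := -t) (by linarith)
  rw [P.A1_odd] at this
  linarith

theorem A1_eq_zero {t : ℝ} : P.A1 t = 0 ↔ t = 0 := by
  constructor
  · intro h
    rcases lt_trichotomy t 0 with h1 | h1 | h1
    · exact absurd h (P.A1_neg h1).ne
    · exact h1
    · exact absurd h (P.A1_pos h1).ne'
  · rintro rfl; exact P.A1_zero

theorem A1_lt_one {t : ℝ} (h : t < 1/10) : P.A1 t < 1 := by
  rcases le_total (-(1/10)) t with h1 | h1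
  · have := P.A1_strictMono (a := t) ⟨h1, h.le⟩ (b := 1/10) ⟨by norm_num, by norm_num⟩ h
    rwa [P.A1_of_ge le_rfl] at this
  · rw [P.A1_of_le h1]; norm_num

theorem A1_gt_neg_one {t : ℝ} (h : -(1/10) < t) : -1 < P.A1 t := by
  have := P.A1_lt_one (t := -t) (by linarith)
  rw [P.A1_odd] at this
  linarith

theorem A1_le_one (t : ℝ) : P.A1 t ≤ 1 := by
  rcases lt_or_ge t (1/10) with h | h
  · exact (P.A1_lt_one h).le
  · exact (P.A1_of_ge h).le

theorem A1_ge_neg_one (t : ℝ) : -1 ≤ P.A1 t := by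
  have := P.A1_le_one (-t)
  rw [P.A1_odd] at this
  linarith

theorem abs_A1_le (t : ℝ) : |P.A1 t| ≤ 1 := abs_le.2 ⟨P.A1_ge_neg_one t, P.A1_le_one t⟩

theorem A2_of_gt {t : ℝ} (h : 1/10 < |t|) : P.A2 t = 0 := by
  have key : ∀ t : ℝ, 1/10 < t → P.A2 t = 0 := by
    intro t h
    have h1 : P.A1 =ᶠ[𝓝 t] fun _ => (1:ℝ) := by
      filter_upwards [lt_mem_nhds h] with x hx
      exact P.A1_of_ge (le_of_lt hx)
    exact (P.hA2 t).unique ((hasDerivAt_const t (1:ℝ)).congr_of_eventuallyEq h1)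
  rcases le_total 0 t with h0 | h0
  · rw [abs_of_nonneg h0] at h; exact key t h
  · rw [abs_of_nonpos h0] at h
    have h1 : P.A1 =ᶠ[𝓝 t] fun _ => (-1:ℝ) := by
      filter_upwards [gt_mem_nhds (show t < -(1/10) by linarith)] with x hx
      exact P.A1_of_le (le_of_lt hx)
    exact (P.hA2 t).unique ((hasDerivAt_const t (-1:ℝ)).congr_of_eventuallyEq h1)

theorem A1_mono : Monotone P.A1 := by
  intro a b hab
  rcases le_total b (-(1/10)) with h | h
  · rw [P.A1_of_le h, P.A1_of_le (hab.trans h)]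
  · rcases le_total (1/10) a with h' | h'
    · rw [P.A1_of_ge h', P.A1_of_ge (h'.trans hab)]
    · rcases le_total (1/10) b with h2 | h2
      · rw [P.A1_of_ge h2]; exact P.A1_le_one a
      · rcases le_total a (-(1/10)) with h3 | h3
        · rw [P.A1_of_le h3]; exact P.A1_ge_neg_one b
        · exact P.A1_strictMono.monotoneOn ⟨h3, h'⟩ ⟨h, h2⟩ hab

theorem A2_nonneg (t : ℝ) : 0 ≤ P.A2 t := by
  have h1 := hasDerivAt_iff_tendsto_slope.1 (P.hA2 t)
  have h2 : ∀ᶠ r in 𝓝[≠] t, 0 ≤ slope P.A1 t r := by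
    filter_upwards [self_mem_nhdsWithin] with r hr
    rw [slope_def_field]
    rcases lt_or_gt_of_ne (show r ≠ t from hr) with h | h
    · exact div_nonneg_of_nonpos (by linarith [P.A1_mono h.le]) (by linarith)
    · exact div_nonneg (by linarith [P.A1_mono h.le]) (by linarith)
  exact ge_of_tendsto h1 h2

/-- `A - id` is antitone, `A` is strictly monotone on the nonnegative axis. -/
theorem A_strictMono : StrictMonoOn P.A (Ici 0) := by
  apply strictMonoOn_of_deriv_pos (convex_Ici _) P.A_cont.continuousOn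
  intro x hx
  rw [interior_Ici] at hx
  rw [(P.hA1 x).deriv]
  exact P.A1_pos hx

theorem A_zero_lt : P.A 0 < 1/10 := by
  have := P.A_strictMono (a := 0) (by simp) (b := 1/10) (by norm_num [mem_Ici]) (by norm_num)
  rwa [P.A_of_ge le_rfl] at this

theorem A_abs' (t : ℝ) : P.A |t| = P.A t := by
  rcases abs_cases t with h | h
  · rw [h.1]
  · rw [h.1, P.A_even]

theorem A_zero_le (t : ℝ) : P.A 0 ≤ P.A t := by
  rw [← P.A_abs' t]
  exact P.A_strictMono.monotoneOn (by simp) (by simp) (abs_nonneg t)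

theorem sub_antitone : Antitone (fun t => P.A t - t) := by
  apply antitone_of_deriv_nonpos
  · exact fun t => ((P.hA1 t).sub (hasDerivAt_id t)).differentiableAt
  · intro t
    have h : HasDerivAt (fun t => P.A t - t) (P.A1 t - 1) t := (P.hA1 t).sub (hasDerivAt_id t)
    rw [h.deriv]
    linarith [P.A1_le_one t]

theorem le_A (t : ℝ) : t ≤ P.A t := by
  rcases le_total (1/10) t with h | h
  · rw [P.A_of_ge h]
  · have := P.sub_antitone h
    simp only at this
    rw [P.A_of_ge le_rfl] at this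
    linarith

theorem abs_le_A (t : ℝ) : |t| ≤ P.A t := by
  rw [← P.A_abs' t]; exact P.le_A _

theorem A_pos {t : ℝ} (h : t ≠ 0) : 0 < P.A t := lt_of_lt_of_le (abs_pos.2 h) (P.abs_le_A t)

theorem A_nonneg (t : ℝ) : 0 ≤ P.A t := (abs_nonneg t).trans (P.abs_le_A t)

theorem A_le_of {t : ℝ} (h : |t| ≤ 1/10) : P.A t ≤ 1/10 := by
  rw [← P.A_abs' t]
  have := P.A_strictMono.monotoneOn (a := |t|) (by simp) (b := 1/10) (by norm_num [mem_Ici]) h
  rwa [P.A_of_ge le_rfl] at this

theorem A_lt_of {t : ℝ} (h : |t| < 1/10) : P.A t < 1/10 := by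
  rw [← P.A_abs' t]
  have := P.A_strictMono (a := |t|) (by simp) (b := 1/10) (by norm_num [mem_Ici]) h
  rwa [P.A_of_ge le_rfl] at this

theorem A_mono_abs {t u : ℝ} (h : |t| ≤ |u|) : P.A t ≤ P.A u := by
  rw [← P.A_abs' t, ← P.A_abs' u]
  exact P.A_strictMono.monotoneOn (by simp) (by simp) h

theorem A_le_one_iff {t : ℝ} : P.A t ≤ 1 ↔ |t| ≤ 1 := by
  constructor
  · exact fun h => (P.abs_le_A t).trans h
  · intro h
    have := P.A_mono_abs (t := t) (u := 1) (by simpa using h)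
    rwa [P.A_of_ge (t := 1) (by norm_num)] at this

/-! ### the step function -/

theorem s_zero : P.s 0 = 0 := by
  have := P.s_odd 0
  simp at this
  linarith

theorem s_neg_one {z : ℝ} (h : z ≤ -(1/2)) : P.s z = -1 := by
  have := P.s_one (-z) (by linarith)
  rw [P.s_odd] at this
  linarith

theorem abs_s_le (z : ℝ) : |P.s z| ≤ 1 := by
  rcases lt_or_ge |z| (1/2) with h | h
  · exact (P.s_lt z h).le
  · rcases le_abs.1 h with h1 | h1
    · rw [P.s_one z h1]; norm_num
    · rw [P.s_neg_one (by linarith)]; norm_num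

theorem s_le_one (z : ℝ) : P.s z ≤ 1 := (abs_le.1 (P.abs_s_le z)).2

theorem neg_one_le_s (z : ℝ) : -1 ≤ P.s z := (abs_le.1 (P.abs_s_le z)).1

theorem s_eq_of_abs {z : ℝ} (h : 1/2 ≤ |z|) : P.s z = 1 ∨ P.s z = -1 := by
  rcases le_abs.1 h with h1 | h1
  · left; exact P.s_one z h1
  · right; exact P.s_neg_one (by linarith)

theorem s1_of_ge {z : ℝ} (h : 1/2 ≤ |z|) : P.s1 z = 0 := by
  rcases P.s_eq_of_abs h with h1 | h1
  · have : IsLocalMax P.s z := by
      filter_upwards with x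
      rw [h1]; exact P.s_le_one x
    exact this.hasDerivAt_eq_zero (P.hs1 z)
  · have : IsLocalMin P.s z := by
      filter_upwards with x
      rw [h1]; exact P.neg_one_le_s x
    exact this.hasDerivAt_eq_zero (P.hs1 z)

theorem s_abs_lt_iff {z : ℝ} : |P.s z| < 1 ↔ |z| < 1/2 := by
  constructor
  · intro h
    by_contra h'
    rcases P.s_eq_of_abs (not_lt.1 h') with h1 | h1 <;> rw [h1] at h <;> norm_num at h
  · exact P.s_lt z

/-! ### the surface -/

theorem F_eq (p : E3) : P.F p = (1 + P.s (p 2)) * (1 - p 2 - P.A (p 1))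
    - (1 - P.s (p 2)) * (1 + p 2 - P.A (p 0)) := by
  unfold F T; ring

theorem T_eq (p : E3) : P.T p = (1 - p 2 - P.A (p 1)) + (1 + p 2 - P.A (p 0)) := by
  unfold T; ring

theorem U_eq {p : E3} (h : P.F p = 0) : 1 - p 2 - P.A (p 1) = (1 - P.s (p 2)) * P.T p / 2 := by
  rw [P.F_eq] at h
  rw [P.T_eq]; linarith

theorem V_eq {p : E3} (h : P.F p = 0) : 1 + p 2 - P.A (p 0) = (1 + P.s (p 2)) * P.T p / 2 := by
  rw [P.F_eq] at h
  rw [P.T_eq]; linarith

theorem U_nonneg {p : E3} (h : p ∈ P.M) : 0 ≤ 1 - p 2 - P.A (p 1) := by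
  rw [P.U_eq h.1]
  have := P.s_le_one (p 2)
  have := h.2
  apply div_nonneg (mul_nonneg (by linarith) h.2) (by norm_num)

theorem V_nonneg {p : E3} (h : p ∈ P.M) : 0 ≤ 1 + p 2 - P.A (p 0) := by
  rw [P.V_eq h.1]
  have := P.neg_one_le_s (p 2)
  apply div_nonneg (mul_nonneg (by linarith) h.2) (by norm_num)

theorem mem_M_iff (p : E3) : p ∈ P.M ↔ P.F p = 0 ∧ 0 ≤ P.T p := Iff.rfl

theorem mem_C_iff (p : E3) : p ∈ P.C ↔ P.F p = 0 ∧ P.T p = 0 := Iff.rfl

theorem mem_C_iff' (p : E3) : p ∈ P.C ↔ p 2 = 1 - P.A (p 1) ∧ p 2 = -1 + P.A (p 0) := by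
  rw [mem_C_iff]
  constructor
  · rintro ⟨h1, h2⟩
    have hU := P.U_eq h1
    have hV := P.V_eq h1
    rw [h2] at hU hV
    constructor <;> linarith
  · rintro ⟨h1, h2⟩
    have hT : P.T p = 0 := by rw [P.T_eq]; linarith
    refine ⟨?_, hT⟩
    rw [P.F_eq, h1]
    have : (1 - P.A (p 1)) = -1 + P.A (p 0) := by linarith
    have e : 1 + (1 - P.A (p 1)) - P.A (p 0) = 0 := by linarith
    rw [e]; ring

theorem C_sub_M : P.C ⊆ P.M := fun _ hp => ⟨hp.1, hp.2.ge⟩

theorem T_cont : Continuous P.T := by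
  unfold T
  have := P.A_cont
  fun_prop

theorem F_cont : Continuous P.F := by
  unfold F
  have := P.A_cont
  have := P.s_cont
  have := P.T_cont
  fun_prop

theorem M_closed : IsClosed P.M := by
  have h1 : IsClosed {p | P.F p = 0} := isClosed_eq P.F_cont continuous_const
  have h2 : IsClosed {p | 0 ≤ P.T p} := isClosed_le continuous_const P.T_cont
  exact h1.inter h2

/-- bounds for the coordinates on the surface -/
theorem M_bound {p : E3} (h : p ∈ P.M) : |p 0| ≤ 2 ∧ |p 1| ≤ 2 ∧ |p 2| ≤ 1 := by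
  have h1 := P.U_nonneg h
  have h2 := P.V_nonneg h
  have h3 := P.A_nonneg (p 0)
  have h4 := P.A_nonneg (p 1)
  have h5 := P.abs_le_A (p 0)
  have h6 := P.abs_le_A (p 1)
  refine ⟨by linarith, by linarith, abs_le.2 ⟨by linarith, by linarith⟩⟩

theorem M_compact : IsCompact P.M := by
  apply Metric.isCompact_of_isClosed_isBounded P.M_closed
  rw [isBounded_iff_forall_norm_le]
  refine ⟨3, fun p hp => ?_⟩
  obtain ⟨h0, h1, h2⟩ := P.M_bound hp
  rw [EuclideanSpace.norm_eq]
  apply Real.sqrt_le_iff.2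
  refine ⟨by norm_num, ?_⟩
  simp only [Fin.sum_univ_three, Real.norm_eq_abs, sq_abs]
  nlinarith [sq_abs (p 0), sq_abs (p 1), sq_abs (p 2), abs_nonneg (p 0), abs_nonneg (p 1),
    abs_nonneg (p 2)]

theorem origin_mem : (!₂[0, 0, 0] : E3) ∈ P.M := by
  constructor
  · simp [F, P.s_zero]
  · simp only [T]
    have := P.A_zero_lt
    simp
    linarith

end Prof

end

end Pool.Agent.Helper331.White
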