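import Mathlib

set_option autoImplicit false

open Set Filter Topology

namespace Pool.Agent.Helper331.White

/-- a compact set on which a function has at most one local maximum has preconnected open
superlevel sets -/
theorem preconnected_of_unique_max {X : Type*} [TopologicalSpace X] [T2Space X] {M : Set X}
    (hM : IsCompact M) {f : X → ℝ} (hf : Continuous f)
    (huniq : ∀ p ∈ M, ∀ q ∈ M, IsLocalMaxOn f M p → IsLocalMaxOn f M q → p = q) (c : ℝ) :
    IsPreconnected (M ∩ {x | c < f x}) := by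
  intro u v hu hv hsub hsu hsv
  by_contra hne
  rw [not_nonempty_iff_eq_empty] at hne
  have key : ∀ u v : Set X, IsOpen u → IsOpen v → M ∩ {x | c < f x} ⊆ u ∪ v →
      (M ∩ {x | c < f x} ∩ u).Nonempty → (M ∩ {x | c < f x}) ∩ (u ∩ v) = ∅ →
      ∃ p ∈ M, IsLocalMaxOn f M p ∧ p ∈ u ∧ c < f p := by
    intro u v hu hv hsub ⟨a, ⟨haM, hac⟩, hau⟩ hne
    have hac : c < f a := hac
    have hK : IsCompact (M ∩ ({x | f a ≤ f x} ∩ vᶜ)) :=
      hM.inter_right ((isClosed_le continuous_const hf).inter hv.isClosed_compl)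
    have haK : a ∈ M ∩ ({x | f a ≤ f x} ∩ vᶜ) := by
      refine ⟨haM, le_refl (f a), fun hav => ?_⟩
      have : a ∈ (M ∩ {x | c < f x}) ∩ (u ∩ v) := ⟨⟨haM, hac⟩, hau, hav⟩
      rw [hne] at this; exact this
    obtain ⟨p, ⟨hpM, hpa, hpv⟩, hpmax⟩ := hK.exists_isMaxOn ⟨a, haK⟩ hf.continuousOn
    have hpa : f a ≤ f p := hpa
    have hpc : c < f p := lt_of_lt_of_le hac hpa
    have hpu : p ∈ u := (hsub ⟨hpM, hpc⟩).resolve_right hpv
    refine ⟨p, hpM, ?_, hpu, hpc⟩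
    have : ∀ᶠ q in 𝓝[M] p, f q ≤ f p := by
      filter_upwards [nhdsWithin_le_nhds (hu.mem_nhds hpu), self_mem_nhdsWithin] with q hqu hqM
      by_contra hlt
      push Not at hlt
      have hqc : c < f q := hpc.trans hlt
      have hqv : q ∉ v := fun hqv => by
        have : q ∈ (M ∩ {x | c < f x}) ∩ (u ∩ v) := ⟨⟨hqM, hqc⟩, hqu, hqv⟩
        rw [hne] at this; exact this
      have := hpmax ⟨hqM, (hpa.trans hlt.le), hqv⟩
      exact absurd this (not_le.2 hlt)
    exact this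
  obtain ⟨p, hp, hpm, hpu, hpc⟩ := key u v hu hv hsub hsu hne
  obtain ⟨q, hq, hqm, hqv, hqc⟩ := key v u hv hu (by rwa [union_comm]) hsv (by rwa [inter_comm v u])
  have := huniq p hp q hq hpm hqm
  subst this
  have : p ∈ (M ∩ {x | c < f x}) ∩ (u ∩ v) := ⟨⟨hp, hpc⟩, hpu, hqv⟩
  rw [hne] at this; exact this

/-- limits of functionals with preconnected open superlevel sets have the same property -/
theorem preconnected_of_closure {E : Type*} [NormedAddCommGroup E] [NormedSpace ℝ E] {M : Set E}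
    (hM : IsCompact M) {l : E →L[ℝ] ℝ}
    (h : ∀ δ > 0, ∃ l' : E →L[ℝ] ℝ, ‖l' - l‖ < δ ∧ ∀ c, IsPreconnected (M ∩ {x | c < l' x}))
    (c : ℝ) : IsPreconnected (M ∩ {x | c < l x}) := by
  intro u v hu hv hsub ⟨a, ⟨haM, hac⟩, hau⟩ ⟨b, ⟨hbM, hbc⟩, hbv⟩
  have hac : c < l a := hac
  have hbc : c < l b := hbc
  obtain ⟨R, hR⟩ := hM.isBounded.exists_norm_le
  have hR0 : 0 ≤ R := (norm_nonneg a).trans (hR a haM)
  set δ := (min (l a) (l b) - c) / 3 with hδ
  have hδ0 : 0 < δ := by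
    have : c < min (l a) (l b) := lt_min hac hbc
    rw [hδ]; linarith
  obtain ⟨l', hl', hpre⟩ := h (δ / (R + 1)) (div_pos hδ0 (by linarith))
  have hclose : ∀ x ∈ M, |l' x - l x| < δ := by
    intro x hx
    have h1 : |l' x - l x| ≤ ‖l' - l‖ * ‖x‖ := by
      have := (l' - l).le_opNorm x
      simpa using this
    have h2 : ‖l' - l‖ * ‖x‖ ≤ ‖l' - l‖ * (R + 1) :=
      mul_le_mul_of_nonneg_left ((hR x hx).trans (by linarith)) (norm_nonneg _)
    have h3 : ‖l' - l‖ * (R + 1) < δ := by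
      have := mul_lt_mul_of_pos_right hl' (show 0 < R + 1 by linarith)
      rwa [div_mul_cancel₀ _ (by linarith)] at this
    linarith
  have hsub' : M ∩ {x | c + δ < l' x} ⊆ M ∩ {x | c < l x} := by
    rintro x ⟨hxM, hx⟩
    have hx : c + δ < l' x := hx
    have := abs_lt.1 (hclose x hxM)
    exact ⟨hxM, show c < l x by linarith⟩
  have hmin1 : c + 3 * δ ≤ l a := by
    have := min_le_left (l a) (l b); rw [hδ]; linarith
  have hmin2 : c + 3 * δ ≤ l b := by
    have := min_le_right (l a) (l b); rw [hδ]; linarith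
  have ha' : a ∈ M ∩ {x | c + δ < l' x} := by
    have := abs_lt.1 (hclose a haM)
    exact ⟨haM, show c + δ < l' a by linarith⟩
  have hb' : b ∈ M ∩ {x | c + δ < l' x} := by
    have := abs_lt.1 (hclose b hbM)
    exact ⟨hbM, show c + δ < l' b by linarith⟩
  obtain ⟨x, hx, hxuv⟩ := hpre (c + δ) u v hu hv (hsub'.trans hsub) ⟨a, ha', hau⟩ ⟨b, hb', hbv⟩
  exact ⟨x, hsub' hx, hxuv⟩

/-- from open to closed superlevel sets -/
theorem preconnected_closed {X : Type*} [TopologicalSpace X] [T2Space X] {M : Set X}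
    (hM : IsCompact M) {f : X → ℝ} (hf : Continuous f)
    (h : ∀ c, IsPreconnected (M ∩ {x | c < f x})) (c : ℝ) :
    IsPreconnected (M ∩ {x | c ≤ f x}) := by
  intro u v hu hv hsub ⟨a, ⟨haM, hac⟩, hau⟩ ⟨b, ⟨hbM, hbc⟩, hbv⟩
  by_contra hne
  rw [not_nonempty_iff_eq_empty] at hne
  have hs : IsCompact (M ∩ {x | c ≤ f x}) := hM.inter_right (isClosed_le continuous_const hf)
  have hK1 : IsCompact ((M ∩ {x | c ≤ f x}) ∩ vᶜ) := hs.inter_right hv.isClosed_compl
  have hK2 : IsCompact ((M ∩ {x | c ≤ f x}) ∩ uᶜ) := hs.inter_right hu.isClosed_compl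
  have hdis : Disjoint ((M ∩ {x | c ≤ f x}) ∩ vᶜ) ((M ∩ {x | c ≤ f x}) ∩ uᶜ) := by
    rw [Set.disjoint_left]
    rintro x ⟨hx, hxv⟩ ⟨_, hxu⟩
    rcases hsub hx with h | h
    · exact hxu h
    · exact hxv h
  obtain ⟨O1, O2, hO1, hO2, hsub1, hsub2, hO⟩ := SeparatedNhds.of_isCompact_isCompact hK1 hK2 hdis
  have haO : a ∈ O1 := by
    refine hsub1 ⟨⟨haM, hac⟩, fun hav => ?_⟩
    have : a ∈ (M ∩ {x | c ≤ f x}) ∩ (u ∩ v) := ⟨⟨haM, hac⟩, hau, hav⟩
    rw [hne] at this; exact this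
  have hbO : b ∈ O2 := by
    refine hsub2 ⟨⟨hbM, hbc⟩, fun hbu => ?_⟩
    have : b ∈ (M ∩ {x | c ≤ f x}) ∩ (u ∩ v) := ⟨⟨hbM, hbc⟩, hbu, hbv⟩
    rw [hne] at this; exact this
  have hrest : ∀ x ∈ M, x ∉ O1 → x ∉ O2 → f x < c := by
    intro x hx h1 h2
    by_contra hlt
    push Not at hlt
    have hxv : x ∈ v := by
      by_contra hxv
      exact h1 (hsub1 ⟨⟨hx, hlt⟩, hxv⟩)
    have hxu : x ∈ u := by
      by_contra hxu
      exact h2 (hsub2 ⟨⟨hx, hlt⟩, hxu⟩)
    have : x ∈ (M ∩ {x | c ≤ f x}) ∩ (u ∩ v) := ⟨⟨hx, hlt⟩, hxu, hxv⟩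
    rw [hne] at this; exact this
  obtain ⟨c', hc', hc'2⟩ : ∃ c' < c, ∀ x ∈ M, x ∉ O1 → x ∉ O2 → f x ≤ c' := by
    have hK : IsCompact (M ∩ (O1ᶜ ∩ O2ᶜ)) :=
      hM.inter_right (hO1.isClosed_compl.inter hO2.isClosed_compl)
    rcases (M ∩ (O1ᶜ ∩ O2ᶜ)).eq_empty_or_nonempty with he | hn
    · refine ⟨c - 1, by linarith, fun x hx h1 h2 => ?_⟩
      have : x ∈ (M ∩ (O1ᶜ ∩ O2ᶜ)) := ⟨hx, h1, h2⟩
      rw [he] at this; exact absurd this (notMem_empty x)
    · obtain ⟨m, hm, hmax⟩ := hK.exists_isMaxOn hn hf.continuousOn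
      refine ⟨f m, hrest m hm.1 hm.2.1 hm.2.2, fun x hx h1 h2 => hmax ⟨hx, h1, h2⟩⟩
  have hcov : M ∩ {x | c' < f x} ⊆ O1 ∪ O2 := by
    rintro x ⟨hx, hxc⟩
    have hxc : c' < f x := hxc
    by_contra hno
    rw [mem_union, not_or] at hno
    exact absurd (hc'2 x hx hno.1 hno.2) (not_le.2 hxc)
  have hac' : c ≤ f a := hac
  have hbc' : c ≤ f b := hbc
  obtain ⟨x, _, hx1, hx2⟩ := h c' O1 O2 hO1 hO2 hcov
    ⟨a, ⟨haM, show c' < f a by linarith⟩, haO⟩ ⟨b, ⟨hbM, show c' < f b by linarith⟩, hbO⟩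
  exact Set.disjoint_left.1 hO hx1 hx2

/-- strict second order test: the value is strictly larger at `0` -/
theorem eventually_neg {g g1 : ℝ → ℝ} {g2 : ℝ}
    (h1 : ∀ t, HasDerivAt g (g1 t) t) (h2 : HasDerivAt g1 g2 0)
    (h0 : g 0 = 0) (h10 : g1 0 = 0) (hneg : g2 < 0) : ∀ᶠ r in 𝓝[>] (0:ℝ), g r < 0 := by
  have hs := (hasDerivAt_iff_tendsto_slope.1 h2)
  have hev : ∀ᶠ r in 𝓝[≠] (0:ℝ), slope g1 0 r < 0 := hs.eventually (gt_mem_nhds hneg)
  have hev2 : ∀ᶠ r in 𝓝[>] (0:ℝ), g1 r < 0 := by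
    have h3 : ∀ᶠ r in 𝓝[>] (0:ℝ), slope g1 0 r < 0 :=
      hev.filter_mono (nhdsWithin_mono _ (fun x hx => ne_of_gt hx))
    filter_upwards [h3, self_mem_nhdsWithin] with r hr hr0
    have hr0' : (0:ℝ) < r := hr0
    rw [slope_def_field, h10, sub_zero, sub_zero] at hr
    by_contra hge
    push Not at hge
    exact absurd hr (not_lt.2 (div_nonneg hge hr0'.le))
  obtain ⟨e, he, hI⟩ := mem_nhdsGT_iff_exists_Ioo_subset.1 hev2
  have he' : (0:ℝ) < e := he
  have hmono : StrictAntiOn g (Ico 0 e) := by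
    apply strictAntiOn_of_deriv_neg (convex_Ico _ _)
    · exact fun x _ => (h1 x).continuousAt.continuousWithinAt
    · intro x hx
      rw [interior_Ico] at hx
      rw [(h1 x).deriv]
      exact hI hx
  filter_upwards [Ioo_mem_nhdsGT he'] with r hr
  have := hmono ⟨le_refl _, he'⟩ ⟨hr.1.le, hr.2⟩ hr.1
  rwa [h0] at this

/-- second order necessary condition for a constrained local maximum, by the intermediate value
theorem -/
theorem second_order_constraint {E : Type*} [NormedAddCommGroup E] [NormedSpace ℝ E]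
    {F : E → ℝ} (hF : Continuous F) {p : E} (hp : F p = 0) {F' : E →L[ℝ] ℝ}
    (hF' : HasFDerivAt F F' p) {l : E →L[ℝ] ℝ} {lam : ℝ} (hl : l = lam • F') (hlam : 0 < lam)
    {v n : E} (hv : F' v = 0) (hn : F' n = 1) {c1 : ℝ → ℝ} {c2 : ℝ}
    (hc1 : ∀ t, HasDerivAt (fun t : ℝ => F (p + t • v)) (c1 t) t) (hc2 : HasDerivAt c1 c2 0)
    (hmax : ∀ᶠ q in 𝓝 p, F q = 0 → l q ≤ l p) : 0 ≤ c2 := by
  by_contra hneg
  push Not at hneg
  have hc10 : c1 0 = 0 := by
    have h1 : HasDerivAt (fun t : ℝ => F (p + t • v)) (F' v) 0 := by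
      have e1 : HasDerivAt (fun t : ℝ => p + t • v) v 0 := by
        simpa using ((hasDerivAt_id (0:ℝ)).smul_const v).const_add p
      have e2 : HasFDerivAt F F' (p + (0:ℝ) • v) := by simpa using hF'
      exact e2.comp_hasDerivAt (0:ℝ) e1
    rw [(hc1 0).unique h1, hv]
  have hg := eventually_neg hc1 hc2 (by simpa using hp) hc10 hneg
  obtain ⟨O, hO, hOo, hpO⟩ := eventually_nhds_iff.1 hmax
  -- pick `r₀`
  have hφ : Continuous (fun x : ℝ × ℝ => p + x.1 • v + x.2 • n) := by fun_prop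
  have hO2 : ∀ᶠ x in 𝓝 ((0:ℝ), (0:ℝ)), p + x.1 • v + x.2 • n ∈ O := by
    have : (fun x : ℝ × ℝ => p + x.1 • v + x.2 • n) (0, 0) ∈ O := by simpa using hpO
    exact hφ.continuousAt.eventually (hOo.mem_nhds this)
  obtain ⟨e, he, hball⟩ := Metric.eventually_nhds_iff.1 hO2
  have hder : HasDerivAt (fun r : ℝ => F (p + r • n)) 1 0 := by
    have e1 : HasDerivAt (fun t : ℝ => p + t • n) n 0 := by
      simpa using ((hasDerivAt_id (0:ℝ)).smul_const n).const_add p
    have e2 : HasFDerivAt F F' (p + (0:ℝ) • n) := by simpa using hF'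
    have := e2.comp_hasDerivAt (0:ℝ) e1
    rwa [hn] at this
  have hpos : ∀ᶠ r in 𝓝[>] (0:ℝ), 0 < F (p + r • n) := by
    have hs := hasDerivAt_iff_tendsto_slope.1 hder
    have hev : ∀ᶠ r in 𝓝[≠] (0:ℝ), 0 < slope (fun r : ℝ => F (p + r • n)) 0 r :=
      hs.eventually (lt_mem_nhds one_pos)
    have h3 := hev.filter_mono (nhdsWithin_mono _ (fun x (hx : x ∈ Ioi (0:ℝ)) => ne_of_gt hx))
    filter_upwards [h3, self_mem_nhdsWithin] with r hr hr0
    have hr0' : (0:ℝ) < r := hr0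
    simp only [slope_def_field, zero_smul, add_zero, hp, sub_zero] at hr
    exact (div_pos_iff_of_pos_right hr0').1 hr
  obtain ⟨r0, hr0, hr0pos, hr0e⟩ := (hpos.and (Ioo_mem_nhdsGT he)).exists
  · have hr0pos' : 0 < r0 := hr0pos
    have hcont : Continuous (fun t : ℝ => F (p + t • v + r0 • n)) := by fun_prop
    have h4 : ∀ᶠ t in 𝓝 (0:ℝ), 0 < F (p + t • v + r0 • n) := by
      apply hcont.continuousAt.eventually (lt_mem_nhds _)
      simpa using hr0
    have h5 : ∀ᶠ t in 𝓝[>] (0:ℝ), 0 < F (p + t • v + r0 • n) := h4.filter_mono nhdsWithin_le_nhds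
    obtain ⟨t, ⟨ht1, ht2⟩, ht0, hte⟩ := ((hg.and h5).and (Ioo_mem_nhdsGT he)).exists
    have hc : ContinuousOn (fun r : ℝ => F (p + t • v + r • n)) (Icc 0 r0) := by
      have : Continuous (fun r : ℝ => F (p + t • v + r • n)) := by fun_prop
      exact this.continuousOn
    have hivt := intermediate_value_Icc hr0pos'.le hc
    have h0mem : (0:ℝ) ∈ Icc (F (p + t • v + (0:ℝ) • n)) (F (p + t • v + r0 • n)) := by
      constructor
      · simpa using ht1.le
      · exact ht2.le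
    obtain ⟨r, hr, hFr⟩ := hivt h0mem
    have hFr : F (p + t • v + r • n) = 0 := hFr
    have hrpos : 0 < r := by
      rcases eq_or_lt_of_le hr.1 with h | h
      · rw [← h] at hFr
        simp only [zero_smul, add_zero] at hFr
        linarith
      · exact h
    have hin : p + t • v + r • n ∈ O := by
      apply hball (y := (t, r))
      rw [Prod.dist_eq]
      simp only [dist_zero_right, Real.norm_eq_abs]
      rw [abs_of_pos ht0, abs_of_pos hrpos]
      exact max_lt hte (lt_of_le_of_lt hr.2 hr0e)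
    have hle := hO _ hin hFr
    rw [hl] at hle
    simp only [_root_.smul_apply, map_add, map_smul, hv, hn, smul_eq_mul, mul_zero,
      add_zero, mul_one] at hle
    nlinarith [mul_pos hlam hrpos]

end Pool.Agent.Helper331.White
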