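import Pool.Agent.Helper331.WDefs

/-! Written by helper536 (job 2117). -/

set_option autoImplicit false

open Set Filter Topology
open scoped ContDiff Manifold

namespace Pool.Agent.Helper331.White

abbrev E2 : Type := EuclideanSpace ℝ (Fin 2)

lemma finrank_dual3 : Module.finrank ℝ (E3 →L[ℝ] ℝ) = 3 := by
  have h := (LinearMap.toContinuousLinearMap : (E3 →ₗ[ℝ] ℝ) ≃ₗ[ℝ] (E3 →L[ℝ] ℝ)).finrank_eq
  rw [← h]
  have h2 : Module.finrank ℝ (E3 →ₗ[ℝ] ℝ) = Module.finrank ℝ E3 := Subspace.dual_finrank_eq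
  rw [h2]
  simp

lemma exists_third (f t : E3 →L[ℝ] ℝ) (h : LinearIndependent ℝ ![f, t]) :
    ∃ v : E3 →L[ℝ] ℝ, ∀ x, f x = 0 → t x = 0 → v x = 0 → x = 0 := by
  obtain ⟨v, hv⟩ := exists_linearIndependent_snoc_of_lt_finrank h (by rw [finrank_dual3]; norm_num)
  refine ⟨v, fun x hf ht hv0 => ?_⟩
  have hspan := hv.span_eq_top_of_card_eq_finrank' (by rw [finrank_dual3]; simp)
  have hall : ∀ φ : E3 →L[ℝ] ℝ, φ x = 0 := by
    intro φ
    have hφ : φ ∈ Submodule.span ℝ (range (Fin.snoc ![f, t] v : Fin 3 → E3 →L[ℝ] ℝ)) := by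
      rw [hspan]; trivial
    induction hφ using Submodule.span_induction with
    | mem y hy =>
      obtain ⟨i, rfl⟩ := hy
      fin_cases i
      · exact hf
      · exact ht
      · exact hv0
    | zero => rfl
    | add a b _ _ ha hb => rw [add_apply, ha, hb, add_zero]
    | smul c a _ ha => rw [smul_apply, ha, smul_zero]
  have h1 := hall (innerSL ℝ x)
  rw [innerSL_apply_apply] at h1
  exact inner_self_eq_zero.1 h1

lemma exists_second (f : E3 →L[ℝ] ℝ) (hf : f ≠ 0) :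
    ∃ t : E3 →L[ℝ] ℝ, LinearIndependent ℝ ![f, t] := by
  have h1 : LinearIndependent ℝ ![f] := by
    rw [linearIndependent_unique_iff]
    exact hf
  obtain ⟨t, ht⟩ := exists_linearIndependent_snoc_of_lt_finrank h1
    (by rw [finrank_dual3]; norm_num)
  have e : (Fin.snoc ![f] t : Fin 2 → (E3 →L[ℝ] ℝ)) = ![f, t] := by
    funext i
    fin_cases i <;> rfl
  exact ⟨t, e ▸ ht⟩

lemma exists_loc {F u : E3 → ℝ} (hF : ContDiff ℝ ∞ F) (hu : ContDiff ℝ ∞ u) (v : E3 →L[ℝ] ℝ)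
    (p : E3) (h : ∀ x, fderiv ℝ F p x = 0 → fderiv ℝ u p x = 0 → v x = 0 → x = 0) :
    ∃ e : OpenPartialHomeomorph E3 (ℝ × E2), p ∈ e.source ∧
      (∀ q, e q = (F q, !₂[u q, v q])) ∧ ContDiffOn ℝ ∞ e.symm e.target := by
  set G : E3 → ℝ × E2 := fun q => (F q, !₂[u q, v q]) with hG
  have hGs : ContDiff ℝ ∞ G := by
    apply hF.prodMk
    rw [contDiff_euclidean]
    intro i
    fin_cases i
    · exact hu
    · exact v.contDiff
  have hGd : HasFDerivAt G (fderiv ℝ G p) p := (hGs.differentiable (by simp) p).hasFDerivAt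
  have hinj : Function.Injective (fderiv ℝ G p) := by
    rw [injective_iff_map_eq_zero]
    intro x hx
    apply h
    · have h1 : HasFDerivAt F ((ContinuousLinearMap.fst ℝ ℝ E2).comp (fderiv ℝ G p)) p :=
        (ContinuousLinearMap.fst ℝ ℝ E2).hasFDerivAt.comp p hGd
      rw [h1.fderiv, ContinuousLinearMap.comp_apply, hx]
      rfl
    · have h1 : HasFDerivAt u (((EuclideanSpace.proj (0 : Fin 2)).comp
          (ContinuousLinearMap.snd ℝ ℝ E2)).comp (fderiv ℝ G p)) p :=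
        ((EuclideanSpace.proj (0 : Fin 2)).comp
          (ContinuousLinearMap.snd ℝ ℝ E2)).hasFDerivAt.comp p hGd
      rw [h1.fderiv, ContinuousLinearMap.comp_apply, hx, map_zero]
    · have h1 : HasFDerivAt v (((EuclideanSpace.proj (1 : Fin 2)).comp
          (ContinuousLinearMap.snd ℝ ℝ E2)).comp (fderiv ℝ G p)) p :=
        ((EuclideanSpace.proj (1 : Fin 2)).comp
          (ContinuousLinearMap.snd ℝ ℝ E2)).hasFDerivAt.comp p hGd
      have h2 := h1.unique v.hasFDerivAt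
      rw [← h2, ContinuousLinearMap.comp_apply, hx, map_zero]
  have hfr : Module.finrank ℝ E3 = Module.finrank ℝ (ℝ × E2) := by
    simp
  let L : E3 ≃L[ℝ] (ℝ × E2) :=
    (LinearEquiv.ofInjectiveOfFinrankEq (fderiv ℝ G p : E3 →ₗ[ℝ] (ℝ × E2)) hinj hfr).toContinuousLinearEquiv
  have hL : (L : E3 →L[ℝ] (ℝ × E2)) = fderiv ℝ G p := by
    ext x <;> rfl
  have hGL : HasFDerivAt G (L : E3 →L[ℝ] (ℝ × E2)) p := by rw [hL]; exact hGd
  set e0 := (hGs.contDiffAt (x := p)).toOpenPartialHomeomorph G hGL (by simp) with he0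
  have hpe0 : p ∈ e0.source := ContDiffAt.mem_toOpenPartialHomeomorph_source _ _ _
  set D : Set E3 := {z | fderiv ℝ G z ∈ range ((↑) : (E3 ≃L[ℝ] (ℝ × E2)) → E3 →L[ℝ] (ℝ × E2))} with hD
  have hDo : IsOpen D := by
    have hc : Continuous (fderiv ℝ G) := hGs.continuous_fderiv (by simp)
    exact (ContinuousLinearEquiv.isOpen (𝕜 := ℝ) (E := E3) (F := ℝ × E2)).preimage hc
  have hpD : p ∈ D := ⟨L, hL⟩
  refine ⟨e0.restrOpen D hDo, ⟨hpe0, hpD⟩, fun q => rfl, ?_⟩
  intro z hz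
  have hzs := (e0.restrOpen D hDo).map_target hz
  obtain ⟨f', hf'⟩ := hzs.2
  have h1 : ContDiffAt ℝ ∞ (e0.restrOpen D hDo).symm z := by
    apply (e0.restrOpen D hDo).contDiffAt_symm hz (f₀' := f')
    · rw [hf']
      exact ((hGs.differentiable (by simp)) _).hasFDerivAt
    · exact hGs.contDiffAt
  exact h1.contDiffWithinAt


/-- adapted coordinates at a point of `{F = 0, T ≥ 0}` -/
lemma exists_adapted {F T : E3 → ℝ} (hF : ContDiff ℝ ∞ F) (hT : ContDiff ℝ ∞ T)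
    (h1 : ∀ p, F p = 0 → 0 ≤ T p → fderiv ℝ F p ≠ 0)
    (h2 : ∀ p, F p = 0 → T p = 0 → LinearIndependent ℝ ![fderiv ℝ F p, fderiv ℝ T p])
    (p : E3) (hp : F p = 0) (hp' : 0 ≤ T p) :
    ∃ (u : E3 → ℝ) (v : E3 →L[ℝ] ℝ) (e : OpenPartialHomeomorph E3 (ℝ × E2)), ContDiff ℝ ∞ u ∧
      p ∈ e.source ∧ (∀ q, e q = (F q, !₂[u q, v q])) ∧ ContDiffOn ℝ ∞ e.symm e.target ∧
      (∀ q ∈ e.source, (0 ≤ T q ↔ 0 ≤ u q) ∧ (T q = 0 ↔ u q = 0)) := by
  rcases hp'.eq_or_lt with h0 | h0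
  · obtain ⟨v, hv⟩ := exists_third _ _ (h2 p hp h0.symm)
    obtain ⟨e, he1, he2, he3⟩ := exists_loc hF hT v p hv
    exact ⟨T, v, e, hT, he1, he2, he3, fun q _ => ⟨Iff.rfl, Iff.rfl⟩⟩
  · obtain ⟨t, ht⟩ := exists_second _ (h1 p hp hp')
    obtain ⟨v, hv⟩ := exists_third _ _ ht
    set u : E3 → ℝ := fun q => t q + (1 - t p) with hu
    have hus : ContDiff ℝ ∞ u := t.contDiff.add contDiff_const
    have hud : fderiv ℝ u p = t := (t.hasFDerivAt.add_const (1 - t p)).fderiv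
    obtain ⟨e, he1, he2, he3⟩ := exists_loc hF hus v p (by
      intro x hx hx' hx''
      rw [hud] at hx'
      exact hv x hx hx' hx'')
    have hOo : IsOpen {q : E3 | 0 < T q ∧ 0 < u q} :=
      (isOpen_lt continuous_const hT.continuous).inter (isOpen_lt continuous_const hus.continuous)
    refine ⟨u, v, e.restrOpen _ hOo, hus, ⟨he1, h0, ?_⟩, he2, ?_, ?_⟩
    · simp only [hu]; linarith
    · exact he3.mono (fun z hz => hz.1)
    · intro q hq
      have hq' := hq.2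
      exact ⟨⟨fun _ => hq'.2.le, fun _ => hq'.1.le⟩, ⟨fun h => absurd h hq'.1.ne',
        fun h => absurd h hq'.2.ne'⟩⟩

/-- the half space chart -/
lemma exists_hchart {F T : E3 → ℝ} (u : E3 → ℝ) (v : E3 →L[ℝ] ℝ) (hu : ContDiff ℝ ∞ u)
    (e : OpenPartialHomeomorph E3 (ℝ × E2)) (he : ∀ q, e q = (F q, !₂[u q, v q]))
    (hes : ContDiffOn ℝ ∞ e.symm e.target)
    (hsgn : ∀ q ∈ e.source, (0 ≤ T q ↔ 0 ≤ u q) ∧ (T q = 0 ↔ u q = 0))
    {M : Set E3} (hM : M = {p | F p = 0 ∧ 0 ≤ T p}) (p : M) :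
    ∃ c : OpenPartialHomeomorph M (EuclideanHalfSpace 2),
      c.source = {m : M | (m : E3) ∈ e.source} ∧
      c.target = {w : EuclideanHalfSpace 2 | ((0 : ℝ), w.1) ∈ e.target} ∧
      (∀ m : M, (m : E3) ∈ e.source → (c m).1 = !₂[u m, v m]) ∧
      (∀ w : EuclideanHalfSpace 2, ((0 : ℝ), w.1) ∈ e.target →
        ((c.symm w : M) : E3) = e.symm ((0 : ℝ), w.1)) := by
  classical
  have hMem : ∀ q : E3, q ∈ M ↔ F q = 0 ∧ 0 ≤ T q := fun q => by rw [hM]; rfl
  have key : ∀ w : EuclideanHalfSpace 2, ((0 : ℝ), w.1) ∈ e.target →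
      F (e.symm ((0 : ℝ), w.1)) = 0 ∧ !₂[u (e.symm ((0 : ℝ), w.1)), v (e.symm ((0 : ℝ), w.1))] = w.1 := by
    intro w hw
    have h1 := e.right_inv hw
    rw [he] at h1
    exact ⟨congrArg Prod.fst h1, congrArg Prod.snd h1⟩
  have hmem : ∀ w : EuclideanHalfSpace 2, ((0 : ℝ), w.1) ∈ e.target →
      e.symm ((0 : ℝ), w.1) ∈ M := by
    intro w hw
    rw [hMem]
    obtain ⟨k1, k2⟩ := key w hw
    refine ⟨k1, ?_⟩
    rw [(hsgn _ (e.map_target hw)).1]
    have h3 : u (e.symm ((0 : ℝ), w.1)) = w.1 0 := by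
      have := congrArg (fun z : E2 => z 0) k2
      simpa using this
    rw [h3]
    exact w.2
  have hu0 : ∀ m : M, (m : E3) ∈ e.source → 0 ≤ u m := fun m hm =>
    ((hsgn _ hm).1).1 ((hMem _).1 m.2).2
  let toF : M → EuclideanHalfSpace 2 := fun m => ⟨!₂[max (u m) 0, v m], by simp⟩
  have htoF : ∀ m : M, (m : E3) ∈ e.source → (toF m).1 = !₂[u m, v m] := by
    intro m hm
    simp only [toF]
    rw [max_eq_left (hu0 m hm)]
  have hem : ∀ m : M, (m : E3) ∈ e.source → ((0 : ℝ), (toF m).1) = e m := by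
    intro m hm
    rw [htoF m hm, he, ((hMem _).1 m.2).1]
  let invF : EuclideanHalfSpace 2 → M := fun w =>
    if h : ((0 : ℝ), w.1) ∈ e.target then ⟨e.symm ((0 : ℝ), w.1), hmem w h⟩ else p
  have hinvF : ∀ w : EuclideanHalfSpace 2, ((0 : ℝ), w.1) ∈ e.target →
      ((invF w : M) : E3) = e.symm ((0 : ℝ), w.1) := by
    intro w hw
    simp only [invF]
    rw [dif_pos hw]
  have hcont : Continuous (fun w : EuclideanHalfSpace 2 => ((0 : ℝ), w.1)) :=
    continuous_const.prodMk continuous_subtype_val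
  let c : OpenPartialHomeomorph M (EuclideanHalfSpace 2) :=
    { toFun := toF
      invFun := invF
      source := {m : M | (m : E3) ∈ e.source}
      target := {w : EuclideanHalfSpace 2 | ((0 : ℝ), w.1) ∈ e.target}
      map_source' := by
        intro m hm
        change ((0 : ℝ), (toF m).1) ∈ e.target
        rw [hem m hm]
        exact e.map_source hm
      map_target' := by
        intro w hw
        change ((invF w : M) : E3) ∈ e.source
        rw [hinvF w hw]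
        exact e.map_target hw
      left_inv' := by
        intro m hm
        apply Subtype.ext
        have h1 : ((0 : ℝ), (toF m).1) ∈ e.target := by
          rw [hem m hm]; exact e.map_source hm
        rw [hinvF _ h1, hem m hm, e.left_inv hm]
      right_inv' := by
        intro w hw
        apply Subtype.ext
        have h1 : ((invF w : M) : E3) ∈ e.source := by
          rw [hinvF w hw]; exact e.map_target hw
        rw [htoF _ h1, hinvF w hw]
        exact (key w hw).2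
      open_source := e.open_source.preimage continuous_subtype_val
      open_target := e.open_target.preimage hcont
      continuousOn_toFun := by
        apply Continuous.continuousOn
        apply Continuous.subtype_mk
        have huc : Continuous (fun m : M => u m) := hu.continuous.comp continuous_subtype_val
        have hvc : Continuous (fun m : M => v m) := v.continuous.comp continuous_subtype_val
        apply (PiLp.continuous_toLp 2 _).comp
        apply continuous_pi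
        intro i
        fin_cases i
        · exact huc.max continuous_const
        · exact hvc
      continuousOn_invFun := by
        rw [Topology.IsInducing.subtypeVal.continuousOn_iff]
        have h1 : ContinuousOn (fun w : EuclideanHalfSpace 2 => e.symm ((0 : ℝ), w.1))
            {w : EuclideanHalfSpace 2 | ((0 : ℝ), w.1) ∈ e.target} :=
          e.symm.continuousOn.comp hcont.continuousOn (fun w hw => hw)
        exact h1.congr (fun w hw => hinvF w hw) }
  exact ⟨c, rfl, rfl, htoF, hinvF⟩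


/-- JOB W2: a regular piece `{F = 0, T ≥ 0}` of a level set in Euclidean three-space is a smooth
surface with boundary `{F = 0, T = 0}`, and the inclusion is an immersion. -/
theorem exists_mfd_boundary {F T : EuclideanSpace ℝ (Fin 3) → ℝ}
    (hF : ContDiff ℝ ∞ F) (hT : ContDiff ℝ ∞ T)
    (h1 : ∀ p, F p = 0 → 0 ≤ T p → fderiv ℝ F p ≠ 0)
    (h2 : ∀ p, F p = 0 → T p = 0 → LinearIndependent ℝ ![fderiv ℝ F p, fderiv ℝ T p])
    {M : Set (EuclideanSpace ℝ (Fin 3))} (hM : M = {p | F p = 0 ∧ 0 ≤ T p}) :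
    ∃ (_ : ChartedSpace (EuclideanHalfSpace 2) M) (_ : IsManifold (𝓡∂ 2) ∞ M),
      ContMDiff (𝓡∂ 2) 𝓘(ℝ, EuclideanSpace ℝ (Fin 3)) ∞
        (Subtype.val : M → EuclideanSpace ℝ (Fin 3)) ∧
      (∀ x : M, Function.Injective (mfderiv (𝓡∂ 2) 𝓘(ℝ, EuclideanSpace ℝ (Fin 3))
        (Subtype.val : M → EuclideanSpace ℝ (Fin 3)) x)) ∧
      (∀ (x : M) (v : TangentSpace (𝓡∂ 2) x), fderiv ℝ F x.1
        (mfderiv (𝓡∂ 2) 𝓘(ℝ, EuclideanSpace ℝ (Fin 3))
          (Subtype.val : M → EuclideanSpace ℝ (Fin 3)) x v) = 0) ∧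
      (𝓡∂ 2).boundary M = {x : M | T x.1 = 0} := by
  have hMem : ∀ q : E3, q ∈ M ↔ F q = 0 ∧ 0 ≤ T q := fun q => by rw [hM]; rfl
  have H : ∀ p : M, ∃ (u : E3 → ℝ) (v : E3 →L[ℝ] ℝ) (e : OpenPartialHomeomorph E3 (ℝ × E2))
      (c : OpenPartialHomeomorph M (EuclideanHalfSpace 2)), ContDiff ℝ ∞ u ∧
      (p : E3) ∈ e.source ∧ (∀ q, e q = (F q, !₂[u q, v q])) ∧ ContDiffOn ℝ ∞ e.symm e.target ∧
      (∀ q ∈ e.source, (0 ≤ T q ↔ 0 ≤ u q) ∧ (T q = 0 ↔ u q = 0)) ∧
      c.source = {m : M | (m : E3) ∈ e.source} ∧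
      c.target = {w : EuclideanHalfSpace 2 | ((0 : ℝ), w.1) ∈ e.target} ∧
      (∀ m : M, (m : E3) ∈ e.source → (c m).1 = !₂[u m, v m]) ∧
      (∀ w : EuclideanHalfSpace 2, ((0 : ℝ), w.1) ∈ e.target →
        ((c.symm w : M) : E3) = e.symm ((0 : ℝ), w.1)) := by
    intro p
    obtain ⟨hp, hp'⟩ := (hMem p).1 p.2
    obtain ⟨u, v, e, a1, a2, a3, a4, a5⟩ := exists_adapted hF hT h1 h2 p hp hp'
    obtain ⟨c, c1, c2, c3, c4⟩ := exists_hchart u v a1 e a3 a4 a5 hM p
    exact ⟨u, v, e, c, a1, a2, a3, a4, a5, c1, c2, c3, c4⟩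
  choose u v e c hu hpe he hes hsgn hcs hct hc hcsymm using H
  have hmc : ∀ p : M, p ∈ (c p).source := fun p => by rw [hcs]; exact hpe p
  let C : ChartedSpace (EuclideanHalfSpace 2) M :=
    { atlas := range c
      chartAt := c
      mem_chart_source := hmc
      chart_mem_atlas := fun x => ⟨x, rfl⟩ }
  -- the coordinate map as a smooth map
  let P : M → E3 → E2 := fun p q => !₂[u p q, v p q]
  have hPs : ∀ p, ContDiff ℝ ∞ (P p) := by
    intro p
    rw [contDiff_euclidean]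
    intro i
    fin_cases i
    · exact hu p
    · exact (v p).contDiff
  -- the parametrisation
  let φ : M → E2 → E3 := fun p z => (e p).symm ((0 : ℝ), z)
  let V : M → Set E2 := fun p => {z : E2 | ((0 : ℝ), z) ∈ (e p).target}
  have hVo : ∀ p, IsOpen (V p) := fun p =>
    (e p).open_target.preimage (continuous_const.prodMk continuous_id)
  have hφs : ∀ p, ContDiffOn ℝ ∞ (φ p) (V p) := by
    intro p
    exact (hes p).comp (contDiff_const.prodMk contDiff_id).contDiffOn (fun z hz => hz)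
  have hφe : ∀ p, ∀ z ∈ V p, F (φ p z) = 0 ∧ P p (φ p z) = z := by
    intro p z hz
    have h3 := (e p).right_inv hz
    rw [he] at h3
    exact ⟨congrArg Prod.fst h3, congrArg Prod.snd h3⟩
  have hman : IsManifold (𝓡∂ 2) ∞ M := by
    apply isManifold_of_contDiffOn
    rintro _ _ ⟨a, rfl⟩ ⟨b, rfl⟩
    have h3 : ContDiffOn ℝ ∞ (fun z => P b (φ a z)) (V a) := (hPs b).comp_contDiffOn (hφs a)
    refine (h3.mono ?_).congr ?_
    · rintro z ⟨hz1, ⟨w, rfl⟩⟩
      have h4 : (𝓡∂ 2).symm ((𝓡∂ 2) w) = w := (𝓡∂ 2).left_inv w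
      have h5 : (𝓡∂ 2).symm ((𝓡∂ 2) w) ∈ ((c a).symm ≫ₕ c b).source := hz1
      rw [h4, OpenPartialHomeomorph.trans_source] at h5
      have h6 : w ∈ (c a).target := h5.1
      rw [hct] at h6
      exact h6
    · rintro z ⟨hz1, ⟨w, rfl⟩⟩
      have h4 : (𝓡∂ 2).symm ((𝓡∂ 2) w) = w := (𝓡∂ 2).left_inv w
      have h5 : (𝓡∂ 2).symm ((𝓡∂ 2) w) ∈ ((c a).symm ≫ₕ c b).source := hz1
      rw [h4, OpenPartialHomeomorph.trans_source] at h5
      have h6 : w ∈ (c a).target := h5.1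
      rw [hct] at h6
      have h7 : (c a).symm w ∈ (c b).source := h5.2
      rw [hcs] at h7
      simp only [Function.comp_apply, OpenPartialHomeomorph.coe_trans]
      rw [h4]
      change (c b ((c a).symm w)).1 = _
      rw [hc b _ h7, hcsymm a w h6]
      rfl
  have hx0 : ∀ x : M, ((c x) x).1 ∈ V x := by
    intro x
    have h3 := (c x).map_source (hmc x)
    rw [hct] at h3
    exact h3
  have hφx : ∀ x : M, φ x ((c x) x).1 = x := by
    intro x
    have h3 := hcsymm x ((c x) x) (hx0 x)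
    rw [(c x).left_inv (hmc x)] at h3
    exact h3.symm
  have hφd : ∀ x : M, HasFDerivAt (φ x) (fderiv ℝ (φ x) ((c x) x).1) ((c x) x).1 := by
    intro x
    have h3 : ContDiffAt ℝ ∞ (φ x) ((c x) x).1 :=
      (hφs x).contDiffAt ((hVo x).mem_nhds (hx0 x))
    exact (h3.differentiableAt (by simp)).hasFDerivAt
  -- the inclusion in the chart
  have hwr : ∀ x : M, ∀ w : EuclideanHalfSpace 2, w.1 ∈ V x →
      (((c x).symm ((𝓡∂ 2).symm ((𝓡∂ 2) w)) : M) : E3) = φ x ((𝓡∂ 2) w) := by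
    intro x w hw
    rw [(𝓡∂ 2).left_inv w, hcsymm x w hw]
    rfl
  have hwr2 : ∀ x : M, (fun z => (((c x).symm ((𝓡∂ 2).symm z) : M) : E3)) =ᶠ[𝓝[range (𝓡∂ 2)]
      ((𝓡∂ 2) (c x x))] (φ x) := by
    intro x
    have h3 : V x ∈ 𝓝[range (𝓡∂ 2)] ((𝓡∂ 2) (c x x)) :=
      mem_nhdsWithin_of_mem_nhds ((hVo x).mem_nhds (hx0 x))
    filter_upwards [h3, self_mem_nhdsWithin] with z hz1 hz2
    obtain ⟨w, rfl⟩ := hz2
    exact hwr x w hz1
  have hwr3 : ∀ x : M, (((c x).symm ((𝓡∂ 2).symm ((𝓡∂ 2) (c x x))) : M) : E3) =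
      φ x ((𝓡∂ 2) (c x x)) := fun x => hwr x (c x x) (hx0 x)
  have hsm : ∀ x : M, ContMDiffAt (𝓡∂ 2) 𝓘(ℝ, E3) ∞ (Subtype.val : M → E3) x := by
    intro x
    rw [contMDiffAt_iff]
    refine ⟨continuous_subtype_val.continuousAt, ?_⟩
    have h3 : ContDiffAt ℝ ∞ (φ x) ((c x) x).1 :=
      (hφs x).contDiffAt ((hVo x).mem_nhds (hx0 x))
    have h4 : ContDiffWithinAt ℝ ∞ (fun z => (((c x).symm ((𝓡∂ 2).symm z) : M) : E3))
        (range (𝓡∂ 2)) ((𝓡∂ 2) (c x x)) :=
      (h3.contDiffWithinAt (s := range (𝓡∂ 2))).congr_of_eventuallyEq (hwr2 x) (hwr3 x)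
    exact h4
  have hmf : ∀ x : M, mfderiv (𝓡∂ 2) 𝓘(ℝ, E3) (Subtype.val : M → E3) x =
      fderiv ℝ (φ x) ((c x) x).1 := by
    intro x
    have hmd : MDifferentiableAt (𝓡∂ 2) 𝓘(ℝ, E3) (Subtype.val : M → E3) x :=
      (hsm x).mdifferentiableAt (by simp)
    rw [hmd.mfderiv]
    have h5 : HasFDerivWithinAt (fun z => (((c x).symm ((𝓡∂ 2).symm z) : M) : E3))
        (fderiv ℝ (φ x) ((c x) x).1) (range (𝓡∂ 2)) ((𝓡∂ 2) (c x x)) := by
      have h6 : HasFDerivWithinAt (φ x) (fderiv ℝ (φ x) ((c x) x).1) (range (𝓡∂ 2))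
          ((𝓡∂ 2) (c x x)) := (hφd x).hasFDerivWithinAt
      exact h6.congr_of_eventuallyEq (hwr2 x) (hwr3 x)
    have h7 : UniqueDiffWithinAt ℝ (range (𝓡∂ 2)) ((𝓡∂ 2) (c x x)) :=
      (𝓡∂ 2).uniqueDiffWithinAt_image
    exact h5.fderivWithin h7
  refine ⟨C, hman, hsm, ?_, ?_, ?_⟩
  · intro x
    rw [hmf x]
    have h3 : HasFDerivAt (fun z => P x (φ x z)) ((fderiv ℝ (P x) (φ x ((c x) x).1)).comp
        (fderiv ℝ (φ x) ((c x) x).1)) ((c x) x).1 :=
      (((hPs x).differentiable (by simp)) _).hasFDerivAt.comp _ (hφd x)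
    have h4 : HasFDerivAt (fun z : E2 => z) ((fderiv ℝ (P x) (φ x ((c x) x).1)).comp
        (fderiv ℝ (φ x) ((c x) x).1)) ((c x) x).1 := by
      apply h3.congr_of_eventuallyEq
      filter_upwards [(hVo x).mem_nhds (hx0 x)] with z hz
      exact ((hφe x z hz).2).symm
    have h5 := h4.unique (hasFDerivAt_id _)
    intro a b hab
    have h6 : ∀ a, fderiv ℝ (P x) (φ x ((c x) x).1) (fderiv ℝ (φ x) ((c x) x).1 a) = a := fun a =>
      congrArg (fun f => f a) h5
    exact (h6 a).symm.trans ((congrArg _ hab).trans (h6 b))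
  · intro x a
    rw [hmf x]
    have h3 : HasFDerivAt (fun z => F (φ x z)) ((fderiv ℝ F (φ x ((c x) x).1)).comp
        (fderiv ℝ (φ x) ((c x) x).1)) ((c x) x).1 :=
      ((hF.differentiable (by simp)) _).hasFDerivAt.comp _ (hφd x)
    have h4 : HasFDerivAt (fun _ : E2 => (0 : ℝ)) ((fderiv ℝ F (φ x ((c x) x).1)).comp
        (fderiv ℝ (φ x) ((c x) x).1)) ((c x) x).1 := by
      apply h3.congr_of_eventuallyEq
      filter_upwards [(hVo x).mem_nhds (hx0 x)] with z hz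
      exact ((hφe x z hz).1).symm
    have h5 := h4.unique (hasFDerivAt_const _ _)
    rw [hφx x] at h5
    exact congrArg (fun f => f a) h5
  · ext x
    have h3 : x ∈ (𝓡∂ 2).boundary M ↔ extChartAt (𝓡∂ 2) x x ∈ frontier (range (𝓡∂ 2)) :=
      ModelWithCorners.isBoundaryPoint_iff
    rw [h3, frontier_range_modelWithCornersEuclideanHalfSpace]
    have h4 : (extChartAt (𝓡∂ 2) x x) = (c x x).1 := rfl
    rw [h4, hc x x (hpe x)]
    change (0 : ℝ) = u x x ↔ T x = 0
    rw [(hsgn x _ (hpe x)).2]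
    exact eq_comm

end Pool.Agent.Helper331.White
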