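import Pool.Agent.Helper331.WDefs

/-! Written by helper790 (job 2116). -/

set_option autoImplicit false

open Set Filter Topology
open scoped ContDiff

namespace Pool.Agent.Helper331.White

noncomputable section

namespace W1

/-! ### the function `A` -/

def bump (t : ℝ) : ℝ := expNegInvGlue (1 / 10 + t) * expNegInvGlue (1 / 10 - t)

lemma bump_smooth : ContDiff ℝ ∞ bump := by
  have h : ContDiff ℝ ∞ expNegInvGlue := expNegInvGlue.contDiff
  unfold bump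
  exact (h.comp (contDiff_const.add contDiff_id)).mul (h.comp (contDiff_const.sub contDiff_id))

lemma bump_neg (t : ℝ) : bump (-t) = bump t := by
  unfold bump
  rw [mul_comm]
  congr 2
  ring

lemma bump_pos {t : ℝ} (h : |t| < 1 / 10) : 0 < bump t := by
  rw [abs_lt] at h
  exact mul_pos (expNegInvGlue.pos_of_pos (by linarith)) (expNegInvGlue.pos_of_pos (by linarith))

lemma bump_zero {t : ℝ} (h : 1 / 10 ≤ t) : bump t = 0 := by
  unfold bump
  rw [expNegInvGlue.zero_of_nonpos (show 1 / 10 - t ≤ 0 by linarith), mul_zero]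

/-- antiderivative from 0 -/
def prim (f : ℝ → ℝ) (t : ℝ) : ℝ := ∫ u in (0 : ℝ)..t, f u

lemma prim_hasDerivAt {f : ℝ → ℝ} (hf : Continuous f) (t : ℝ) : HasDerivAt (prim f) (f t) t := by
  unfold prim
  exact (hf.integral_hasStrictDerivAt 0 t).hasDerivAt

lemma prim_smooth {f : ℝ → ℝ} (hf : ContDiff ℝ ∞ f) : ContDiff ℝ ∞ (prim f) := by
  rw [contDiff_infty_iff_deriv]
  refine ⟨fun t => (prim_hasDerivAt hf.continuous t).differentiableAt, ?_⟩
  have : deriv (prim f) = f := by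
    funext t
    exact (prim_hasDerivAt hf.continuous t).deriv
  rw [this]
  exact hf

lemma prim_neg_of_even {f : ℝ → ℝ} (h : ∀ t, f (-t) = f t) (t : ℝ) :
    prim f (-t) = - prim f t := by
  unfold prim
  have h1 := intervalIntegral.integral_comp_neg (a := 0) (b := t) f
  simp only [h, neg_zero] at h1
  rw [intervalIntegral.integral_symm, ← h1]

lemma prim_neg_of_odd {f : ℝ → ℝ} (h : ∀ t, f (-t) = - f t) (t : ℝ) :
    prim f (-t) = prim f t := by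
  unfold prim
  have h1 := intervalIntegral.integral_comp_neg (a := 0) (b := t) f
  simp only [h, neg_zero, intervalIntegral.integral_neg] at h1
  rw [intervalIntegral.integral_symm, ← h1, neg_neg]

def Bi : ℝ → ℝ := prim bump

lemma Bi_pos : 0 < Bi (1 / 10) := by
  unfold Bi prim
  apply intervalIntegral.intervalIntegral_pos_of_pos_on
    (bump_smooth.continuous.intervalIntegrable _ _) _ (by norm_num)
  intro x hx
  apply bump_pos
  rw [abs_lt]
  constructor <;> linarith [hx.1, hx.2]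

lemma Bi_const {t : ℝ} (h : 1 / 10 ≤ t) : Bi t = Bi (1 / 10) := by
  unfold Bi prim
  rw [← intervalIntegral.integral_add_adjacent_intervals (b := 1 / 10)
    (bump_smooth.continuous.intervalIntegrable _ _) (bump_smooth.continuous.intervalIntegrable _ _)]
  have : ∫ u in (1 / 10 : ℝ)..t, bump u = 0 := by
    rw [intervalIntegral.integral_congr (g := fun _ => (0 : ℝ))]
    · simp
    · intro u hu
      rw [uIcc_of_le h] at hu
      exact bump_zero hu.1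
  rw [this, add_zero]

def A1 (t : ℝ) : ℝ := Bi t / Bi (1 / 10)

lemma A1_smooth : ContDiff ℝ ∞ A1 := (prim_smooth bump_smooth).div_const _

lemma A1_neg (t : ℝ) : A1 (-t) = - A1 t := by
  unfold A1 Bi
  rw [prim_neg_of_even bump_neg, neg_div]

lemma A1_one {t : ℝ} (h : 1 / 10 ≤ t) : A1 t = 1 := by
  unfold A1
  rw [Bi_const h, div_self Bi_pos.ne']

def A2 (t : ℝ) : ℝ := bump t / Bi (1 / 10)

def A (t : ℝ) : ℝ := 1 / 10 - prim A1 (1 / 10) + prim A1 t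

lemma A_pos {t : ℝ} (h : 1 / 10 ≤ t) : A t = t := by
  unfold A prim
  rw [← intervalIntegral.integral_add_adjacent_intervals (a := 0) (b := 1 / 10) (c := t)
    (A1_smooth.continuous.intervalIntegrable _ _) (A1_smooth.continuous.intervalIntegrable _ _)]
  have : ∫ u in (1 / 10 : ℝ)..t, A1 u = t - 1 / 10 := by
    rw [intervalIntegral.integral_congr (g := fun _ => (1 : ℝ))]
    · simp
    · intro u hu
      rw [uIcc_of_le h] at hu
      exact A1_one hu.1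
  rw [this]
  ring

lemma A_even (t : ℝ) : A (-t) = A t := by
  unfold A
  rw [prim_neg_of_odd A1_neg]

/-! ### the function `s` -/

lemma g_deriv (x : ℝ) : HasDerivAt expNegInvGlue (x⁻¹ ^ 2 * expNegInvGlue x) x := by
  have h := expNegInvGlue.hasDerivAt_polynomial_eval_inv_mul 1 x
  simpa using h

def s (z : ℝ) : ℝ := (expNegInvGlue (1 / 2 + z) - expNegInvGlue (1 / 2 - z)) /
  (expNegInvGlue (1 / 2 + z) + expNegInvGlue (1 / 2 - z))

lemma den_pos (z : ℝ) : 0 < expNegInvGlue (1 / 2 + z) + expNegInvGlue (1 / 2 - z) := by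
  have h1 := expNegInvGlue.nonneg (1 / 2 + z)
  have h2 := expNegInvGlue.nonneg (1 / 2 - z)
  rcases le_or_gt 0 z with h | h
  · have := expNegInvGlue.pos_of_pos (show 0 < 1 / 2 + z by linarith)
    linarith
  · have := expNegInvGlue.pos_of_pos (show 0 < 1 / 2 - z by linarith)
    linarith

lemma s_smooth : ContDiff ℝ ∞ s := by
  have h : ContDiff ℝ ∞ expNegInvGlue := expNegInvGlue.contDiff
  have h1 : ContDiff ℝ ∞ (fun z : ℝ => expNegInvGlue (1 / 2 + z)) :=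
    h.comp (contDiff_const.add contDiff_id)
  have h2 : ContDiff ℝ ∞ (fun z : ℝ => expNegInvGlue (1 / 2 - z)) :=
    h.comp (contDiff_const.sub contDiff_id)
  exact (h1.sub h2).div (h1.add h2) (fun z => (den_pos z).ne')

def tau (z : ℝ) : ℝ := (1 / 2 + z)⁻¹ ^ 2 + (1 / 2 - z)⁻¹ ^ 2

lemma s_deriv (z : ℝ) : HasDerivAt s ((1 - s z ^ 2) * tau z / 2) z := by
  have h1 : HasDerivAt (fun z : ℝ => expNegInvGlue (1 / 2 + z))
      ((1 / 2 + z)⁻¹ ^ 2 * expNegInvGlue (1 / 2 + z)) z := by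
    have h : HasDerivAt (fun z : ℝ => expNegInvGlue (1 / 2 + z))
      ((1 / 2 + z)⁻¹ ^ 2 * expNegInvGlue (1 / 2 + z) * 1) z :=
      (g_deriv (1 / 2 + z)).comp z ((hasDerivAt_id' z).const_add (1 / 2))
    exact h.congr_deriv (by ring)
  have h2 : HasDerivAt (fun z : ℝ => expNegInvGlue (1 / 2 - z))
      (-((1 / 2 - z)⁻¹ ^ 2 * expNegInvGlue (1 / 2 - z))) z := by
    have h : HasDerivAt (fun z : ℝ => expNegInvGlue (1 / 2 - z))
      ((1 / 2 - z)⁻¹ ^ 2 * expNegInvGlue (1 / 2 - z) * (-1)) z :=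
      (g_deriv (1 / 2 - z)).comp z ((hasDerivAt_id' z).const_sub (1 / 2))
    exact h.congr_deriv (by ring)
  have h3 := (h1.fun_sub h2).fun_div (h1.fun_add h2) (den_pos z).ne'
  refine h3.congr_deriv ?_
  have hd := (den_pos z).ne'
  unfold s tau
  generalize (1 / 2 + z)⁻¹ = a
  generalize (1 / 2 - z)⁻¹ = b
  generalize expNegInvGlue (1 / 2 + z) = p at hd ⊢
  generalize expNegInvGlue (1 / 2 - z) = q at hd ⊢
  field_simp
  ring

lemma s_odd (z : ℝ) : s (-z) = - s z := by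
  unfold s
  rw [← neg_div, neg_sub, sub_neg_eq_add, ← sub_eq_add_neg, add_comm (expNegInvGlue (1 / 2 - z))]

lemma s_one {z : ℝ} (h : 1 / 2 ≤ z) : s z = 1 := by
  unfold s
  have := den_pos z
  rw [expNegInvGlue.zero_of_nonpos (show 1 / 2 - z ≤ 0 by linarith)] at this ⊢
  rw [sub_zero, add_zero] at *
  exact div_self this.ne'

lemma s_lt {z : ℝ} (h : |z| < 1 / 2) : |s z| < 1 := by
  rw [abs_lt] at h
  have h1 := expNegInvGlue.pos_of_pos (show 0 < 1 / 2 + z by linarith)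
  have h2 := expNegInvGlue.pos_of_pos (show 0 < 1 / 2 - z by linarith)
  have h3 := den_pos z
  unfold s
  rw [abs_lt]
  constructor
  · rw [lt_div_iff₀ h3]; linarith
  · rw [div_lt_iff₀ h3]; linarith

def s1 : ℝ → ℝ := deriv s
def s2 : ℝ → ℝ := deriv (deriv s)

lemma s1_eq (z : ℝ) : s1 z = (1 - s z ^ 2) * tau z / 2 := (s_deriv z).deriv

lemma s2_eq {z : ℝ} (h : |z| < 1 / 2) : s2 z = (1 - s z ^ 2) / 2 *
    (2 * (1 / 2 - z)⁻¹ ^ 3 - 2 * (1 / 2 + z)⁻¹ ^ 3 - s z * tau z ^ 2) := by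
  rw [abs_lt] at h
  have hv : (1 / 2 + z) ≠ 0 := by linarith
  have hu : (1 / 2 - z) ≠ 0 := by linarith
  have e : deriv s = fun z => (1 - s z ^ 2) * tau z / 2 := funext fun z => s1_eq z
  have ht : HasDerivAt tau (2 * (1 / 2 - z)⁻¹ ^ 3 - 2 * (1 / 2 + z)⁻¹ ^ 3) z := by
    have h1 : HasDerivAt (fun z : ℝ => (1 / 2 + z)⁻¹) (-(1 / 2 + z)⁻¹ ^ 2) z :=
      (((hasDerivAt_id' z).const_add (1 / 2)).fun_inv hv).congr_deriv (by
        rw [inv_pow, neg_div, one_div])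
    have h2 : HasDerivAt (fun z : ℝ => (1 / 2 - z)⁻¹) ((1 / 2 - z)⁻¹ ^ 2) z :=
      (((hasDerivAt_id' z).const_sub (1 / 2)).fun_inv hu).congr_deriv (by
        rw [inv_pow, neg_neg, one_div])
    have h3 := (h1.fun_pow 2).fun_add (h2.fun_pow 2)
    refine h3.congr_deriv ?_
    push_cast
    ring
  have h4 := ((((s_deriv z).fun_pow 2).const_sub 1).fun_mul ht).div_const 2
  unfold s2
  rw [e]
  rw [h4.deriv]
  push_cast
  ring

lemma poly_B (z : ℝ) (h1 : -(1 / 2) < z) (h2 : z < 1 / 2) :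
    0 ≤ 1 / 4 - 3 / 4 * z + 2 * z ^ 2 + 2 * z ^ 3 + 4 * z ^ 4 + 4 * z ^ 5 := by
  rcases le_or_gt 0 z with h | h
  · have : 0 ≤ 2 * z ^ 3 + 4 * z ^ 4 + 4 * z ^ 5 := by positivity
    nlinarith [sq_nonneg (z - 3 / 16)]
  · have h3 : 0 ≤ 2 * z ^ 2 * (1 + z) := by
      have : 0 ≤ 1 + z := by linarith
      positivity
    have h4 : 0 ≤ 4 * z ^ 4 * (1 + z) := by
      have : 0 ≤ 1 + z := by linarith
      positivity
    nlinarith

lemma poly_p (z : ℝ) (h1 : -(1 / 2) < z) (h2 : z < 1 / 2) :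
    0 ≤ 13 / 80 - 17 / 40 * z + 13 / 10 * z ^ 2 + 38 / 10 * z ^ 3 + 66 / 10 * z ^ 4 +
      76 / 10 * z ^ 5 := by
  rcases le_or_gt 0 z with h | h
  · have : 0 ≤ 38 / 10 * z ^ 3 + 66 / 10 * z ^ 4 + 76 / 10 * z ^ 5 := by positivity
    nlinarith [sq_nonneg (z - 17 / 104)]
  · have h5 : 0 ≤ 1 + 2 * z := by linarith
    have h3 : 0 ≤ z ^ 4 * (1 + 2 * z) := by positivity
    have h4 : 0 ≤ z ^ 2 * (1 + 2 * z) := by positivity
    have h6 : 0 ≤ z ^ 4 := by positivity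
    nlinarith

/-- the key inequality, with the positive numbers `u = 1/2 - z`, `v = 1/2 + z` -/
lemma key_ineq {z V : ℝ} (h : |z| < 1 / 2) (hV : 9 / 10 + z ≤ V) :
    0 ≤ V * (tau z ^ 2 - (2 * (1 / 2 - z)⁻¹ ^ 3 - 2 * (1 / 2 + z)⁻¹ ^ 3)) - 2 * tau z := by
  rw [abs_lt] at h
  obtain ⟨hl, hr⟩ := h
  have hv : 0 < (1 / 2 + z) := by linarith
  have hu : 0 < (1 / 2 - z) := by linarith
  have hD : tau z ^ 2 - (2 * (1 / 2 - z)⁻¹ ^ 3 - 2 * (1 / 2 + z)⁻¹ ^ 3) =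
      (1 / 4 - 3 / 4 * z + 2 * z ^ 2 + 2 * z ^ 3 + 4 * z ^ 4 + 4 * z ^ 5) *
        ((1 / 2 + z)⁻¹ ^ 4 * (1 / 2 - z)⁻¹ ^ 4) := by
    unfold tau
    rw [inv_pow, inv_pow, inv_pow, inv_pow, inv_pow, inv_pow]
    rw [eq_comm, ← mul_inv, ← div_eq_mul_inv, div_eq_iff (by positivity)]
    have e1 : ((1 / 2 + z) ^ 2)⁻¹ * (1 / 2 + z) ^ 2 = 1 := inv_mul_cancel₀ (by positivity)
    have e2 : ((1 / 2 - z) ^ 2)⁻¹ * (1 / 2 - z) ^ 2 = 1 := inv_mul_cancel₀ (by positivity)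
    have e3 : ((1 / 2 + z) ^ 3)⁻¹ * (1 / 2 + z) ^ 3 = 1 := inv_mul_cancel₀ (by positivity)
    have e4 : ((1 / 2 - z) ^ 3)⁻¹ * (1 / 2 - z) ^ 3 = 1 := inv_mul_cancel₀ (by positivity)
    have f1 : (((1 / 2 + z) ^ 2)⁻¹ + ((1 / 2 - z) ^ 2)⁻¹) * ((1 / 2 + z) ^ 2 * (1 / 2 - z) ^ 2) =
        (1 / 2 - z) ^ 2 + (1 / 2 + z) ^ 2 := by
      linear_combination (1 / 2 - z) ^ 2 * e1 + (1 / 2 + z) ^ 2 * e2
    have f2 : (2 * ((1 / 2 - z) ^ 3)⁻¹ - 2 * ((1 / 2 + z) ^ 3)⁻¹) *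
        ((1 / 2 + z) ^ 3 * (1 / 2 - z) ^ 3) = 2 * (1 / 2 + z) ^ 3 - 2 * (1 / 2 - z) ^ 3 := by
      linear_combination 2 * (1 / 2 + z) ^ 3 * e4 - 2 * (1 / 2 - z) ^ 3 * e3
    calc 1 / 4 - 3 / 4 * z + 2 * z ^ 2 + 2 * z ^ 3 + 4 * z ^ 4 + 4 * z ^ 5
        = ((1 / 2 - z) ^ 2 + (1 / 2 + z) ^ 2) ^ 2 -
          (2 * (1 / 2 + z) ^ 3 - 2 * (1 / 2 - z) ^ 3) * ((1 / 2 + z) * (1 / 2 - z)) := by ring
      _ = _ := by rw [← f1, ← f2]; ring
  have hT : tau z = (1 / 2 + 2 * z ^ 2) * (1 / 4 - z ^ 2) ^ 2 *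
      ((1 / 2 + z)⁻¹ ^ 4 * (1 / 2 - z)⁻¹ ^ 4) := by
    unfold tau
    rw [inv_pow, inv_pow, inv_pow, inv_pow]
    rw [eq_comm, ← mul_inv, ← div_eq_mul_inv, div_eq_iff (by positivity)]
    have e1 : ((1 / 2 + z) ^ 2)⁻¹ * (1 / 2 + z) ^ 2 = 1 := inv_mul_cancel₀ (by positivity)
    have e2 : ((1 / 2 - z) ^ 2)⁻¹ * (1 / 2 - z) ^ 2 = 1 := inv_mul_cancel₀ (by positivity)
    linear_combination (-(1 / 2 - z) ^ 4 * (1 / 2 + z) ^ 2) * e1 -
      ((1 / 2 + z) ^ 4 * (1 / 2 - z) ^ 2) * e2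
  rw [hD]
  have hB := poly_B z hl hr
  have hp := poly_p z hl hr
  have hw : 0 < (1 / 2 + z)⁻¹ ^ 4 * (1 / 2 - z)⁻¹ ^ 4 := by positivity
  rw [hT]
  generalize (1 / 2 + z)⁻¹ ^ 4 * (1 / 2 - z)⁻¹ ^ 4 = w at hw
  have h1 : (9 / 10 + z) * (1 / 4 - 3 / 4 * z + 2 * z ^ 2 + 2 * z ^ 3 + 4 * z ^ 4 + 4 * z ^ 5) ≤
      V * (1 / 4 - 3 / 4 * z + 2 * z ^ 2 + 2 * z ^ 3 + 4 * z ^ 4 + 4 * z ^ 5) :=
    mul_le_mul_of_nonneg_right hV hB
  have h2 : 0 ≤ V * (1 / 4 - 3 / 4 * z + 2 * z ^ 2 + 2 * z ^ 3 + 4 * z ^ 4 + 4 * z ^ 5) -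
      2 * ((1 / 2 + 2 * z ^ 2) * (1 / 4 - z ^ 2) ^ 2) := by
    have e : (9 / 10 + z) * (1 / 4 - 3 / 4 * z + 2 * z ^ 2 + 2 * z ^ 3 + 4 * z ^ 4 + 4 * z ^ 5) -
      2 * ((1 / 2 + 2 * z ^ 2) * (1 / 4 - z ^ 2) ^ 2) =
      13 / 80 - 17 / 40 * z + 13 / 10 * z ^ 2 + 38 / 10 * z ^ 3 + 66 / 10 * z ^ 4 +
      76 / 10 * z ^ 5 := by ring
    linarith
  have h3 := mul_nonneg h2 hw.le
  linarith

end W1

/-- JOB W1: the profile functions exist. -/
theorem exists_prof : Nonempty Prof := by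
  have hsd : Differentiable ℝ W1.s := W1.s_smooth.differentiable (by simp)
  have hs1 : ContDiff ℝ ∞ (deriv W1.s) := (contDiff_infty_iff_deriv.1 W1.s_smooth).2
  have hBi := W1.Bi_pos
  have hE1 : ∀ z T, |z| < 1 / 2 → 9 / 10 + z ≤ (1 + W1.s z) * T / 2 →
      0 ≤ 2 * W1.s1 z * (W1.s1 z * T - 2) - (1 + W1.s z) * W1.s2 z * T := by
    intro z T hz hT
    have hs := abs_lt.1 (W1.s_lt hz)
    have h1 : 0 ≤ 1 - W1.s z ^ 2 := by nlinarith
    have hk := mul_nonneg h1 (W1.key_ineq hz hT)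
    rw [W1.s2_eq hz, W1.s1_eq]
    refine hk.trans (le_of_eq ?_)
    ring
  have hsym1 : ∀ z, W1.s1 (-z) = W1.s1 z := by
    intro z
    rw [W1.s1_eq, W1.s1_eq, W1.s_odd]
    unfold W1.tau
    rw [sub_neg_eq_add, ← sub_eq_add_neg]
    ring
  have hsym2 : ∀ z, |z| < 1 / 2 → W1.s2 (-z) = - W1.s2 z := by
    intro z hz
    rw [W1.s2_eq (by rwa [abs_neg]), W1.s2_eq hz, W1.s_odd]
    unfold W1.tau
    rw [sub_neg_eq_add, ← sub_eq_add_neg]
    ring
  refine ⟨{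
    A := W1.A
    A1 := W1.A1
    A2 := W1.A2
    s := W1.s
    s1 := W1.s1
    s2 := W1.s2
    A_smooth := contDiff_const.add (W1.prim_smooth W1.A1_smooth)
    hA1 := fun t => (W1.prim_hasDerivAt W1.A1_smooth.continuous t).const_add _
    hA2 := fun t => (W1.prim_hasDerivAt W1.bump_smooth.continuous t).div_const _
    A_even := W1.A_even
    A_abs := ?_
    A2_pos := fun t ht => div_pos (W1.bump_pos ht) hBi
    s_smooth := W1.s_smooth
    hs1 := fun z => (hsd z).hasDerivAt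
    hs2 := fun z => (hs1.differentiable (by simp) z).hasDerivAt
    s_odd := W1.s_odd
    s_one := fun z hz => W1.s_one hz
    s_lt := fun z hz => W1.s_lt hz
    s1_pos := ?_
    E1 := hE1
    E2 := ?_
    reg := ?_ }⟩
  · intro t ht
    rcases le_or_gt 0 t with h | h
    · rw [abs_of_nonneg h] at ht ⊢
      exact W1.A_pos ht
    · rw [abs_of_neg h] at ht ⊢
      rw [← W1.A_even]
      exact W1.A_pos ht
  · intro z hz
    rw [W1.s1_eq]
    have hs := abs_lt.1 (W1.s_lt hz)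
    have h1 : 0 < 1 - W1.s z ^ 2 := by nlinarith
    rw [abs_lt] at hz
    have hv : 0 < (1 / 2 + z) := by linarith
    have hu : 0 < (1 / 2 - z) := by linarith
    unfold W1.tau
    positivity
  · intro z T hz hT
    have hz' : |-z| < 1 / 2 := by rwa [abs_neg]
    have := hE1 (-z) T hz' (by rw [W1.s_odd]; linarith)
    rw [hsym1, hsym2 z hz, W1.s_odd] at this
    refine this.trans (le_of_eq ?_)
    ring
  · intro z T hz h1 h2 h3
    have hzz := abs_lt.1 hz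
    have hv : 0 < (1 / 2 + z) := by linarith [hzz.1]
    have hu : 0 < (1 / 2 - z) := by linarith [hzz.2]
    have hT : 0 < T := by linarith
    -- |s| ≤ 5/9
    have hs : W1.s z ^ 2 ≤ 25 / 81 := by
      have e : (2 * z) ^ 2 = W1.s z ^ 2 * T ^ 2 := by rw [h1]; ring
      have e1 : (2 * z) ^ 2 ≤ 1 := by nlinarith
      have e2 : (18 / 10) ^ 2 ≤ T ^ 2 := by nlinarith
      have e3 : 0 ≤ W1.s z ^ 2 := sq_nonneg _
      nlinarith
    have htau : 8 ≤ W1.tau z := by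
      unfold W1.tau
      have a1 : (1 / 2 + z)⁻¹ * (1 / 2 + z) = 1 := inv_mul_cancel₀ hv.ne'
      have a2 : (1 / 2 - z)⁻¹ * (1 / 2 - z) = 1 := inv_mul_cancel₀ hu.ne'
      have a3 : 0 < (1 / 2 + z)⁻¹ := inv_pos.2 hv
      have a4 : 0 < (1 / 2 - z)⁻¹ := inv_pos.2 hu
      generalize (1 / 2 + z)⁻¹ = a at *
      generalize (1 / 2 - z)⁻¹ = b at *
      have a5 : a + b = a * b := by
        linear_combination (-b) * a1 + (-a) * a2
      have a6 : 4 ≤ a + b := by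
        nlinarith [sq_nonneg (a - b)]
      nlinarith [sq_nonneg (a - b)]
    rw [W1.s1_eq]
    have h4 : 56 / 81 ≤ 1 - W1.s z ^ 2 := by linarith
    have h5 : 56 / 81 * 8 ≤ (1 - W1.s z ^ 2) * W1.tau z :=
      mul_le_mul h4 htau (by norm_num) (by linarith)
    nlinarith

end

end Pool.Agent.Helper331.White
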