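import Pool.Agent.Helper331.WLem
import Pool.Agent.Helper331.WMax
import Pool.Agent.Helper331.Ha

set_option autoImplicit false

open Set Filter Topology
open scoped ContDiff

namespace Pool.Agent.Helper331.White

noncomputable section

/-- coordinate functional -/
def co (i : Fin 3) : E3 →L[ℝ] ℝ := EuclideanSpace.proj i

@[simp] theorem co_apply (i : Fin 3) (p : E3) : co i p = p i := rfl

theorem co_hasFDerivAt (i : Fin 3) (p : E3) : HasFDerivAt (fun p : E3 => p i) (co i) p :=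
  (co i).hasFDerivAt

/-- coordinates of a functional -/
theorem lin_form (l : E3 →L[ℝ] ℝ) (p : E3) :
    l p = l (!₂[1, 0, 0]) * p 0 + l (!₂[0, 1, 0]) * p 1 + l (!₂[0, 0, 1]) * p 2 := by
  have h : p = p 0 • (!₂[1, 0, 0] : E3) + p 1 • (!₂[0, 1, 0] : E3) + p 2 • (!₂[0, 0, 1] : E3) := by
    ext i
    fin_cases i <;> simp
  conv_lhs => rw [h]
  simp only [map_add, map_smul, smul_eq_mul]
  ring

namespace Prof

variable (P : Prof)

/-- partial derivatives -/
def Fx (p : E3) : ℝ := (1 - P.s (p 2)) * P.A1 (p 0)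
def Fy (p : E3) : ℝ := -((1 + P.s (p 2)) * P.A1 (p 1))
def Fz (p : E3) : ℝ := P.s1 (p 2) * P.T p - 2

/-- the differential of `F` -/
def DF (p : E3) : E3 →L[ℝ] ℝ := P.Fx p • co 0 + P.Fy p • co 1 + P.Fz p • co 2

/-- the differential of `T` -/
def DT (p : E3) : E3 →L[ℝ] ℝ := (-P.A1 (p 0)) • co 0 + (-P.A1 (p 1)) • co 1

theorem T_hasFDerivAt (p : E3) : HasFDerivAt P.T (P.DT p) p := by
  have h0 := (P.hA1 (p 0)).comp_hasFDerivAt p (co_hasFDerivAt 0 p)
  have h1 := (P.hA1 (p 1)).comp_hasFDerivAt p (co_hasFDerivAt 1 p)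
  have h := ((hasFDerivAt_const (2:ℝ) p).sub h0).sub h1
  refine h.congr_fderiv ?_
  ext v
  simp [DT]
  ring

theorem F_hasFDerivAt (p : E3) : HasFDerivAt P.F (P.DF p) p := by
  have h0 := (P.hA1 (p 0)).comp_hasFDerivAt p (co_hasFDerivAt 0 p)
  have h1 := (P.hA1 (p 1)).comp_hasFDerivAt p (co_hasFDerivAt 1 p)
  have hs := (P.hs1 (p 2)).comp_hasFDerivAt p (co_hasFDerivAt 2 p)
  have h2 := (co_hasFDerivAt 2 p).const_mul 2
  have h := (((hs.mul (P.T_hasFDerivAt p)).sub h2).add h0).sub h1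
  refine h.congr_fderiv ?_
  ext v
  simp [DT, DF, Fx, Fy, Fz]
  ring

theorem T_smooth : ContDiff ℝ ∞ P.T := by
  unfold T
  have hA := P.A_smooth
  have h0 : ContDiff ℝ ∞ (fun p : E3 => P.A (p 0)) := hA.comp (co 0).contDiff
  have h1 : ContDiff ℝ ∞ (fun p : E3 => P.A (p 1)) := hA.comp (co 1).contDiff
  exact (contDiff_const.sub h0).sub h1

theorem F_smooth : ContDiff ℝ ∞ P.F := by
  unfold F
  have h0 : ContDiff ℝ ∞ (fun p : E3 => P.A (p 0)) := P.A_smooth.comp (co 0).contDiff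
  have h1 : ContDiff ℝ ∞ (fun p : E3 => P.A (p 1)) := P.A_smooth.comp (co 1).contDiff
  have h2 : ContDiff ℝ ∞ (fun p : E3 => P.s (p 2)) := P.s_smooth.comp (co 2).contDiff
  have h3 : ContDiff ℝ ∞ (fun p : E3 => p 2) := (co 2).contDiff
  exact (((h2.mul P.T_smooth).sub (contDiff_const.mul h3)).add h0).sub h1

theorem DF_apply (p v : E3) : P.DF p v = P.Fx p * v 0 + P.Fy p * v 1 + P.Fz p * v 2 := by
  simp [DF]

theorem DT_apply (p v : E3) : P.DT p v = -P.A1 (p 0) * v 0 + -P.A1 (p 1) * v 1 := by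
  simp [DT]

/-- regularity of the surface -/
theorem DF_ne {p : E3} (hp : p ∈ P.M) : P.DF p ≠ 0 := by
  intro h0
  have hz : P.Fz p = 0 := by
    have := congrArg (fun f : E3 →L[ℝ] ℝ => f !₂[0, 0, 1]) h0
    simpa [DF_apply] using this
  have hx : P.Fx p = 0 := by
    have := congrArg (fun f : E3 →L[ℝ] ℝ => f !₂[1, 0, 0]) h0
    simpa [DF_apply] using this
  have hy : P.Fy p = 0 := by
    have := congrArg (fun f : E3 →L[ℝ] ℝ => f !₂[0, 1, 0]) h0
    simpa [DF_apply] using this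
  rcases lt_or_ge |p 2| (1/2) with h | h
  · have hs := abs_lt.1 (P.s_lt _ h)
    have hx0 : p 0 = 0 := by
      unfold Fx at hx
      rcases mul_eq_zero.1 hx with h1 | h1
      · linarith
      · exact P.A1_eq_zero.1 h1
    have hy0 : p 1 = 0 := by
      unfold Fy at hy
      rcases mul_eq_zero.1 (neg_eq_zero.1 hy) with h1 | h1
      · linarith
      · exact P.A1_eq_zero.1 h1
    have hT : P.T p = 2 - 2 * P.A 0 := by unfold T; rw [hx0, hy0]; ring
    have hF : 2 * p 2 = P.s (p 2) * P.T p := by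
      have := hp.1
      unfold F at this
      rw [hx0, hy0] at this
      linarith
    have := P.reg (p 2) (P.T p) h hF (by rw [hT]; linarith [P.A_zero_lt])
      (by rw [hT]; linarith [P.A_nonneg 0])
    unfold Fz at hz
    linarith
  · unfold Fz at hz
    rw [P.s1_of_ge h] at hz
    linarith

/-- independence at the boundary -/
theorem DF_DT_indep {p : E3} (hp : p ∈ P.C) : LinearIndependent ℝ ![P.DF p, P.DT p] := by
  rw [LinearIndependent.pair_iff]
  intro a b h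
  have hT : P.T p = 0 := hp.2
  have h2 := congrArg (fun f : E3 →L[ℝ] ℝ => f !₂[0, 0, 1]) h
  have h0 := congrArg (fun f : E3 →L[ℝ] ℝ => f !₂[1, 0, 0]) h
  have h1 := congrArg (fun f : E3 →L[ℝ] ℝ => f !₂[0, 1, 0]) h
  simp [DF_apply, DT_apply, Fz, hT] at h2 h0 h1
  refine ⟨h2, ?_⟩
  rw [h2] at h0 h1
  simp only [zero_mul, zero_add, mul_eq_zero, neg_eq_zero] at h0 h1
  rcases h0 with h0 | h0
  · exact h0
  · rcases h1 with h1 | h1
    · exact h1
    · exfalso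
      have hx := P.A1_eq_zero.1 h0
      have hy := P.A1_eq_zero.1 h1
      unfold T at hT
      rw [hx, hy] at hT
      linarith [P.A_zero_lt]

/-- second derivative of `F` along a line -/
def Q (p v : E3) : ℝ := (1 - P.s (p 2)) * P.A2 (p 0) * v 0 ^ 2
  - (1 + P.s (p 2)) * P.A2 (p 1) * v 1 ^ 2 + P.s2 (p 2) * P.T p * v 2 ^ 2
  - 2 * P.s1 (p 2) * P.A1 (p 0) * v 0 * v 2 - 2 * P.s1 (p 2) * P.A1 (p 1) * v 1 * v 2

theorem line_hasDerivAt (p v : E3) (i : Fin 3) (t : ℝ) :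
    HasDerivAt (fun t : ℝ => (p + t • v) i) (v i) t := by
  have : HasDerivAt (fun t : ℝ => p i + t * v i) (v i) t := by
    simpa using ((hasDerivAt_id t).mul_const (v i)).const_add (p i)
  simpa using this

theorem line1 (p v : E3) (t : ℝ) :
    HasDerivAt (fun t : ℝ => P.F (p + t • v)) (P.DF (p + t • v) v) t := by
  have e1 : HasDerivAt (fun t : ℝ => p + t • v) v t := by
    simpa using ((hasDerivAt_id t).smul_const v).const_add p
  exact (P.F_hasFDerivAt _).comp_hasDerivAt t e1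

theorem line2 (p v : E3) :
    HasDerivAt (fun t : ℝ => P.DF (p + t • v) v) (P.Q p v) 0 := by
  have e1 : HasDerivAt (fun t : ℝ => p + t • v) v 0 := by
    simpa using ((hasDerivAt_id (0:ℝ)).smul_const v).const_add p
  have a0 : HasDerivAt (fun t : ℝ => P.A1 ((p + t • v) 0)) (P.A2 (p 0) * v 0) 0 := by
    have h : HasDerivAt P.A1 (P.A2 (p 0)) ((p + (0:ℝ) • v) 0) := by simpa using P.hA2 (p 0)
    exact h.comp (0:ℝ) (line_hasDerivAt p v 0 0)
  have a1 : HasDerivAt (fun t : ℝ => P.A1 ((p + t • v) 1)) (P.A2 (p 1) * v 1) 0 := by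
    have h : HasDerivAt P.A1 (P.A2 (p 1)) ((p + (0:ℝ) • v) 1) := by simpa using P.hA2 (p 1)
    exact h.comp (0:ℝ) (line_hasDerivAt p v 1 0)
  have b0 : HasDerivAt (fun t : ℝ => P.s ((p + t • v) 2)) (P.s1 (p 2) * v 2) 0 := by
    have h : HasDerivAt P.s (P.s1 (p 2)) ((p + (0:ℝ) • v) 2) := by simpa using P.hs1 (p 2)
    exact h.comp (0:ℝ) (line_hasDerivAt p v 2 0)
  have b1 : HasDerivAt (fun t : ℝ => P.s1 ((p + t • v) 2)) (P.s2 (p 2) * v 2) 0 := by
    have h : HasDerivAt P.s1 (P.s2 (p 2)) ((p + (0:ℝ) • v) 2) := by simpa using P.hs2 (p 2)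
    exact h.comp (0:ℝ) (line_hasDerivAt p v 2 0)
  have c0 : HasDerivAt (fun t : ℝ => P.T (p + t • v)) (P.DT p v) 0 := by
    have h : HasFDerivAt P.T (P.DT p) (p + (0:ℝ) • v) := by simpa using P.T_hasFDerivAt p
    exact h.comp_hasDerivAt (0:ℝ) e1
  have h1 := ((b0.const_sub 1).mul a0).mul_const (v 0)
  have h2 := (((b0.const_add 1).mul a1).neg).mul_const (v 1)
  have h3 := ((b1.mul c0).sub_const 2).mul_const (v 2)
  have h := (h1.add h2).add h3
  have heq : (fun t : ℝ => P.DF (p + t • v) v) = fun t : ℝ =>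
      (1 - P.s ((p + t • v) 2)) * P.A1 ((p + t • v) 0) * v 0
      + -((1 + P.s ((p + t • v) 2)) * P.A1 ((p + t • v) 1)) * v 1
      + (P.s1 ((p + t • v) 2) * P.T (p + t • v) - 2) * v 2 := by
    funext t
    rw [DF_apply]; rfl
  rw [heq]
  refine h.congr_deriv ?_
  simp only [zero_smul, add_zero, DT_apply, Q]
  ring

/-- the algebraic identity behind the negative curvature -/
theorem disc_identity (p : E3) :
    P.Q p !₂[P.Fy p, -P.Fx p, 0] * P.Q p !₂[0, -P.Fz p, P.Fy p]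
      - ((P.Q p !₂[P.Fy p, -P.Fx p - P.Fz p, P.Fy p] - P.Q p !₂[P.Fy p, -P.Fx p, 0]
        - P.Q p !₂[0, -P.Fz p, P.Fy p]) / 2) ^ 2
    = - (P.Fy p) ^ 2 * (4 * P.s1 (p 2) ^ 2 * P.A1 (p 0) ^ 2 * P.A1 (p 1) ^ 2
      + (1 - P.s (p 2) ^ 2) * P.A2 (p 0) * P.A1 (p 1) ^ 2 *
        (2 * P.s1 (p 2) * (P.s1 (p 2) * P.T p - 2) - (1 + P.s (p 2)) * P.s2 (p 2) * P.T p)
      + (1 - P.s (p 2) ^ 2) * P.A2 (p 1) * P.A1 (p 0) ^ 2 *
        (2 * P.s1 (p 2) * (P.s1 (p 2) * P.T p - 2) + (1 - P.s (p 2)) * P.s2 (p 2) * P.T p)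
      + (1 - P.s (p 2) ^ 2) * P.A2 (p 0) * P.A2 (p 1) * (P.s1 (p 2) * P.T p - 2) ^ 2) := by
  simp only [Q, Fx, Fy, Fz, Fin.isValue, Matrix.cons_val_zero,
    Matrix.cons_val_one, Matrix.cons_val]
  ring

end Prof

end

end Pool.Agent.Helper331.White
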