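import Pool.Agent.Helper331.WTight

set_option autoImplicit false

open Set Filter Topology
open scoped ContDiff

namespace Pool.Agent.Helper331.White

noncomputable section

namespace Prof

variable (P : Prof)

theorem disc_pos {p : E3} (hp : p ∈ P.M) (hz : |p 2| < 1/2) (hx : P.A1 (p 0) ≠ 0)
    (hy : P.A1 (p 1) ≠ 0) : 0 < 4 * P.s1 (p 2) ^ 2 * P.A1 (p 0) ^ 2 * P.A1 (p 1) ^ 2
      + (1 - P.s (p 2) ^ 2) * P.A2 (p 0) * P.A1 (p 1) ^ 2 *
        (2 * P.s1 (p 2) * (P.s1 (p 2) * P.T p - 2) - (1 + P.s (p 2)) * P.s2 (p 2) * P.T p)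
      + (1 - P.s (p 2) ^ 2) * P.A2 (p 1) * P.A1 (p 0) ^ 2 *
        (2 * P.s1 (p 2) * (P.s1 (p 2) * P.T p - 2) + (1 - P.s (p 2)) * P.s2 (p 2) * P.T p)
      + (1 - P.s (p 2) ^ 2) * P.A2 (p 0) * P.A2 (p 1) * (P.s1 (p 2) * P.T p - 2) ^ 2 := by
  have hs := abs_lt.1 (P.s_lt _ hz)
  have hs2 : 0 ≤ 1 - P.s (p 2) ^ 2 := by nlinarith
  have hx2 := P.A2_nonneg (p 0)
  have hy2 := P.A2_nonneg (p 1)
  have t1 : 0 < 4 * P.s1 (p 2) ^ 2 * P.A1 (p 0) ^ 2 * P.A1 (p 1) ^ 2 := by
    have := P.s1_pos _ hz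
    have := sq_pos_of_ne_zero hx
    have := sq_pos_of_ne_zero hy
    positivity
  have t2 : 0 ≤ (1 - P.s (p 2) ^ 2) * P.A2 (p 0) * P.A1 (p 1) ^ 2 *
        (2 * P.s1 (p 2) * (P.s1 (p 2) * P.T p - 2) - (1 + P.s (p 2)) * P.s2 (p 2) * P.T p) := by
    rcases le_or_gt |p 0| (1/10) with h | h
    · have hV := P.V_eq hp.1
      have hA := P.A_le_of h
      have := P.E1 (p 2) (P.T p) hz (by rw [← hV]; linarith)
      positivity
    · rw [P.A2_of_gt h]; simp
  have t3 : 0 ≤ (1 - P.s (p 2) ^ 2) * P.A2 (p 1) * P.A1 (p 0) ^ 2 *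
        (2 * P.s1 (p 2) * (P.s1 (p 2) * P.T p - 2) + (1 - P.s (p 2)) * P.s2 (p 2) * P.T p) := by
    rcases le_or_gt |p 1| (1/10) with h | h
    · have hU := P.U_eq hp.1
      have hA := P.A_le_of h
      have := P.E2 (p 2) (P.T p) hz (by rw [← hU]; linarith)
      positivity
    · rw [P.A2_of_gt h]; simp
  have t4 : 0 ≤ (1 - P.s (p 2) ^ 2) * P.A2 (p 0) * P.A2 (p 1) * (P.s1 (p 2) * P.T p - 2) ^ 2 := by
    positivity
  linarith

/-- no constrained extremum satisfies the second order conditions where `|s| < 1` -/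
theorem no_semidef {p : E3} (hp : p ∈ P.M) (hz : |p 2| < 1/2) (hx : P.A1 (p 0) ≠ 0)
    (hy : P.A1 (p 1) ≠ 0) {e : ℝ} (he : e = 1 ∨ e = -1)
    (h : ∀ v : E3, P.DF p v = 0 → 0 ≤ e * P.Q p v) : False := by
  have hs := abs_lt.1 (P.s_lt _ hz)
  have hFy : P.Fy p ≠ 0 := by
    unfold Fy
    intro h0
    rcases mul_eq_zero.1 (neg_eq_zero.1 h0) with h1 | h1
    · linarith
    · exact hy h1
  set Q11 := P.Q p !₂[P.Fy p, -P.Fx p, 0] with hQ11
  set Q22 := P.Q p !₂[0, -P.Fz p, P.Fy p] with hQ22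
  set Q12 := (P.Q p !₂[P.Fy p, -P.Fx p - P.Fz p, P.Fy p] - Q11 - Q22) / 2 with hQ12
  have hid := P.disc_identity p
  have hpos := P.disc_pos hp hz hx hy
  have hneg : Q11 * Q22 - Q12 ^ 2 < 0 := by
    rw [← hQ11, ← hQ22, ← hQ12] at hid
    rw [hid]
    have := sq_pos_of_ne_zero hFy
    nlinarith [mul_pos this hpos]
  have hquad : ∀ t : ℝ, 0 ≤ (e * Q11) * (t * t) + (e * (2 * Q12)) * t + e * Q22 := by
    intro t
    have h1 := h !₂[t * P.Fy p, -(t * P.Fx p) - P.Fz p, P.Fy p] (by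
      rw [DF_apply]; simp; ring)
    have h2 : P.Q p !₂[t * P.Fy p, -(t * P.Fx p) - P.Fz p, P.Fy p]
        = Q11 * (t * t) + (2 * Q12) * t + Q22 := by
      rw [hQ12, hQ11, hQ22]
      simp only [Q, Fin.isValue, Matrix.cons_val_zero,
        Matrix.cons_val_one, Matrix.cons_val]
      ring
    rw [h2] at h1
    linarith
  have hd := discrim_le_zero hquad
  unfold discrim at hd
  have he2 : e ^ 2 = 1 := by rcases he with h | h <;> rw [h] <;> norm_num
  have : 4 * (e ^ 2) * (Q12 ^ 2 - Q11 * Q22) ≤ 0 := by linarith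
  rw [he2] at this
  linarith

/-- a generic functional has no local maximum in the interior -/
theorem interior_no_max {p : E3} (hp : p ∈ P.M) (hT : 0 < P.T p) {l : E3 →L[ℝ] ℝ}
    (hα : l !₂[1, 0, 0] ≠ 0) (hβ : l !₂[0, 1, 0] ≠ 0) (hmax : IsLocalMaxOn l P.M p) : False := by
  have hmax' : ∀ᶠ q in 𝓝 p, P.F q = 0 → l q ≤ l p := by
    have h1 : ∀ᶠ q in 𝓝 p, q ∈ P.M → l q ≤ l p := eventually_nhdsWithin_iff.1 hmax
    have h2 : ∀ᶠ q in 𝓝 p, 0 < P.T q := P.T_cont.continuousAt.eventually (lt_mem_nhds hT)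
    filter_upwards [h1, h2] with q hq1 hq2 hF
    exact hq1 ⟨hF, hq2.le⟩
  have hDF := P.DF_ne hp
  have hextr : IsLocalExtrOn l {q | P.F q = P.F p} p := by
    right
    have : ∀ᶠ q in 𝓝[{q | P.F q = P.F p}] p, l q ≤ l p := by
      filter_upwards [nhdsWithin_le_nhds hmax', self_mem_nhdsWithin] with q hq1 hq2
      exact hq1 (by rw [show P.F q = P.F p from hq2, hp.1])
    exact this
  have hstrict : HasStrictFDerivAt P.F (P.DF p) p := by
    have := (P.F_smooth.contDiffAt (x := p)).hasStrictFDerivAt (by simp)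
    rwa [(P.F_hasFDerivAt p).fderiv] at this
  obtain ⟨a, b, hab, h0⟩ := hextr.exists_multipliers_of_hasStrictFDerivAt_1d hstrict
    (l.hasStrictFDerivAt)
  have hb : b ≠ 0 := by
    rintro rfl
    simp only [zero_smul, add_zero, smul_eq_zero] at h0
    rcases h0 with h0 | h0
    · exact hab (by rw [h0]; rfl)
    · exact hDF h0
  obtain ⟨lam, hlam⟩ : ∃ lam : ℝ, l = lam • P.DF p := by
    refine ⟨-(a / b), ?_⟩
    have : b • l = (-a) • P.DF p := by
      have h1 := eq_neg_of_add_eq_zero_right h0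
      rw [h1]
      ext v
      simp
    calc l = b⁻¹ • (b • l) := by rw [smul_smul, inv_mul_cancel₀ hb, one_smul]
      _ = _ := by rw [this, smul_smul]; congr 1; field_simp
  have hα' : l !₂[1, 0, 0] = lam * P.Fx p := by
    rw [hlam, _root_.smul_apply, DF_apply]; simp
  have hβ' : l !₂[0, 1, 0] = lam * P.Fy p := by
    rw [hlam, _root_.smul_apply, DF_apply]; simp
  rw [hα'] at hα
  rw [hβ'] at hβ
  have hl0 : lam ≠ 0 := left_ne_zero_of_mul hα
  have hFx0 := right_ne_zero_of_mul hα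
  have hFy0 := right_ne_zero_of_mul hβ
  unfold Fx at hFx0
  unfold Fy at hFy0
  have hz : |p 2| < 1/2 := by
    by_contra hge
    rcases P.s_eq_of_abs (not_lt.1 hge) with h1 | h1
    · rw [h1] at hFx0; simp at hFx0
    · rw [h1] at hFy0; simp at hFy0
  have hx := right_ne_zero_of_mul hFx0
  have hy := right_ne_zero_of_mul (neg_ne_zero.1 hFy0)
  obtain ⟨w, hw⟩ : ∃ w, P.DF p w ≠ 0 := by
    by_contra hno
    push Not at hno
    exact hDF (by ext v; simpa using hno v)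
  set n : E3 := (P.DF p w)⁻¹ • w with hn
  have hn1 : P.DF p n = 1 := by rw [hn, map_smul, smul_eq_mul, inv_mul_cancel₀ hw]
  rcases lt_or_gt_of_ne hl0 with hneg | hpos
  · -- use `-F`
    apply P.no_semidef hp hz hx hy (e := -1) (Or.inr rfl)
    intro v hv
    have hFn : HasFDerivAt (fun q => - P.F q) (-(P.DF p)) p := (P.F_hasFDerivAt p).neg
    have h1 : ∀ t, HasDerivAt (fun t : ℝ => - P.F (p + t • v)) (-(P.DF (p + t • v) v)) t :=
      fun t => (P.line1 p v t).neg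
    have h2 := (P.line2 p v).neg
    have := second_order_constraint (F := fun q => - P.F q) P.F_cont.neg (by simp [hp.1]) hFn
      (l := l) (lam := -lam) (by rw [hlam]; simp) (by linarith) (v := v) (n := -n) (by simp [hv])
      (by simp [hn1]) h1 h2 (by
        filter_upwards [hmax'] with q hq hq0
        exact hq (neg_eq_zero.1 hq0))
    linarith
  · apply P.no_semidef hp hz hx hy (e := 1) (Or.inl rfl)
    intro v hv
    have := second_order_constraint P.F_cont hp.1 (P.F_hasFDerivAt p) hlam hpos hv hn1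
      (P.line1 p v) (P.line2 p v) hmax'
    linarith

end Prof

end

end Pool.Agent.Helper331.White
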