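import Pool.Agent.Helper331.WTight2

set_option autoImplicit false

open Set Filter Topology
open scoped ContDiff

namespace Pool.Agent.Helper331.White

noncomputable section

namespace Prof

variable (P : Prof)

theorem curve_mem {σ y : ℝ} (hσ : σ = 1 ∨ σ = -1) (h : 1/10 ≤ 2 - P.A y) :
    (!₂[σ * (2 - P.A y), y, 1 - P.A y] : E3) ∈ P.C := by
  rw [mem_C_iff']
  have : P.A (σ * (2 - P.A y)) = 2 - P.A y := by
    rcases hσ with h1 | h1 <;> rw [h1]
    · rw [one_mul]; exact P.A_of_ge h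
    · rw [neg_one_mul, P.A_even]; exact P.A_of_ge h
  constructor
  · simp
  · simp [this]; ring

/-- first and second order conditions on the boundary where `|x| > 1/10` -/
theorem bdry_i {p : E3} (hp : p ∈ P.C) (hx : 1/10 < |p 0|) {l : E3 →L[ℝ] ℝ} {α β κ : ℝ}
    (hl : ∀ q, l q = α * q 0 + β * q 1 + κ * q 2)
    (hα : α ≠ 0) (hβ : β ≠ 0) (hg : |β| ≠ |κ + α|) (hg' : |β| ≠ |κ - α|)
    (hmax : IsLocalMaxOn l P.M p) :
    |β| < κ + |α| ∧ β = (κ + |α|) * P.A1 (p 1) ∧ |p 1| ≤ 1/10 ∧ α * p 0 = |α| * (2 - P.A (p 1)) ∧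
      p 2 = 1 - P.A (p 1) := by
  obtain ⟨hz1, hz2⟩ := (P.mem_C_iff' p).1 hp
  have hAx : P.A (p 0) = |p 0| := P.A_abs _ hx.le
  have hxy : |p 0| = 2 - P.A (p 1) := by rw [← hAx]; linarith
  obtain ⟨σ, hσ, hσx⟩ : ∃ σ : ℝ, (σ = 1 ∨ σ = -1) ∧ p 0 = σ * |p 0| := by
    rcases abs_cases (p 0) with h | h
    · exact ⟨1, Or.inl rfl, by rw [h.1]; ring⟩
    · exact ⟨-1, Or.inr rfl, by rw [h.1]; ring⟩
  have hmaxe : ∀ᶠ q in 𝓝 p, q ∈ P.M → l q ≤ l p := eventually_nhdsWithin_iff.1 hmax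
  -- curve along the boundary
  have hc : Continuous (fun r : ℝ => (!₂[σ * (2 - P.A (p 1 + r)), p 1 + r, 1 - P.A (p 1 + r)] : E3)) := by
    have := P.A_cont
    fun_prop
  have hpe : (!₂[σ * (2 - P.A (p 1 + 0)), p 1 + 0, 1 - P.A (p 1 + 0)] : E3) = p := by
    ext i
    fin_cases i
    · simp [← hxy, ← hσx]
    · simp
    · simp [hz1]
  have hloc : IsLocalMax (fun r : ℝ => α * (σ * (2 - P.A (p 1 + r))) + β * (p 1 + r)
      + κ * (1 - P.A (p 1 + r))) 0 := by
    have h1 : ∀ᶠ r in 𝓝 (0:ℝ), (!₂[σ * (2 - P.A (p 1 + r)), p 1 + r, 1 - P.A (p 1 + r)] : E3) ∈ P.M →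
        l (!₂[σ * (2 - P.A (p 1 + r)), p 1 + r, 1 - P.A (p 1 + r)] : E3) ≤ l p := by
      have ht : Tendsto (fun r : ℝ => (!₂[σ * (2 - P.A (p 1 + r)), p 1 + r, 1 - P.A (p 1 + r)] : E3))
          (𝓝 0) (𝓝 p) := by
        have := hc.tendsto 0
        rwa [hpe] at this
      exact ht.eventually hmaxe
    have h2 : ∀ᶠ r in 𝓝 (0:ℝ), 1/10 < 2 - P.A (p 1 + r) := by
      have hcont : Continuous (fun r : ℝ => 2 - P.A (p 1 + r)) := by
        have := P.A_cont
        fun_prop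
      apply hcont.continuousAt.eventually (lt_mem_nhds _)
      simp only [add_zero]
      linarith
    filter_upwards [h1, h2] with r hr1 hr2
    have := hr1 (P.C_sub_M (P.curve_mem hσ hr2.le))
    rw [← hpe, hl, hl] at this
    simpa using this
  have hd1 : ∀ r : ℝ, HasDerivAt (fun r : ℝ => P.A (p 1 + r)) (P.A1 (p 1 + r)) r := by
    intro r
    exact HasDerivAt.comp_const_add (p 1) r (P.hA1 (p 1 + r))
  have hd2 : HasDerivAt (fun r : ℝ => P.A1 (p 1 + r)) (P.A2 (p 1)) 0 := by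
    have h : HasDerivAt P.A1 (P.A2 (p 1)) (p 1 + 0) := by simpa using P.hA2 (p 1)
    exact HasDerivAt.comp_const_add (p 1) 0 h
  have hsec := second_order_loc
    (g1 := fun r => β - (κ + σ * α) * P.A1 (p 1 + r)) (g2 := -((κ + σ * α) * P.A2 (p 1)))
    (Filter.Eventually.of_forall fun r => by
      have e1 := (((hd1 r).const_sub 2).const_mul σ).const_mul α
      have e2 := ((hasDerivAt_id r).const_add (p 1)).const_mul β
      have e3 := ((hd1 r).const_sub 1).const_mul κ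
      refine ((e1.add e2).add e3).congr_deriv ?_
      ring) (by
      have := (hd2.const_mul (κ + σ * α)).const_sub β
      exact this) hloc
  obtain ⟨hfirst, hsecond⟩ := hsec
  simp only [add_zero] at hfirst
  have hβeq : β = (κ + σ * α) * P.A1 (p 1) := by linarith
  have habs : |κ + σ * α| = |κ + α| ∨ |κ + σ * α| = |κ - α| := by
    rcases hσ with h | h
    · left; rw [h]; ring_nf
    · right; rw [h]; ring_nf
  have hne : |β| ≠ |κ + σ * α| := by
    rcases habs with h | h <;> rw [h] <;> assumption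
  have hy : |p 1| < 1/10 := by
    by_contra hge
    push Not at hge
    apply hne
    have : |P.A1 (p 1)| = 1 := by
      rcases le_abs.1 hge with h | h
      · rw [P.A1_of_ge h]; simp
      · rw [P.A1_of_le (by linarith)]; simp
    rw [hβeq, abs_mul, this, mul_one]
  have hA2 := P.A2_pos _ hy
  have hQ0 : 0 ≤ κ + σ * α := by
    by_contra hlt
    push Not at hlt
    nlinarith [mul_neg_of_neg_of_pos hlt hA2]
  have hQ : 0 < κ + σ * α := by
    rcases eq_or_lt_of_le hQ0 with h | h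
    · exfalso; apply hβ; rw [hβeq, ← h]; ring
    · exact h
  -- inward direction
  have hin : 0 ≤ σ * α := by
    have hcont : Continuous (fun t : ℝ => (!₂[σ * (|p 0| - t), p 1, p 2] : E3)) := by fun_prop
    have hpe2 : (!₂[σ * (|p 0| - 0), p 1, p 2] : E3) = p := by
      ext i
      fin_cases i
      · simp [← hσx]
      · simp
      · simp
    have ht : Tendsto (fun t : ℝ => (!₂[σ * (|p 0| - t), p 1, p 2] : E3)) (𝓝 0) (𝓝 p) := by
      have := hcont.tendsto 0
      rwa [hpe2] at this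
    have h1 := (ht.eventually hmaxe).filter_mono (nhdsWithin_le_nhds (s := Ioi (0:ℝ)))
    obtain ⟨t, ht1, ht2⟩ := (h1.and (Ioo_mem_nhdsGT (show (0:ℝ) < |p 0| by linarith))).exists
    have hmem : (!₂[σ * (|p 0| - t), p 1, p 2] : E3) ∈ P.M := by
      have hs : P.s (p 2) = 1 := by
        apply P.s_one
        rw [hz1]
        linarith [P.A_le_of hy.le]
      have hAx' : P.A (σ * (|p 0| - t)) ≤ P.A (p 0) := by
        apply P.A_mono_abs
        rw [abs_mul]
        have : |σ| = 1 := by rcases hσ with h | h <;> rw [h] <;> simp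
        rw [this, one_mul, abs_of_nonneg (by linarith [ht2.2])]
        linarith [ht2.1]
      constructor
      · simp only [F, T, Fin.isValue, Matrix.cons_val_zero, Matrix.cons_val_one, Matrix.cons_val]
        rw [hs]
        linarith
      · simp only [T, Fin.isValue, Matrix.cons_val_zero, Matrix.cons_val_one]
        linarith
    have hle := ht1 hmem
    rw [hl, hl] at hle
    simp only [Fin.isValue, Matrix.cons_val_zero, Matrix.cons_val_one, Matrix.cons_val] at hle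
    have e : α * p 0 = α * (σ * |p 0|) := by rw [← hσx]
    by_contra hlt
    push Not at hlt
    nlinarith [mul_neg_of_neg_of_pos hlt ht2.1]
  have hσα : σ * α = |α| := by
    have : |σ * α| = |α| := by
      rw [abs_mul]
      rcases hσ with h | h <;> rw [h] <;> simp
    rw [← this, abs_of_nonneg hin]
  rw [hσα] at hβeq hQ
  refine ⟨?_, hβeq, hy.le, ?_, hz1⟩
  · have h1 := abs_lt.2 ⟨P.A1_gt_neg_one (abs_lt.1 hy).1, P.A1_lt_one (abs_lt.1 hy).2⟩
    rw [hβeq, abs_mul, abs_of_pos hQ]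
    nlinarith
  · rw [hσx, hxy, ← hσα]; ring

/-- the symmetry `(x, y, z) ↦ (y, x, -z)` -/
def sw : E3 →L[ℝ] E3 := LinearMap.toContinuousLinearMap
  { toFun := fun p => !₂[p 1, p 0, -p 2]
    map_add' := by
      intro p q
      ext i
      fin_cases i
      · simp
      · simp
      · simp; ring
    map_smul' := by
      intro c p
      ext i
      fin_cases i <;> simp }

theorem sw_apply (p : E3) : sw p = !₂[p 1, p 0, -p 2] := rfl

theorem sw_sw (p : E3) : sw (sw p) = p := by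
  ext i
  fin_cases i <;> simp [sw_apply]

theorem T_sw (p : E3) : P.T (sw p) = P.T p := by
  simp [T, sw_apply]; ring

theorem F_sw (p : E3) : P.F (sw p) = - P.F p := by
  simp [F, T, sw_apply, P.s_odd]; ring

theorem sw_mem_M {p : E3} (hp : p ∈ P.M) : sw p ∈ P.M :=
  ⟨by rw [F_sw, hp.1, neg_zero], by rw [T_sw]; exact hp.2⟩

theorem sw_mem_C {p : E3} (hp : p ∈ P.C) : sw p ∈ P.C :=
  ⟨by rw [F_sw, hp.1, neg_zero], by rw [T_sw]; exact hp.2⟩

theorem localMax_sw {p : E3} {l : E3 →L[ℝ] ℝ} (hmax : IsLocalMaxOn l P.M p) :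
    IsLocalMaxOn (l.comp sw) P.M (sw p) := by
  have h1 : ∀ᶠ q in 𝓝 p, q ∈ P.M → l q ≤ l p := eventually_nhdsWithin_iff.1 hmax
  have ht : Tendsto sw (𝓝 (sw p)) (𝓝 p) := by
    have := sw.continuous.tendsto (sw p)
    rwa [sw_sw] at this
  have h2 := ht.eventually h1
  have : ∀ᶠ q in 𝓝[P.M] (sw p), (l.comp sw) q ≤ (l.comp sw) (sw p) := by
    rw [eventually_nhdsWithin_iff]
    filter_upwards [h2] with q hq hqM
    have := hq (P.sw_mem_M hqM)
    simpa [sw_sw] using this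
  exact this

theorem bdry_ii {p : E3} (hp : p ∈ P.C) (hx : 1/10 < |p 1|) {l : E3 →L[ℝ] ℝ} {α β κ : ℝ}
    (hl : ∀ q, l q = α * q 0 + β * q 1 + κ * q 2)
    (hα : α ≠ 0) (hβ : β ≠ 0) (hg : |α| ≠ |κ + β|) (hg' : |α| ≠ |κ - β|)
    (hmax : IsLocalMaxOn l P.M p) :
    |α| < -κ + |β| ∧ α = (-κ + |β|) * P.A1 (p 0) ∧ |p 0| ≤ 1/10 ∧
      β * p 1 = |β| * (2 - P.A (p 0)) ∧ -p 2 = 1 - P.A (p 0) := by
  have h := P.bdry_i (P.sw_mem_C hp) (by simpa [sw_apply] using hx) (l := l.comp sw)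
    (α := β) (β := α) (κ := -κ) (by
      intro q
      rw [ContinuousLinearMap.comp_apply, hl, sw_apply]
      simp
      ring) hβ hα (by
      rw [show -κ + β = -(κ - β) by ring, abs_neg]; exact hg') (by
      rw [show -κ - β = -(κ + β) by ring, abs_neg]; exact hg) (P.localMax_sw hmax)
  simpa [sw_apply] using h

/-- generic functionals -/
def Generic (l : E3 →L[ℝ] ℝ) : Prop :=
  l !₂[1, 0, 0] ≠ 0 ∧ l !₂[0, 1, 0] ≠ 0 ∧
  |l !₂[0, 1, 0]| ≠ |l !₂[0, 0, 1] + l !₂[1, 0, 0]| ∧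
  |l !₂[0, 1, 0]| ≠ |l !₂[0, 0, 1] - l !₂[1, 0, 0]| ∧
  |l !₂[1, 0, 0]| ≠ |l !₂[0, 0, 1] + l !₂[0, 1, 0]| ∧
  |l !₂[1, 0, 0]| ≠ |l !₂[0, 0, 1] - l !₂[0, 1, 0]|

/-- for a generic functional there is at most one local maximum -/
theorem unique_max {l : E3 →L[ℝ] ℝ} (hl : Generic l) {p q : E3} (hp : p ∈ P.M) (hq : q ∈ P.M)
    (hpm : IsLocalMaxOn l P.M p) (hqm : IsLocalMaxOn l P.M q) : p = q := by
  obtain ⟨hα, hβ, h1, h2, h3, h4⟩ := hl
  set α := l !₂[1, 0, 0] with hαd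
  set β := l !₂[0, 1, 0] with hβd
  set κ := l !₂[0, 0, 1] with hκd
  have hlf : ∀ q, l q = α * q 0 + β * q 1 + κ * q 2 := fun q => lin_form l q
  have hC : ∀ p ∈ P.M, IsLocalMaxOn l P.M p → p ∈ P.C := by
    intro p hp hpm
    refine ⟨hp.1, ?_⟩
    rcases eq_or_lt_of_le hp.2 with h | h
    · exact h.symm
    · exact (P.interior_no_max hp h hα hβ hpm).elim
  have hdich : ∀ p ∈ P.M, IsLocalMaxOn l P.M p →
      (|β| < κ + |α| ∧ β = (κ + |α|) * P.A1 (p 1) ∧ |p 1| ≤ 1/10 ∧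
        α * p 0 = |α| * (2 - P.A (p 1)) ∧ p 2 = 1 - P.A (p 1)) ∨
      (|α| < -κ + |β| ∧ α = (-κ + |β|) * P.A1 (p 0) ∧ |p 0| ≤ 1/10 ∧
      β * p 1 = |β| * (2 - P.A (p 0)) ∧ -p 2 = 1 - P.A (p 0)) := by
    intro p hp hpm
    have hpC := hC p hp hpm
    rcases lt_or_ge (1/10) |p 0| with h | h
    · left; exact P.bdry_i hpC h hlf hα hβ h1 h2 hpm
    · right
      have hy : 1/10 < |p 1| := by
        by_contra hno
        push Not at hno
        have e1 := P.A_le_of h
        have e2 := P.A_le_of hno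
        obtain ⟨hz1, hz2⟩ := (P.mem_C_iff' p).1 hpC
        linarith
      exact P.bdry_ii hpC hy hlf hα hβ h3 h4 hpm
  have hinj : ∀ x y : ℝ, |x| ≤ 1/10 → |y| ≤ 1/10 → P.A1 x = P.A1 y → x = y := by
    intro x y hx hy h
    exact P.A1_strictMono.injOn (by simpa [abs_le] using hx) (by simpa [abs_le] using hy) h
  rcases hdich p hp hpm with ⟨a1, a2, a3, a4, a5⟩ | ⟨a1, a2, a3, a4, a5⟩ <;>
    rcases hdich q hq hqm with ⟨b1, b2, b3, b4, b5⟩ | ⟨b1, b2, b3, b4, b5⟩
  · have hpos : κ + |α| ≠ 0 := by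
      have := abs_nonneg β; intro h; linarith
    have h11 : p 1 = q 1 := hinj _ _ a3 b3 (mul_left_cancel₀ hpos (a2.symm.trans b2))
    have h00 : p 0 = q 0 := mul_left_cancel₀ hα (by rw [a4, b4, h11])
    have h22 : p 2 = q 2 := by rw [a5, b5, h11]
    ext i
    fin_cases i
    · exact h00
    · exact h11
    · exact h22
  · exfalso; linarith
  · exfalso; linarith
  · have hpos : -κ + |β| ≠ 0 := by
      have := abs_nonneg α; intro h; linarith
    have h00 : p 0 = q 0 := hinj _ _ a3 b3 (mul_left_cancel₀ hpos (a2.symm.trans b2))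
    have h11 : p 1 = q 1 := mul_left_cancel₀ hβ (by rw [a4, b4, h00])
    have h22 : p 2 = q 2 := by
      have : -p 2 = -q 2 := by rw [a5, b5, h00]
      linarith
    ext i
    fin_cases i
    · exact h00
    · exact h11
    · exact h22

/-- generic functionals are dense -/
theorem generic_dense (l : E3 →L[ℝ] ℝ) (δ : ℝ) (hδ : 0 < δ) :
    ∃ l' : E3 →L[ℝ] ℝ, ‖l' - l‖ < δ ∧ Generic l' := by
  set D : E3 →L[ℝ] ℝ := co 0 + (3:ℝ) • co 1 + (9:ℝ) • co 2 with hD
  set α := l !₂[1, 0, 0] with hαd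
  set β := l !₂[0, 1, 0] with hβd
  set κ := l !₂[0, 0, 1] with hκd
  -- bad parameters
  have hfin : ({-α, -β/3, (κ + α - β) / (3 - 10), -(κ + α + β)/13, (κ - α - β)/(3 - 8),
      -(κ - α + β)/11, (κ + β - α)/(1 - 12), -(κ + β + α)/13, (κ - β - α)/(1 - 6),
      -(κ - β + α)/7} : Set ℝ).Finite := by
    simp only [Set.finite_insert, Set.finite_singleton]
  have hd : ∀ᶠ t in 𝓝[≠] (0:ℝ), t ∉ ({-α, -β/3, (κ + α - β) / (3 - 10), -(κ + α + β)/13,
      (κ - α - β)/(3 - 8), -(κ - α + β)/11, (κ + β - α)/(1 - 12), -(κ + β + α)/13,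
      (κ - β - α)/(1 - 6), -(κ - β + α)/7} : Set ℝ) := by
    have h1 : ∀ x : ℝ, ∀ᶠ t in 𝓝[≠] (0:ℝ), t ≠ x := by
      intro x
      rcases eq_or_ne x 0 with h | h
      · rw [h]; exact self_mem_nhdsWithin
      · exact nhdsWithin_le_nhds (isOpen_ne.mem_nhds h.symm)
    have h2 := (eventually_all_finite hfin (l := 𝓝[≠] (0:ℝ))
      (p := fun x t => t ≠ x)).2 (fun x _ => h1 x)
    filter_upwards [h2] with t ht hmem
    exact ht t hmem rfl
  have hsm : ∀ᶠ t in 𝓝[≠] (0:ℝ), ‖(l + t • D) - l‖ < δ := by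
    have hc : Continuous (fun t : ℝ => ‖(l + t • D) - l‖) := by fun_prop
    apply nhdsWithin_le_nhds
    apply hc.continuousAt.eventually (gt_mem_nhds _)
    simpa using hδ
  obtain ⟨t, ht1, ht2⟩ := (hd.and hsm).exists
  refine ⟨l + t • D, ht2, ?_⟩
  simp only [mem_insert_iff, mem_singleton_iff, not_or] at ht1
  obtain ⟨n1, n2, n3, n4, n5, n6, n7, n8, n9, n10⟩ := ht1
  have e0 : (l + t • D) !₂[1, 0, 0] = α + t := by simp [hD, hαd]
  have e1 : (l + t • D) !₂[0, 1, 0] = β + 3 * t := by simp [hD, hβd]; ring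
  have e2 : (l + t • D) !₂[0, 0, 1] = κ + 9 * t := by simp [hD, hκd]; ring
  unfold Generic
  rw [e0, e1, e2]
  refine ⟨fun h => n1 (by linarith), fun h => n2 (by linarith), fun h => ?_, fun h => ?_,
    fun h => ?_, fun h => ?_⟩
  · rcases abs_eq_abs.1 h with h | h
    · exact n3 (by rw [eq_div_iff (by norm_num)]; linarith)
    · exact n4 (by rw [eq_div_iff (by norm_num)]; linarith)
  · rcases abs_eq_abs.1 h with h | h
    · exact n5 (by rw [eq_div_iff (by norm_num)]; linarith)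
    · exact n6 (by rw [eq_div_iff (by norm_num)]; linarith)
  · rcases abs_eq_abs.1 h with h | h
    · exact n7 (by rw [eq_div_iff (by norm_num)]; linarith)
    · exact n8 (by rw [eq_div_iff (by norm_num)]; linarith)
  · rcases abs_eq_abs.1 h with h | h
    · exact n9 (by rw [eq_div_iff (by norm_num)]; linarith)
    · exact n10 (by rw [eq_div_iff (by norm_num)]; linarith)

/-- the surface is 0-tight -/
theorem tight_open (l : E3 →L[ℝ] ℝ) (c : ℝ) : IsPreconnected (P.M ∩ {x | c < l x}) := by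
  apply preconnected_of_closure P.M_compact
  intro δ hδ
  obtain ⟨l', h1, h2⟩ := generic_dense l δ hδ
  refine ⟨l', h1, fun c => ?_⟩
  exact preconnected_of_unique_max P.M_compact l'.continuous
    (fun p hp q hq hpm hqm => P.unique_max h2 hp hq hpm hqm) c

theorem tight_closed (l : E3 →L[ℝ] ℝ) (c : ℝ) : IsPreconnected (P.M ∩ {x | c ≤ l x}) :=
  preconnected_closed P.M_compact l.continuous (P.tight_open l) c

theorem M_connected : IsConnected P.M := by
  refine ⟨⟨_, P.origin_mem⟩, ?_⟩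
  have := P.tight_open 0 (-1)
  simpa using this

end Prof

end

end Pool.Agent.Helper331.White
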